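import Pool.Agent.FpOrd.Defs
import Pool.Agent.FpTrans.StageA

/-!
# Package B: twisted mean ergodic theorem, rank one lemma (helper75)
-/

set_option autoImplicit false
open MeasureTheory Filter Topology ProbabilityTheory

namespace Pool.Agent.FpTrans

universe u v w

section pb_basic

lemma pb_ee_add (s t : UnitAddCircle) : ee (s + t) = ee s * ee t := by
  simp [ee, AddCircle.toCircle_add]

lemma pb_ee_zero : ee 0 = 1 := by simp [ee, AddCircle.toCircle_zero]

lemma pb_norm_ee (t : UnitAddCircle) : ‖ee t‖ = 1 := Circle.norm_coe _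

lemma pb_continuous_ee : Continuous ee :=
  continuous_subtype_val.comp AddCircle.continuous_toCircle

lemma pb_measurable_ee : Measurable ee := pb_continuous_ee.measurable

lemma pb_injective_ee : Function.Injective ee := by
  intro s t h
  exact AddCircle.injective_toCircle (by norm_num) (Subtype.ext h)

lemma pb_ee_neg_mul (t : UnitAddCircle) : ee (-t) * ee t = 1 := by
  rw [← pb_ee_add, neg_add_cancel, pb_ee_zero]

lemma pb_ee_mul_neg (t : UnitAddCircle) : ee t * ee (-t) = 1 := by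
  rw [← pb_ee_add, add_neg_cancel, pb_ee_zero]

lemma pb_conj_ee_mul (t : UnitAddCircle) : (starRingEnd ℂ) (ee t) * ee t = 1 := by
  rw [mul_comm, Complex.mul_conj, Complex.normSq_eq_norm_sq, pb_norm_ee]
  simp

end pb_basic

section pb_hilbert

/-- a sequence `v n` like a decreasing sequence of projections of a vector converges -/
lemma pb_tendsto {H : Type u} [NormedAddCommGroup H] [InnerProductSpace ℂ H] [CompleteSpace H]
    (v : ℕ → H) (h : ∀ m n, m ≤ n → inner ℂ (v m) (v n) = inner ℂ (v n) (v n)) :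
    ∃ L, Tendsto v atTop (𝓝 L) := by
  have key : ∀ m n, m ≤ n → ‖v m - v n‖ ^ 2 = ‖v m‖ ^ 2 - ‖v n‖ ^ 2 := by
    intro m n hmn
    have h1 : ‖v m - v n‖ ^ 2 = ‖v m‖ ^ 2 - 2 * RCLike.re (inner ℂ (v m) (v n)) + ‖v n‖ ^ 2 :=
      norm_sub_sq (𝕜 := ℂ) (v m) (v n)
    rw [h1, h m n hmn, inner_self_eq_norm_sq (𝕜 := ℂ) (v n)]
    ring
  have hanti : Antitone (fun n => ‖v n‖ ^ 2) := by
    intro m n hmn
    have := key m n hmn
    have h2 : 0 ≤ ‖v m - v n‖ ^ 2 := by positivity
    simp only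
    linarith
  have hbdd : BddBelow (Set.range fun n => ‖v n‖ ^ 2) := ⟨0, by
    rintro _ ⟨n, rfl⟩
    positivity⟩
  have hconv := tendsto_atTop_ciInf hanti hbdd
  have hc := hconv.cauchySeq
  refine cauchySeq_tendsto_of_complete ?_
  rw [Metric.cauchySeq_iff']
  intro ε hε
  obtain ⟨N, hN⟩ := (Metric.cauchySeq_iff'.1 hc) (ε ^ 2) (by positivity)
  refine ⟨N, fun n hn => ?_⟩
  have h1 := hN n hn
  rw [Real.dist_eq, abs_sub_comm] at h1
  have h2 := key N n hn
  have h3 : ‖v N - v n‖ ^ 2 < ε ^ 2 := by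
    rw [h2]
    exact lt_of_le_of_lt (le_abs_self _) h1
  rw [dist_comm, dist_eq_norm]
  exact lt_of_pow_lt_pow_left₀ 2 hε.le h3

lemma pb_int_comp {X : Type u} [MeasurableSpace X] {μ : Measure X} {s : X → X}
    (hs : MeasurePreserving s μ μ) {g : X → ℂ} (hg : AEStronglyMeasurable g μ) :
    ∫ x, g (s x) ∂μ = ∫ x, g x ∂μ := by
  have h := integral_map (μ := μ) (φ := s) hs.measurable.aemeasurable (f := g)
    (by rw [hs.map_eq]; exact hg)
  rw [hs.map_eq] at h
  exact h.symm

end pb_hilbert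

section pb_mean

variable {Γ : Type} [AddCommGroup Γ] [Countable Γ] {E : ℕ → Finset Γ}
    (hE : IsExh E) {X : Type u} [MeasurableSpace X] {μ : Measure X} [IsProbabilityMeasure μ]
    {T : Γ → X → X} (hT : IsAction μ T) (R : Γ → X → UnitAddCircle) (hR : ∀ g, Measurable (R g))
    (hRc : ∀ g h, ∀ᵐ x ∂μ, R (g + h) x = R g x + R h (T g x)) (f : X → ℂ) (hf : Measurable f)
    (C : ℝ) (hC : ∀ x, ‖f x‖ ≤ C)

/-- the averages -/
noncomputable def pb_F (E : ℕ → Finset Γ) (T : Γ → X → X) (R : Γ → X → UnitAddCircle)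
    (f : X → ℂ) (n : ℕ) (x : X) : ℂ :=
  avg (E n) (fun g => ee (-R g x) * f (T g x))

include hT hR hf in
omit [Countable Γ] [IsProbabilityMeasure μ] in
lemma pb_F_measurable (n : ℕ) : Measurable (pb_F E T R f n) := by
  have h1 : Measurable fun x => ∑ g ∈ E n, ee (-R g x) * f (T g x) :=
    Finset.measurable_sum _ fun g _ =>
      (pb_measurable_ee.comp (hR g).neg).mul (hf.comp (hT.mp g).measurable)
  exact h1.const_smul (((E n).card : ℝ)⁻¹)

include hE hC in
omit [Countable Γ] [MeasurableSpace X] in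
lemma pb_F_bound (n : ℕ) (x : X) : ‖pb_F E T R f n x‖ ≤ C := by
  unfold pb_F avg
  have hpos : (0 : ℝ) < (E n).card := by
    exact_mod_cast Finset.card_pos.2 ⟨0, hE.zero n⟩
  rw [norm_smul, norm_inv, Real.norm_of_nonneg hpos.le, inv_mul_le_iff₀ hpos]
  calc ‖∑ g ∈ E n, ee (-R g x) * f (T g x)‖ ≤ ∑ g ∈ E n, ‖ee (-R g x) * f (T g x)‖ :=
        norm_sum_le _ _
    _ ≤ ∑ g ∈ E n, C := by
        refine Finset.sum_le_sum fun g _ => ?_
        rw [norm_mul, pb_norm_ee, one_mul]
        exact hC _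
    _ = (E n).card * C := by rw [Finset.sum_const, nsmul_eq_mul]

include hE hT hRc in
omit [IsProbabilityMeasure μ] in
lemma pb_F_inv (n : ℕ) (h : Γ) (hh : h ∈ E n) :
    ∀ᵐ x ∂μ, ee (-R h x) * pb_F E T R f n (T h x) = pb_F E T R f n x := by
  have h1 : ∀ᵐ x ∂μ, ∀ g, R (h + g) x = R h x + R g (T h x) := by
    rw [ae_all_iff]
    exact fun g => hRc h g
  filter_upwards [h1] with x hx
  unfold pb_F avg
  rw [mul_smul_comm]
  congr 1
  rw [Finset.mul_sum]
  refine Finset.sum_bij' (fun g _ => h + g) (fun g _ => -h + g) ?_ ?_ ?_ ?_ ?_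
  · intro g hg
    exact hE.add n _ hh _ hg
  · intro g hg
    exact hE.add n _ (hE.neg n _ hh) _ hg
  · intro g _
    simp
  · intro g _
    simp
  · intro g _
    rw [hx g, ← mul_assoc, ← pb_ee_add, ← hT.add, add_comm g h, neg_add]

include hT hf in
omit [Countable Γ] [IsProbabilityMeasure μ] in
lemma pb_unitary (h : Γ) (V : X → ℂ) (hV : Measurable V)
    (hinv : ∀ᵐ x ∂μ, ee (-R h x) * V (T h x) = V x) :
    ∫ x, (starRingEnd ℂ) (ee (-R h x) * f (T h x)) * V x ∂μ =
      ∫ x, (starRingEnd ℂ) (f x) * V x ∂μ := by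
  have h1 : ∫ x, (starRingEnd ℂ) (ee (-R h x) * f (T h x)) * V x ∂μ =
      ∫ x, (fun y => (starRingEnd ℂ) (f y) * V y) (T h x) ∂μ := by
    refine integral_congr_ae ?_
    filter_upwards [hinv] with x hx
    rw [← hx, map_mul]
    calc (starRingEnd ℂ) (ee (-R h x)) * (starRingEnd ℂ) (f (T h x)) *
          (ee (-R h x) * V (T h x))
        = ((starRingEnd ℂ) (ee (-R h x)) * ee (-R h x)) *
          ((starRingEnd ℂ) (f (T h x)) * V (T h x)) := by ring
      _ = _ := by rw [pb_conj_ee_mul, one_mul]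
  rw [h1]
  exact pb_int_comp (hT.mp h) (g := fun y => (starRingEnd ℂ) (f y) * V y)
    ((Complex.continuous_conj.measurable.comp hf).mul hV).aestronglyMeasurable

include hE hT hR hRc hf hC in
lemma pb_inner (m n : ℕ) (hmn : m ≤ n) :
    ∫ x, (starRingEnd ℂ) (pb_F E T R f m x) * pb_F E T R f n x ∂μ =
      ∫ x, (starRingEnd ℂ) (f x) * pb_F E T R f n x ∂μ := by
  have hpos : (0 : ℝ) < (E m).card := by
    exact_mod_cast Finset.card_pos.2 ⟨0, hE.zero m⟩
  have hFm := pb_F_measurable (E := E) hT R hR f hf n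
  have hFb := pb_F_bound hE (T := T) R f C hC n
  have h1 : ∀ x, (starRingEnd ℂ) (pb_F E T R f m x) * pb_F E T R f n x =
      ∑ g ∈ E m, (((E m).card : ℝ)⁻¹ : ℂ) *
        ((starRingEnd ℂ) (ee (-R g x) * f (T g x)) * pb_F E T R f n x) := by
    intro x
    conv_lhs => rw [pb_F, avg]
    rw [Complex.real_smul, map_mul, map_sum, Complex.conj_ofReal, Finset.mul_sum,
      Finset.sum_mul]
    refine Finset.sum_congr rfl fun g _ => ?_
    push_cast
    ring
  simp_rw [h1]
  rw [integral_finsetSum]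
  · have h2 : ∀ g ∈ E m, ∫ x, (((E m).card : ℝ)⁻¹ : ℂ) *
        ((starRingEnd ℂ) (ee (-R g x) * f (T g x)) * pb_F E T R f n x) ∂μ =
        (((E m).card : ℝ)⁻¹ : ℂ) * ∫ x, (starRingEnd ℂ) (f x) * pb_F E T R f n x ∂μ := by
      intro g hg
      rw [integral_const_mul]
      congr 1
      exact pb_unitary hT R f hf g _ hFm
        (pb_F_inv hE hT R hRc f n g (hE.mono hmn hg))
    rw [Finset.sum_congr rfl h2, Finset.sum_const, nsmul_eq_mul, ← mul_assoc]
    have : ((E m).card : ℂ) ≠ 0 := by exact_mod_cast hpos.ne'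
    push_cast
    rw [mul_inv_cancel₀ this, one_mul]
  · intro g _
    have hgm : Measurable fun x => ee (-R g x) * f (T g x) :=
      (pb_measurable_ee.comp (hR g).neg).mul (hf.comp (hT.mp g).measurable)
    refine Integrable.const_mul ?_ _
    refine Integrable.of_bound (C := C * C)
      ((Complex.continuous_conj.measurable.comp hgm).mul hFm).aestronglyMeasurable
      (Eventually.of_forall fun x => ?_)
    rw [norm_mul, RCLike.norm_conj, norm_mul, pb_norm_ee, one_mul]
    exact mul_le_mul (hC _) (hFb x) (norm_nonneg _) (le_trans (norm_nonneg _) (hC x))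

end pb_mean

lemma pb_norm_sq {X : Type u} [MeasurableSpace X] {μ : Measure X} (w : Lp ℂ 2 μ) :
    ‖w‖ ^ 2 = ∫ x, ‖w x‖ ^ 2 ∂μ := by
  have h : (inner ℂ w w : ℂ) = ∫ x, ((‖w x‖ ^ 2 : ℝ) : ℂ) ∂μ := by
    rw [L2.inner_def]
    refine integral_congr_ae (Eventually.of_forall fun x => ?_)
    simp only
    rw [inner_self_eq_norm_sq_to_K (𝕜 := ℂ)]
    norm_cast
  have h2 : ∫ x, ((‖w x‖ ^ 2 : ℝ) : ℂ) ∂μ = ((∫ x, ‖w x‖ ^ 2 ∂μ : ℝ) : ℂ) := integral_ofReal
  rw [h2, inner_self_eq_norm_sq_to_K (𝕜 := ℂ)] at h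
  have h3 : (((‖w‖ ^ 2 : ℝ)) : ℂ) = ((∫ x, ‖w x‖ ^ 2 ∂μ : ℝ) : ℂ) := by
    rw [← h]
    push_cast
    rfl
  exact Complex.ofReal_injective h3

theorem twisted_mean {Γ : Type} [AddCommGroup Γ] [Countable Γ] {E : ℕ → Finset Γ}
    (hE : IsExh E) {X : Type u} [MeasurableSpace X] {μ : Measure X} [IsProbabilityMeasure μ]
    {T : Γ → X → X} (hT : IsAction μ T) (R : Γ → X → UnitAddCircle) (hR : ∀ g, Measurable (R g))
    (hRc : ∀ g h, ∀ᵐ x ∂μ, R (g + h) x = R g x + R h (T g x)) (f : X → ℂ) (hf : Measurable f)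
    (C : ℝ) (hC : ∀ x, ‖f x‖ ≤ C) :
    ∃ Ψ : X → ℂ, Measurable Ψ ∧ (∀ x, ‖Ψ x‖ ≤ C) ∧
      (∀ g, ∀ᵐ x ∂μ, Ψ (T g x) = ee (R g x) * Ψ x) ∧
      Tendsto (fun n => ∫ x, ‖avg (E n) (fun g => ee (-R g x) * f (T g x)) - Ψ x‖ ^ 2 ∂μ)
        atTop (𝓝 0) := by
  obtain ⟨x0⟩ : Nonempty X := μ.nonempty_of_neZero
  have hC0 : 0 ≤ C := (norm_nonneg _).trans (hC x0)
  set F := pb_F E T R f with hF
  have hFm : ∀ n, Measurable (F n) := pb_F_measurable (E := E) hT R hR f hf
  have hFb : ∀ n x, ‖F n x‖ ≤ C := pb_F_bound hE (T := T) R f C hC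
  have hFL : ∀ n, MemLp (F n) 2 μ := fun n =>
    MemLp.of_bound (hFm n).aestronglyMeasurable C (Eventually.of_forall (hFb n))
  set v : ℕ → Lp ℂ 2 μ := fun n => (hFL n).toLp (F n) with hvdef
  have hv : ∀ n, v n =ᵐ[μ] F n := fun n => MemLp.coeFn_toLp _
  have hinner : ∀ m n, m ≤ n → inner ℂ (v m) (v n) = inner ℂ (v n) (v n) := by
    intro m n hmn
    have h1 : ∀ k, inner ℂ (v k) (v n) = ∫ x, (starRingEnd ℂ) (F k x) * F n x ∂μ := by
      intro k
      rw [L2.inner_def]
      refine integral_congr_ae ?_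
      filter_upwards [hv k, hv n] with x h1 h2
      rw [h1, h2, RCLike.inner_apply]
      ring
    rw [h1, h1, hF, pb_inner hE hT R hR hRc f hf C hC m n hmn,
      pb_inner hE hT R hR hRc f hf C hC n n le_rfl]
  obtain ⟨L, hL⟩ := pb_tendsto v hinner
  have hmeas : TendstoInMeasure μ (fun n => (v n : X → ℂ)) atTop L :=
    tendstoInMeasure_of_tendsto_Lp hL
  obtain ⟨ns, hns, hae⟩ := hmeas.exists_seq_tendsto_ae
  have haeF : ∀ᵐ x ∂μ, Tendsto (fun i => F (ns i) x) atTop (𝓝 (L x)) := by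
    have h0 : ∀ᵐ x ∂μ, ∀ n, v n x = F n x := ae_all_iff.2 hv
    filter_upwards [h0, hae] with x h1 h2
    simpa only [h1] using h2
  have hLm : Measurable (L : X → ℂ) := (Lp.stronglyMeasurable L).measurable
  have hLb : ∀ᵐ x ∂μ, ‖L x‖ ≤ C := by
    filter_upwards [haeF] with x hx
    exact le_of_tendsto hx.norm (Eventually.of_forall fun i => hFb _ x)
  set Ψ : X → ℂ := fun x => if ‖L x‖ ≤ C then L x else 0 with hΨ
  have hΨm : Measurable Ψ :=
    Measurable.ite (measurableSet_le hLm.norm measurable_const) hLm measurable_const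
  have hΨL : ∀ᵐ x ∂μ, Ψ x = L x := by
    filter_upwards [hLb] with x hx
    simp [hΨ, hx]
  refine ⟨Ψ, hΨm, ?_, ?_, ?_⟩
  · intro x
    simp only [hΨ]
    split_ifs with h
    · exact h
    · simpa using hC0
  · intro g
    obtain ⟨N, hN⟩ := hE.exh g
    have h1 : ∀ᵐ x ∂μ, ∀ n, N ≤ n → ee (-R g x) * F n (T g x) = F n x := by
      rw [ae_all_iff]
      intro n
      by_cases hn : N ≤ n
      · filter_upwards [pb_F_inv hE hT R hRc f n g (hE.mono hn hN)] with x hx _
        exact hx
      · exact Eventually.of_forall fun x h => absurd h hn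
    have h2 := (hT.mp g).quasiMeasurePreserving.ae haeF
    have h3 := (hT.mp g).quasiMeasurePreserving.ae hΨL
    filter_upwards [h1, h2, haeF, hΨL, h3] with x h1 h2 h4 h5 h6
    rw [h5, h6]
    have h7 : Tendsto (fun i => ee (-R g x) * F (ns i) (T g x)) atTop
        (𝓝 (ee (-R g x) * L (T g x))) := h2.const_mul _
    have h8 : Tendsto (fun i => ee (-R g x) * F (ns i) (T g x)) atTop (𝓝 (L x)) := by
      refine h4.congr' ?_
      filter_upwards [hns.tendsto_atTop.eventually_ge_atTop N] with i hi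
      exact (h1 _ hi).symm
    have h9 := tendsto_nhds_unique h7 h8
    rw [← h9, ← mul_assoc, pb_ee_mul_neg, one_mul]
  · have h1 : ∀ n, ∫ x, ‖F n x - Ψ x‖ ^ 2 ∂μ = ‖v n - L‖ ^ 2 := by
      intro n
      rw [pb_norm_sq]
      refine integral_congr_ae ?_
      filter_upwards [hv n, hΨL, Lp.coeFn_sub (v n) L] with x h1 h2 h3
      rw [h3, Pi.sub_apply, h1, h2]
    have h2 : Tendsto (fun n => ‖v n - L‖ ^ 2) atTop (𝓝 0) := by
      have := (tendsto_iff_norm_sub_tendsto_zero.1 hL).pow 2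
      simpa using this
    refine h2.congr fun n => ?_
    exact (h1 n).symm

/-- the mean ergodic theorem -/
theorem mean_ergodic {Γ : Type} [AddCommGroup Γ] [Countable Γ] {E : ℕ → Finset Γ}
    (hE : IsExh E) {X : Type u} [MeasurableSpace X] {μ : Measure X} [IsProbabilityMeasure μ]
    {T : Γ → X → X} (hT : IsAction μ T) (f : X → ℂ) (hf : Measurable f)
    (C : ℝ) (hC : ∀ x, ‖f x‖ ≤ C) :
    ∃ Ψ : X → ℂ, Measurable Ψ ∧ (∀ x, ‖Ψ x‖ ≤ C) ∧ (∀ g, ∀ᵐ x ∂μ, Ψ (T g x) = Ψ x) ∧
      Tendsto (fun n => ∫ x, ‖avg (E n) (fun g => f (T g x)) - Ψ x‖ ^ 2 ∂μ) atTop (𝓝 0) := by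
  obtain ⟨Ψ, h1, h2, h3, h4⟩ := twisted_mean hE hT (fun _ _ => 0) (fun _ => measurable_const)
    (fun _ _ => Eventually.of_forall fun _ => (add_zero _).symm) f hf C hC
  refine ⟨Ψ, h1, h2, fun g => ?_, ?_⟩
  · filter_upwards [h3 g] with x hx
    rw [hx, pb_ee_zero, one_mul]
  · simpa only [neg_zero, pb_ee_zero, one_mul] using h4

section pb_rank

/-- conditional expectation as a function on the factor, with the pull out property -/
lemma pb_condexp {X : Type u} {K : Type v} [MeasurableSpace X] [MeasurableSpace K]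
    {μ : Measure X} [IsProbabilityMeasure μ] {ν : Measure K} {a : X → K}
    (ha : MeasurePreserving a μ ν) (q : X → ℂ) (hq : Integrable q μ) :
    ∃ g : K → ℂ, Measurable g ∧ Integrable g ν ∧
      ∀ u : K → ℂ, Measurable u → (∃ C : ℝ, ∀ y, ‖u y‖ ≤ C) → ∀ B, MeasurableSet B →
        ∫ x in a ⁻¹' B, u (a x) * q x ∂μ = ∫ y in B, u y * g y ∂ν := by
  have hm := ha.measurable.comap_le
  obtain ⟨h, hh, he⟩ := (stronglyMeasurable_condExp (m := MeasurableSpace.comap a inferInstance)
    (μ := μ) (f := q)).exists_eq_measurable_comp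
  refine ⟨h, hh.measurable, ?_, ?_⟩
  · have : Integrable (h ∘ a) μ := he ▸ integrable_condExp
    rwa [← ha.map_eq, integrable_map_measure hh.aestronglyMeasurable ha.measurable.aemeasurable]
  · rintro u hu ⟨C, hC⟩ B hB
    have hua : StronglyMeasurable[MeasurableSpace.comap a inferInstance] (fun x => u (a x)) :=
      hu.stronglyMeasurable.comp_measurable (comap_measurable a)
    have hint : Integrable (fun x => u (a x) * q x) μ :=
      hq.bdd_mul (c := C) (hu.comp ha.measurable).aestronglyMeasurable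
        (Eventually.of_forall fun x => hC _)
    have h1 := setIntegral_condExp (μ := μ) hm hint (s := a ⁻¹' B) ⟨B, hB, rfl⟩
    have h2 : μ[fun x => u (a x) * q x | MeasurableSpace.comap a inferInstance] =ᵐ[μ]
        fun x => u (a x) * h (a x) := by
      have := condExp_bilin_of_stronglyMeasurable_left (μ := μ) (.mul ℝ ℂ) hua hint hq
      refine this.trans (Eventually.of_forall fun x => ?_)
      simp only [he, Function.comp, ContinuousLinearMap.mul_apply']
    rw [← h1, setIntegral_congr_ae (g := fun x => u (a x) * h (a x)) (ha.measurable hB)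
      (h2.mono fun x hx _ => hx), ← ha.map_eq]
    exact (setIntegral_map (f := fun y => u y * h y) hB
      (hu.mul hh.measurable).aestronglyMeasurable ha.measurable.aemeasurable).symm

/-- A function all of whose derivatives are captured by the factor `a`, and which correlates with
the factor `a`, is captured by `a`. -/
theorem rank_one {Γ : Type} [AddCommGroup Γ] [Countable Γ] {X : Type u} [MeasurableSpace X]
    [StandardBorelSpace X] {μ : Measure X} [IsProbabilityMeasure μ] {T : Γ → X → X}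
    (hT : IsAction μ T) (hE : IsErgodic μ T) {K : Type v} [MeasurableSpace K]
    [StandardBorelSpace K] {ν : Measure K} {S : Γ → K → K} (hS : IsAction ν S) {a : X → K}
    (ha : MeasurePreserving a μ ν) (haS : ∀ g, ∀ᵐ x ∂μ, a (T g x) = S g (a x))
    (φ : X → UnitAddCircle) (hφ : Measurable φ)
    (hd : ∀ g, Capt μ a (fun x => φ (T g x) - φ x)) (h : K → ℂ) (hh : Measurable h)
    (hb : ∃ C : ℝ, ∀ k, ‖h k‖ ≤ C) (hne : ∫ x, ee (φ x) * h (a x) ∂μ ≠ 0) :
    Capt μ a φ := by
  set q : X → ℂ := fun x => ee (φ x) with hqdef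
  have hqm : Measurable q := pb_measurable_ee.comp hφ
  have hqn : ∀ x, ‖q x‖ = 1 := fun x => pb_norm_ee _
  have hqi : Integrable q μ :=
    Integrable.of_bound (C := 1) hqm.aestronglyMeasurable
      (Eventually.of_forall fun x => (hqn x).le)
  obtain ⟨g, hgm, hgi, hg⟩ := pb_condexp ha q hqi
  have hone : ∀ B, MeasurableSet B → ∫ x in a ⁻¹' B, q x ∂μ = ∫ y in B, g y ∂ν := by
    intro B hB
    simpa using hg (fun _ => 1) measurable_const ⟨1, fun _ => by simp⟩ B hB
  -- equivariance on the factor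
  have hequi : ∀ γ, ∀ c : K → UnitAddCircle, Measurable c →
      ((fun x => φ (T γ x) - φ x) =ᵐ[μ] fun x => c (a x)) →
      ∀ᵐ y ∂ν, g (S γ y) = ee (c y) * g y := by
    intro γ c hc hce
    have hi1 : Integrable (fun y => g (S γ y)) ν := (hS.mp γ).integrable_comp_of_integrable hgi
    have hi2 : Integrable (fun y => ee (c y) * g y) ν := by
      refine hgi.bdd_mul (c := 1) (pb_measurable_ee.comp hc).aestronglyMeasurable
        (Eventually.of_forall fun y => ?_)
      exact (pb_norm_ee _).le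
    refine Integrable.ae_eq_of_forall_setIntegral_eq _ _ hi1 hi2 fun B' hB' _ => ?_
    set B'' := S (-γ) ⁻¹' B' with hB''
    have hB''m : MeasurableSet B'' := (hS.mp (-γ)).measurable hB'
    have hpre : S γ ⁻¹' B'' = B' := by
      ext y
      simp only [hB'', Set.mem_preimage]
      rw [← hS.add, neg_add_cancel, hS.zero]
    have l1 : ∫ y in B', g (S γ y) ∂ν = ∫ y in B'', g y ∂ν := by
      have h := setIntegral_map (μ := ν) (g := S γ) (f := g) hB''m hgm.aestronglyMeasurable
        (hS.mp γ).measurable.aemeasurable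
      rw [(hS.mp γ).map_eq, hpre] at h
      exact h.symm
    have l2 : ∫ x in a ⁻¹' B'', q x ∂μ = ∫ x in a ⁻¹' B', q (T γ x) ∂μ := by
      have h := setIntegral_map (μ := μ) (g := T γ) (f := q) (ha.measurable hB''m)
        hqm.aestronglyMeasurable (hT.mp γ).measurable.aemeasurable
      rw [(hT.mp γ).map_eq] at h
      rw [h]
      refine setIntegral_congr_set ?_
      filter_upwards [haS γ] with x hx
      have : (x ∈ T γ ⁻¹' (a ⁻¹' B'')) ↔ (x ∈ a ⁻¹' B') := by
        rw [← hpre]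
        simp only [Set.mem_preimage, hx]
      exact propext this
    have l3 : ∫ x in a ⁻¹' B', q (T γ x) ∂μ = ∫ x in a ⁻¹' B', ee (c (a x)) * q x ∂μ := by
      refine setIntegral_congr_ae (ha.measurable hB') ?_
      filter_upwards [hce] with x hx _
      have : φ (T γ x) = c (a x) + φ x := by rw [← hx]; abel
      simp only [hqdef, this, pb_ee_add]
    have l4 := hg (fun y => ee (c y)) (pb_measurable_ee.comp hc)
      ⟨1, fun y => (pb_norm_ee _).le⟩ B' hB'
    rw [l1, ← hone B'' hB''m, l2, l3]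
    exact l4
  -- the invariant function
  have hinv : ∀ γ, ∀ᵐ x ∂μ, q (T γ x) * (starRingEnd ℂ) (g (a (T γ x))) =
      q x * (starRingEnd ℂ) (g (a x)) := by
    intro γ
    obtain ⟨c, hc, hce⟩ := hd γ
    have h1 := ha.quasiMeasurePreserving.ae (hequi γ c hc hce)
    filter_upwards [h1, haS γ, hce] with x h1 h2 h3
    have : φ (T γ x) = c (a x) + φ x := by rw [← h3]; abel
    have h4 : q (T γ x) = ee (c (a x)) * q x := by
      simp only [hqdef, this, pb_ee_add]
    rw [h2, h1, h4, map_mul]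
    calc ee (c (a x)) * q x * ((starRingEnd ℂ) (ee (c (a x))) * (starRingEnd ℂ) (g (a x)))
        = ((starRingEnd ℂ) (ee (c (a x))) * ee (c (a x))) *
          (q x * (starRingEnd ℂ) (g (a x))) := by ring
      _ = q x * (starRingEnd ℂ) (g (a x)) := by rw [pb_conj_ee_mul, one_mul]
  obtain ⟨c, hc⟩ := st_const_of_invariant hT hE (fun x => q x * (starRingEnd ℂ) (g (a x)))
    (hqm.mul (Complex.continuous_conj.measurable.comp (hgm.comp ha.measurable))) hinv
  by_cases hc0 : c = 0
  · exfalso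
    apply hne
    have h1 : ∀ᵐ x ∂μ, g (a x) = 0 := by
      filter_upwards [hc] with x hx
      rw [hc0, mul_eq_zero] at hx
      rcases hx with hx | hx
      · have := hqn x
        rw [hx] at this
        simp at this
      · simpa using hx
    have h2 : ∀ᵐ y ∂ν, g y = 0 := by
      have h := (ae_map_iff (μ := μ) (p := fun y => g y = 0) ha.measurable.aemeasurable
        (hgm (measurableSet_singleton 0))).mpr h1
      rwa [ha.map_eq] at h
    have h3 := hg h hh hb Set.univ MeasurableSet.univ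
    rw [Set.preimage_univ, Measure.restrict_univ, Measure.restrict_univ] at h3
    have h4 : ∫ x, ee (φ x) * h (a x) ∂μ = ∫ x, h (a x) * q x ∂μ := by
      refine integral_congr_ae (Eventually.of_forall fun x => ?_)
      simp only [hqdef]
      ring
    rw [h4, h3, integral_congr_ae (g := fun _ => (0 : ℂ)) (by
      filter_upwards [h2] with y hy
      rw [hy, mul_zero])]
    simp
  · have hemb : MeasurableEmbedding ee := pb_measurable_ee.measurableEmbedding pb_injective_ee
    obtain ⟨inv, hinvm, hinve⟩ := hemb.exists_measurable_extend (measurable_id) (fun _ => ⟨0⟩)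
    refine ⟨fun y => inv (c / (starRingEnd ℂ) (g y)),
      hinvm.comp (measurable_const.div (Complex.continuous_conj.measurable.comp hgm)), ?_⟩
    filter_upwards [hc] with x hx
    have h1 : (starRingEnd ℂ) (g (a x)) ≠ 0 := by
      intro h
      rw [h, mul_zero] at hx
      exact hc0 hx.symm
    have h2 : c / (starRingEnd ℂ) (g (a x)) = ee (φ x) := by
      rw [← hx, mul_div_assoc, div_self h1, mul_one]
    rw [h2]
    exact (congrFun hinve (φ x)).symm

end pb_rank

end Pool.Agent.FpTrans
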