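import Pool.Agent.FpOrd.Norm
import Pool.Agent.FpOrd.Mean

/-!
# Package M: functions near `0` whose derivatives are captured up to polynomials of the tower
-/

set_option autoImplicit false
open MeasureTheory Filter Topology ProbabilityTheory

namespace Pool.Agent.FpTrans

universe u v w

private theorem pm_haar (p : ℕ) [Fact p.Prime] {J : Type} [Countable J]
    (ν : Measure (J → ZMod p)) [IsProbabilityMeasure ν] [ν.IsAddLeftInvariant] :
    ν.IsAddHaarMeasure :=
  Measure.isAddHaarMeasure_of_isCompact_nonempty_interior ν Set.univ isCompact_univ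
    (by rw [interior_univ]; exact Set.univ_nonempty) (by simp) (by simp)

private theorem pm_exists (p : ℕ) [Fact p.Prime] (J : Type) [Countable J] :
    ∃ ν : Measure (J → ZMod p), IsProbabilityMeasure ν ∧ ν.IsAddHaarMeasure := by
  refine ⟨Measure.addHaarMeasure ⊤, ⟨?_⟩, inferInstance⟩
  have h := Measure.addHaarMeasure_self (G := J → ZMod p) (K₀ := ⊤)
  simpa using h

private theorem pm_restrict (p : ℕ) [Fact p.Prime] {J J' : Type} [Countable J] [Countable J']
    (σ : J → J') (hσ : Function.Injective σ) (ν : Measure (J → ZMod p)) [IsProbabilityMeasure ν]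
    [ν.IsAddHaarMeasure] (ν' : Measure (J' → ZMod p)) [IsProbabilityMeasure ν']
    [ν'.IsAddHaarMeasure] :
    MeasurePreserving (fun (k : J' → ZMod p) (j : J) => k (σ j)) ν' ν := by
  let f : (J' → ZMod p) →+ (J → ZMod p) :=
    { toFun := fun k j => k (σ j), map_zero' := rfl, map_add' := fun _ _ => rfl }
  have hc : Continuous f := by
    show Continuous (fun (k : J' → ZMod p) (j : J) => k (σ j))
    fun_prop
  have hs : Function.Surjective f := by
    intro k
    refine ⟨Function.extend σ k 0, ?_⟩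
    funext j
    exact hσ.extend_apply k 0 j
  have hh : (Measure.map f ν').IsAddHaarMeasure :=
    Measure.isAddHaarMeasure_map ν' f hc hs (by simp)
  have hp : IsProbabilityMeasure (Measure.map f ν') :=
    Measure.isProbabilityMeasure_map hc.measurable.aemeasurable
  exact ⟨hc.measurable, Measure.isAddHaarMeasure_eq_of_isProbabilityMeasure _ _⟩

private theorem pm_indep (p l : ℕ) [Fact p.Prime] : ∃ ε : ℝ, 0 < ε ∧ ∀ (I J : Type) [Countable I]
    [Countable J] (ν : Measure (I ⊕ J → ZMod p)) [IsProbabilityMeasure ν] [ν.IsAddLeftInvariant]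
    (b : (I → ZMod p) → UnitAddCircle) (P : (I ⊕ J → ZMod p) → UnitAddCircle), Measurable b →
    Continuous P → IsPoly trans l P →
    nrm ν (fun k => b (fun i => k (Sum.inl i)) + P k) < ε →
    ∀ k, P k = P (Sum.elim (fun i => k (Sum.inl i)) (fun _ => 0)) := by
  obtain ⟨ε, hε, hgap⟩ := gap.{0} p l
  refine ⟨ε / 2, by positivity, ?_⟩
  intro I J _ _ ν _ _ b P hb hP hPp hn
  have hνH := pm_haar p ν
  obtain ⟨νW, hW1, hW2⟩ := pm_exists p (I ⊕ (J ⊕ J))
  let σ₁ : I ⊕ J → I ⊕ (J ⊕ J) := Sum.map id Sum.inl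
  let σ₂ : I ⊕ J → I ⊕ (J ⊕ J) := Sum.map id Sum.inr
  have hσ₁ : Function.Injective σ₁ := Function.Injective.sumMap Function.injective_id
    Sum.inl_injective
  have hσ₂ : Function.Injective σ₂ := Function.Injective.sumMap Function.injective_id
    Sum.inr_injective
  have m₁ := pm_restrict p σ₁ hσ₁ ν νW
  have m₂ := pm_restrict p σ₂ hσ₂ ν νW
  let F : (I ⊕ J → ZMod p) → UnitAddCircle := fun k => b (fun i => k (Sum.inl i)) + P k
  have hF : Measurable F := by
    have h1 : Measurable (fun (k : I ⊕ J → ZMod p) (i : I) => k (Sum.inl i)) := by fun_prop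
    exact (hb.comp h1).add hP.measurable
  let Q : (I ⊕ (J ⊕ J) → ZMod p) → UnitAddCircle := fun k =>
    P (fun j => k (σ₁ j)) - P (fun j => k (σ₂ j))
  have hQc : Continuous Q := by
    have h1 : Continuous (fun (k : I ⊕ (J ⊕ J) → ZMod p) (j : I ⊕ J) => k (σ₁ j)) := by fun_prop
    have h2 : Continuous (fun (k : I ⊕ (J ⊕ J) → ZMod p) (j : I ⊕ J) => k (σ₂ j)) := by fun_prop
    exact (hP.comp h1).sub (hP.comp h2)
  have hQn : nrm νW Q < ε := by
    have e : Q = fun k => F (fun j => k (σ₁ j)) - F (fun j => k (σ₂ j)) := by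
      funext k
      have e1 : (fun i => k (σ₁ (Sum.inl i))) = fun i : I => k (σ₂ (Sum.inl i)) := rfl
      show P (fun j => k (σ₁ j)) - P (fun j => k (σ₂ j)) =
        (b (fun i => k (σ₁ (Sum.inl i))) + P (fun j => k (σ₁ j))) -
          (b (fun i => k (σ₂ (Sum.inl i))) + P (fun j => k (σ₂ j)))
      rw [e1]; abel
    rw [e]
    refine (nrm_sub_le (hF.comp m₁.measurable) (hF.comp m₂.measurable)).trans_lt ?_
    have h1 := nrm_comp m₁ hF
    have h2 := nrm_comp m₂ hF
    simp only [Function.comp_def] at *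
    rw [h1, h2]
    have : nrm ν F < ε / 2 := hn
    linarith
  have hQp : AEPoly νW (fun (g : (I ⊕ (J ⊕ J)) →₀ ZMod p) (k : I ⊕ (J ⊕ J) → ZMod p) => k + ⇑g) l
      Q := by
    apply AEPoly.of_isPoly
    exact (hPp.comp_map (t' := fun (g : (I ⊕ (J ⊕ J)) →₀ ZMod p) (k : I ⊕ (J ⊕ J) → ZMod p) =>
      k + ⇑g) (fun k j => k (σ₁ j)) (fun g j => g (σ₁ j)) (fun g k => rfl)).sub
      (hPp.comp_map (t' := fun (g : (I ⊕ (J ⊕ J)) →₀ ZMod p) (k : I ⊕ (J ⊕ J) → ZMod p) =>
      k + ⇑g) (fun k j => k (σ₂ j)) (fun g j => g (σ₂ j)) (fun g k => rfl))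
  obtain ⟨hA, hE⟩ := trans_ergodic p (I ⊕ (J ⊕ J)) νW
  obtain ⟨c, hc⟩ := hgap ((I ⊕ (J ⊕ J)) →₀ ZMod p) (fun g => by ext i; simp)
    (I ⊕ (J ⊕ J) → ZMod p) νW _ hA hE Q hQc.measurable hQp hQn
  have hQ : Q = fun _ => c := Measure.eq_of_ae_eq hc hQc continuous_const
  have hc0 : c = 0 := by
    have h1 := congrFun hQ 0
    rw [← h1]
    show P _ - P _ = 0
    exact sub_self _
  intro k
  have h1 := congrFun hQ (Sum.elim (fun i => k (Sum.inl i))
    (Sum.elim (fun j => k (Sum.inr j)) (fun _ => 0)))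
  rw [hc0] at h1
  have h2 := sub_eq_zero.1 h1
  have e1 : (fun j => (Sum.elim (fun i => k (Sum.inl i))
    (Sum.elim (fun j => k (Sum.inr j)) (fun _ => 0)) : I ⊕ (J ⊕ J) → ZMod p) (σ₁ j)) = k := by
    funext j; rcases j with i | j <;> rfl
  have e2 : (fun j => (Sum.elim (fun i => k (Sum.inl i))
    (Sum.elim (fun j => k (Sum.inr j)) (fun _ => 0)) : I ⊕ (J ⊕ J) → ZMod p) (σ₂ j)) =
      Sum.elim (fun i => k (Sum.inl i)) (fun _ => 0) := by
    funext j; rcases j with i | j <;> rfl
  rw [e1, e2] at h2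
  exact h2

/-- A function near `0` whose derivatives are functions of `z` plus polynomials of bounded degree
of the tower is a function of `z`. -/
theorem near_zero_capt (p l D n : ℕ) [Fact p.Prime] (B : ℕ → ℕ → ℕ) : ∃ ε : ℝ, 0 < ε ∧
    ∀ (Γ : Type) [AddCommGroup Γ] [Countable Γ], (∀ g : Γ, p • g = 0) →
    ∀ (X : Type u) [MeasurableSpace X] [StandardBorelSpace X] (μ : Measure X)
      [IsProbabilityMeasure μ] (T : Γ → X → X), IsAction μ T → IsErgodic μ T →
    ∀ (I : Type) [Countable I] (η : Measure (I → ZMod p)) [IsProbabilityMeasure η]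
      [η.IsAddLeftInvariant] (α : Γ → I → ZMod p) (z : X → I → ZMod p), Kron p μ T η α z →
    ∀ M : Tow p μ T α z B D n, ∀ φ : X → UnitAddCircle, Measurable φ →
      (∀ g, ∃ (b : (I → ZMod p) → UnitAddCircle) (P : (I ⊕ M.J → ZMod p) → UnitAddCircle),
        Measurable b ∧ Continuous P ∧ IsPoly trans l P ∧
        ∀ᵐ x ∂μ, φ (T g x) - φ x = b (z x) + P (M.a x)) →
      nrm μ φ < ε → Capt μ z φ := by
  obtain ⟨ε, hε, hind⟩ := pm_indep p l
  refine ⟨min (ε / 2) 1, by positivity, ?_⟩
  intro Γ _ _ hΓ X _ _ μ _ T hT hE I _ η _ _ α z hz M φ hφ hd hn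
  have hn1 : nrm μ φ < ε / 2 := hn.trans_le (min_le_left _ _)
  have hn2 : nrm μ φ < 1 := hn.trans_le (min_le_right _ _)
  have hzM : ∀ x, z x = fun i => M.a x (Sum.inl i) := fun x => funext fun i => (M.az x i).symm
  have hS : IsAction η (fun (g : Γ) (k : I → ZMod p) => k + α g) := by
    refine ⟨fun k => ?_, fun g h k => ?_, fun g => measurePreserving_add_right η (α g)⟩
    · have h0 : α 0 = 0 := by
        have := hz.hom 0 0
        rw [add_zero] at this
        exact left_eq_add.1 this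
      rw [h0, add_zero]
    · show k + α (g + h) = k + α h + α g
      rw [hz.hom g h]; abel
  have hcapt : ∀ g, Capt μ z (fun x => φ (T g x) - φ x) := by
    intro g
    obtain ⟨b, P, hb, hP, hPp, hbP⟩ := hd g
    let F : (I ⊕ M.J → ZMod p) → UnitAddCircle := fun k => b (fun i => k (Sum.inl i)) + P k
    have hF : Measurable F := by
      have h1 : Measurable (fun (k : I ⊕ M.J → ZMod p) (i : I) => k (Sum.inl i)) := by fun_prop
      exact (hb.comp h1).add hP.measurable
    have h1 : nrm M.ν F < ε := by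
      rw [← nrm_comp M.ha hF]
      have e : (fun x => F (M.a x)) =ᵐ[μ] fun x => φ (T g x) - φ x := by
        filter_upwards [hbP] with x hx
        rw [hx, hzM x]
      rw [nrm_congr e]
      refine (nrm_sub_le (hφ.comp (hT.mp g).measurable) hφ).trans_lt ?_
      have h2 := nrm_comp (hT.mp g) hφ
      simp only [Function.comp_def] at *
      rw [h2]
      linarith
    have h2 := hind I M.J M.ν b P hb hP hPp h1
    refine ⟨fun k => b k + P (Sum.elim k (fun _ => 0)), ?_, ?_⟩
    · have h3 : Continuous (fun k : I → ZMod p => (Sum.elim k (fun _ => 0) : I ⊕ M.J → ZMod p)) := by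
        refine continuous_pi fun j => ?_
        rcases j with i | j
        · exact continuous_apply i
        · exact continuous_const
      exact hb.add (hP.comp h3).measurable
    · filter_upwards [hbP] with x hx
      rw [hx, h2 (M.a x), ← hzM x]
  refine rank_one hT hE hS hz.mp hz.eqv φ hφ hcapt (fun _ => 1) measurable_const
    ⟨1, fun _ => by simp⟩ ?_
  intro h0
  simp only [mul_one] at h0
  have hint : Integrable (fun x => ee (φ x)) μ := by
    refine Integrable.of_bound (continuous_ee.measurable.comp hφ).aestronglyMeasurable 1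
      (ae_of_all _ fun x => (norm_ee _).le)
  have h1 : ∫ x, (ee (φ x) - 1) ∂μ = -1 := by
    rw [integral_sub hint (integrable_const _), h0]
    simp
  have h2 : ‖∫ x, (ee (φ x) - 1) ∂μ‖ ≤ nrm μ φ := norm_integral_le_integral_norm _
  rw [h1] at h2
  simp only [norm_neg, norm_one] at h2
  linarith

end Pool.Agent.FpTrans
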