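import Pool.Agent.FpOrd.Fiber1
import Pool.Agent.FpOrd.Mean

/-!
# Invariant functions on the fibres of an invariant map
-/

set_option autoImplicit false
open MeasureTheory Filter Topology ProbabilityTheory

namespace Pool.Agent.FpTrans

universe u v w

/-- If every invariant function on `Y` is a function of `a` and `c`, then on almost every fibre
of `c` every invariant function is a function of `a`. -/
theorem fiber_inv {Γ : Type} [AddCommGroup Γ] [Countable Γ] {E : ℕ → Finset Γ} (hE : IsExh E)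
    {Y : Type u} [MeasurableSpace Y] [StandardBorelSpace Y] {M : Measure Y}
    [IsProbabilityMeasure M] {T : Γ → Y → Y} (hT : IsAction M T) {Z : Type v}
    [MeasurableSpace Z] [StandardBorelSpace Z] {η : Measure Z} [IsProbabilityMeasure η]
    {c : Y → Z} (hc : Measurable c) (hcT : ∀ g, ∀ᵐ y ∂M, c (T g y) = c y) {κ : Kernel Z Y}
    [IsMarkovKernel κ] (hκ : IsDis M c η κ) {A : Type w} [MeasurableSpace A]
    [StandardBorelSpace A] (a : Y → A) (ha : Measurable a)
    (hinv : ∀ H : Y → ℂ, Measurable H → (∃ C : ℝ, ∀ y, ‖H y‖ ≤ C) →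
      (∀ g, ∀ᵐ y ∂M, H (T g y) = H y) → Capt M (fun y => (a y, c y)) H) :
    ∀ᵐ s ∂η, ∀ F : Y → ℂ, Measurable F → (∃ C : ℝ, ∀ y, ‖F y‖ ≤ C) →
      (∀ g, ∀ᵐ y ∂(κ s), F (T g y) = F y) → Capt (κ s) a F := by
  obtain ⟨F, hFm, hFb, hFd⟩ := pe_dense Y
  choose C hC using hFb
  have hme := fun i => mean_ergodic hE hT (F i) (hFm i) (C i) (hC i)
  choose H hHm hHb hHi hHt using hme
  have hHc := fun i => hinv (H i) (hHm i) ⟨C i, hHb i⟩ (hHi i)
  choose h hhm hhe using hHc
  -- the averages
  let V : ℕ → ℕ → Y → ℂ := fun i n y => avg (E n) (fun g => F i (T g y))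
  have hVm : ∀ i n, Measurable (V i n) := by
    intro i n
    simp only [V, avg]
    have h0 : Measurable (fun y => ∑ g ∈ E n, F i (T g y)) :=
      Finset.measurable_sum _ fun g _ => (hFm i).comp (hT.mp g).measurable
    exact h0.const_smul ((E n).card : ℝ)⁻¹
  have hVb : ∀ i n y, ‖V i n y‖ ≤ C i := by
    intro i n y
    have hcard : (0 : ℝ) < (E n).card := by
      have : (E n).Nonempty := ⟨0, hE.zero n⟩
      exact_mod_cast this.card_pos
    simp only [V, avg]
    rw [norm_smul, norm_inv, Real.norm_natCast, inv_mul_le_iff₀ hcard]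
    refine (norm_sum_le _ _).trans ?_
    refine (Finset.sum_le_sum fun g _ => hC i (T g y)).trans ?_
    simp
  let D : ℕ → ℕ → Z → ENNReal := fun i n s =>
    ∫⁻ y, ENNReal.ofReal (‖V i n y - H i y‖ ^ 2) ∂(κ s)
  have hGm : ∀ i n, Measurable (fun y => ENNReal.ofReal (‖V i n y - H i y‖ ^ 2)) := by
    intro i n
    exact (((hVm i n).sub (hHm i)).norm.pow_const 2).ennreal_ofReal
  have hDm : ∀ i n, Measurable (D i n) := fun i n => (hGm i n).lintegral_kernel
  have hDt : ∀ i, Tendsto (fun n => ∫⁻ s, D i n s ∂η) atTop (𝓝 0) := by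
    intro i
    have h1 : ∀ n, ∫⁻ s, D i n s ∂η =
        ENNReal.ofReal (∫ y, ‖V i n y - H i y‖ ^ 2 ∂M) := by
      intro n
      rw [pe_lint hc hκ _ (hGm i n), ofReal_integral_eq_lintegral_ofReal]
      · refine Integrable.of_bound
          (((hVm i n).sub (hHm i)).norm.pow_const 2).aestronglyMeasurable ((C i + C i) ^ 2) ?_
        filter_upwards with y
        rw [Real.norm_eq_abs, abs_of_nonneg (by positivity)]
        have := norm_sub_le (V i n y) (H i y)
        have h2 := hVb i n y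
        have h3 := hHb i y
        gcongr
        linarith
      · filter_upwards with y
        exact sq_nonneg _
    simp_rw [h1]
    have := ENNReal.tendsto_ofReal (hHt i)
    simpa using this
  have hlim : ∀ᵐ s ∂η, ∀ i, liminf (fun n => D i n s) atTop = 0 := by
    rw [ae_all_iff]
    intro i
    have h1 : ∫⁻ s, liminf (fun n => D i n s) atTop ∂η = 0 := by
      have h2 := lintegral_liminf_le (μ := η) (u := atTop) (f := D i) (hDm i)
      rw [(hDt i).liminf_eq] at h2
      exact le_antisymm h2 zero_le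
    rw [lintegral_eq_zero_iff (Measurable.liminf (hDm i))] at h1
    exact h1
  have hcapt : ∀ᵐ s ∂η, ∀ i, ∀ᵐ y ∂(κ s), H i y = h i (a y, c y) := by
    rw [ae_all_iff]
    intro i
    exact fiber_ae hc hκ (hhe i)
  filter_upwards [hlim, hcapt, fiber_action hT hc hcT hκ] with s hs1 hs2 hs3
  obtain ⟨hact, hcs⟩ := hs3
  intro F' hF'm hF'b hF'i
  obtain ⟨C', hC'⟩ := hF'b
  apply pe_limit a ha F' hF'm
  intro ε hε
  obtain ⟨i, hi⟩ := hFd (κ s) F' hF'm
    (MemLp.of_bound hF'm.aestronglyMeasurable C' (ae_of_all _ hC')) ε hε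
  refine ⟨fun x => h i (x, s), (hhm i).comp (measurable_id.prodMk measurable_const), ?_⟩
  refine lt_of_le_of_lt ?_ hi
  have h1 : ((fun x => h i (x, s)) ∘ a - F') =ᵐ[κ s] (H i - F') := by
    filter_upwards [hs2 i, hcs] with y hy1 hy2
    simp only [Pi.sub_apply, Function.comp, hy1, hy2]
  rw [eLpNorm_congr_ae h1]
  apply ENNReal.le_of_forall_pos_le_add
  intro r hr _
  -- some average is close to `H i`
  have h2 : ∃ n, D i n s < (r : ENNReal) ^ 2 := by
    have h3 : ∃ᶠ n in atTop, D i n s < (r : ENNReal) ^ 2 := by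
      have h0 : (0 : ENNReal) < (r : ENNReal) := by exact_mod_cast hr
      have h01 : liminf (fun n => D i n s) atTop < (r : ENNReal) ^ 2 := by
        rw [hs1 i]
        positivity
      exact Filter.frequently_lt_of_liminf_lt (by isBoundedDefault) h01
    exact h3.exists
  obtain ⟨n, hn⟩ := h2
  have h4 : eLpNorm (H i - V i n) 2 (κ s) ≤ r := by
    rw [eLpNorm_sub_comm, pe_sq]
    calc (∫⁻ y, ENNReal.ofReal (‖(V i n - H i) y‖ ^ 2) ∂(κ s)) ^ (1 / 2 : ℝ)
        ≤ ((r : ENNReal) ^ 2) ^ (1 / 2 : ℝ) := ENNReal.rpow_le_rpow hn.le (by norm_num)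
      _ = r := by
        rw [← ENNReal.rpow_natCast, ← ENNReal.rpow_mul]
        norm_num
  have h5 := pe_avg hact (E n) ⟨0, hE.zero n⟩ (F i) F' (hFm i) hF'm hF'i
  have h6 : (H i - F') = (H i - V i n) + (V i n - F') := by
    ext y; simp
  rw [h6]
  refine (eLpNorm_add_le ((hHm i).sub (hVm i n)).aestronglyMeasurable
    ((hVm i n).sub hF'm).aestronglyMeasurable (by norm_num)).trans ?_
  rw [add_comm]
  exact add_le_add h5 h4

end Pool.Agent.FpTrans
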