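import Pool.Agent.FpOrd.Mean
import Pool.Agent.FpTrans.PolyAE

/-!
# The Gowers-Host-Kra seminorms: positivity, products, disintegrations
-/

set_option autoImplicit false
set_option linter.unusedSectionVars false
open MeasureTheory Filter Topology ProbabilityTheory

namespace Pool.Agent.FpTrans

universe u v w

/-! ### Averages -/

theorem pn_card_pos {Γ : Type v} [AddCommGroup Γ] {E : ℕ → Finset Γ} (hE : IsExh E) (n : ℕ) :
    (0 : ℝ) < ((E n).card : ℝ) := by
  have : 0 < (E n).card := Finset.card_pos.2 ⟨0, hE.zero n⟩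
  exact_mod_cast this

theorem pn_avg_eq {Γ : Type v} (E : Finset Γ) (F : Γ → ℝ) :
    avg E F = (E.card : ℝ)⁻¹ * ∑ g ∈ E, F g := rfl

theorem pn_avg_nonneg {Γ : Type v} (E : Finset Γ) (F : Γ → ℝ) (h : ∀ g, 0 ≤ F g) :
    0 ≤ avg E F := by
  rw [pn_avg_eq]
  exact mul_nonneg (inv_nonneg.2 (Nat.cast_nonneg _)) (Finset.sum_nonneg fun g _ => h g)

theorem pn_avg_mono {Γ : Type v} (E : Finset Γ) (F G : Γ → ℝ) (h : ∀ g, F g ≤ G g) :
    avg E F ≤ avg E G := by
  rw [pn_avg_eq, pn_avg_eq]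
  exact mul_le_mul_of_nonneg_left (Finset.sum_le_sum fun g _ => h g)
    (inv_nonneg.2 (Nat.cast_nonneg _))

theorem pn_avg_abs {Γ : Type v} [AddCommGroup Γ] {E : ℕ → Finset Γ} (hE : IsExh E) (n : ℕ)
    (F : Γ → ℝ) (K : ℝ) (h : ∀ g, |F g| ≤ K) : |avg (E n) F| ≤ K := by
  rw [pn_avg_eq, abs_mul, abs_of_pos (inv_pos.2 (pn_card_pos hE n)),
    inv_mul_le_iff₀ (pn_card_pos hE n)]
  refine (Finset.abs_sum_le_sum_abs _ _).trans ?_
  refine (Finset.sum_le_sum fun g _ => h g).trans (le_of_eq ?_)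
  rw [Finset.sum_const, nsmul_eq_mul]

theorem pn_limsup_abs (u : ℕ → ℝ) (K : ℝ) (h : ∀ n, |u n| ≤ K) : |limsup u atTop| ≤ K := by
  have hb : IsBoundedUnder (· ≤ ·) atTop u :=
    isBoundedUnder_of ⟨K, fun n => (abs_le.1 (h n)).2⟩
  have hb' : IsBoundedUnder (· ≥ ·) atTop u :=
    isBoundedUnder_of ⟨-K, fun n => (abs_le.1 (h n)).1⟩
  rw [abs_le]
  constructor
  · refine le_limsup_of_frequently_le ?_ hb
    exact Frequently.of_forall fun n => (abs_le.1 (h n)).1
  · refine limsup_le_of_le hb'.isCoboundedUnder_le ?_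
    exact Eventually.of_forall fun n => (abs_le.1 (h n)).2

theorem pn_limsup_nonneg (u : ℕ → ℝ) (h : ∀ n, 0 ≤ u n) : 0 ≤ limsup u atTop := by
  rw [Filter.limsup_eq]
  apply Real.sInf_nonneg
  intro a ha
  obtain ⟨n, hn⟩ := ha.exists
  exact (h n).trans hn

/-! ### Positivity -/

section Pos

variable {Γ : Type} [AddCommGroup Γ] {E : ℕ → Finset Γ} {X : Type u} [MeasurableSpace X]
  {μ : Measure X} [IsProbabilityMeasure μ] {T : Γ → X → X}

theorem pn_integrable (f : X → ℂ) (hf : Measurable f) (hb : ∃ C : ℝ, ∀ x, ‖f x‖ ≤ C) :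
    Integrable f μ := by
  obtain ⟨C, hC⟩ := hb
  exact Integrable.of_bound hf.aestronglyMeasurable C (Eventually.of_forall hC)

theorem pn_bdd_mul {f g : X → ℂ} (hf : ∃ C : ℝ, ∀ x, ‖f x‖ ≤ C) (hg : ∃ C : ℝ, ∀ x, ‖g x‖ ≤ C) :
    ∃ C : ℝ, ∀ x, ‖f x * g x‖ ≤ C := by
  obtain ⟨C, hC⟩ := hf
  obtain ⟨D, hD⟩ := hg
  refine ⟨C * D, fun x => ?_⟩
  rw [norm_mul]
  exact mul_le_mul (hC x) (hD x) (norm_nonneg _) ((norm_nonneg _).trans (hC x))

theorem pn_bdd_conj {f : X → ℂ} (hf : ∃ C : ℝ, ∀ x, ‖f x‖ ≤ C) :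
    ∃ C : ℝ, ∀ x, ‖(starRingEnd ℂ) (f x)‖ ≤ C := by
  obtain ⟨C, hC⟩ := hf
  exact ⟨C, fun x => by rw [RCLike.norm_conj]; exact hC x⟩

theorem pn_meas_conj {f : X → ℂ} (hf : Measurable f) : Measurable fun x => (starRingEnd ℂ) (f x) :=
  Complex.continuous_conj.measurable.comp hf

/-- the key computation -/
theorem pn_sum (hE : IsExh E) (hT : IsAction μ T) (n : ℕ) (f : X → ℂ) (hf : Measurable f)
    (hb : ∃ C : ℝ, ∀ x, ‖f x‖ ≤ C) :
    ((E n).card : ℂ) * ∑ g ∈ E n, ∫ x, f (T g x) * (starRingEnd ℂ) (f x) ∂μ =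
      ∫ x, (∑ g ∈ E n, f (T g x)) * (starRingEnd ℂ) (∑ g ∈ E n, f (T g x)) ∂μ := by
  have hb' : ∀ g, ∃ C : ℝ, ∀ x, ‖f (T g x)‖ ≤ C := fun g => by
    obtain ⟨C, hC⟩ := hb
    exact ⟨C, fun x => hC _⟩
  have hm : ∀ g, Measurable fun x => f (T g x) := fun g => hf.comp (hT.mp g).measurable
  have hI : ∀ g h, Integrable (fun x => f (T g x) * (starRingEnd ℂ) (f (T h x))) μ := fun g h =>
    pn_integrable _ ((hm g).mul (pn_meas_conj (hm h))) (pn_bdd_mul (hb' g) (pn_bdd_conj (hb' h)))
  have h1 : ∀ h ∈ E n, ∑ g ∈ E n, ∫ x, f (T g x) * (starRingEnd ℂ) (f x) ∂μ =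
      ∑ g ∈ E n, ∫ x, f (T g x) * (starRingEnd ℂ) (f (T h x)) ∂μ := by
    intro h hh
    refine Finset.sum_nbij' (fun g => g + h) (fun g => g - h) ?_ ?_ ?_ ?_ ?_
    · intro g hg; exact hE.add n g hg h hh
    · intro g hg
      rw [sub_eq_add_neg]
      exact hE.add n g hg _ (hE.neg n h hh)
    · intro g _; simp
    · intro g _; simp
    · intro g _
      have h2 := (hT.mp h).integral_comp' (f := (⟨⟨T h, T (-h), fun x => by
        rw [← hT.add, neg_add_cancel, hT.zero], fun x => by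
        rw [← hT.add, add_neg_cancel, hT.zero]⟩, (hT.mp h).measurable, (hT.mp (-h)).measurable⟩ :
          X ≃ᵐ X)) (fun x => f (T g x) * (starRingEnd ℂ) (f x))
      rw [← h2]
      refine integral_congr_ae (Eventually.of_forall fun x => ?_)
      show f (T g (T h x)) * (starRingEnd ℂ) (f (T h x)) =
        f (T (g + h) x) * (starRingEnd ℂ) (f (T h x))
      rw [hT.add]
  have h3 : ((E n).card : ℂ) * ∑ g ∈ E n, ∫ x, f (T g x) * (starRingEnd ℂ) (f x) ∂μ =
      ∑ h ∈ E n, ∑ g ∈ E n, ∫ x, f (T g x) * (starRingEnd ℂ) (f (T h x)) ∂μ := by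
    rw [← Finset.sum_congr rfl h1, Finset.sum_const, nsmul_eq_mul]
  rw [h3]
  have h4 : ∀ x, (∑ g ∈ E n, f (T g x)) * (starRingEnd ℂ) (∑ g ∈ E n, f (T g x)) =
      ∑ h ∈ E n, ∑ g ∈ E n, f (T g x) * (starRingEnd ℂ) (f (T h x)) := by
    intro x
    rw [map_sum, Finset.sum_mul_sum, Finset.sum_comm]
  simp only [h4]
  rw [integral_finsetSum _ (fun h _ => integrable_finsetSum _ fun g _ => hI g h)]
  refine Finset.sum_congr rfl fun h _ => ?_
  rw [integral_finsetSum _ (fun g _ => hI g h)]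

/-- the averages of the correlations of `f` are the norms of the averages of `f` -/
theorem pn_avg_corr (hE : IsExh E) (hT : IsAction μ T) (n : ℕ) (f : X → ℂ) (hf : Measurable f)
    (hb : ∃ C : ℝ, ∀ x, ‖f x‖ ≤ C) :
    avg (E n) (fun g => hk μ E T 0 (fun x => f (T g x) * (starRingEnd ℂ) (f x))) =
      ∫ x, ‖avg (E n) (fun g => f (T g x))‖ ^ 2 ∂μ := by
  have hc := pn_card_pos hE n
  have h1 := pn_sum hE hT n f hf hb
  have h2 : ∀ x, ((‖avg (E n) (fun g => f (T g x))‖ ^ 2 : ℝ) : ℂ) =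
      (((E n).card : ℂ)⁻¹) ^ 2 *
        ((∑ g ∈ E n, f (T g x)) * (starRingEnd ℂ) (∑ g ∈ E n, f (T g x))) := by
    intro x
    rw [Complex.mul_conj, Complex.normSq_eq_norm_sq]
    have : avg (E n) (fun g => f (T g x)) = ((E n).card : ℂ)⁻¹ * ∑ g ∈ E n, f (T g x) := by
      unfold avg
      rw [Complex.real_smul]
      push_cast
      rfl
    rw [this, norm_mul, norm_inv, Complex.norm_natCast]
    push_cast
    ring
  have h3 : ((∫ x, ‖avg (E n) (fun g => f (T g x))‖ ^ 2 ∂μ : ℝ) : ℂ) =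
      ((E n).card : ℂ)⁻¹ * ∑ g ∈ E n, ∫ x, f (T g x) * (starRingEnd ℂ) (f x) ∂μ := by
    rw [← integral_complex_ofReal]
    simp only [h2]
    rw [integral_const_mul, ← h1]
    have : ((E n).card : ℂ) ≠ 0 := by exact_mod_cast hc.ne'
    field_simp
  have h4 := congrArg Complex.re h3
  rw [Complex.ofReal_re] at h4
  rw [h4, pn_avg_eq]
  unfold hk
  rw [← Complex.ofReal_natCast, ← Complex.ofReal_inv, Complex.re_ofReal_mul, Complex.re_sum]

end Pos

theorem hk_nonneg {Γ : Type} [AddCommGroup Γ] [Countable Γ] {E : ℕ → Finset Γ} (hE : IsExh E)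
    {X : Type u} [MeasurableSpace X] {μ : Measure X} [IsProbabilityMeasure μ] {T : Γ → X → X}
    (hT : IsAction μ T) (k : ℕ) (f : X → ℂ) (hf : Measurable f) (hb : ∃ C : ℝ, ∀ x, ‖f x‖ ≤ C) :
    0 ≤ hk μ E T (k + 1) f := by
  induction k generalizing f with
  | zero =>
    show 0 ≤ limsup (fun n => avg (E n)
      fun g => hk μ E T 0 (fun x => f (T g x) * (starRingEnd ℂ) (f x))) atTop
    apply pn_limsup_nonneg
    intro n
    rw [pn_avg_corr hE hT n f hf hb]
    exact integral_nonneg fun x => by positivity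
  | succ k ih =>
    show 0 ≤ limsup (fun n => avg (E n)
      fun g => hk μ E T (k + 1) (fun x => f (T g x) * (starRingEnd ℂ) (f x))) atTop
    apply pn_limsup_nonneg
    intro n
    apply pn_avg_nonneg
    intro g
    apply ih
    · exact (hf.comp (hT.mp g).measurable).mul (pn_meas_conj hf)
    · apply pn_bdd_mul _ (pn_bdd_conj hb)
      obtain ⟨C, hC⟩ := hb
      exact ⟨C, fun x => hC _⟩

/-! ### Products -/

section Prod

variable {X : Type u} [MeasurableSpace X] {μ : Measure X} [IsProbabilityMeasure μ]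

theorem pn_sq_sub (h : X → ℂ) (hm : Measurable h) (hb : ∃ C : ℝ, ∀ x, ‖h x‖ ≤ C) (a : ℂ) :
    ∫ x, ‖h x - a‖ ^ 2 ∂μ = ∫ x, ‖h x‖ ^ 2 ∂μ - 2 * ((starRingEnd ℂ) a * ∫ x, h x ∂μ).re +
      ‖a‖ ^ 2 := by
  have h0 : ∀ x, ‖h x - a‖ ^ 2 = ‖h x‖ ^ 2 - 2 * ((starRingEnd ℂ) a * h x).re + ‖a‖ ^ 2 := by
    intro x
    rw [← Complex.normSq_eq_norm_sq, ← Complex.normSq_eq_norm_sq, ← Complex.normSq_eq_norm_sq]
    simp only [Complex.normSq_apply, Complex.sub_re, Complex.sub_im, Complex.mul_re,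
      Complex.conj_re, Complex.conj_im]
    ring
  have hI := pn_integrable (μ := μ) h hm hb
  have hI1 : Integrable (fun x => ‖h x‖ ^ 2) μ := by
    obtain ⟨C, hC⟩ := hb
    refine Integrable.of_bound (hm.norm.pow_const 2).aestronglyMeasurable (C ^ 2)
      (Eventually.of_forall fun x => ?_)
    rw [Real.norm_eq_abs, abs_of_nonneg (by positivity)]
    exact pow_le_pow_left₀ (norm_nonneg _) (hC x) 2
  have hI2 : Integrable (fun x => 2 * ((starRingEnd ℂ) a * h x).re) μ :=
    ((hI.const_mul _).re).const_mul 2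
  simp only [h0]
  have e1 : ∫ x, (‖h x‖ ^ 2 - 2 * ((starRingEnd ℂ) a * h x).re + ‖a‖ ^ 2) ∂μ =
      ∫ x, (‖h x‖ ^ 2 - 2 * ((starRingEnd ℂ) a * h x).re) ∂μ + ∫ _, ‖a‖ ^ 2 ∂μ :=
    integral_add (hI1.sub hI2) (integrable_const _)
  rw [e1, integral_sub hI1 hI2, integral_const_mul]
  have h5 : ∫ x, ((starRingEnd ℂ) a * h x).re ∂μ = ((starRingEnd ℂ) a * ∫ x, h x ∂μ).re := by
    rw [← integral_const_mul]
    exact integral_re (hI.const_mul _)
  rw [h5]
  simp

end Prod

theorem hk_prod {Γ : Type} [AddCommGroup Γ] [Countable Γ] {E : ℕ → Finset Γ} (hE : IsExh E)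
    {X : Type u} [MeasurableSpace X] {μ : Measure X} [IsProbabilityMeasure μ] {T : Γ → X → X}
    (hT : IsAction μ T) (hEr : IsErgodic μ T) (k : ℕ) (f : X → ℂ) (hf : Measurable f)
    (hb : ∃ C : ℝ, ∀ x, ‖f x‖ ≤ C) :
    hk μ E T (k + 1) f =
      hk (μ.prod μ) E (pact T T) k (fun q => f q.1 * (starRingEnd ℂ) (f q.2)) := by
  induction k generalizing f with
  | zero =>
    show limsup (fun n => avg (E n)
      fun g => hk μ E T 0 (fun x => f (T g x) * (starRingEnd ℂ) (f x))) atTop =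
        (∫ q, f q.1 * (starRingEnd ℂ) (f q.2) ∂(μ.prod μ)).re
    simp only [pn_avg_corr hE hT _ f hf hb]
    set m := ∫ x, f x ∂μ with hm
    have hR : (∫ q, f q.1 * (starRingEnd ℂ) (f q.2) ∂(μ.prod μ)).re = ‖m‖ ^ 2 := by
      rw [integral_prod_mul (fun x => f x) (fun x => (starRingEnd ℂ) (f x)), integral_conj,
        Complex.mul_conj, Complex.ofReal_re, Complex.normSq_eq_norm_sq]
    rw [hR]
    apply Tendsto.limsup_eq
    obtain ⟨C, hC⟩ := hb
    obtain ⟨Ψ, hΨm, hΨb, hΨi, hΨ⟩ := mean_ergodic hE hT f hf C hC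
    obtain ⟨c, hc⟩ := hEr.const hT hΨm hΨi
    have hmeas : ∀ n, Measurable fun x => avg (E n) (fun g => f (T g x)) := by
      intro n
      have : Measurable fun x => ∑ g ∈ E n, f (T g x) :=
        Finset.measurable_sum _ fun g _ => hf.comp (hT.mp g).measurable
      exact this.const_smul (((E n).card : ℝ)⁻¹)
    have hbd : ∀ n, ∃ C' : ℝ, ∀ x, ‖avg (E n) (fun g => f (T g x))‖ ≤ C' := by
      intro n
      refine ⟨C, fun x => ?_⟩
      unfold avg
      rw [norm_smul, norm_inv, Real.norm_natCast, inv_mul_le_iff₀ (pn_card_pos hE n)]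
      refine (norm_sum_le _ _).trans ?_
      refine (Finset.sum_le_sum fun g _ => hC (T g x)).trans (le_of_eq ?_)
      rw [Finset.sum_const, nsmul_eq_mul]
    have hmean : ∀ n, ∫ x, avg (E n) (fun g => f (T g x)) ∂μ = m := by
      intro n
      unfold avg
      rw [integral_smul, integral_finsetSum (E n) (f := fun g x => f (T g x)) (fun g _ =>
        pn_integrable _ (hf.comp (hT.mp g).measurable) ⟨C, fun x => hC _⟩)]
      have : ∀ g ∈ E n, ∫ x, f (T g x) ∂μ = m := by
        intro g _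
        have h2 := (hT.mp g).integral_comp' (f := (⟨⟨T g, T (-g), fun x => by
          rw [← hT.add, neg_add_cancel, hT.zero], fun x => by
          rw [← hT.add, add_neg_cancel, hT.zero]⟩, (hT.mp g).measurable, (hT.mp (-g)).measurable⟩ :
            X ≃ᵐ X)) f
        exact h2
      rw [Finset.sum_congr rfl this, Finset.sum_const, nsmul_eq_mul, Complex.real_smul]
      have : ((E n).card : ℂ) ≠ 0 := by exact_mod_cast (pn_card_pos hE n).ne'
      push_cast
      field_simp
    have e1 : ∀ n, ∫ x, ‖avg (E n) (fun g => f (T g x)) - Ψ x‖ ^ 2 ∂μ =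
        ∫ x, ‖avg (E n) (fun g => f (T g x))‖ ^ 2 ∂μ - 2 * ((starRingEnd ℂ) c * m).re +
          ‖c‖ ^ 2 := by
      intro n
      rw [← hmean n, ← pn_sq_sub _ (hmeas n) (hbd n) c]
      refine integral_congr_ae ?_
      filter_upwards [hc] with x hx
      rw [hx]
    have e2 : ∀ n, ‖m‖ ^ 2 ≤ ∫ x, ‖avg (E n) (fun g => f (T g x))‖ ^ 2 ∂μ := by
      intro n
      have h3 := pn_sq_sub (μ := μ) _ (hmeas n) (hbd n) m
      rw [hmean n] at h3
      have h4 : 0 ≤ ∫ x, ‖avg (E n) (fun g => f (T g x)) - m‖ ^ 2 ∂μ :=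
        integral_nonneg fun x => by positivity
      have h5 : ((starRingEnd ℂ) m * m).re = ‖m‖ ^ 2 := by
        rw [mul_comm, Complex.mul_conj, Complex.ofReal_re, Complex.normSq_eq_norm_sq]
      rw [h5] at h3
      linarith
    have hcm : c = m := by
      have h6 : ∀ n, ‖m - c‖ ^ 2 ≤ ∫ x, ‖avg (E n) (fun g => f (T g x)) - Ψ x‖ ^ 2 ∂μ := by
        intro n
        rw [e1 n]
        have h7 : ‖m - c‖ ^ 2 = ‖m‖ ^ 2 - 2 * ((starRingEnd ℂ) c * m).re + ‖c‖ ^ 2 := by
          rw [← Complex.normSq_eq_norm_sq, ← Complex.normSq_eq_norm_sq,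
            ← Complex.normSq_eq_norm_sq]
          simp only [Complex.normSq_apply, Complex.sub_re, Complex.sub_im, Complex.mul_re,
            Complex.conj_re, Complex.conj_im]
          ring
        rw [h7]
        linarith [e2 n]
      have h8 : ‖m - c‖ ^ 2 ≤ 0 := ge_of_tendsto' hΨ h6
      have h9 : ‖m - c‖ = 0 := by
        have := norm_nonneg (m - c)
        nlinarith
      exact (sub_eq_zero.1 (norm_eq_zero.1 h9)).symm
    rw [hcm] at e1
    have h5 : ((starRingEnd ℂ) m * m).re = ‖m‖ ^ 2 := by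
      rw [mul_comm, Complex.mul_conj, Complex.ofReal_re, Complex.normSq_eq_norm_sq]
    have e3 : ∀ n, ∫ x, ‖avg (E n) (fun g => f (T g x))‖ ^ 2 ∂μ =
        ∫ x, ‖avg (E n) (fun g => f (T g x)) - Ψ x‖ ^ 2 ∂μ + ‖m‖ ^ 2 := by
      intro n
      rw [e1 n, h5]
      ring
    simp only [e3]
    have := hΨ.add_const (‖m‖ ^ 2)
    rwa [zero_add] at this
  | succ k ih =>
    show limsup (fun n => avg (E n)
      fun g => hk μ E T (k + 1) (fun x => f (T g x) * (starRingEnd ℂ) (f x))) atTop =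
        limsup (fun n => avg (E n) fun g => hk (μ.prod μ) E (pact T T) k (fun q =>
          (f (pact T T g q).1 * (starRingEnd ℂ) (f (pact T T g q).2)) *
            (starRingEnd ℂ) (f q.1 * (starRingEnd ℂ) (f q.2)))) atTop
    congr 1
    funext n
    congr 1
    funext g
    rw [ih (fun x => f (T g x) * (starRingEnd ℂ) (f x))
      ((hf.comp (hT.mp g).measurable).mul (pn_meas_conj hf)) (by
        apply pn_bdd_mul _ (pn_bdd_conj hb)
        obtain ⟨C, hC⟩ := hb
        exact ⟨C, fun x => hC _⟩)]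
    congr 1
    funext q
    unfold pact
    simp only [map_mul, Complex.conj_conj]
    ring

/-! ### Disintegrations -/

theorem pn_hk_abs {Γ : Type} [AddCommGroup Γ] {E : ℕ → Finset Γ} (hE : IsExh E)
    {Y : Type u} [MeasurableSpace Y] (M : Measure Y) [IsProbabilityMeasure M] {T : Γ → Y → Y}
    (k : ℕ) (C : ℝ) (hC0 : 0 ≤ C) (F : Y → ℂ) (hb : ∀ y, ‖F y‖ ≤ C) :
    |hk M E T k F| ≤ C ^ 2 ^ k := by
  induction k generalizing F C with
  | zero =>
    show |(∫ y, F y ∂M).re| ≤ C ^ 2 ^ 0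
    rw [pow_zero, pow_one]
    refine (Complex.abs_re_le_norm _).trans ?_
    have := norm_integral_le_of_norm_le_const (μ := M) (Eventually.of_forall hb)
    simpa using this
  | succ k ih =>
    show |limsup (fun n => avg (E n)
      fun g => hk M E T k (fun y => F (T g y) * (starRingEnd ℂ) (F y))) atTop| ≤ C ^ 2 ^ (k + 1)
    apply pn_limsup_abs
    intro n
    apply pn_avg_abs hE
    intro g
    have h1 := ih (C ^ 2) (by positivity) (fun y => F (T g y) * (starRingEnd ℂ) (F y)) (by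
      intro y
      rw [norm_mul, RCLike.norm_conj, sq]
      exact mul_le_mul (hb _) (hb _) (norm_nonneg _) hC0)
    rw [← pow_mul] at h1
    rwa [pow_succ, mul_comm (2 ^ k) 2]

/-- reverse Fatou lemma for uniformly bounded functions -/
theorem pn_fatou {Z : Type v} [MeasurableSpace Z] {η : Measure Z} [IsProbabilityMeasure η]
    (h : ℕ → Z → ℝ) (hm : ∀ n, Measurable (h n)) (K : ℝ) (hK : ∀ n s, |h n s| ≤ K) :
    limsup (fun n => ∫ s, h n s ∂η) atTop ≤ ∫ s, limsup (fun n => h n s) atTop ∂η := by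
  set L : Z → ℝ := fun s => limsup (fun n => h n s) atTop with hL
  have hLm : Measurable L := Measurable.limsup hm
  have hLK : ∀ s, |L s| ≤ K := fun s => pn_limsup_abs _ K fun n => hK n s
  have hLi : Integrable L η := Integrable.of_bound hLm.aestronglyMeasurable K
    (Eventually.of_forall fun s => by rw [Real.norm_eq_abs]; exact hLK s)
  have hhi : ∀ n, Integrable (h n) η := fun n => Integrable.of_bound (hm n).aestronglyMeasurable K
    (Eventually.of_forall fun s => by rw [Real.norm_eq_abs]; exact hK n s)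
  have hpt : ∀ s, Tendsto (fun n => max (h n s - L s) 0) atTop (𝓝 0) := by
    intro s
    rw [Metric.tendsto_atTop]
    intro ε hε
    have h1 : ∀ᶠ n in atTop, h n s < L s + ε / 2 := by
      apply eventually_lt_of_limsup_lt
      · show L s < L s + ε / 2
        linarith
      · exact isBoundedUnder_of ⟨K, fun n => (abs_le.1 (hK n s)).2⟩
    obtain ⟨N, hN⟩ := eventually_atTop.1 h1
    refine ⟨N, fun n hn => ?_⟩
    rw [Real.dist_eq, sub_zero, abs_of_nonneg (le_max_right _ _)]
    apply max_lt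
    · linarith [hN n hn]
    · exact hε
  have hlim : Tendsto (fun n => ∫ s, max (h n s - L s) 0 ∂η) atTop (𝓝 0) := by
    have := tendsto_integral_of_dominated_convergence (μ := η) (fun _ => 2 * |K| + 1)
      (F := fun n s => max (h n s - L s) 0) (f := fun _ => (0 : ℝ))
      (fun n => (((hm n).sub hLm).max measurable_const).aestronglyMeasurable)
      (integrable_const _) (fun n => Eventually.of_forall fun s => by
        rw [Real.norm_eq_abs, abs_of_nonneg (le_max_right _ _)]
        have h1 := abs_le.1 (hK n s)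
        have h2 := abs_le.1 (hLK s)
        have h3 := le_abs_self K
        have h4 := abs_nonneg K
        exact max_le (by linarith) (by linarith))
      (Eventually.of_forall hpt)
    simpa using this
  have hle : ∀ n, ∫ s, h n s ∂η ≤ ∫ s, L s ∂η + ∫ s, max (h n s - L s) 0 ∂η := by
    intro n
    have hi : Integrable (fun s => max (h n s - L s) 0) η := ((hhi n).sub hLi).pos_part
    rw [← integral_add hLi hi]
    refine integral_mono (hhi n) (hLi.add hi) fun s => ?_
    have := le_max_left (h n s - L s) 0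
    show h n s ≤ L s + max (h n s - L s) 0
    linarith
  have h5 : Tendsto (fun n => ∫ s, L s ∂η + ∫ s, max (h n s - L s) 0 ∂η) atTop
      (𝓝 (∫ s, L s ∂η)) := by
    have := hlim.const_add (∫ s, L s ∂η)
    rwa [add_zero] at this
  rw [← h5.limsup_eq]
  refine limsup_le_limsup (Eventually.of_forall hle) ?_ ?_
  · have hb : IsBoundedUnder (· ≥ ·) atTop (fun n => ∫ s, h n s ∂η) := by
      refine isBoundedUnder_of ⟨-K, fun n => ?_⟩
      show -K ≤ ∫ s, h n s ∂η
      have : ∫ _, (-K) ∂η ≤ ∫ s, h n s ∂η :=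
        integral_mono (integrable_const _) (hhi n) fun s => (abs_le.1 (hK n s)).1
      simpa using this
    exact hb.isCoboundedUnder_le
  · exact h5.isBoundedUnder_le

theorem pn_hk_dis {Γ : Type} [AddCommGroup Γ] {E : ℕ → Finset Γ} (hE : IsExh E)
    {Y : Type u} [MeasurableSpace Y] {M : Measure Y} [IsProbabilityMeasure M] {T : Γ → Y → Y}
    (hT : ∀ g, Measurable (T g)) {Z : Type v} [MeasurableSpace Z] {η : Measure Z}
    [IsProbabilityMeasure η] {c : Y → Z} (hc : Measurable c) {κ : Kernel Z Y}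
    [IsMarkovKernel κ] (hκ : IsDis M c η κ) (k : ℕ) (F : Y → ℂ) (hF : Measurable F)
    (hb : ∃ C : ℝ, ∀ y, ‖F y‖ ≤ C) :
    Measurable (fun s => hk (κ s) E T k F) ∧ hk M E T k F ≤ ∫ s, hk (κ s) E T k F ∂η := by
  induction k generalizing F with
  | zero =>
    constructor
    · show Measurable fun s => (∫ y, F y ∂(κ s)).re
      exact Complex.measurable_re.comp (hF.stronglyMeasurable.integral_kernel (κ := κ)).measurable
    · show (∫ y, F y ∂M).re ≤ ∫ s, (∫ y, F y ∂(κ s)).re ∂η
      have hcm : Measurable fun y => (c y, y) := hc.prodMk measurable_id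
      have hFi : Integrable (fun q : Z × Y => F q.2) (η ⊗ₘ κ) :=
        pn_integrable _ (hF.comp measurable_snd) (by
          obtain ⟨C, hC⟩ := hb
          exact ⟨C, fun q => hC _⟩)
      have h1 : ∫ y, F y ∂M = ∫ s, ∫ y, F y ∂(κ s) ∂η := by
        rw [← Measure.integral_compProd hFi, hκ,
          integral_map (f := fun q : Z × Y => F q.2) hcm.aemeasurable
            (hF.comp measurable_snd).aestronglyMeasurable]
      rw [h1]
      have hi : Integrable (fun s => ∫ y, F y ∂(κ s)) η := by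
        refine pn_integrable _ (hF.stronglyMeasurable.integral_kernel (κ := κ)).measurable ?_
        obtain ⟨C, hC⟩ := hb
        refine ⟨C, fun s => ?_⟩
        have := norm_integral_le_of_norm_le_const (μ := κ s) (Eventually.of_forall hC)
        simpa using this
      exact (integral_re hi).symm.le
  | succ k ih =>
    have hmul : ∀ g, Measurable (fun y => F (T g y) * (starRingEnd ℂ) (F y)) := fun g =>
      (hF.comp (hT g)).mul (pn_meas_conj hF)
    have hbd : ∀ g, ∃ C : ℝ, ∀ y, ‖F (T g y) * (starRingEnd ℂ) (F y)‖ ≤ C := fun g => by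
      apply pn_bdd_mul _ (pn_bdd_conj hb)
      obtain ⟨C, hC⟩ := hb
      exact ⟨C, fun x => hC _⟩
    have hmeas : ∀ n, Measurable fun s => avg (E n)
        fun g => hk (κ s) E T k (fun y => F (T g y) * (starRingEnd ℂ) (F y)) := by
      intro n
      have : Measurable fun s => ∑ g ∈ E n,
          hk (κ s) E T k (fun y => F (T g y) * (starRingEnd ℂ) (F y)) :=
        Finset.measurable_sum _ fun g _ => (ih _ (hmul g) (hbd g)).1
      exact this.const_smul (((E n).card : ℝ)⁻¹)
    obtain ⟨C, hC⟩ := hb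
    have hC0 : 0 ≤ |C| := abs_nonneg C
    have hC' : ∀ y, ‖F y‖ ≤ |C| := fun y => (hC y).trans (le_abs_self C)
    have hgb : ∀ (P : Measure Y) [IsProbabilityMeasure P] g,
        |hk P E T k (fun y => F (T g y) * (starRingEnd ℂ) (F y))| ≤ (|C| ^ 2) ^ 2 ^ k := by
      intro P _ g
      apply pn_hk_abs hE P k (|C| ^ 2) (by positivity)
      intro y
      rw [norm_mul, RCLike.norm_conj, sq]
      exact mul_le_mul (hC' _) (hC' _) (norm_nonneg _) hC0
    constructor
    · show Measurable fun s => limsup (fun n => avg (E n)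
        fun g => hk (κ s) E T k (fun y => F (T g y) * (starRingEnd ℂ) (F y))) atTop
      exact Measurable.limsup hmeas
    · show limsup (fun n => avg (E n)
        fun g => hk M E T k (fun y => F (T g y) * (starRingEnd ℂ) (F y))) atTop ≤
        ∫ s, limsup (fun n => avg (E n)
          fun g => hk (κ s) E T k (fun y => F (T g y) * (starRingEnd ℂ) (F y))) atTop ∂η
      refine le_trans ?_ (pn_fatou _ hmeas ((|C| ^ 2) ^ 2 ^ k) fun n s =>
        pn_avg_abs hE n _ _ fun g => hgb (κ s) g)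
      have hint : ∀ g, Integrable (fun s => hk (κ s) E T k
          (fun y => F (T g y) * (starRingEnd ℂ) (F y))) η := fun g =>
        Integrable.of_bound (ih _ (hmul g) (hbd g)).1.aestronglyMeasurable ((|C| ^ 2) ^ 2 ^ k)
          (Eventually.of_forall fun s => by rw [Real.norm_eq_abs]; exact hgb (κ s) g)
      have hle : ∀ n, avg (E n)
          (fun g => hk M E T k (fun y => F (T g y) * (starRingEnd ℂ) (F y))) ≤
          ∫ s, avg (E n) (fun g => hk (κ s) E T k
            (fun y => F (T g y) * (starRingEnd ℂ) (F y))) ∂η := by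
        intro n
        have h1 : ∫ s, avg (E n) (fun g => hk (κ s) E T k
            (fun y => F (T g y) * (starRingEnd ℂ) (F y))) ∂η =
            avg (E n) (fun g => ∫ s, hk (κ s) E T k
              (fun y => F (T g y) * (starRingEnd ℂ) (F y)) ∂η) := by
          unfold avg
          rw [integral_smul, integral_finsetSum _ fun g _ => hint g]
        rw [h1]
        exact pn_avg_mono _ _ _ fun g => (ih _ (hmul g) (hbd g)).2
      have habs : ∀ n, |avg (E n)
          (fun g => hk M E T k (fun y => F (T g y) * (starRingEnd ℂ) (F y)))| ≤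
          (|C| ^ 2) ^ 2 ^ k := fun n => pn_avg_abs hE n _ _ fun g => hgb M g
      refine limsup_le_limsup (Eventually.of_forall hle) ?_ ?_
      · have hb' : IsBoundedUnder (· ≥ ·) atTop (fun n => avg (E n)
          (fun g => hk M E T k (fun y => F (T g y) * (starRingEnd ℂ) (F y)))) :=
          isBoundedUnder_of ⟨-(|C| ^ 2) ^ 2 ^ k, fun n => (abs_le.1 (habs n)).1⟩
        exact hb'.isCoboundedUnder_le
      · refine isBoundedUnder_of ⟨(|C| ^ 2) ^ 2 ^ k, fun n => ?_⟩
        have h6 : Integrable (fun s => avg (E n) (fun g => hk (κ s) E T k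
            (fun y => F (T g y) * (starRingEnd ℂ) (F y)))) η :=
          Integrable.of_bound (hmeas n).aestronglyMeasurable ((|C| ^ 2) ^ 2 ^ k)
            (Eventually.of_forall fun s => by
              rw [Real.norm_eq_abs]; exact pn_avg_abs hE n _ _ fun g => hgb (κ s) g)
        have := integral_mono h6 (integrable_const ((|C| ^ 2) ^ 2 ^ k)) fun s =>
          (abs_le.1 (pn_avg_abs hE n _ _ fun g => hgb (κ s) g)).2
        simpa using this

theorem hk_dis {Γ : Type} [AddCommGroup Γ] [Countable Γ] {E : ℕ → Finset Γ} (hE : IsExh E)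
    {Y : Type u} [MeasurableSpace Y] {M : Measure Y} [IsProbabilityMeasure M] {T : Γ → Y → Y}
    (hT : ∀ g, Measurable (T g)) {Z : Type v} [MeasurableSpace Z] {η : Measure Z}
    [IsProbabilityMeasure η] {c : Y → Z} (hc : Measurable c) {κ : Kernel Z Y}
    [IsMarkovKernel κ] (hκ : IsDis M c η κ) (k : ℕ) (F : Y → ℂ) (hF : Measurable F)
    (hb : ∃ C : ℝ, ∀ y, ‖F y‖ ≤ C) (h0 : ∀ᵐ s ∂η, hk (κ s) E T k F = 0) :
    hk M E T k F ≤ 0 := by
  refine (pn_hk_dis hE hT hc hκ k F hF hb).2.trans ?_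
  rw [integral_congr_ae h0]
  simp

theorem isExh_box (p : ℕ) [Fact p.Prime] : IsExh (box p) := by
  have hmem : ∀ n (f : Fpω p), f ∈ box p n ↔ ∀ i, n ≤ i → f i = 0 := by
    intro n f
    unfold box
    rw [Finset.mem_finsupp_iff]
    constructor
    · rintro ⟨h1, -⟩ i hi
      by_contra hne
      have := h1 (Finsupp.mem_support_iff.2 hne)
      rw [Finset.mem_range] at this
      omega
    · intro h
      refine ⟨fun i hi => ?_, fun i _ => Finset.mem_univ _⟩
      rw [Finset.mem_range]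
      by_contra hlt
      exact (Finsupp.mem_support_iff.1 hi) (h i (by omega))
  refine ⟨fun n => ?_, fun n g hg h hh => ?_, fun n g hg => ?_, fun m n hmn g hg => ?_,
    fun g => ?_⟩
  · rw [hmem]; intro i _; rfl
  · rw [hmem] at hg hh ⊢
    intro i hi
    rw [Finsupp.add_apply, hg i hi, hh i hi, add_zero]
  · rw [hmem] at hg ⊢
    intro i hi
    rw [Finsupp.neg_apply, hg i hi, neg_zero]
  · rw [hmem] at hg ⊢
    intro i hi
    exact hg i (hmn.trans hi)
  · refine ⟨g.support.sup id + 1, ?_⟩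
    rw [hmem]
    intro i hi
    by_contra hne
    have := Finset.le_sup (f := id) (Finsupp.mem_support_iff.2 hne)
    simp only [id] at this
    omega

end Pool.Agent.FpTrans
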