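import Pool.Agent.FpTrans.Defs

/-!
# Gowers-Host-Kra seminorms and systems of order `k`
-/

set_option autoImplicit false
open MeasureTheory Filter

namespace Pool.Agent.FpTrans

universe u v w

/-- average over a finite set -/
noncomputable def avg {Γ : Type v} {V : Type w} [AddCommMonoid V] [SMul ℝ V] (E : Finset Γ)
    (F : Γ → V) : V :=
  ((E.card : ℝ)⁻¹) • ∑ g ∈ E, F g

/-- The `2^k`-th power of the Gowers-Host-Kra seminorm `U^k` of `f`, along the Følner sequence `E`:
`‖f‖_{U^0} = ∫ f` and `‖f‖_{U^(k+1)}^(2^(k+1))` is the limit of the averages over `g ∈ E n` of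
`‖f(T_g x) conj (f x)‖_{U^k}^(2^k)`. -/
noncomputable def hk {Γ : Type v} {X : Type u} [MeasurableSpace X] (μ : Measure X)
    (E : ℕ → Finset Γ) (T : Γ → X → X) : ℕ → (X → ℂ) → ℝ
  | 0, f => (∫ x, f x ∂μ).re
  | k + 1, f => limsup (fun n => avg (E n)
      fun g => hk μ E T k (fun x => f (T g x) * (starRingEnd ℂ) (f x))) atTop

/-- The finite subgroup of `F_p^ω` of all vectors supported in `{0, …, n - 1}`. -/
noncomputable def box (p : ℕ) [NeZero p] (n : ℕ) : Finset (Fpω p) :=
  (Finset.range n).finsupp fun _ => Finset.univ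

/-- The system is of order `k`: the seminorm `U^(k+1)` vanishes only at `0`. -/
def IsOrder {p : ℕ} [NeZero p] {X : Type u} [MeasurableSpace X] (μ : Measure X)
    (T : Fpω p → X → X) (k : ℕ) : Prop :=
  ∀ f : X → ℂ, Measurable f → (∃ C : ℝ, ∀ x, ‖f x‖ ≤ C) → hk μ (box p) T (k + 1) f = 0 →
    f =ᵐ[μ] 0

end Pool.Agent.FpTrans
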