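import Pool.Agent.FpTrans.Defs2
import Pool.Agent.FpOrd.DefsOrder

/-!
# Definitions for the structure theorem of order `k` systems
-/

set_option autoImplicit false
open MeasureTheory Filter Topology ProbabilityTheory

namespace Pool.Agent.FpTrans

universe u v w

/-- `ee t = exp (2 π i t)`. -/
noncomputable def ee (t : UnitAddCircle) : ℂ := (AddCircle.toCircle t : ℂ)

/-- The `L¹` distance of `exp (2 π i φ)` to `1`. -/
noncomputable def nrm {X : Type u} [MeasurableSpace X] (μ : Measure X) (φ : X → UnitAddCircle) :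
    ℝ :=
  ∫ x, ‖ee (φ x) - 1‖ ∂μ

/-- An increasing exhaustion of `Γ` by finite subgroups. -/
structure IsExh {Γ : Type v} [AddCommGroup Γ] (E : ℕ → Finset Γ) : Prop where
  zero : ∀ n, (0 : Γ) ∈ E n
  add : ∀ n, ∀ g ∈ E n, ∀ h ∈ E n, g + h ∈ E n
  neg : ∀ n, ∀ g ∈ E n, -g ∈ E n
  mono : Monotone E
  exh : ∀ g, ∃ n, g ∈ E n

/-- diagonal action on a product -/
def pact {Γ : Type v} {X : Type u} {Y : Type w} (T : Γ → X → X) (S : Γ → Y → Y) :
    Γ → X × Y → X × Y :=
  fun g q => (T g q.1, S g q.2)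

/-- `κ` is the disintegration of `M` over `c`, whose distribution is `η`. -/
def IsDis {Y : Type u} {Z : Type v} [MeasurableSpace Y] [MeasurableSpace Z] (M : Measure Y)
    (c : Y → Z) (η : Measure Z) (κ : Kernel Z Y) : Prop :=
  η ⊗ₘ κ = M.map (fun y => (c y, y))

/-- `κ` disintegrates `μ × μ` over `z x' - z x`. -/
def IsPair {X : Type u} {Z : Type v} [MeasurableSpace X] [MeasurableSpace Z] [Sub Z]
    (μ : Measure X) (z : X → Z) (η : Measure Z) (κ : Kernel Z (X × X)) : Prop :=
  IsDis (μ.prod μ) (fun q => z q.2 - z q.1) η κ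

/-- `z : X → (I → ZMod p)` is a coordinatisation of the Kronecker factor, with `Γ` acting by
`α`. -/
structure Kron (p : ℕ) {Γ : Type} [AddCommGroup Γ] {X : Type u} [MeasurableSpace X]
    (μ : Measure X) (T : Γ → X → X) {I : Type} (η : Measure (I → ZMod p))
    (α : Γ → I → ZMod p) (z : X → I → ZMod p) : Prop where
  mp : MeasurePreserving z μ η
  hom : ∀ g h, α (g + h) = α g + α h
  eqv : ∀ g, ∀ᵐ x ∂μ, z (T g x) = z x + α g
  full : ∀ Q : X → ZMod p, Measurable Q → AEPoly μ T 2 Q → Capt μ z Q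

/-- translations -/
def trans {K : Type v} [Add K] : K → K → K := fun a k => k + a

/-- `f` depends only on the coordinates in `s`. -/
def DepOn {J : Type v} {A : Type w} {β : Type u} (s : Set J) (f : (J → A) → β) : Prop :=
  ∀ k k' : J → A, (∀ j ∈ s, k j = k' j) → f k = f k'

/-- `s` is closed under the system `S`: the coordinates in `s` of `S g k` depend only on the
coordinates in `s` of `k`. -/
def Cl {Γ J : Type} {A : Type} (S : Γ → (J → A) → (J → A)) (s : Set J) : Prop :=
  ∀ g, ∀ j ∈ s, DepOn s (fun k => S g k j)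

/-- Translations by vectors supported in `V` commute with `S`, as far as coordinates in `s` are
concerned. -/
def Tp {Γ J : Type} {A : Type} [AddCommGroup A] (S : Γ → (J → A) → (J → A)) (V s : Set J) :
    Prop :=
  ∀ g k v, (∀ j, j ∉ V → v j = 0) → ∀ j ∈ s, S g (k + v) j = S g k j + v j

/-- the level of a coordinate: the coordinates in `I` have level `0` -/
def lv {I J : Type} (lev : J → ℕ) : I ⊕ J → ℕ := Sum.elim (fun _ => 0) lev

/-- A factor of `X` on the compact group `(ℤ/p)^(I ⊕ J)`, over the Kronecker factor `z` (on which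
`Γ` acts by `α`), which is triangular for the level function `lev`, and has polynomial
coordinates. -/
structure Tow (p : ℕ) {Γ : Type} [AddCommGroup Γ] {X : Type u} [MeasurableSpace X]
    (μ : Measure X) (T : Γ → X → X) {I : Type} (α : Γ → I → ZMod p) (z : X → I → ZMod p)
    (B : ℕ → ℕ → ℕ) (D n : ℕ) where
  J : Type
  [cJ : Countable J]
  lev : J → ℕ
  hlev : ∀ j, 1 ≤ lev j ∧ lev j ≤ n
  ν : Measure (I ⊕ J → ZMod p)
  [prob : IsProbabilityMeasure ν]
  [inv : ν.IsAddLeftInvariant]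
  S : Γ → (I ⊕ J → ZMod p) → (I ⊕ J → ZMod p)
  hS : IsAction ν S
  hSc : ∀ g, Continuous (S g)
  hS0 : ∀ g k i, S g k (Sum.inl i) = k (Sum.inl i) + α g i
  tri : ∀ g j, DepOn {i | lv lev i < lv lev j} (fun k => S g k j - k j)
  a : X → (I ⊕ J → ZMod p)
  az : ∀ x i, a x (Sum.inl i) = z x i
  ha : MeasurePreserving a μ ν
  haS : ∀ g, ∀ᵐ x ∂μ, a (T g x) = S g (a x)
  pp : PolyProp p ν S B
  hw : ∀ j, IsPoly (tm S) (D + 1) (fun k => k j)

attribute [instance] Tow.cJ Tow.prob Tow.inv

/-- coordinates of a pair of points of a tower over `z` -/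
def wmap {p : ℕ} {X : Type u} {I J : Type} (a : X → (I ⊕ J → ZMod p)) (q : X × X) :
    I ⊕ (J ⊕ J) → ZMod p :=
  Sum.elim (fun i => a q.1 (Sum.inl i))
    (Sum.elim (fun j => a q.1 (Sum.inr j)) (fun j => a q.2 (Sum.inr j)))

/-- the coordinates of the first point -/
def U₁ (I J : Type) : Set (I ⊕ (J ⊕ J)) := {i | ∀ j, i ≠ Sum.inr (Sum.inr j)}

/-- the coordinates of the second point -/
def U₂ (I J : Type) : Set (I ⊕ (J ⊕ J)) := {i | ∀ j, i ≠ Sum.inr (Sum.inl j)}

/-- the levels of the coordinates of a pair -/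
def lw {I J : Type} (lev : J → ℕ) : I ⊕ (J ⊕ J) → ℕ := lv (Sum.elim lev lev)

end Pool.Agent.FpTrans
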