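import Pool.Agent.FpOrd.Norm
import Pool.Agent.FpTrans.Main

/-!
MP_323ac4_an, package H (helper12): translation polynomials.
-/

set_option autoImplicit false
open MeasureTheory Filter Topology ProbabilityTheory

namespace Pool.Agent.FpTrans

universe u v w

/-- circle valued polynomials are constants plus torsion valued polynomials -/
theorem ph_torsion {p : ℕ} [Fact p.Prime] {Γ : Type} [AddCommGroup Γ] [Countable Γ]
    (hΓ : ∀ g : Γ, p • g = 0) {X : Type u} [MeasurableSpace X] {μ : Measure X}
    {T : Γ → X → X} (hT : IsAction μ T) (hE : IsErgodic μ T) {C : ℕ}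
    {P : X → UnitAddCircle} (hPm : Measurable P) (hPp : AEPoly μ T (C + 1) P) :
    ∃ (c : UnitAddCircle) (h : X → ZMod (p ^ (C + 1))), Measurable h ∧
      AEPoly μ T (C + 1) h ∧ P =ᵐ[μ] fun x => ZMod.toAddCircle (h x) + c := by
  have hp : 0 < p := (Fact.out : p.Prime).pos
  have h1 := hPp.torsion hp hΓ hT
  obtain ⟨c0, hc0⟩ := hE.const hT (f := fun x => p ^ C • P x)
    ((continuous_nsmul (p ^ C)).measurable.comp hPm) (fun g => by
    filter_upwards [h1 g] with x hx
    rw [smul_sub] at hx
    exact sub_eq_zero.1 hx)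
  obtain ⟨c, hc⟩ : ∃ c : UnitAddCircle, p ^ C • c = c0 := by
    induction c0 using QuotientAddGroup.induction_on with
    | H r =>
      refine ⟨((r / p ^ C : ℝ) : UnitAddCircle), ?_⟩
      rw [← AddCircle.coe_nsmul]
      congr 1
      rw [nsmul_eq_mul]
      push_cast
      field_simp
  set N : ℕ := p ^ (C + 1) with hN
  have hNpos : 0 < N := pow_pos hp _
  have hmem : MeasurableEmbedding (ZMod.toAddCircle : ZMod N →+ UnitAddCircle) := by
    refine ⟨ZMod.toAddCircle_injective N, measurable_of_countable _, ?_⟩
    intro s _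
    exact (s.toFinite.image _).measurableSet
  obtain ⟨h, hhm, hh⟩ := hmem.exists_measurable_extend (g := id) measurable_id
    (fun _ => ⟨(0 : ZMod N)⟩)
  have hQ : (fun x => P x - c) =ᵐ[μ] fun x => ZMod.toAddCircle (h (P x - c)) := by
    filter_upwards [hc0] with x hx
    have h2 : N • (P x - c) = 0 := by
      rw [hN, pow_succ, mul_comm, mul_smul, smul_sub, hx, hc, sub_self, smul_zero]
    rw [AddCircle.nsmul_eq_zero_iff hNpos] at h2
    obtain ⟨m, hm, hm2⟩ := h2
    have h3 : (ZMod.toAddCircle (m : ZMod N) : UnitAddCircle) = P x - c := by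
      rw [← hm2, ZMod.toAddCircle_natCast]
      simp
    rw [← h3]
    have h4 := congrFun hh (m : ZMod N)
    simp only [Function.comp_apply, id] at h4
    rw [h4]
  have hpoly : AEPoly μ T (C + 1) (fun x => h (P x - c)) := by
    apply AEPoly.of_hom (ZMod.toAddCircle : ZMod N →+ UnitAddCircle) (ZMod.toAddCircle_injective N)
    refine AEPoly.congr hT.qmp (hPp.sub ((AEPoly.const c).mono (by omega) hT.qmp)) hQ.symm
  refine ⟨c, fun x => h (P x - c), hhm.comp (hPm.sub_const c), hpoly, ?_⟩
  filter_upwards [hQ] with x hx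
  rw [← hx, sub_add_cancel]

theorem ph_cont_toAddCircle (N : ℕ) [NeZero N] :
    Continuous (ZMod.toAddCircle : ZMod N →+ UnitAddCircle) :=
  continuous_of_discreteTopology

/-- `PolyProp` for functions with values in the circle -/
theorem polyProp_circle (p l : ℕ) [Fact p.Prime] (B : ℕ → ℕ → ℕ) : ∃ l' : ℕ,
    ∀ (Γ : Type) [AddCommGroup Γ] [Countable Γ], (∀ g : Γ, p • g = 0) →
    ∀ (J : Type) [Countable J] (ν : Measure (J → ZMod p)) [IsProbabilityMeasure ν]
      [ν.IsAddLeftInvariant] (S : Γ → (J → ZMod p) → (J → ZMod p)), IsAction ν S →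
      IsErgodic ν S → PolyProp p ν S B → ∀ F : (J → ZMod p) → UnitAddCircle, Measurable F →
      AEPoly ν S l F → ∃ f : (J → ZMod p) → UnitAddCircle, Continuous f ∧ f =ᵐ[ν] F ∧
        IsPoly (tm S) l' f := by
  refine ⟨max 1 (B l l), ?_⟩
  intro Γ _ _ hΓ J _ ν _ _ S hT hE hPP F hF hFp
  rcases l with _ | C
  · refine ⟨fun _ => 0, continuous_const, ?_, IsPoly.zero_fun _⟩
    exact (show F =ᵐ[ν] 0 from hFp).symm
  · obtain ⟨c, h, hh, hhp, hhe⟩ := ph_torsion hΓ hT hE hF hFp
    obtain ⟨f, hf, hfe, hfp⟩ := hPP (C + 1) (C + 1) h hh hhp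
    have : NeZero (p ^ (C + 1)) := ⟨pow_ne_zero _ (Fact.out : p.Prime).ne_zero⟩
    refine ⟨fun k => ZMod.toAddCircle (f k) + c,
      ((ph_cont_toAddCircle _).comp hf).add continuous_const, ?_, ?_⟩
    · filter_upwards [hhe, hfe] with k h1 h2
      rw [h1, h2]
    · exact ((hfp.hom _).mono (le_max_right _ _)).add ((IsPoly.const c).mono (le_max_left _ _))

theorem ph_reindex {X : Type u} [MeasurableSpace X] {μ : Measure X} {ι : Type v} {κ : Type w}
    {A : Type*} [AddCommGroup A] {T : ι → X → X} (ρ : κ → ι) {n : ℕ} {f : X → A}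
    (h : AEPoly μ T n f) : AEPoly μ (fun k => T (ρ k)) n f := by
  induction n generalizing f with
  | zero => exact h
  | succ n ih => intro k; exact ih (h (ρ k))

/-- translations satisfy `PolyProp` -/
theorem ph_trans_polyProp (p : ℕ) [Fact p.Prime] : ∃ B : ℕ → ℕ → ℕ, ∀ (J : Type) [Countable J]
    (ν : Measure (J → ZMod p)) [IsProbabilityMeasure ν] [ν.IsAddLeftInvariant],
    PolyProp p ν (fun (g : J →₀ ZMod p) (k : J → ZMod p) => k + ⇑g) B := by
  obtain ⟨B', hB'⟩ := polyProp_step p 2 (fun _ _ => 1)
  refine ⟨B', ?_⟩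
  intro J _ ν _ _
  obtain ⟨hA, hE⟩ := trans_ergodic p J ν
  set S0 : (J →₀ ZMod p) → Unit → Unit := fun _ k => k with hS0def
  set R : (J →₀ ZMod p) → Unit → J → ZMod p := fun g _ => ⇑g with hRdef
  have hinv : (Measure.dirac () : Measure Unit).IsAddLeftInvariant := by
    constructor
    intro g
    have : (fun x : Unit => g + x) = id := by funext x; rfl
    rw [this, Measure.map_id]
  have hS0 : IsAction (Measure.dirac ()) S0 :=
    ⟨fun _ => rfl, fun _ _ _ => rfl, fun _ => MeasurePreserving.id _⟩
  have hPP0 : PolyProp p (Measure.dirac ()) S0 (fun _ _ => 1) := by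
    intro N l F hF _
    refine ⟨F, continuous_of_discreteTopology, ae_eq_refl _, ?_⟩
    intro i s
    show F (tm S0 i s) - F s = 0
    rw [Subsingleton.elim (tm S0 i s) s, sub_self]
  have hmp : MeasurePreserving (fun k : J → ZMod p => ((), k)) ν
      ((Measure.dirac ()).prod ν) := by
    refine ⟨measurable_const.prodMk measurable_id, ?_⟩
    rw [Measure.dirac_prod]
  have hAe : IsAction ((Measure.dirac ()).prod ν) (ext S0 R) := by
    refine ⟨?_, ?_, ?_⟩
    · rintro ⟨u, k⟩
      simp [ext, hS0def, hRdef]
    · rintro g h ⟨u, k⟩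
      simp only [ext, hS0def, hRdef, Finsupp.coe_add]
      rw [add_assoc, add_comm (⇑g) (⇑h)]
    · intro g
      have hm : Measurable (ext S0 R g) :=
        measurable_fst.prodMk (measurable_snd.add_const _)
      refine ⟨hm, ?_⟩
      conv_lhs => rw [← hmp.map_eq]
      rw [Measure.map_map hm hmp.measurable]
      have h2 : (ext S0 R g) ∘ (fun k : J → ZMod p => ((), k)) =
          (fun k : J → ZMod p => ((), k)) ∘ (fun k => k + ⇑g) := rfl
      rw [h2, ← Measure.map_map hmp.measurable (hA.mp g).measurable, (hA.mp g).map_eq,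
        hmp.map_eq]
  have hEe : IsErgodic ((Measure.dirac ()).prod ν) (ext S0 R) :=
    hE.factor hA hmp (fun g => Filter.Eventually.of_forall fun k => rfl)
  have hPP := hB' (J →₀ ZMod p) Unit (Measure.dirac ()) S0 hS0 (fun _ => continuous_id) hPP0 J ν R
    (fun _ => continuous_const) hAe hEe (by
      intro i
      apply AEPoly.of_isPoly
      intro g h y
      simp [ext, hRdef])
  have hmp2 : MeasurePreserving (Prod.snd : Unit × (J → ZMod p) → _)
      ((Measure.dirac ()).prod ν) ν := measurePreserving_snd
  intro N l F hF hFp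
  have h1 : AEPoly ((Measure.dirac ()).prod ν) (ext S0 R) l (fun y => F y.2) :=
    AEPoly.comp_factor hmp2.quasiMeasurePreserving hAe.qmp
      (fun g => Filter.Eventually.of_forall fun y => rfl) hFp
  obtain ⟨f, hf, hfe, hfp⟩ := hPP N l (fun y => F y.2) (hF.comp measurable_snd) h1
  refine ⟨fun k => f ((), k), hf.comp (by fun_prop), ?_, ?_⟩
  · have h2 := hmp.quasiMeasurePreserving.ae hfe
    exact h2
  · refine hfp.comp_map (t' := tm _) (fun k => ((), k))
      (fun i => match i with
        | .inl a => .inl ((), a)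
        | .inr g => .inr g) ?_
    rintro (a | g) k <;> rfl

/-- a.e. translation polynomials are continuous translation polynomials -/
theorem trans_cont (p l : ℕ) [Fact p.Prime] : ∃ l' : ℕ, ∀ (J : Type) [Countable J]
    (ν : Measure (J → ZMod p)) [IsProbabilityMeasure ν] [ν.IsAddLeftInvariant]
    (F : (J → ZMod p) → UnitAddCircle), Measurable F → AEPoly ν trans l F →
    ∃ f : (J → ZMod p) → UnitAddCircle, Continuous f ∧ f =ᵐ[ν] F ∧ IsPoly trans l' f := by
  obtain ⟨B, hB⟩ := ph_trans_polyProp p
  obtain ⟨l', hl'⟩ := polyProp_circle p l B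
  refine ⟨l', ?_⟩
  intro J _ ν _ _ F hF hFp
  obtain ⟨hA, hE⟩ := trans_ergodic p J ν
  obtain ⟨f, hf, hfe, hfp⟩ := hl' (J →₀ ZMod p) (fun g => by
    ext j
    simp) J ν _ hA hE (hB J ν) F hF
    (ph_reindex (fun g : J →₀ ZMod p => (⇑g : J → ZMod p)) hFp)
  refine ⟨f, hf, hfe, ?_⟩
  exact hfp.comp_map (t' := trans) (fun k => k) Sum.inl (fun _ _ => rfl)

/-! ### expansion of polynomials into functions of few coordinates -/

theorem ph_finite_dep {p : ℕ} [NeZero p] {J : Type} {Z : Type} [TopologicalSpace Z]
    [DiscreteTopology Z] {g : (J → ZMod p) → Z} (hg : Continuous g) :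
    ∃ s : Finset J, DepOn (s : Set J) g := by
  classical
  have h1 : ∀ k : J → ZMod p, ∃ s : Finset J, ∀ k', (∀ j ∈ s, k' j = k j) → g k' = g k := by
    intro k
    have hopen : IsOpen (g ⁻¹' {g k}) := (isOpen_discrete _).preimage hg
    obtain ⟨I, u, hu, hsub⟩ := isOpen_pi_iff.1 hopen k rfl
    refine ⟨I, fun k' hk' => hsub ?_⟩
    intro j hj
    rw [hk' j hj]
    exact (hu j hj).2
  choose s hs using h1
  obtain ⟨t, ht⟩ := isCompact_univ.elim_finite_subcover
    (fun k : J → ZMod p => {k' : J → ZMod p | ∀ j ∈ s k, k' j = k j}) (fun k => by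
      have : {k' : J → ZMod p | ∀ j ∈ s k, k' j = k j} =
          ⋂ j ∈ s k, (fun k' : J → ZMod p => k' j) ⁻¹' {k j} := by
        ext k'
        simp
      rw [this]
      exact isOpen_biInter_finset fun j _ => (isOpen_discrete _).preimage (continuous_apply j))
    (fun k _ => Set.mem_iUnion.2 ⟨k, fun _ _ => rfl⟩)
  refine ⟨t.biUnion s, ?_⟩
  intro k k' hkk
  obtain ⟨k0, hk0⟩ := Set.mem_iUnion.1 (ht (Set.mem_univ k))
  obtain ⟨hk0t, hk0k⟩ := Set.mem_iUnion.1 hk0
  have e1 : g k = g k0 := hs k0 k hk0k
  have e2 : g k' = g k0 := by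
    refine hs k0 k' fun j hj => ?_
    rw [← hkk j (Finset.mem_coe.2 (Finset.mem_biUnion.2 ⟨k0, hk0t, hj⟩))]
    exact hk0k j hj
  rw [e1, e2]

section expand

variable {p : ℕ} {J : Type} {A : Type} [AddCommGroup A]

/-- sums of functions of fewer than `l` coordinates -/
def ph_W (p : ℕ) (J A : Type) [AddCommGroup A] (l : ℕ) : AddSubgroup ((J → ZMod p) → A) :=
  AddSubgroup.closure {h | ∃ s : Finset J, s.card < l ∧ DepOn (s : Set J) h}

theorem ph_ind [DecidableEq J] {l : ℕ} (i : J) (a : ZMod p) {h : (J → ZMod p) → A}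
    (hh : h ∈ ph_W p J A l) :
    (fun k => if k i = a then h k else 0) ∈ ph_W p J A (l + 1) := by
  unfold ph_W at hh
  induction hh using AddSubgroup.closure_induction with
  | mem x hx =>
    obtain ⟨s, hs, hd⟩ := hx
    refine AddSubgroup.subset_closure ⟨insert i s, ?_, ?_⟩
    · have := Finset.card_insert_le i s
      omega
    · intro k k' hk
      have h1 : k i = k' i := hk i (by simp)
      have h2 : x k = x k' := hd k k' fun j hj => hk j (by
        simp only [Finset.coe_insert, Set.mem_insert_iff]
        exact Or.inr hj)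
      simp only [h1, h2]
  | zero =>
    have : (fun k : J → ZMod p => if k i = a then (0 : (J → ZMod p) → A) k else 0) = 0 := by
      funext k; simp
    rw [this]
    exact AddSubgroup.zero_mem _
  | add x y hx hy h1 h2 =>
    have : (fun k : J → ZMod p => if k i = a then (x + y) k else 0) =
        (fun k => if k i = a then x k else 0) + (fun k => if k i = a then y k else 0) := by
      funext k
      simp only [Pi.add_apply]
      split_ifs <;> simp
    rw [this]
    exact AddSubgroup.add_mem _ h1 h2
  | neg x hx h1 =>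
    have : (fun k : J → ZMod p => if k i = a then (-x) k else 0) =
        -(fun k => if k i = a then x k else 0) := by
      funext k
      simp only [Pi.neg_apply]
      split_ifs <;> simp
    rw [this]
    exact AddSubgroup.neg_mem _ h1

theorem ph_expand [NeZero p] [DecidableEq J] (s : Finset J) : ∀ (l : ℕ) (g : (J → ZMod p) → A),
    IsPoly trans l g → DepOn (s : Set J) g → g ∈ ph_W p J A l := by
  induction s using Finset.induction_on with
  | empty =>
    intro l g hg hd
    rcases l with _ | l
    · have : g = 0 := funext hg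
      rw [this]
      exact AddSubgroup.zero_mem _
    · exact AddSubgroup.subset_closure ⟨∅, by simp, hd⟩
  | insert i s hi ih =>
    intro l g hg hd
    rcases l with _ | l
    · have : g = 0 := funext hg
      rw [this]
      exact AddSubgroup.zero_mem _
    · set z : (J → ZMod p) → (J → ZMod p) := fun k => Function.update k i 0 with hz
      have hzadd : ∀ a k, z (trans a k) = trans (z a) (z k) := by
        intro a k
        funext j
        simp only [hz, trans, Pi.add_apply]
        rcases eq_or_ne j i with rfl | hj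
        · simp
        · simp [Function.update_of_ne hj]
      have hdz : ∀ f : (J → ZMod p) → A, DepOn ((insert i s : Finset J) : Set J) f →
          DepOn (s : Set J) (fun k => f (z k)) := by
        intro f hf k k' hk
        apply hf
        intro j hj
        simp only [hz]
        rcases eq_or_ne j i with rfl | hji
        · simp
        · rw [Function.update_of_ne hji, Function.update_of_ne hji]
          apply hk
          simp only [Finset.coe_insert, Set.mem_insert_iff] at hj
          exact hj.resolve_left hji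
      have h1 : (fun k => g (z k)) ∈ ph_W p J A (l + 1) :=
        ih (l + 1) _ (hg.comp_map (t' := trans) z z hzadd) (hdz g hd)
      have h2 : ∀ a : ZMod p, (fun k => g (z k + Pi.single i a) - g (z k)) ∈ ph_W p J A l := by
        intro a
        refine ih l _ ?_ ?_
        · have := (hg (Pi.single i a)).comp_map (t' := trans) z z hzadd
          exact this
        · refine hdz (fun k => g (k + Pi.single i a) - g k) ?_
          intro k k' hk
          have e1 : g k = g k' := hd k k' hk
          have e2 : g (k + Pi.single i a) = g (k' + Pi.single i a) := by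
            refine hd _ _ fun j hj => ?_
            simp only [Pi.add_apply]
            rw [hk j hj]
          simp only [e1, e2]
      have h3 : ∑ a : ZMod p, (fun k : J → ZMod p => if k i = a then
          (g (z k + Pi.single i a) - g (z k)) else 0) ∈ ph_W p J A (l + 1) :=
        AddSubgroup.sum_mem _ fun a _ => ph_ind i a (h2 a)
      have h4 : g = (fun k => g (z k)) + ∑ a : ZMod p, (fun k : J → ZMod p => if k i = a then
          (g (z k + Pi.single i a) - g (z k)) else 0) := by
        funext k
        simp only [Pi.add_apply, Finset.sum_apply]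
        rw [Finset.sum_ite_eq]
        simp only [Finset.mem_univ, if_true]
        have : z k + Pi.single i (k i) = k := by
          funext j
          simp only [hz, Pi.add_apply]
          rcases eq_or_ne j i with rfl | hj
          · simp
          · simp [Function.update_of_ne hj, Pi.single_eq_of_ne hj]
        rw [this]
        abel
      rw [h4]
      exact AddSubgroup.add_mem _ h1 h3

end expand

/-- continuous translation polynomials are polynomials of the system, if the coordinates are -/
theorem trans_poly (p l D : ℕ) [Fact p.Prime] : ∃ l' : ℕ, ∀ (J : Type) [Countable J]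
    (Γ : Type) (S : Γ → (J → ZMod p) → (J → ZMod p)),
    (∀ j, IsPoly (tm S) (D + 1) (fun k => k j)) →
    ∀ f : (J → ZMod p) → UnitAddCircle, Continuous f → IsPoly trans l f →
    IsPoly (tm S) l' f := by
  classical
  choose E hE using fun m => comp_fin.{0, 0} p l m (D + 1)
  refine ⟨max 1 (∑ m ∈ Finset.range l, E m), ?_⟩
  intro J _ Γ S hco f hf hfp
  have hp : 0 < p := (Fact.out : p.Prime).pos
  rcases l with _ | C
  · exact IsPoly.of_eq_zero _ hfp
  -- torsion
  set ν : Measure (J → ZMod p) := Measure.addHaarMeasure ⊤ with hν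
  have hA : IsAction ν (trans : (J → ZMod p) → (J → ZMod p) → (J → ZMod p)) := by
    refine ⟨fun x => add_zero x, fun g h x => ?_, fun g => measurePreserving_add_right ν g⟩
    simp only [trans]
    rw [add_assoc, add_comm g h]
  have htor := (AEPoly.of_isPoly (μ := ν) hfp).torsion hp (fun g : J → ZMod p => by
    funext j; simp) hA
  have htor2 : ∀ g k, p ^ C • (f (k + g) - f k) = 0 := by
    intro g
    have hcont : Continuous (fun k => p ^ C • (f (k + g) - f k)) :=
      ((hf.comp (continuous_id.add continuous_const)).sub hf).const_smul (p ^ C)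
    have h1 : (fun k => p ^ C • (f (k + g) - f k)) = fun _ => 0 := by
      rw [← Continuous.ae_eq_iff_eq ν hcont continuous_const]
      exact htor g
    exact fun k => congrFun h1 k
  have hNne : NeZero (p ^ (C + 1)) := ⟨pow_ne_zero _ hp.ne'⟩
  have hlift : ∀ k, ∃ m : ZMod (p ^ (C + 1)), ZMod.toAddCircle m = f k - f 0 := by
    intro k
    have h1 := htor2 k 0
    rw [zero_add] at h1
    have h2 : p ^ (C + 1) • (f k - f 0) = 0 := by
      rw [pow_succ, mul_comm, mul_smul, h1, smul_zero]
    rw [AddCircle.nsmul_eq_zero_iff (pow_pos hp _)] at h2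
    obtain ⟨m, hm, hm2⟩ := h2
    refine ⟨(m : ZMod _), ?_⟩
    rw [← hm2, ZMod.toAddCircle_natCast]
    simp
  choose h hh using hlift
  have hemb := (ph_cont_toAddCircle (p ^ (C + 1))).isClosedEmbedding
    (ZMod.toAddCircle_injective (p ^ (C + 1)))
  have hhc : Continuous h := by
    rw [hemb.isInducing.continuous_iff]
    have : (ZMod.toAddCircle : ZMod (p ^ (C + 1)) →+ UnitAddCircle) ∘ h = fun k => f k - f 0 :=
      funext hh
    rw [this]
    exact hf.sub continuous_const
  have hhp : IsPoly trans (C + 1) h := by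
    apply IsPoly.of_hom (ZMod.toAddCircle : ZMod (p ^ (C + 1)) →+ UnitAddCircle)
      (ZMod.toAddCircle_injective _)
    refine (hfp.sub ((IsPoly.const (f 0)).mono (by omega))).congr fun k => hh k
  obtain ⟨s, hs⟩ := ph_finite_dep hhc
  have hW := ph_expand s (C + 1) h hhp hs
  have key : ∀ h' ∈ ph_W p J (ZMod (p ^ (C + 1))) (C + 1),
      IsPoly (tm S) (∑ m ∈ Finset.range (C + 1), E m) h' := by
    intro h' hh'
    unfold ph_W at hh'
    induction hh' using AddSubgroup.closure_induction with
    | mem x hx =>
      obtain ⟨t, ht, hd⟩ := hx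
      have h1 := hE t.card (J → ZMod p) ((J → ZMod p) ⊕ Γ) (tm S)
        (fun i k => k (t.equivFin.symm i)) (fun i => hco _)
        (fun y => x (fun j => if hj : j ∈ t then y (t.equivFin ⟨j, hj⟩) else 0))
      refine (h1.mono (Finset.single_le_sum (f := E) (fun _ _ => Nat.zero_le _)
        (Finset.mem_range.2 ht))).congr fun k => ?_
      refine hd _ _ fun j hj => ?_
      have hj' : j ∈ t := hj
      simp only [dif_pos hj', Equiv.symm_apply_apply]
    | zero => exact IsPoly.zero_fun _
    | add x y hx hy h1 h2 => exact h1.add h2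
    | neg x hx h1 => exact h1.neg
  have hfin := key h hW
  refine ((hfin.hom (ZMod.toAddCircle : ZMod (p ^ (C + 1)) →+ UnitAddCircle)).mono
    (le_max_right _ _) |>.add ((IsPoly.const (f 0)).mono (le_max_left _ _))).congr fun k => ?_
  rw [hh k, sub_add_cancel]

end Pool.Agent.FpTrans
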