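import Pool.Agent.FpTrans.PolyAE
import Pool.Agent.FpOrd.Defs
import Pool.Agent.FpOrd.TransPoly

/-!
# Package I: splitting off a block of coordinates
-/

set_option autoImplicit false
open MeasureTheory Filter Topology ProbabilityTheory

namespace Pool.Agent.FpTrans

universe u v w w'

/-- reindexing the family of maps -/
theorem AEPoly.pi_reindex {X : Type u} [MeasurableSpace X] {μ : Measure X} {ι : Type v}
    {κ : Type w'} {A : Type w} [AddCommGroup A] {T : ι → X → X} (r : κ → ι) {n : ℕ} {f : X → A}
    (h : AEPoly μ T n f) : AEPoly μ (fun k => T (r k)) n f := by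
  induction n generalizing f with
  | zero => exact h
  | succ n ih => intro k; exact ih (h (r k))

section

variable {K : Type} [AddCommGroup K] [MeasurableSpace K] [MeasurableAdd₂ K] [MeasurableNeg K]
  (ν : Measure K) [IsProbabilityMeasure ν] [ν.IsAddLeftInvariant]

omit [MeasurableNeg K] [IsProbabilityMeasure ν] in
theorem pi_trans_mp (a : K) : MeasurePreserving (trans a : K → K) ν ν :=
  measurePreserving_add_right ν a

omit [MeasurableNeg K] [IsProbabilityMeasure ν] in
theorem pi_trans_qmp (a : K) : Measure.QuasiMeasurePreserving (trans a : K → K) ν ν :=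
  (pi_trans_mp ν a).quasiMeasurePreserving

omit [MeasurableNeg K] in
theorem pi_trans2_mp (a : K × K) :
    MeasurePreserving (trans a : K × K → K × K) (ν.prod ν) (ν.prod ν) :=
  (pi_trans_mp ν a.1).prod (pi_trans_mp ν a.2)

omit [MeasurableNeg K] in
theorem pi_trans2_qmp (a : K × K) :
    Measure.QuasiMeasurePreserving (trans a : K × K → K × K) (ν.prod ν) (ν.prod ν) :=
  (pi_trans2_mp ν a).quasiMeasurePreserving

/-- the map `(k, k') ↦ k + φ (k' - k)` is measure preserving -/
theorem pi_mix_mp (φ : K → K) (hφ : Measurable φ) :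
    MeasurePreserving (fun q : K × K => q.1 + φ (q.2 - q.1)) (ν.prod ν) ν := by
  have h1 : MeasurePreserving (fun z : K × K => (z.1, -z.1 + z.2)) (ν.prod ν) (ν.prod ν) :=
    measurePreserving_prod_neg_add ν ν
  have h2 : MeasurePreserving (Prod.swap : K × K → K × K) (ν.prod ν) (ν.prod ν) :=
    Measure.measurePreserving_swap
  have h3 : MeasurePreserving (fun z : K × K => (z.1, z.2 + φ z.1)) (ν.prod ν) (ν.prod ν) := by
    refine (MeasurePreserving.id ν).skew_product (g := fun x y => y + φ x) ?_ ?_
    · exact measurable_snd.add (hφ.comp measurable_fst)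
    · exact Filter.Eventually.of_forall fun x => (pi_trans_mp ν (φ x)).map_eq
  have h4 : MeasurePreserving (Prod.snd : K × K → K) (ν.prod ν) ν := measurePreserving_snd
  have := h4.comp (h3.comp (h2.comp h1))
  refine cast (congrArg (fun f => MeasurePreserving f (ν.prod ν) ν) (funext fun q => ?_)) this
  simp [sub_eq_neg_add]

end

section

variable {p : ℕ} [Fact p.Prime] {J : Type} [Countable J]

omit [Countable J] in
theorem pi_ind_measurable (V : Set J) :
    Measurable (fun v : J → ZMod p => V.indicator v) := by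
  classical
  refine measurable_pi_lambda _ fun j => ?_
  by_cases hj : j ∈ V
  · simp only [Set.indicator_of_mem hj]; exact measurable_pi_apply j
  · simp only [Set.indicator_of_notMem hj]; exact measurable_const

theorem pi_claim (ν : Measure (J → ZMod p)) [IsProbabilityMeasure ν]
    [ν.IsAddLeftInvariant] (V : Set J) (b : ℕ) : ∀ F : (J → ZMod p) → UnitAddCircle,
      Measurable F → (∀ v, AEPoly ν trans b (fun k => F (k + V.indicator v) - F k)) →
      AEPoly (ν.prod ν) trans (b + 1)
        (fun q : (J → ZMod p) × (J → ZMod p) => F q.1 - F (q.1 + V.indicator (q.2 - q.1))) := by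
  induction b with
  | zero =>
    intro F hF h
    have hmp := measurePreserving_prod_neg_add ν ν
    have hset : MeasurableSet {z : (J → ZMod p) × (J → ZMod p) |
        F (z.1 + V.indicator z.2) - F z.1 = 0} := by
      refine (((hF.comp (measurable_fst.add ((pi_ind_measurable V).comp measurable_snd))).sub
        (hF.comp measurable_fst))) (measurableSet_singleton (0 : UnitAddCircle))
    have h1 : ∀ᵐ z : (J → ZMod p) × (J → ZMod p) ∂(ν.prod ν),
        F (z.1 + V.indicator z.2) - F z.1 = 0 := by
      have hsw : ∀ᵐ z : (J → ZMod p) × (J → ZMod p) ∂(ν.prod ν),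
          F (z.2 + V.indicator z.1) - F z.2 = 0 := by
        rw [Measure.ae_prod_iff_ae_ae]
        · exact Filter.Eventually.of_forall fun v => h v
        · exact measurable_swap hset
      have := (Measure.measurePreserving_swap (μ := ν) (ν := ν)).quasiMeasurePreserving.ae hsw
      exact this
    have h2 : ∀ᵐ q : (J → ZMod p) × (J → ZMod p) ∂(ν.prod ν),
        F q.1 - F (q.1 + V.indicator (q.2 - q.1)) = 0 := by
      filter_upwards [hmp.quasiMeasurePreserving.ae h1] with q hq
      have e : -q.1 + q.2 = q.2 - q.1 := by abel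
      simp only [e] at hq
      rw [← neg_eq_zero, neg_sub]; exact hq
    have h3 : AEPoly (ν.prod ν) trans 0
        (fun q : (J → ZMod p) × (J → ZMod p) => F q.1 - F (q.1 + V.indicator (q.2 - q.1))) := h2
    exact h3.succ (fun a => pi_trans2_qmp ν a)
  | succ b ih =>
    intro F hF h a
    -- the two parts of the difference
    have hFa : Measurable (fun k => F (k + a.1) - F k) :=
      (hF.comp (measurable_id.add_const a.1)).sub hF
    have h1 := ih (fun k => F (k + a.1) - F k) hFa (by
      intro v
      have := h v a.1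
      refine cast (congrArg (AEPoly ν trans b) (funext fun k => ?_)) this
      simp only [trans]
      have e : k + a.1 + V.indicator v = k + V.indicator v + a.1 := by abel
      rw [e]; abel)
    have hρ := pi_mix_mp ν (fun v => V.indicator v) (pi_ind_measurable V)
    have h2 : AEPoly ν trans (b + 1)
        (fun k => F (k + a.1 + V.indicator (a.2 - a.1)) - F (k + a.1)) := by
      have := (h (a.2 - a.1)).comp_factor (a := (trans a.1 : (J → ZMod p) → (J → ZMod p)))
        (T := trans) (S := trans) (μ := ν) (pi_trans_qmp ν a.1) (fun i => pi_trans_qmp ν i)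
        (fun i => Filter.Eventually.of_forall fun k => by simp only [trans]; abel)
      exact this
    have h3 := (h2.pi_reindex (fun i : (J → ZMod p) × (J → ZMod p) =>
        i.1 + V.indicator (i.2 - i.1))).comp_factor
      (a := fun q : (J → ZMod p) × (J → ZMod p) => q.1 + V.indicator (q.2 - q.1))
      (T := trans) (μ := ν.prod ν) hρ.quasiMeasurePreserving
      (fun i => pi_trans2_qmp ν i)
      (fun i => Filter.Eventually.of_forall fun q => by
        simp only [trans, Prod.fst_add, Prod.snd_add]
        have e : q.2 + i.2 - (q.1 + i.1) = (q.2 - q.1) + (i.2 - i.1) := by abel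
        rw [e, Set.indicator_add']; abel)
    refine cast (congrArg (AEPoly (ν.prod ν) trans (b + 1)) (funext fun q => ?_)) (h1.sub h3)
    simp only [trans, Prod.fst_add, Prod.snd_add]
    have e : q.2 + a.2 - (q.1 + a.1) = (q.2 - q.1) + (a.2 - a.1) := by abel
    rw [e, Set.indicator_add']
    have e1 : q.1 + a.1 + (V.indicator (q.2 - q.1) + V.indicator (a.2 - a.1)) =
      q.1 + V.indicator (q.2 - q.1) + a.1 + V.indicator (a.2 - a.1) := by abel
    rw [e1]
    have e2 : q.1 + V.indicator (q.2 - q.1) + a.1 = q.1 + V.indicator (q.2 - q.1) + a.1 := rfl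
    abel


/-- everywhere polynomials for the big family are polynomials for translations -/
theorem pi_tm_trans {K Γ : Type} {A : Type w} [Add K] [AddCommGroup A] {S : Γ → K → K} {n : ℕ}
    {f : K → A} (hf : IsPoly (tm S) n f) : IsPoly trans n f :=
  hf.comp_map (t' := (trans : K → K → K)) (fun k => k) Sum.inl (fun _ _ => rfl)

theorem pi_tm_sys {K Γ : Type} {A : Type w} [Add K] [AddCommGroup A] {S : Γ → K → K} {n : ℕ}
    {f : K → A} (hf : IsPoly (tm S) n f) : IsPoly S n f :=
  hf.comp_map (t' := S) (fun k => k) Sum.inr (fun _ _ => rfl)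

/-- if almost every `v` gives a translation polynomial then every `v` does -/
theorem pi_all (ν : Measure (J → ZMod p)) [IsProbabilityMeasure ν]
    [ν.IsAddLeftInvariant] (V : Set J) (b : ℕ) (F : (J → ZMod p) → UnitAddCircle)
    (h : ∀ᵐ v ∂ν, AEPoly ν trans b (fun k => F (k + V.indicator v) - F k)) :
    ∀ v, AEPoly ν trans b (fun k => F (k + V.indicator v) - F k) := by
  intro v
  have h1 : MeasurePreserving (fun w : J → ZMod p => v + w) ν ν := measurePreserving_add_left ν v
  obtain ⟨w, hw, hw'⟩ := (h.and (h1.quasiMeasurePreserving.ae h)).exists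
  have h2 := (hw'.sub hw).comp_factor
      (a := (trans (V.indicator (-w)) : (J → ZMod p) → (J → ZMod p)))
      (T := trans) (S := trans) (μ := ν) (pi_trans_qmp ν _) (fun i => pi_trans_qmp ν i)
      (fun i => Filter.Eventually.of_forall fun k => by simp only [trans]; abel)
  refine cast (congrArg (AEPoly ν trans b) (funext fun k => ?_)) h2
  simp only [trans]
  have e : k + V.indicator (-w) + V.indicator (v + w) = k + V.indicator v := by
    rw [add_assoc, ← Set.indicator_add']
    congr 2
    abel
  have e' : k + V.indicator (-w) + V.indicator w = k := by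
    rw [add_assoc, ← Set.indicator_add', neg_add_cancel]
    simp
  rw [e, e']; abel

end

theorem lemR (p l D : ℕ) [Fact p.Prime] (B : ℕ → ℕ → ℕ) : ∃ l' : ℕ,
    ∀ (Γ : Type) [AddCommGroup Γ] [Countable Γ], (∀ g : Γ, p • g = 0) →
    ∀ (J : Type) [Countable J] (ν : Measure (J → ZMod p)) [IsProbabilityMeasure ν]
      [ν.IsAddLeftInvariant] (S : Γ → (J → ZMod p) → (J → ZMod p)), IsAction ν S →
      (∀ g, Continuous (S g)) → IsErgodic ν S → PolyProp p ν S B →
      (∀ j, IsPoly (tm S) (D + 1) (fun k => k j)) →
    ∀ (s V : Set J), Cl S s → V ⊆ s → Cl S (s \ V) → Tp S V s →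
    ∀ F : (J → ZMod p) → UnitAddCircle, Measurable F → DepOn s F →
      (∀ᵐ v ∂ν, AEPoly ν S l (fun k => F (k + V.indicator v) - F k)) →
      ∃ F₀ P : (J → ZMod p) → UnitAddCircle, Measurable F₀ ∧ Measurable P ∧ DepOn (s \ V) F₀ ∧
        DepOn s P ∧ AEPoly ν S l' P ∧ ∀ k, F k = F₀ k + P k := by
  obtain ⟨b, hb⟩ := polyProp_circle p l B
  obtain ⟨c, hc⟩ := trans_cont p (b + 1)
  obtain ⟨d, hd⟩ := trans_poly p c D
  refine ⟨d, fun Γ _ _ hΓ J _ ν _ _ S hS hSc hE hpp hco s V hs hVs hsV hT F hF hFs hH => ?_⟩
  classical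
  -- all `v`-derivatives are translation polynomials
  have hall : ∀ v, AEPoly ν trans b (fun k => F (k + V.indicator v) - F k) := by
    refine pi_all ν V b F ?_
    filter_upwards [hH] with v hv
    obtain ⟨f, hfc, hff, hfp⟩ := hb Γ hΓ J ν S hS hE hpp _
      ((hF.comp (measurable_id.add_const (V.indicator v))).sub hF) hv
    exact (AEPoly.of_isPoly (μ := ν) (pi_tm_trans hfp)).congr (fun i => pi_trans_qmp ν i) hff.symm
  have hG := pi_claim ν V b F hF hall
  -- the function of two points on `(ℤ/p)^(J ⊕ J)`
  let e : (J → ZMod p) × (J → ZMod p) → (J ⊕ J → ZMod p) := fun q => Sum.elim q.1 q.2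
  have he : Measurable e := by
    refine measurable_pi_lambda _ fun j => ?_
    rcases j with j | j
    · exact (measurable_pi_apply j).comp measurable_fst
    · exact (measurable_pi_apply j).comp measurable_snd
  have headd : ∀ q r, e (q + r) = e q + e r := by
    intro q r; funext j
    rcases j with j | j <;> rfl
  let ν₂ : Measure (J ⊕ J → ZMod p) := (ν.prod ν).map e
  have : IsProbabilityMeasure ν₂ := Measure.isProbabilityMeasure_map he.aemeasurable
  have hsurj : ∀ w, e (fun j => w (Sum.inl j), fun j => w (Sum.inr j)) = w := by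
    intro w; funext j
    rcases j with j | j <;> rfl
  have hprod : (ν.prod ν).IsAddLeftInvariant := Measure.prod.instIsAddLeftInvariant
  have : ν₂.IsAddLeftInvariant := by
    refine isAddLeftInvariant_map (⟨e, headd⟩ : _ →ₙ+ _) he ?_
    intro w
    exact ⟨_, hsurj w⟩
  have hmp : MeasurePreserving e (ν.prod ν) ν₂ := ⟨he, rfl⟩
  let G : (J ⊕ J → ZMod p) → UnitAddCircle := fun w =>
    F (fun j => w (Sum.inl j)) -
      F ((fun j => w (Sum.inl j)) + V.indicator ((fun j => w (Sum.inr j)) - fun j => w (Sum.inl j)))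
  have hm1 : Measurable (fun (w : J ⊕ J → ZMod p) (j : J) => w (Sum.inl j)) :=
    measurable_pi_lambda _ fun j => measurable_pi_apply _
  have hm2 : Measurable (fun (w : J ⊕ J → ZMod p) (j : J) => w (Sum.inr j)) :=
    measurable_pi_lambda _ fun j => measurable_pi_apply _
  have hGm : Measurable G :=
    (hF.comp hm1).sub (hF.comp (hm1.add ((pi_ind_measurable V).comp (hm2.sub hm1))))
  have hGp : AEPoly ν₂ trans (b + 1) G := by
    refine AEPoly.of_comp_factor (T := fun i : J ⊕ J → ZMod p =>
      (trans ((fun j => i (Sum.inl j), fun j => i (Sum.inr j)) : (J → ZMod p) × (J → ZMod p)) :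
        (J → ZMod p) × (J → ZMod p) → (J → ZMod p) × (J → ZMod p))) hmp
      (fun i => pi_trans2_qmp ν _) (fun i => measurable_id.add_const i) ?_ hGm
      (hG.pi_reindex (fun i : J ⊕ J → ZMod p => (fun j => i (Sum.inl j), fun j => i (Sum.inr j))))
    intro i
    refine Filter.Eventually.of_forall fun q => ?_
    simp only [trans]
    rw [headd, hsurj]
    rfl
  obtain ⟨f, hfc, hff, hfp⟩ := hc (J ⊕ J) ν₂ G hGm hGp
  -- a generic second point
  have h1 : ∀ᵐ q ∂(ν.prod ν), f (e q) = G (e q) := hmp.quasiMeasurePreserving.ae hff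
  have h2 : ∀ᵐ k' ∂ν, ∀ᵐ k ∂ν, f (e (k, k')) = G (e (k, k')) := by
    have h3 : ∀ᵐ q ∂(ν.prod ν), f (e q.swap) = G (e q.swap) :=
      (Measure.measurePreserving_swap (μ := ν) (ν := ν)).quasiMeasurePreserving.ae h1
    exact Measure.ae_ae_of_ae_prod h3
  obtain ⟨k', hk'⟩ := h2.exists
  have hmF : Measurable (fun k : J → ZMod p => F (k + V.indicator (k' - k))) :=
    hF.comp (measurable_id.add ((pi_ind_measurable V).comp (measurable_const.sub measurable_id)))
  refine ⟨fun k => F (k + V.indicator (k' - k)), fun k => F k - F (k + V.indicator (k' - k)), hmF,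
    hF.sub hmF, ?_, ?_, ?_, fun k => (add_sub_cancel _ _).symm⟩
  · intro k₁ k₂ h
    refine hFs _ _ fun j hj => ?_
    by_cases hjV : j ∈ V
    · simp [Pi.add_apply, Set.indicator_of_mem hjV]
    · simp [Pi.add_apply, Set.indicator_of_notMem hjV, h j ⟨hj, hjV⟩]
  · intro k₁ k₂ h
    have e1 := hFs _ _ h
    have e2 : F (k₁ + V.indicator (k' - k₁)) = F (k₂ + V.indicator (k' - k₂)) := by
      refine hFs _ _ fun j hj => ?_
      by_cases hjV : j ∈ V
      · simp [Pi.add_apply, Set.indicator_of_mem hjV]
      · simp [Pi.add_apply, Set.indicator_of_notMem hjV, h j hj]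
    show F k₁ - _ = F k₂ - _
    rw [e1, e2]
  · have hcont : Continuous (fun k : J → ZMod p => f (e (k, k'))) := by
      refine hfc.comp (continuous_pi fun j => ?_)
      rcases j with j | j
      · exact continuous_apply j
      · exact continuous_const
    have hpoly : IsPoly trans c (fun k : J → ZMod p => f (e (k, k'))) := by
      refine hfp.comp_map (t' := (trans : (J → ZMod p) → _ → _)) (fun k => e (k, k'))
        (fun a => e (a, 0)) (fun a k => ?_)
      simp only [trans]
      rw [← headd]
      simp
    have h3 := hd J Γ S hco _ hcont hpoly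
    refine (AEPoly.of_isPoly (μ := ν) (pi_tm_sys h3)).congr (fun g => hS.qmp g) ?_
    filter_upwards [hk'] with k hk
    rw [hk]
    rfl

end Pool.Agent.FpTrans
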