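import Pool.Agent.FpOrd.LemR

/-!
# Lemmas T, S, X (package J)
-/

set_option autoImplicit false
open MeasureTheory Filter Topology

namespace Pool.Agent.FpTrans

/-! ### replacing coordinates -/

section repl

variable {J : Type} {A : Type}

open Classical in
/-- replace the coordinates in `W` of `k` by those of `κ` -/
noncomputable def pj_repl (W : Set J) (κ k : J → A) : J → A := fun j => if j ∈ W then κ j else k j

theorem pj_repl_mem {W : Set J} (κ k : J → A) {j : J} (hj : j ∈ W) : pj_repl W κ k j = κ j := by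
  unfold pj_repl; rw [if_pos hj]

theorem pj_repl_notMem {W : Set J} (κ k : J → A) {j : J} (hj : j ∉ W) :
    pj_repl W κ k j = k j := by
  unfold pj_repl; rw [if_neg hj]

theorem pj_repl_eq [AddCommGroup A] (W : Set J) (κ k : J → A) :
    pj_repl W κ k = k + W.indicator (κ - k) := by
  funext j
  by_cases hj : j ∈ W
  · rw [pj_repl_mem _ _ hj, Pi.add_apply, Set.indicator_of_mem hj]; simp
  · rw [pj_repl_notMem _ _ hj, Pi.add_apply, Set.indicator_of_notMem hj]; simp

theorem pj_repl_add [AddCommGroup A] (W : Set J) (κ k v : J → A) (hv : ∀ j ∈ W, v j = 0) :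
    pj_repl W κ (k + v) = pj_repl W κ k + v := by
  funext j
  by_cases hj : j ∈ W
  · rw [pj_repl_mem _ _ hj, Pi.add_apply, pj_repl_mem _ _ hj, hv j hj, add_zero]
  · rw [pj_repl_notMem _ _ hj, Pi.add_apply, Pi.add_apply, pj_repl_notMem _ _ hj]

theorem pj_depOn_repl {β : Type} {s W : Set J} {f : (J → A) → β} (hf : DepOn s f) (κ : J → A) :
    DepOn (s \ W) (fun k => f (pj_repl W κ k)) := by
  intro k k' h
  apply hf
  intro j hj
  by_cases hjW : j ∈ W
  · rw [pj_repl_mem _ _ hjW, pj_repl_mem _ _ hjW]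
  · rw [pj_repl_notMem _ _ hjW, pj_repl_notMem _ _ hjW]
    exact h j ⟨hj, hjW⟩

theorem pj_depOn_repl_eq {β : Type} {s W : Set J} {f : (J → A) → β} (hf : DepOn s f)
    (hsW : ∀ j ∈ s, j ∉ W) (κ k : J → A) : f (pj_repl W κ k) = f k :=
  hf _ _ fun j hj => pj_repl_notMem _ _ (hsW j hj)

theorem pj_continuous_repl [TopologicalSpace A] (W : Set J) (κ : J → A) :
    Continuous (pj_repl W κ) := by
  refine continuous_pi fun j => ?_
  by_cases hj : j ∈ W
  · simp only [pj_repl_mem _ _ hj]; exact continuous_const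
  · simp only [pj_repl_notMem _ _ hj]; exact continuous_apply j

theorem pj_measurable_repl [MeasurableSpace A] (W : Set J) :
    Measurable (fun q : (J → A) × (J → A) => pj_repl W q.1 q.2) := by
  refine measurable_pi_lambda _ fun j => ?_
  by_cases hj : j ∈ W
  · simp only [pj_repl_mem _ _ hj]; exact (measurable_pi_apply j).comp measurable_fst
  · simp only [pj_repl_notMem _ _ hj]; exact (measurable_pi_apply j).comp measurable_snd

end repl

theorem DepOn.mono {J : Type} {A : Type} {β : Type} {s t : Set J} (hst : s ⊆ t)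
    {f : (J → A) → β} (hf : DepOn s f) : DepOn t f :=
  fun k k' h => hf k k' fun j hj => h j (hst hj)

section meas

variable {p : ℕ} [Fact p.Prime] {J : Type} {ν : Measure (J → ZMod p)}
  [IsProbabilityMeasure ν] [ν.IsAddLeftInvariant]

theorem pj_measurable_ind (W : Set J) :
    Measurable (fun v : J → ZMod p => W.indicator v) := by
  classical
  refine measurable_pi_lambda _ fun j => ?_
  by_cases hj : j ∈ W
  · simp only [Set.indicator_of_mem hj]; exact measurable_pi_apply j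
  · simp only [Set.indicator_of_notMem hj]; exact measurable_const

theorem pj_repl_mp [Countable J] (W : Set J) :
    MeasurePreserving (fun q : (J → ZMod p) × (J → ZMod p) => pj_repl W q.1 q.2) (ν.prod ν) ν := by
  have hri : ν.IsAddRightInvariant := inferInstance
  -- swap
  have h0 : MeasurePreserving (Prod.swap : (J → ZMod p) × (J → ZMod p) → _) (ν.prod ν)
      (ν.prod ν) := Measure.measurePreserving_swap
  -- (k, κ) ↦ (k, κ - k)
  have h1 : MeasurePreserving (fun q : (J → ZMod p) × (J → ZMod p) => (q.1, q.2 - q.1))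
      (ν.prod ν) (ν.prod ν) := by
    refine MeasurePreserving.skew_product (g := fun k κ => κ - k) (MeasurePreserving.id ν) ?_ ?_
    · exact measurable_snd.sub measurable_fst
    · refine Filter.Eventually.of_forall fun k => ?_
      exact (measurePreserving_sub_right ν k).map_eq
  -- (κ', k) ↦ (κ', k + ind κ')
  have h2 : MeasurePreserving (fun q : (J → ZMod p) × (J → ZMod p) =>
      (q.1, q.2 + W.indicator q.1)) (ν.prod ν) (ν.prod ν) := by
    refine MeasurePreserving.skew_product (g := fun κ k => k + W.indicator κ)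
      (MeasurePreserving.id ν) ?_ ?_
    · exact measurable_snd.add ((pj_measurable_ind W).comp measurable_fst)
    · refine Filter.Eventually.of_forall fun k => ?_
      exact (measurePreserving_add_right ν _).map_eq
  have h3 := (measurePreserving_snd (μ := ν) (ν := ν)).comp (h2.comp (h0.comp (h1.comp h0)))
  have e : (fun q : (J → ZMod p) × (J → ZMod p) => pj_repl W q.1 q.2) =
      Prod.snd ∘ ((fun q : (J → ZMod p) × (J → ZMod p) => (q.1, q.2 + W.indicator q.1)) ∘
        (Prod.swap ∘ ((fun q : (J → ZMod p) × (J → ZMod p) => (q.1, q.2 - q.1)) ∘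
          Prod.swap))) := by
    funext q
    exact pj_repl_eq W q.1 q.2
  rw [e]
  exact h3


theorem pj_generic [Countable J] (W : Set J) {q : (J → ZMod p) → Prop} (h : ∀ᵐ k ∂ν, q k) :
    ∀ᵐ κ ∂ν, ∀ᵐ k ∂ν, q (pj_repl W κ k) :=
  Measure.ae_ae_of_ae_prod ((pj_repl_mp W).quasiMeasurePreserving.ae h)

end meas

section param
variable {Γ : Type} [Countable Γ]

theorem pj_aepoly_meas {Ω : Type} [MeasurableSpace Ω] {K : Type} [MeasurableSpace K]
    {ν : Measure K} [SFinite ν] {S : Γ → K → K} (hS : ∀ g, Measurable (S g)) (n : ℕ)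
    {L : Ω → K → UnitAddCircle} (hL : Measurable (Function.uncurry L)) :
    MeasurableSet {w | AEPoly ν S n (L w)} := by
  induction n generalizing L with
  | zero =>
    have h1 : MeasurableSet {q : Ω × K | Function.uncurry L q ≠ 0} :=
      (hL (measurableSet_singleton 0)).compl
    have h2 : Measurable fun w => ν (Prod.mk w ⁻¹' {q : Ω × K | Function.uncurry L q ≠ 0}) :=
      measurable_measure_prodMk_left h1
    have h3 : {w | AEPoly ν S 0 (L w)} =
      (fun w => ν (Prod.mk w ⁻¹' {q : Ω × K | Function.uncurry L q ≠ 0})) ⁻¹' {0} := by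
      ext w
      rfl
    rw [h3]
    exact h2 (measurableSet_singleton 0)
  | succ n ih =>
    have h3 : {w | AEPoly ν S (n + 1) (L w)} =
      ⋂ g, {w | AEPoly ν S n ((fun w k => L w (S g k) - L w k) w)} := by
      ext w
      simp only [Set.mem_iInter]
      rfl
    rw [h3]
    refine MeasurableSet.iInter fun g => ih ?_
    have e : Function.uncurry (fun w k => L w (S g k) - L w k) =
      fun q : Ω × K => Function.uncurry L (q.1, S g q.2) - Function.uncurry L q := rfl
    rw [e]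
    exact (hL.comp (measurable_fst.prodMk ((hS g).comp measurable_snd))).sub hL

end param
/-! ### Lemma T -/

theorem pj_ae_of_tm {K Γ : Type} [Add K] [MeasurableSpace K] {ν : Measure K} {S : Γ → K → K}
    {n : ℕ} {f : K → UnitAddCircle} (hf : IsPoly (tm S) n f) : AEPoly ν S n f :=
  ip_ae ν S Sum.inr (fun _ _ => rfl) hf

theorem pj_shift_poly {K Γ : Type} [Add K] {S : Γ → K → K} {n : ℕ} {f : K → UnitAddCircle}
    (hf : IsPoly (tm S) n f) (v : K) : IsPoly (tm S) n (fun k => f (k + v) - f k) :=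
  hf.succ (Sum.inl v)

theorem lemT (p l D n : ℕ) [Fact p.Prime] (B : ℕ → ℕ → ℕ) : ∃ l' : ℕ,
    ∀ (Γ : Type) [AddCommGroup Γ] [Countable Γ], (∀ g : Γ, p • g = 0) →
    ∀ (J : Type) [Countable J] (ν : Measure (J → ZMod p)) [IsProbabilityMeasure ν]
      [ν.IsAddLeftInvariant] (S : Γ → (J → ZMod p) → (J → ZMod p)), IsAction ν S →
      (∀ g, Continuous (S g)) → IsErgodic ν S → PolyProp p ν S B →
      (∀ j, IsPoly (tm S) (D + 1) (fun k => k j)) →
    ∀ C : ℕ → Set J, (∀ i, Cl S (C i)) → (∀ i, C i ⊆ C (i + 1)) →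
      (∀ i, Tp S (C (i + 1) \ C i) (C (i + 1))) →
    ∀ F : (J → ZMod p) → UnitAddCircle, Measurable F → DepOn (C n) F →
      (∀ g, ∃ a P : (J → ZMod p) → UnitAddCircle, Measurable a ∧ Measurable P ∧
        DepOn (C 0) a ∧ AEPoly ν S l P ∧ ∀ᵐ k ∂ν, F (S g k) - F k = a k + P k) →
      ∃ G P : (J → ZMod p) → UnitAddCircle, Measurable G ∧ Measurable P ∧ DepOn (C 0) G ∧
        AEPoly ν S l' P ∧ ∀ k, F k = G k + P k := by
  induction n generalizing l with
  | zero =>
    refine ⟨0, ?_⟩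
    intro Γ _ _ _ J _ ν _ _ S _ _ _ _ _ C _ _ _ F hF hd _
    exact ⟨F, fun _ => 0, hF, measurable_const, hd, AEPoly.zero_fun 0, fun k => (add_zero _).symm⟩
  | succ n ih =>
    obtain ⟨l1, h1⟩ := polyProp_circle p l B
    obtain ⟨l2, h2⟩ := lemR p (l1 + 1) D B
    obtain ⟨l3, h3⟩ := ih (max l l2)
    refine ⟨max l2 l3, ?_⟩
    intro Γ _ _ hΓ J _ ν _ _ S hS hSc hE hPP hw C hCl hmono hTp F hF hd hFd
    have hmono0 : ∀ m, C 0 ⊆ C m := by
      intro m
      induction m with
      | zero => exact subset_rfl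
      | succ m ihm => exact ihm.trans (hmono m)
    have hdiff : C (n + 1) \ (C (n + 1) \ C n) = C n := by
      rw [Set.sdiff_sdiff_right_self]
      exact Set.inter_eq_right.2 (hmono n)
    obtain ⟨F₀, P, hF₀, hP, hF₀d, hPd, hPp, hsum⟩ := h2 Γ hΓ J ν S hS hSc hE hPP hw (C (n + 1))
      (C (n + 1) \ C n) (hCl _) Set.sdiff_subset (by rw [hdiff]; exact hCl n) (hTp n) F hF hd
      (Filter.Eventually.of_forall fun v => by
        intro g
        obtain ⟨a, P, ha, hP, had, hPp, hFe⟩ := hFd g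
        obtain ⟨f, hfc, hfP, hfp⟩ := h1 Γ hΓ J ν S hS hE hPP P hP hPp
        set v' := (C (n + 1) \ C n).indicator v with hv'
        have hv0 : ∀ j, j ∉ C (n + 1) \ C n → v' j = 0 := fun j hj =>
          Set.indicator_of_notMem hj v
        refine (pj_ae_of_tm (ν := ν) (pj_shift_poly hfp v')).congr hS.qmp ?_
        have hmp : MeasurePreserving (fun k => k + v') ν ν := measurePreserving_add_right ν v'
        filter_upwards [hFe, hmp.quasiMeasurePreserving.ae hFe, hfP,
          hmp.quasiMeasurePreserving.ae hfP] with k e1 e2 e3 e4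
        have e5 : F (S g (k + v')) = F (S g k + v') :=
          hd _ _ fun j hj => hTp n g k v' hv0 j hj
        have e6 : a (k + v') = a k := had _ _ fun j hj => by
          rw [Pi.add_apply, hv0 j (fun h => h.2 (hmono0 n hj)), add_zero]
        have e7 : (F (S g k + v') - F (k + v')) - (F (S g k) - F k) = P (k + v') - P k := by
          rw [← e5, e1, e2, e6]; abel
        calc (F (S g k + v') - F (S g k)) - (F (k + v') - F k)
            = (F (S g k + v') - F (k + v')) - (F (S g k) - F k) := by abel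
          _ = P (k + v') - P k := e7
          _ = f (k + v') - f k := by rw [e3, e4])
    rw [hdiff] at hF₀d
    obtain ⟨G, P', hG, hP', hGd, hP'p, hsum'⟩ := h3 Γ hΓ J ν S hS hSc hE hPP hw C hCl hmono hTp
      F₀ hF₀ hF₀d (fun g => by
        obtain ⟨a, Q, ha, hQ, had, hQp, hFe⟩ := hFd g
        refine ⟨a, fun k => Q k - (P (S g k) - P k), ha,
          hQ.sub ((hP.comp (hS.mp g).measurable).sub hP), had, ?_, ?_⟩
        · refine (hQp.mono (le_max_left l l2) hS.qmp).sub ?_
          exact ((hPp.succ hS.qmp) g).mono (le_max_right l l2) hS.qmp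
        · filter_upwards [hFe] with k e1
          rw [hsum, hsum] at e1
          have : F₀ (S g k) - F₀ k = (F₀ (S g k) + P (S g k) - (F₀ k + P k)) -
            (P (S g k) - P k) := by abel
          rw [this, e1]; exact add_sub_assoc _ _ _)
    refine ⟨G, fun k => P k + P' k, hG, hP.add hP', hGd, ?_, fun k => ?_⟩
    · exact (hPp.mono (le_max_left _ _) hS.qmp).add (hP'p.mono (le_max_right _ _) hS.qmp)
    · rw [hsum, hsum', add_assoc, add_comm (P' k)]


/-! ### Lemma S -/

theorem pj_affine {J A : Type} [AddCommGroup A] {B : Type} [AddCommGroup B] {n : ℕ}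
    {f : (J → A) → B} (hf : IsPoly (trans : (J → A) → (J → A) → (J → A)) n f) (W : Set J)
    (κ : J → A) : IsPoly (trans : (J → A) → (J → A) → (J → A)) n (fun k => f (pj_repl W κ k)) := by
  refine ip_pull (pj_repl W κ) (fun v => Wᶜ.indicator v) ?_ hf
  intro v k
  funext j
  show pj_repl W κ (k + v) j = pj_repl W κ k j + Wᶜ.indicator v j
  by_cases hj : j ∈ W
  · rw [pj_repl_mem _ _ hj, pj_repl_mem _ _ hj, Set.indicator_of_notMem (by simpa using hj),
      add_zero]
  · rw [pj_repl_notMem _ _ hj, pj_repl_notMem _ _ hj, Set.indicator_of_mem (by simpa using hj)]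
    rfl

theorem pj_trans_of_tm {K Γ : Type} [Add K] {B : Type} [AddCommGroup B] {S : Γ → K → K} {n : ℕ}
    {f : K → B} (hf : IsPoly (tm S) n f) : IsPoly (trans : K → K → K) n f :=
  ip_pull (t := tm S) id Sum.inl (fun _ _ => rfl) hf

section levels

variable {Q A Γ : Type} [AddCommGroup A] {U₁ U₂ : Set Q} {w : Q → ℕ}
  {S : Γ → (Q → A) → (Q → A)}
  (h1 : ∀ g, ∀ j ∈ U₁, DepOn {i | i ∈ U₁ ∧ w i < w j} (fun k => S g k j - k j))
  (h2 : ∀ g, ∀ j ∈ U₂, DepOn {i | i ∈ U₂ ∧ w i < w j} (fun k => S g k j - k j))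

include h1 h2

theorem pj_cl {s : Set Q} (h : ∀ j ∈ s, (j ∈ U₁ ∧ ∀ i ∈ U₁, w i < w j → i ∈ s) ∨
    (j ∈ U₂ ∧ ∀ i ∈ U₂, w i < w j → i ∈ s)) : Cl S s := by
  intro g j hj k k' hk
  show S g k j = S g k' j
  have h3 : S g k j - k j = S g k' j - k' j := by
    rcases h j hj with ⟨hjU, hi⟩ | ⟨hjU, hi⟩
    · exact h1 g j hjU k k' fun i hi' => hk i (hi i hi'.1 hi'.2)
    · exact h2 g j hjU k k' fun i hi' => hk i (hi i hi'.1 hi'.2)
  rw [hk j hj] at h3
  exact sub_left_injective h3

theorem pj_tp {V s : Set Q} (h : ∀ j ∈ s, (j ∈ U₁ ∧ ∀ i ∈ U₁, w i < w j → i ∉ V) ∨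
    (j ∈ U₂ ∧ ∀ i ∈ U₂, w i < w j → i ∉ V)) : Tp S V s := by
  intro g k v hv j hj
  have h3 : S g (k + v) j - (k + v) j = S g k j - k j := by
    rcases h j hj with ⟨hjU, hi⟩ | ⟨hjU, hi⟩
    · refine h1 g j hjU (k + v) k fun i hi' => ?_
      rw [Pi.add_apply, hv i (hi i hi'.1 hi'.2), add_zero]
    · refine h2 g j hjU (k + v) k fun i hi' => ?_
      rw [Pi.add_apply, hv i (hi i hi'.1 hi'.2), add_zero]
  rw [Pi.add_apply] at h3
  have h4 : S g (k + v) j = (S g k j - k j) + (k j + v j) := by rw [← h3]; abel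
  rw [h4]; abel

end levels

theorem pj_comp {Γ J A : Type} {β : Type} {S : Γ → (J → A) → (J → A)} {s : Set J} (hs : Cl S s)
    {f : (J → A) → β} (hf : DepOn s f) (g : Γ) : DepOn s (fun k => f (S g k)) := by
  intro k k' h
  exact hf _ _ fun j hj => hs g j hj k k' h

theorem pj_lemS (p D n : ℕ) [Fact p.Prime] (B : ℕ → ℕ → ℕ) (m : ℕ) : ∀ l : ℕ, ∃ l' : ℕ,
    ∀ (Γ : Type) [AddCommGroup Γ] [Countable Γ], (∀ g : Γ, p • g = 0) →
    ∀ (Q : Type) [Countable Q] (U₁ U₂ : Set Q) (w : Q → ℕ),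
      (∀ j, w j = 0 → j ∈ U₁ ∧ j ∈ U₂) → (∀ j, j ∈ U₁ → j ∈ U₂ → w j = 0) → (∀ j, w j ≤ n) →
    ∀ (ν : Measure (Q → ZMod p)) [IsProbabilityMeasure ν] [ν.IsAddLeftInvariant]
      (S : Γ → (Q → ZMod p) → (Q → ZMod p)), IsAction ν S →
      (∀ g, Continuous (S g)) → IsErgodic ν S → PolyProp p ν S B →
      (∀ j, IsPoly (tm S) (D + 1) (fun k => k j)) →
      (∀ g, ∀ j ∈ U₁, DepOn {i | i ∈ U₁ ∧ w i < w j} (fun k => S g k j - k j)) →
      (∀ g, ∀ j ∈ U₂, DepOn {i | i ∈ U₂ ∧ w i < w j} (fun k => S g k j - k j)) →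
    ∀ F : (Q → ZMod p) → UnitAddCircle, Measurable F → DepOn (U₁ ∪ {j | j ∈ U₂ ∧ w j ≤ m}) F →
      (∀ g, ∃ a b P : (Q → ZMod p) → UnitAddCircle, Measurable a ∧ Measurable b ∧
        Measurable P ∧ DepOn U₁ a ∧ DepOn {j | j ∈ U₂ ∧ w j ≤ m} b ∧ AEPoly ν S l P ∧
        ∀ᵐ k ∂ν, F (S g k) - F k = a k + b k + P k) →
      ∃ a b P : (Q → ZMod p) → UnitAddCircle, Measurable a ∧ Measurable b ∧
        Measurable P ∧ DepOn U₁ a ∧ DepOn U₂ b ∧ AEPoly ν S l' P ∧
        ∀ᵐ k ∂ν, F k = a k + b k + P k := by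
  induction m with
  | zero =>
    intro l
    refine ⟨0, ?_⟩
    intro Γ _ _ _ Q _ U₁ U₂ w hw0 _ _ ν _ _ S _ _ _ _ _ _ _ F hF hd _
    refine ⟨F, fun _ => 0, fun _ => 0, hF, measurable_const, measurable_const, ?_,
      fun _ _ _ => rfl, AEPoly.zero_fun 0, Filter.Eventually.of_forall fun k => by simp⟩
    refine hd.mono ?_
    rintro j (hj | ⟨_, hj⟩)
    · exact hj
    · exact (hw0 j (Nat.le_zero.1 hj)).1
  | succ m ih =>
    intro l
    obtain ⟨l1, h1⟩ := polyProp_circle p l B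
    obtain ⟨l2, h2⟩ := lemT p l1 D n B
    obtain ⟨l3, h3⟩ := polyProp_circle p l2 B
    obtain ⟨l4, h4⟩ := trans_poly p l3 D
    obtain ⟨l5, h5⟩ := lemR p (max l3 l4) D B
    obtain ⟨l6, h6⟩ := polyProp_circle p (max l l5) B
    obtain ⟨l7, h7⟩ := trans_poly p l6 D
    obtain ⟨l8, h8⟩ := ih l7
    refine ⟨max l5 l8, ?_⟩
    intro Γ _ _ hΓ Q _ U₁ U₂ w hw0 hw1 hwn ν _ _ S hS hSc hE hPP hw hU₁ hU₂ F hF hd hFd
    set A : ℕ → Set Q := fun m => {j | j ∈ U₂ ∧ w j ≤ m} with hA
    set V : Set Q := {j | j ∈ U₂ ∧ w j = m + 1} with hV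
    set s : Set Q := U₁ ∪ A (m + 1) with hs
    set W : Set Q := U₁ \ U₂ with hW
    have hVU₁ : ∀ j ∈ V, j ∉ U₁ := by
      intro j hj hj1
      have := hw1 j hj1 hj.1
      have h9 := hj.2
      omega
    have hclA : ∀ i, Cl S (A i) := fun i => pj_cl hU₁ hU₂ fun j hj =>
      Or.inr ⟨hj.1, fun i' hi' hlt => ⟨hi', hlt.le.trans hj.2⟩⟩
    have hclG : ∀ i, Cl S (U₁ ∪ A i) := fun i => pj_cl hU₁ hU₂ fun j hj => by
      rcases hj with hj | hj
      · exact Or.inl ⟨hj, fun i' hi' _ => Or.inl hi'⟩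
      · exact Or.inr ⟨hj.1, fun i' hi' hlt => Or.inr ⟨hi', hlt.le.trans hj.2⟩⟩
    have hsV : s \ V = U₁ ∪ A m := by
      ext j
      constructor
      · rintro ⟨hj | hj, hjV⟩
        · exact Or.inl hj
        · refine Or.inr ⟨hj.1, ?_⟩
          have h9 := hj.2
          have h10 : w j ≠ m + 1 := fun h => hjV ⟨hj.1, h⟩
          omega
      · rintro (hj | hj)
        · exact ⟨Or.inl hj, fun h => hVU₁ j h hj⟩
        · refine ⟨Or.inr ⟨hj.1, hj.2.trans (Nat.le_succ m)⟩, fun h => ?_⟩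
          have h9 := hj.2
          have h10 := h.2
          omega
    have hVs : V ⊆ s := fun j hj => Or.inr ⟨hj.1, hj.2.le⟩
    have hTpV : Tp S V s := pj_tp hU₁ hU₂ fun j hj => by
      rcases hj with hj | hj
      · exact Or.inl ⟨hj, fun i hi _ hiV => hVU₁ i hiV hi⟩
      · refine Or.inr ⟨hj.1, fun i hi hlt hiV => ?_⟩
        have h9 := hj.2
        have h10 := hiV.2
        omega
    -- the family for Lemma T
    set C : ℕ → Set Q := fun r => A (m + 1) ∪ {j | j ∈ U₁ ∧ w j ≤ r} with hC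
    have hCcl : ∀ r, Cl S (C r) := fun r => pj_cl hU₁ hU₂ fun j hj => by
      rcases hj with hj | hj
      · exact Or.inr ⟨hj.1, fun i hi hlt => Or.inl ⟨hi, hlt.le.trans hj.2⟩⟩
      · exact Or.inl ⟨hj.1, fun i hi hlt => Or.inr ⟨hi, hlt.le.trans hj.2⟩⟩
    have hCmono : ∀ r, C r ⊆ C (r + 1) := fun r j hj => by
      rcases hj with hj | hj
      · exact Or.inl hj
      · exact Or.inr ⟨hj.1, hj.2.trans (Nat.le_succ r)⟩
    have hCtp : ∀ r, Tp S (C (r + 1) \ C r) (C (r + 1)) := fun r =>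
      pj_tp hU₁ hU₂ fun j hj => by
        have key : ∀ i ∈ C (r + 1) \ C r, i ∈ U₁ ∧ i ∉ U₂ ∧ w i = r + 1 := by
          rintro i ⟨hi | hi, hi'⟩
          · exact absurd (Or.inl hi) hi'
          · have h9 : w i = r + 1 := by
              by_contra hne
              exact hi' (Or.inr ⟨hi.1, by have := hi.2; omega⟩)
            refine ⟨hi.1, fun hi2 => ?_, h9⟩
            have := hw1 i hi.1 hi2
            omega
        rcases hj with hj | hj
        · exact Or.inr ⟨hj.1, fun i hi _ hiV => (key i hiV).2.1 hi⟩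
        · refine Or.inl ⟨hj.1, fun i hi hlt hiV => ?_⟩
          have h9 := (key i hiV).2.2
          have h10 := hj.2
          omega
    have hC0 : ∀ j ∈ C 0, j ∈ U₂ := by
      rintro j (hj | hj)
      · exact hj.1
      · exact (hw0 j (Nat.le_zero.1 hj.2)).2
    have hsC : s ⊆ C n := by
      rintro j (hj | hj)
      · exact Or.inr ⟨hj, hwn j⟩
      · exact Or.inl hj
    -- the family of derivatives
    have claim1 : ∀ v : Q → ZMod p, ∀ᵐ κ ∂ν, AEPoly ν S (max l3 l4) (fun k =>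
        (F (k + V.indicator v) - F (pj_repl W κ (k + V.indicator v))) -
          (F k - F (pj_repl W κ k))) := by
      intro v
      set v' := V.indicator v with hv'
      have hv0 : ∀ j, j ∉ V → v' j = 0 := fun j hj => Set.indicator_of_notMem hj v
      have hmp : MeasurePreserving (fun k => k + v') ν ν := measurePreserving_add_right ν v'
      have hdH : DepOn (C n) (fun k => F (k + v') - F k) := by
        intro k k' hk
        show F (k + v') - F k = F (k' + v') - F k'
        rw [hd k k' (fun j hj => hk j (hsC hj)), hd (k + v') (k' + v') (fun j hj => by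
          rw [Pi.add_apply, Pi.add_apply, hk j (hsC hj)])]
      obtain ⟨G, P, hG, hP, hGd, hPp, hsum⟩ := h2 Γ hΓ Q ν S hS hSc hE hPP hw C hCcl hCmono hCtp
        (fun k => F (k + v') - F k) ((hF.comp hmp.measurable).sub hF) hdH (fun g => by
          obtain ⟨a, b, P, ha, hb, hP, had, hbd, hPp, hFe⟩ := hFd g
          obtain ⟨f, hfc, hfP, hfp⟩ := h1 Γ hΓ Q ν S hS hE hPP P hP hPp
          refine ⟨fun k => b (k + v') - b k, fun k => P (k + v') - P k,
            (hb.comp hmp.measurable).sub hb, (hP.comp hmp.measurable).sub hP, ?_, ?_, ?_⟩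
          · refine DepOn.mono (s := A (m + 1)) Set.subset_union_left ?_
            intro k k' hk
            show b (k + v') - b k = b (k' + v') - b k'
            rw [hbd k k' hk, hbd (k + v') (k' + v') (fun j hj => by
              rw [Pi.add_apply, Pi.add_apply, hk j hj])]
          · refine (pj_ae_of_tm (ν := ν) (pj_shift_poly hfp v')).congr hS.qmp ?_
            filter_upwards [hfP, hmp.quasiMeasurePreserving.ae hfP] with k e3 e4
            show P (k + v') - P k = f (k + v') - f k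
            rw [e3, e4]
          · filter_upwards [hFe, hmp.quasiMeasurePreserving.ae hFe] with k e1 e2
            have e5 : F (S g (k + v')) = F (S g k + v') :=
              hd _ _ fun j hj => hTpV g k v' hv0 j hj
            have e6 : a (k + v') = a k := had _ _ fun j hj => by
              rw [Pi.add_apply, hv0 j (fun h => hVU₁ j h hj), add_zero]
            calc (F (S g k + v') - F (S g k)) - (F (k + v') - F k)
                = (F (S g (k + v')) - F (k + v')) - (F (S g k) - F k) := by rw [e5]; abel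
              _ = (a (k + v') + b (k + v') + P (k + v')) - (a k + b k + P k) := by rw [e1, e2]
              _ = (b (k + v') - b k) + (P (k + v') - P k) := by rw [e6]; abel)
      obtain ⟨f, hfc, hfP, hfp⟩ := h3 Γ hΓ Q ν S hS hE hPP P hP hPp
      filter_upwards [pj_generic W hfP] with κ hκ
      have hfr : IsPoly (tm S) l4 (fun k => f (pj_repl W κ k)) :=
        h4 Q Γ S hw _ (hfc.comp (pj_continuous_repl W κ))
          (pj_affine (pj_trans_of_tm hfp) W κ)
      refine ((pj_ae_of_tm (ν := ν) ((hfp.mono (le_max_left l3 l4)).sub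
        (hfr.mono (le_max_right l3 l4))))).congr hS.qmp ?_
      filter_upwards [hfP, hκ] with k e1 e2
      have e3 : pj_repl W κ (k + v') = pj_repl W κ k + v' :=
        pj_repl_add W κ k v' fun j hj => hv0 j fun h => hj.2 h.1
      have e4 : G (pj_repl W κ k) = G k :=
        pj_depOn_repl_eq hGd (fun j hj hjW => hjW.2 (hC0 j hj)) κ k
      have e5 := hsum k
      have e6 := hsum (pj_repl W κ k)
      show (F (k + v') - F (pj_repl W κ (k + v'))) - (F k - F (pj_repl W κ k)) =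
        f k - f (pj_repl W κ k)
      rw [e3]
      calc (F (k + v') - F (pj_repl W κ k + v')) - (F k - F (pj_repl W κ k))
          = (F (k + v') - F k) - (F (pj_repl W κ k + v') - F (pj_repl W κ k)) := by abel
        _ = (G k + P k) - (G (pj_repl W κ k) + P (pj_repl W κ k)) := by rw [e5, e6]
        _ = P k - P (pj_repl W κ k) := by rw [e4]; abel
        _ = f k - f (pj_repl W κ k) := by rw [e1, e2]
    have hindm : Measurable (fun v : Q → ZMod p => V.indicator v) := pj_measurable_ind V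
    have claim2 : ∀ᵐ κ ∂ν, ∀ᵐ v ∂ν, AEPoly ν S (max l3 l4) (fun k =>
        (F (k + V.indicator v) - F (pj_repl W κ (k + V.indicator v))) -
          (F k - F (pj_repl W κ k))) := by
      have hmeas : MeasurableSet {q : (Q → ZMod p) × (Q → ZMod p) |
          AEPoly ν S (max l3 l4) (fun k =>
            (F (k + V.indicator q.1) - F (pj_repl W q.2 (k + V.indicator q.1))) -
              (F k - F (pj_repl W q.2 k)))} := by
        refine pj_aepoly_meas (fun g => (hS.mp g).measurable) (max l3 l4)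
          (L := fun (q : (Q → ZMod p) × (Q → ZMod p)) k =>
            (F (k + V.indicator q.1) - F (pj_repl W q.2 (k + V.indicator q.1))) -
              (F k - F (pj_repl W q.2 k))) ?_
        have hk : Measurable (fun y : ((Q → ZMod p) × (Q → ZMod p)) × (Q → ZMod p) => y.2) :=
          measurable_snd
        have hκ : Measurable (fun y : ((Q → ZMod p) × (Q → ZMod p)) × (Q → ZMod p) => y.1.2) :=
          measurable_snd.comp measurable_fst
        have hv : Measurable (fun y : ((Q → ZMod p) × (Q → ZMod p)) × (Q → ZMod p) =>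
          V.indicator y.1.1) := hindm.comp (measurable_fst.comp measurable_fst)
        have hr := pj_measurable_repl (A := ZMod p) W
        exact ((hF.comp (hk.add hv)).sub (hF.comp (hr.comp (hκ.prodMk (hk.add hv))))).sub
          ((hF.comp hk).sub (hF.comp (hr.comp (hκ.prodMk hk))))
      exact (Measure.ae_ae_comm hmeas).1 (Filter.Eventually.of_forall claim1)
    obtain ⟨κ, hκ⟩ := claim2.exists
    set F₁ : (Q → ZMod p) → UnitAddCircle := fun k => F (pj_repl W κ k) with hF₁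
    have hF₁m : Measurable F₁ := hF.comp ((pj_measurable_repl W).comp
      (measurable_const.prodMk measurable_id))
    have hF₁d : DepOn (A (m + 1)) F₁ := by
      refine (pj_depOn_repl hd κ).mono ?_
      rintro j ⟨hj | hj, hjW⟩
      · have hj2 : j ∈ U₂ := by
          by_contra h9
          exact hjW ⟨hj, h9⟩
        exact ⟨hj2, by rw [hw1 j hj hj2]; exact Nat.zero_le _⟩
      · exact hj
    have hAs : A (m + 1) ⊆ s := Set.subset_union_right
    obtain ⟨F₀, P', hF₀, hP', hF₀d, hP'd, hP'p, hsum⟩ := h5 Γ hΓ Q ν S hS hSc hE hPP hw s V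
      (hclG (m + 1)) hVs (by rw [hsV]; exact hclG m) hTpV (fun k => F k - F₁ k) (hF.sub hF₁m)
      (fun k k' hk => by
        show F k - F₁ k = F k' - F₁ k'
        rw [hd k k' hk, (hF₁d.mono hAs) k k' hk]) hκ
    rw [hsV] at hF₀d
    obtain ⟨a, b, P, ha, hb, hP, had, hbd, hPp, hae⟩ := h8 Γ hΓ Q U₁ U₂ w hw0 hw1 hwn ν S hS hSc
      hE hPP hw hU₁ hU₂ F₀ hF₀ hF₀d (fun g => by
        obtain ⟨a, b, P, ha, hb, hP, had, hbd, hPp, hFe⟩ := hFd g
        set Qg : (Q → ZMod p) → UnitAddCircle := fun k => P k - (P' (S g k) - P' k) with hQg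
        have hSm := (hS.mp g).measurable
        have hQm : Measurable Qg := hP.sub ((hP'.comp hSm).sub hP')
        have hQp : AEPoly ν S (max l l5) Qg :=
          (hPp.mono (le_max_left l l5) hS.qmp).sub
            (((hP'p.succ hS.qmp) g).mono (le_max_right l l5) hS.qmp)
        obtain ⟨q, hqc, hqQ, hqp⟩ := h6 Γ hΓ Q ν S hS hE hPP Qg hQm hQp
        set M : (Q → ZMod p) → UnitAddCircle := fun k => b k - (F₁ (S g k) - F₁ k) with hM
        have hMm : Measurable M := hb.sub ((hF₁m.comp hSm).sub hF₁m)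
        have hMd : DepOn (A (m + 1)) M := by
          intro k k' hk
          show b k - (F₁ (S g k) - F₁ k) = b k' - (F₁ (S g k') - F₁ k')
          rw [hbd k k' hk, hF₁d k k' hk, show F₁ (S g k) = F₁ (S g k') from
            pj_comp (hclA (m + 1)) hF₁d g k k' hk]
        have hEd : DepOn (U₁ ∪ A m) (fun k => F₀ (S g k) - F₀ k - a k) := by
          intro k k' hk
          show F₀ (S g k) - F₀ k - a k = F₀ (S g k') - F₀ k' - a k'
          rw [hF₀d k k' hk, show F₀ (S g k) = F₀ (S g k') from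
            pj_comp (hclG m) hF₀d g k k' hk,
            (had.mono (Set.subset_union_left (t := A m))) k k' hk]
        have hae : ∀ᵐ k ∂ν, F₀ (S g k) - F₀ k - a k = M k + q k := by
          filter_upwards [hFe, hqQ] with k e1 e2
          have e3 : F k - F₁ k = F₀ k + P' k := hsum k
          have e4 : F (S g k) - F₁ (S g k) = F₀ (S g k) + P' (S g k) := hsum (S g k)
          have e5 : F k = F₀ k + P' k + F₁ k := by rw [← e3]; abel
          have e6 : F (S g k) = F₀ (S g k) + P' (S g k) + F₁ (S g k) := by rw [← e4]; abel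
          rw [e5, e6] at e1
          rw [e2]
          show F₀ (S g k) - F₀ k - a k =
            (b k - (F₁ (S g k) - F₁ k)) + (P k - (P' (S g k) - P' k))
          have e7 : F₀ (S g k) - F₀ k - a k = (F₀ (S g k) + P' (S g k) + F₁ (S g k) -
            (F₀ k + P' k + F₁ k)) - (P' (S g k) - P' k) - (F₁ (S g k) - F₁ k) - a k := by abel
          rw [e7, e1]; abel
        obtain ⟨κ', hκ'⟩ := (pj_generic V hae).exists
        refine ⟨a, fun k => M (pj_repl V κ' k), fun k => q (pj_repl V κ' k), ha,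
          hMm.comp ((pj_measurable_repl V).comp (measurable_const.prodMk measurable_id)),
          (hqc.comp (pj_continuous_repl V κ')).measurable, had, ?_, ?_, ?_⟩
        · refine (pj_depOn_repl hMd κ').mono ?_
          rintro j ⟨hj, hjV⟩
          refine ⟨hj.1, ?_⟩
          have h9 := hj.2
          have h10 : w j ≠ m + 1 := fun h => hjV ⟨hj.1, h⟩
          omega
        · exact pj_ae_of_tm (h7 Q Γ S hw _ (hqc.comp (pj_continuous_repl V κ'))
            (pj_affine (pj_trans_of_tm hqp) V κ'))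
        · filter_upwards [hκ'] with k e1
          have e2 : F₀ (S g (pj_repl V κ' k)) - F₀ (pj_repl V κ' k) - a (pj_repl V κ' k) =
              F₀ (S g k) - F₀ k - a k := pj_depOn_repl_eq hEd (W := V) (fun j hj hjV => by
            rw [← hsV] at hj
            exact hj.2 hjV) κ' k
          rw [e2] at e1
          have e3 : F₀ (S g k) - F₀ k = (F₀ (S g k) - F₀ k - a k) + a k := by abel
          rw [e3, e1]; abel)
    refine ⟨a, fun k => b k + F₁ k, fun k => P k + P' k, ha, hb.add hF₁m, hP.add hP', had, ?_,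
      ?_, ?_⟩
    · intro k k' hk
      show b k + F₁ k = b k' + F₁ k'
      rw [hbd k k' hk, hF₁d k k' (fun j hj => hk j hj.1)]
    · exact (hPp.mono (le_max_right _ _) hS.qmp).add (hP'p.mono (le_max_left _ _) hS.qmp)
    · filter_upwards [hae] with k e1
      have e3 : F k - F₁ k = F₀ k + P' k := hsum k
      have e5 : F k = F₀ k + P' k + F₁ k := by rw [← e3]; abel
      rw [e5, e1]; abel


theorem pj_U₁ {I J : Type} (j : I ⊕ (J ⊕ J)) :
    j ∈ U₁ I J ↔ ∀ j', j ≠ Sum.inr (Sum.inr j') := Iff.rfl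

theorem pj_U₂ {I J : Type} (j : I ⊕ (J ⊕ J)) :
    j ∈ U₂ I J ↔ ∀ j', j ≠ Sum.inr (Sum.inl j') := Iff.rfl

theorem pj_union {I J : Type} (j : I ⊕ (J ⊕ J)) : j ∈ U₁ I J ∨ j ∈ U₂ I J := by
  rcases j with i | j | j
  · left; intro j'; simp
  · left; intro j'; simp
  · right; intro j'; simp

theorem lemS (p l D n : ℕ) [Fact p.Prime] (B : ℕ → ℕ → ℕ) : ∃ l' : ℕ,
    ∀ (Γ : Type) [AddCommGroup Γ] [Countable Γ], (∀ g : Γ, p • g = 0) →
    ∀ (I J : Type) [Countable I] [Countable J] (lev : J → ℕ),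
      (∀ j, 1 ≤ lev j ∧ lev j ≤ n) →
    ∀ (ν : Measure (I ⊕ (J ⊕ J) → ZMod p)) [IsProbabilityMeasure ν] [ν.IsAddLeftInvariant]
      (S : Γ → (I ⊕ (J ⊕ J) → ZMod p) → (I ⊕ (J ⊕ J) → ZMod p)), IsAction ν S →
      (∀ g, Continuous (S g)) → IsErgodic ν S → PolyProp p ν S B →
      (∀ j, IsPoly (tm S) (D + 1) (fun k => k j)) →
      (∀ g, ∀ j ∈ U₁ I J, DepOn {i | i ∈ U₁ I J ∧ lw lev i < lw lev j}
        (fun k => S g k j - k j)) →
      (∀ g, ∀ j ∈ U₂ I J, DepOn {i | i ∈ U₂ I J ∧ lw lev i < lw lev j}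
        (fun k => S g k j - k j)) →
    ∀ F : (I ⊕ (J ⊕ J) → ZMod p) → UnitAddCircle, Measurable F →
      (∀ g, ∃ a b P : (I ⊕ (J ⊕ J) → ZMod p) → UnitAddCircle, Measurable a ∧ Measurable b ∧
        Measurable P ∧ DepOn (U₁ I J) a ∧ DepOn (U₂ I J) b ∧ AEPoly ν S l P ∧
        ∀ᵐ k ∂ν, F (S g k) - F k = a k + b k + P k) →
      ∃ a b P : (I ⊕ (J ⊕ J) → ZMod p) → UnitAddCircle, Measurable a ∧ Measurable b ∧
        Measurable P ∧ DepOn (U₁ I J) a ∧ DepOn (U₂ I J) b ∧ AEPoly ν S l' P ∧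
        ∀ᵐ k ∂ν, F k = a k + b k + P k := by
  obtain ⟨l', h⟩ := pj_lemS p D n B n l
  refine ⟨l', ?_⟩
  intro Γ _ _ hΓ I J _ _ lev hlev ν _ _ S hS hSc hE hPP hw h1 h2 F hF hFd
  have hle : ∀ j : I ⊕ (J ⊕ J), lw lev j ≤ n := by
    rintro (i | j | j)
    · exact Nat.zero_le _
    · exact (hlev j).2
    · exact (hlev j).2
  have hU₂ : ({j | j ∈ U₂ I J ∧ lw lev j ≤ n} : Set (I ⊕ (J ⊕ J))) = U₂ I J := by
    ext j
    exact ⟨fun h => h.1, fun h => ⟨h, hle j⟩⟩
  refine h Γ hΓ (I ⊕ (J ⊕ J)) (U₁ I J) (U₂ I J) (lw lev) ?_ ?_ hle ν S hS hSc hE hPP hw h1 h2 F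
    hF ?_ ?_
  · rintro (i | j | j) hj
    · exact ⟨fun j' => by simp, fun j' => by simp⟩
    · have h3 : lev j = 0 := hj
      have h4 := (hlev j).1
      omega
    · have h3 : lev j = 0 := hj
      have h4 := (hlev j).1
      omega
  · rintro (i | j | j) hj hj'
    · rfl
    · exact absurd rfl (hj' j)
    · exact absurd rfl (hj j)
  · intro k k' hk
    have : k = k' := by
      funext j
      refine hk j ?_
      rcases pj_union j with hj | hj
      · exact Or.inl hj
      · exact Or.inr ⟨hj, hle j⟩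
    rw [this]
  · intro g
    obtain ⟨a, b, P, ha, hb, hP, had, hbd, hPp, hFe⟩ := hFd g
    exact ⟨a, b, P, ha, hb, hP, had, by rw [hU₂]; exact hbd, hPp, hFe⟩

/-! ### Lemma X -/

theorem pj_lemX {p : ℕ} [Fact p.Prime] {l : ℕ} {Q : Type} [Countable Q] {U₁ U₂ : Set Q}
    (hU : ∀ j, j ∈ U₁ ∨ j ∈ U₂) {ν : Measure (Q → ZMod p)} [IsProbabilityMeasure ν]
    [ν.IsAddLeftInvariant] {a b q : (Q → ZMod p) → UnitAddCircle}
    (hb : Measurable b) (had : DepOn U₁ a) (hbd : DepOn U₂ b) (hq : Continuous q)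
    (hqp : IsPoly (trans : (Q → ZMod p) → (Q → ZMod p) → (Q → ZMod p)) l q)
    (h : ∀ᵐ k ∂ν, a k + b k = q k) :
    ∃ b₀ P : (Q → ZMod p) → UnitAddCircle, Measurable b₀ ∧ Continuous P ∧
      DepOn (U₁ ∩ U₂) b₀ ∧ DepOn U₂ P ∧
      IsPoly (trans : (Q → ZMod p) → (Q → ZMod p) → (Q → ZMod p)) l P ∧
      ∀ᵐ k ∂ν, b k = b₀ k + P k := by
  set W₁ : Set Q := U₁ \ U₂ with hW₁
  set W₂ : Set Q := U₂ \ U₁ with hW₂
  obtain ⟨κ, hκ⟩ := (pj_generic W₁ h).exists
  have h1 : ∀ᵐ k ∂ν, b k = q (pj_repl W₁ κ k) - a (pj_repl W₁ κ k) := by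
    filter_upwards [hκ] with k e1
    have e2 : b (pj_repl W₁ κ k) = b k := pj_depOn_repl_eq hbd (fun j hj hjW => hjW.2 hj) κ k
    rw [e2] at e1
    rw [← e1]; abel
  obtain ⟨κ', hκ'⟩ := (pj_generic W₂ h1).exists
  have hq1 : DepOn Set.univ q := fun k k' hk => by
    rw [show k = k' from funext fun j => hk j (Set.mem_univ j)]
  have hq2 : DepOn U₂ (fun k => q (pj_repl W₁ κ k)) := (pj_depOn_repl hq1 κ).mono (by
    rintro j ⟨_, hj⟩
    by_contra h9
    exact hj ⟨(hU j).resolve_right h9, h9⟩)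
  refine ⟨fun k => b (pj_repl W₂ κ' k),
    fun k => q (pj_repl W₁ κ k) - q (pj_repl W₁ κ (pj_repl W₂ κ' k)), ?_, ?_, ?_, ?_, ?_, ?_⟩
  · exact hb.comp ((pj_measurable_repl W₂).comp (measurable_const.prodMk measurable_id))
  · exact (hq.comp (pj_continuous_repl W₁ κ)).sub
      ((hq.comp (pj_continuous_repl W₁ κ)).comp (pj_continuous_repl W₂ κ'))
  · refine (pj_depOn_repl hbd κ').mono ?_
    rintro j ⟨hj, hjW⟩
    refine ⟨?_, hj⟩
    by_contra h9
    exact hjW ⟨hj, h9⟩
  · intro k k' hk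
    show q (pj_repl W₁ κ k) - q (pj_repl W₁ κ (pj_repl W₂ κ' k)) =
      q (pj_repl W₁ κ k') - q (pj_repl W₁ κ (pj_repl W₂ κ' k'))
    have e1 : q (pj_repl W₁ κ k) = q (pj_repl W₁ κ k') := hq2 k k' hk
    have e2 : q (pj_repl W₁ κ (pj_repl W₂ κ' k)) = q (pj_repl W₁ κ (pj_repl W₂ κ' k')) :=
      ((pj_depOn_repl hq2 κ').mono Set.sdiff_subset) k k' hk
    rw [e1, e2]
  · exact (pj_affine hqp W₁ κ).sub (pj_affine (pj_affine hqp W₁ κ) W₂ κ')
  · filter_upwards [h1, hκ'] with k e1 e2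
    have e3 : a (pj_repl W₁ κ (pj_repl W₂ κ' k)) = a (pj_repl W₁ κ k) := had _ _ fun j hj => by
      by_cases hj1 : j ∈ W₁
      · rw [pj_repl_mem _ _ hj1, pj_repl_mem _ _ hj1]
      · rw [pj_repl_notMem _ _ hj1, pj_repl_notMem _ _ hj1,
          pj_repl_notMem _ _ (fun h9 : j ∈ W₂ => h9.2 hj)]
    rw [e2, e3, e1]; abel

/-- if `a + b` is a polynomial, `b` is a function of the Kronecker coordinates plus a
polynomial -/
theorem lemX (p l : ℕ) [Fact p.Prime] (B : ℕ → ℕ → ℕ) : ∃ l' : ℕ,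
    ∀ (Γ : Type) [AddCommGroup Γ] [Countable Γ], (∀ g : Γ, p • g = 0) →
    ∀ (I J : Type) [Countable I] [Countable J]
      (ν : Measure (I ⊕ (J ⊕ J) → ZMod p)) [IsProbabilityMeasure ν] [ν.IsAddLeftInvariant]
      (S : Γ → (I ⊕ (J ⊕ J) → ZMod p) → (I ⊕ (J ⊕ J) → ZMod p)), IsAction ν S →
      (∀ g, Continuous (S g)) → IsErgodic ν S → PolyProp p ν S B →
    ∀ a b : (I ⊕ (J ⊕ J) → ZMod p) → UnitAddCircle, Measurable a → Measurable b →
      DepOn (U₁ I J) a → DepOn (U₂ I J) b → AEPoly ν S l (fun k => a k + b k) →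
      (∃ a₀ P : (I ⊕ (J ⊕ J) → ZMod p) → UnitAddCircle, Measurable a₀ ∧ Continuous P ∧
        DepOn (U₁ I J ∩ U₂ I J) a₀ ∧ DepOn (U₁ I J) P ∧ IsPoly trans l' P ∧
        ∀ᵐ k ∂ν, a k = a₀ k + P k) ∧
      (∃ b₀ P : (I ⊕ (J ⊕ J) → ZMod p) → UnitAddCircle, Measurable b₀ ∧ Continuous P ∧
        DepOn (U₁ I J ∩ U₂ I J) b₀ ∧ DepOn (U₂ I J) P ∧ IsPoly trans l' P ∧
        ∀ᵐ k ∂ν, b k = b₀ k + P k) := by
  obtain ⟨l', h⟩ := polyProp_circle p l B
  refine ⟨l', ?_⟩
  intro Γ _ _ hΓ I J _ _ ν _ _ S hS hSc hE hPP a b ha hb had hbd hab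
  obtain ⟨q, hqc, hqe, hqp⟩ := h Γ hΓ (I ⊕ (J ⊕ J)) ν S hS hE hPP (fun k => a k + b k)
    (ha.add hb) hab
  have hqp' := pj_trans_of_tm hqp
  refine ⟨?_, ?_⟩
  · have h1 : ∀ᵐ k ∂ν, b k + a k = q k := by
      filter_upwards [hqe] with k e1
      rw [e1, add_comm]
    have h2 := pj_lemX (fun j => (pj_union j).symm) (ν := ν) ha hbd had hqc hqp' h1
    rwa [Set.inter_comm] at h2
  · have h1 : ∀ᵐ k ∂ν, a k + b k = q k := by
      filter_upwards [hqe] with k e1
      rw [e1]
    exact pj_lemX pj_union (ν := ν) hb had hbd hqc hqp' h1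

end Pool.Agent.FpTrans
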