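import Pool.Agent.FpOrd.Norm
import Pool.Agent.FpOrd.Mean

/-!
# Approximate polynomials are close to polynomials
-/

set_option autoImplicit false
open MeasureTheory Filter Topology ProbabilityTheory

namespace Pool.Agent.FpTrans

universe u v w

lemma pc_ee_coe (r : ℝ) :
    ee (r : UnitAddCircle) = Complex.exp (Complex.I * ((2 * Real.pi * r : ℝ) : ℂ)) := by
  rw [ee, AddCircle.toCircle_apply_mk, Circle.coe_exp]
  congr 1
  push_cast
  ring

lemma pc_upper (r : ℝ) : ‖ee (r : UnitAddCircle) - 1‖ ≤ 8 * |r| := by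
  rw [pc_ee_coe]
  refine (Real.norm_exp_I_mul_ofReal_sub_one_le).trans ?_
  rw [Real.norm_eq_abs, abs_mul, abs_of_pos (by positivity)]
  have := Real.pi_lt_four
  have h2 := abs_nonneg r
  nlinarith

lemma pc_lift (t : UnitAddCircle) :
    ∃ r : ℝ, (r : UnitAddCircle) = t ∧ 4 * |r| ≤ ‖ee t - 1‖ := by
  induction t using QuotientAddGroup.induction_on with
  | H x =>
    set r : ℝ := x - round x with hr
    have hrt : (r : UnitAddCircle) = ((x : ℝ) : UnitAddCircle) := by
      rw [hr, AddCircle.coe_sub]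
      have : ((round x : ℝ) : UnitAddCircle) = 0 := by
        rw [AddCircle.coe_eq_zero_iff]
        exact ⟨round x, by simp⟩
      rw [this, sub_zero]
    have habs : |r| ≤ 1 / 2 := abs_sub_round x
    refine ⟨r, hrt, ?_⟩
    have e : ee (QuotientAddGroup.mk x : UnitAddCircle) = ee (r : UnitAddCircle) := by
      rw [hrt]
    rw [e, pc_ee_coe, Complex.norm_exp_I_mul_ofReal_sub_one]
    have h1 : ‖2 * Real.sin (2 * Real.pi * r / 2)‖ = 2 * |Real.sin (Real.pi * r)| := by
      rw [Real.norm_eq_abs, abs_mul, abs_two]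
      congr 3
      ring
    rw [h1]
    have h2 : |Real.sin (Real.pi * r)| = Real.sin (Real.pi * |r|) := by
      rcases le_total 0 r with h | h
      · rw [abs_of_nonneg h, abs_of_nonneg]
        apply Real.sin_nonneg_of_nonneg_of_le_pi
        · positivity
        · rw [abs_of_nonneg h] at habs
          have := Real.pi_pos
          nlinarith
      · rw [abs_of_nonpos h, mul_neg, Real.sin_neg, abs_of_nonpos]
        rw [← neg_nonneg, ← Real.sin_neg]
        apply Real.sin_nonneg_of_nonneg_of_le_pi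
        · have := Real.pi_pos
          nlinarith
        · rw [abs_of_nonpos h] at habs
          have := Real.pi_pos
          nlinarith
    rw [h2]
    have h3 := Real.mul_le_sin (x := Real.pi * |r|) (by positivity) (by
      have := Real.pi_pos
      nlinarith)
    have h4 : 2 / Real.pi * (Real.pi * |r|) = 2 * |r| := by
      have := Real.pi_pos
      field_simp
    rw [h4] at h3
    linarith

/-- a small circle valued 2-cocycle is the coboundary of a small function -/
lemma pc_cocycle {G : Type} [AddCommGroup G] [Countable G] {E : ℕ → Finset G} (hE : IsExh E)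
    (c : G → G → UnitAddCircle) (hc : ∀ g h k, c g h + c (g + h) k = c h k + c g (h + k))
    (ε : ℝ) (hε : ε < 1) (hce : ∀ g h, ‖ee (c g h) - 1‖ ≤ ε) :
    ∃ β : G → UnitAddCircle, (∀ g h, c g h = β g + β h - β (g + h)) ∧
      ∀ g, ‖ee (β g) - 1‖ ≤ 2 * ε := by
  choose r hr1 hr2 using fun g h => pc_lift (c g h)
  have hrb : ∀ g h, |r g h| ≤ ε / 4 := fun g h => by
    have := (hr2 g h).trans (hce g h)
    linarith
  have hrc : ∀ g h k, r g h + r (g + h) k = r h k + r g (h + k) := by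
    intro g h k
    set q : ℝ := r g h + r (g + h) k - r h k - r g (h + k) with hq
    have hq0 : (q : UnitAddCircle) = 0 := by
      rw [hq, AddCircle.coe_sub, AddCircle.coe_sub, AddCircle.coe_add, hr1, hr1, hr1, hr1, hc]
      abel
    obtain ⟨n, hn⟩ := AddCircle.coe_eq_zero_iff (p := (1 : ℝ)).1 hq0
    have hqb : |q| < 1 := by
      have h1 := abs_le.1 (hrb g h)
      have h2 := abs_le.1 (hrb (g + h) k)
      have h3 := abs_le.1 (hrb h k)
      have h4 := abs_le.1 (hrb g (h + k))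
      rw [abs_lt]
      constructor <;> linarith
    have hn' : (n : ℝ) = q := by rw [← hn]; simp
    have hn0 : n = 0 := by
      rw [← hn', ← Int.cast_abs] at hqb
      have : |n| < 1 := by exact_mod_cast hqb
      exact Int.abs_lt_one_iff.1 this
    rw [hn0] at hn'
    simp only [Int.cast_zero] at hn'
    linarith
  set b : ℕ → G → ℝ := fun n g => ((E n).card : ℝ)⁻¹ * ∑ k ∈ E n, r g k with hb
  have hcard : ∀ n, (0 : ℝ) < (E n).card := fun n => by
    have : 0 < (E n).card := Finset.card_pos.2 ⟨0, hE.zero n⟩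
    exact_mod_cast this
  have hbb : ∀ n g, b n g ∈ Set.Icc (-(ε / 4)) (ε / 4) := by
    intro n g
    rw [Set.mem_Icc, ← abs_le, hb]
    simp only
    rw [abs_mul, abs_of_pos (inv_pos.2 (hcard n)), inv_mul_le_iff₀ (hcard n)]
    refine (Finset.abs_sum_le_sum_abs _ _).trans ?_
    refine (Finset.sum_le_sum fun k _ => hrb g k).trans ?_
    rw [Finset.sum_const, nsmul_eq_mul]
  obtain ⟨β, hβ, s, hs, hlim⟩ := (isCompact_univ_pi fun _ : G =>
    isCompact_Icc (a := -(ε / 4)) (b := ε / 4)).tendsto_subseq (x := b)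
    (fun n => fun g _ => hbb n g)
  have hlim' : ∀ g, Tendsto (fun n => b (s n) g) atTop (𝓝 (β g)) := fun g =>
    (tendsto_pi_nhds.1 hlim) g
  have hid : ∀ n g h, h ∈ E n → r g h = b n g + b n h - b n (g + h) := by
    intro n g h hh
    have h1 : ∑ k ∈ E n, r g (h + k) = ∑ k ∈ E n, r g k := by
      refine Finset.sum_bij (fun k _ => h + k) (fun k hk => hE.add n _ hh _ hk)
        (fun k _ k' _ hkk => add_left_cancel hkk) (fun k hk => ⟨-h + k, ?_, by simp⟩)
        (fun k _ => rfl)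
      exact hE.add n _ (hE.neg n _ hh) _ hk
    have h2 : ∑ k ∈ E n, (r g h + r (g + h) k) = ∑ k ∈ E n, (r h k + r g (h + k)) :=
      Finset.sum_congr rfl fun k _ => hrc g h k
    rw [Finset.sum_add_distrib, Finset.sum_add_distrib, h1, Finset.sum_const, nsmul_eq_mul] at h2
    simp only [hb]
    have h3 := (hcard n).ne'
    field_simp
    linarith
  refine ⟨fun g => ((β g : ℝ) : UnitAddCircle), fun g h => ?_, fun g => ?_⟩
  · have h1 : Tendsto (fun n => b (s n) g + b (s n) h - b (s n) (g + h)) atTop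
        (𝓝 (β g + β h - β (g + h))) := ((hlim' g).add (hlim' h)).sub (hlim' (g + h))
    have h2 : Tendsto (fun n => b (s n) g + b (s n) h - b (s n) (g + h)) atTop (𝓝 (r g h)) := by
      refine tendsto_const_nhds.congr' ?_
      obtain ⟨m, hm⟩ := hE.exh h
      filter_upwards [eventually_ge_atTop m] with n hn
      exact hid (s n) g h (hE.mono (hn.trans (hs.id_le n)) hm)
    have h3 := tendsto_nhds_unique h2 h1
    rw [← hr1, h3, AddCircle.coe_sub, AddCircle.coe_add]
  · refine (pc_upper _).trans ?_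
    have := hβ g (Set.mem_univ g)
    have h4 := abs_le.2 this
    linarith

lemma pc_norm_sub (s t : UnitAddCircle) : ‖ee s - ee t‖ = ‖ee (s - t) - 1‖ := by
  have h : ee s - ee t = (ee (s - t) - 1) * ee t := by
    rw [sub_mul, ← ee_add, sub_add_cancel, one_mul]
  rw [h, norm_mul, norm_ee, mul_one]

lemma pc_meas_ee : Measurable ee := continuous_ee.measurable

lemma pc_integrable {X : Type u} [MeasurableSpace X] {μ : Measure X} [IsProbabilityMeasure μ]
    {f : X → ℂ} (hf : Measurable f) (C : ℝ) (hC : ∀ x, ‖f x‖ ≤ C) : Integrable f μ :=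
  Integrable.of_bound hf.aestronglyMeasurable C (Filter.Eventually.of_forall hC)

/-- the exact cocycle and the function `Ψ` -/
theorem pc_core (p l : ℕ) [Fact p.Prime] : ∃ ε0 : ℝ, 0 < ε0 ∧
    ∀ (Γ : Type) [AddCommGroup Γ] [Countable Γ], (∀ g : Γ, p • g = 0) →
    ∀ (X : Type u) [MeasurableSpace X] (μ : Measure X) [IsProbabilityMeasure μ] (T : Γ → X → X),
      IsAction μ T → IsErgodic μ T →
    ∀ (G : Type) [AddCommGroup G] [Countable G], (∀ g : G, p • g = 0) → ∀ (j : G →+ Γ)
      (φ : X → UnitAddCircle), Measurable φ → ∀ ε ≤ ε0,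
      (∀ g : G, ∃ R : X → UnitAddCircle, Measurable R ∧ AEPoly μ T (l + 1) R ∧
        nrm μ (fun x => φ (T (j g) x) - φ x - R x) ≤ ε) →
      ∃ (R : G → X → UnitAddCircle) (Ψ : X → ℂ), (∀ g, Measurable (R g)) ∧
        (∀ g, AEPoly μ T (l + 1) (R g)) ∧ Measurable Ψ ∧ (∀ x, ‖Ψ x‖ ≤ 1) ∧
        (∀ g, ∀ᵐ x ∂μ, Ψ (T (j g) x) = ee (R g x) * Ψ x) ∧
        ∫ x, ‖Ψ x - ee (φ x)‖ ∂μ ≤ 7 * ε := by
  obtain ⟨ε1, hε1, hgap⟩ := gap.{u} p (l + 1)
  refine ⟨min (ε1 / 4) (1 / 4), lt_min (by linarith) (by norm_num), ?_⟩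
  intro Γ _ _ hΓ X _ μ _ T hT hE G _ _ hG j φ hφ ε hε hR
  choose R hRm hRp hRn using hR
  have hε1' : ε ≤ ε1 / 4 := hε.trans (min_le_left _ _)
  have hε2' : ε ≤ 1 / 4 := hε.trans (min_le_right _ _)
  have hε0 : 0 ≤ ε := (nrm_nonneg _ _).trans (hRn 0)
  have hTm : ∀ g, Measurable (T g) := fun g => (hT.mp g).measurable
  -- the defect
  have hb : ∀ g h : G, ∃ c : UnitAddCircle,
      (∀ᵐ x ∂μ, R (g + h) x - R g x - R h (T (j g) x) = c) ∧ ‖ee c - 1‖ ≤ 3 * ε := by
    intro g h
    set b : X → UnitAddCircle := fun x => R (g + h) x - R g x - R h (T (j g) x) with hbdef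
    have hbm : Measurable b := ((hRm _).sub (hRm _)).sub ((hRm h).comp (hTm _))
    have hbp : AEPoly μ T (l + 1) b := by
      refine ((hRp _).sub (hRp _)).sub ?_
      exact st_comp (hT.qmp _) (fun i x => hT.comm _ _ _) (hRp h)
    have hbn : nrm μ b ≤ 3 * ε := by
      set D : G → X → UnitAddCircle := fun g x => φ (T (j g) x) - φ x - R g x with hD
      have hDm : ∀ g, Measurable (D g) := fun g => ((hφ.comp (hTm _)).sub hφ).sub (hRm g)
      have e : b = fun x => (D g x + D h (T (j g) x)) - D (g + h) x := by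
        funext x
        simp only [hbdef, hD]
        rw [map_add, add_comm (j g) (j h), hT.add]
        abel
      rw [e]
      have h1 := nrm_sub_le (μ := μ) ((hDm g).add ((hDm h).comp (hTm (j g)))) (hDm (g + h))
      have h2 := nrm_add_le (μ := μ) (hDm g) ((hDm h).comp (hTm (j g)))
      have h3 : nrm μ (fun x => D h (T (j g) x)) = nrm μ (D h) :=
        nrm_comp (hT.mp (j g)) (hDm h)
      have h4 := hRn g
      have h5 := hRn h
      have h6 := hRn (g + h)
      refine h1.trans ?_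
      have h2' : nrm μ (fun x => D g x + D h (T (j g) x)) ≤ nrm μ (D g) + nrm μ (D h) := by
        rw [← h3]; exact h2
      have h2'' : nrm μ ((D g) + (D h ∘ T (j g))) ≤ nrm μ (D g) + nrm μ (D h) := h2'
      linarith
    obtain ⟨c, hc⟩ := hgap Γ hΓ X μ T hT hE b hbm hbp (lt_of_le_of_lt hbn (by linarith))
    refine ⟨c, hc, ?_⟩
    have : nrm μ b = ‖ee c - 1‖ := by
      rw [nrm_congr hc, nrm]
      simp
    rw [← this]; exact hbn
  choose c hc hcn using hb
  obtain ⟨E, hEx⟩ := exists_exh p (Fact.out : p.Prime).pos G hG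
  have hcc : ∀ g h k, c g h + c (g + h) k = c h k + c g (h + k) := by
    intro g h k
    have hae := (hc g h).and ((hc (g + h) k).and (((hT.qmp (j g)).ae (hc h k)).and
      (hc g (h + k))))
    obtain ⟨x, h1, h2, h3, h4⟩ := hae.exists
    rw [← h1, ← h2, ← h3, ← h4, ← hT.add, map_add, add_comm (j g) (j h), add_assoc g h k]
    abel
  obtain ⟨β, hβ1, hβ2⟩ := pc_cocycle hEx c hcc (3 * ε) (by linarith) hcn
  set R' : G → X → UnitAddCircle := fun g x => R g x + β g with hR'
  have hR'm : ∀ g, Measurable (R' g) := fun g => (hRm g).add_const _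
  have hR'p : ∀ g, AEPoly μ T (l + 1) (R' g) := fun g =>
    (hRp g).add ((AEPoly.const (β g)).mono (by omega) hT.qmp)
  have hR'c : ∀ g h, ∀ᵐ x ∂μ, R' (g + h) x = R' g x + R' h (T (j g) x) := by
    intro g h
    filter_upwards [hc g h] with x hx
    simp only [hR']
    have h1 : R (g + h) x = c g h + R g x + R h (T (j g) x) := by
      rw [← hx]; abel
    rw [h1, hβ1 g h]
    abel
  have hR'n : ∀ g, nrm μ (fun x => φ (T (j g) x) - φ x - R' g x) ≤ 7 * ε := by
    intro g
    have e : (fun x => φ (T (j g) x) - φ x - R' g x) =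
        fun x => (φ (T (j g) x) - φ x - R g x) - β g := by
      funext x
      simp only [hR']
      abel
    rw [e]
    have h1 := nrm_sub_le (μ := μ) (((hφ.comp (hTm (j g))).sub hφ).sub (hRm g))
      (measurable_const (a := β g))
    have h2 : nrm μ (fun _ => β g) = ‖ee (β g) - 1‖ := by
      rw [nrm]; simp
    have h3 := hRn g
    have h4 := hβ2 g
    refine h1.trans ?_
    rw [h2]
    have h5 : nrm μ ((φ ∘ T (j g)) - φ - R g) ≤ ε := h3
    linarith
  have hTG : IsAction μ (fun g : G => T (j g)) := by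
    refine ⟨fun x => ?_, fun g h x => ?_, fun g => hT.mp _⟩
    · rw [map_zero, hT.zero]
    · rw [map_add, hT.add]
  obtain ⟨Ψ, hΨm, hΨ1, hΨT, hΨl⟩ := twisted_mean hEx hTG R' hR'm hR'c (fun x => ee (φ x))
    (pc_meas_ee.comp hφ) 1 (fun x => (norm_ee _).le)
  refine ⟨R', Ψ, hR'm, hR'p, hΨm, hΨ1, hΨT, ?_⟩
  -- closeness
  set A : ℕ → X → ℂ := fun n x => avg (E n) (fun g => ee (-R' g x) * ee (φ (T (j g) x))) with hA
  have hcard : ∀ n, (0 : ℝ) < (E n).card := fun n => by
    have : 0 < (E n).card := Finset.card_pos.2 ⟨0, hEx.zero n⟩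
    exact_mod_cast this
  have hAm : ∀ n, Measurable (A n) := by
    intro n
    simp only [hA, avg]
    have h1 : Measurable (fun x => ∑ g ∈ E n, ee (-R' g x) * ee (φ (T (j g) x))) :=
      Finset.measurable_sum _ fun g _ =>
        (pc_meas_ee.comp (hR'm g).neg).mul (pc_meas_ee.comp (hφ.comp (hTm _)))
    exact h1.const_smul (((E n).card : ℝ)⁻¹)
  have hAb : ∀ n x, ‖A n x‖ ≤ 1 := by
    intro n x
    simp only [hA, avg]
    rw [norm_smul, norm_inv, Real.norm_of_nonneg (hcard n).le, inv_mul_le_iff₀ (hcard n)]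
    refine (norm_sum_le _ _).trans ?_
    refine (Finset.sum_le_sum (g := fun _ => (1 : ℝ)) fun g _ => ?_).trans ?_
    · rw [norm_mul, norm_ee, norm_ee, mul_one]
    · simp
  have hAφ : ∀ n, ∫ x, ‖A n x - ee (φ x)‖ ∂μ ≤ 7 * ε := by
    intro n
    have hpt : ∀ x, ‖A n x - ee (φ x)‖ ≤ ((E n).card : ℝ)⁻¹ *
        ∑ g ∈ E n, ‖ee (φ (T (j g) x) - φ x - R' g x) - 1‖ := by
      intro x
      have h1 : ee (φ x) = ((E n).card : ℝ)⁻¹ • ∑ g ∈ E n, ee (φ x) := by
        rw [Finset.sum_const, ← Nat.cast_smul_eq_nsmul ℝ, smul_smul,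
          inv_mul_cancel₀ (hcard n).ne', one_smul]
      simp only [hA, avg]
      conv_lhs => rw [h1]
      rw [← smul_sub, ← Finset.sum_sub_distrib, norm_smul, norm_inv,
        Real.norm_of_nonneg (hcard n).le]
      refine mul_le_mul_of_nonneg_left ?_ (inv_nonneg.2 (hcard n).le)
      refine (norm_sum_le _ _).trans (Finset.sum_le_sum fun g _ => ?_)
      rw [← ee_add, pc_norm_sub]
      apply le_of_eq
      congr 3
      abel
    have hint : ∀ g, Integrable (fun x => ‖ee (φ (T (j g) x) - φ x - R' g x) - 1‖) μ := by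
      intro g
      refine (pc_integrable (C := 2) ?_ ?_).norm
      · exact (pc_meas_ee.comp (((hφ.comp (hTm _)).sub hφ).sub (hR'm g))).sub_const 1
      · intro x
        refine (norm_sub_le _ _).trans ?_
        rw [norm_ee, norm_one]; norm_num
    calc ∫ x, ‖A n x - ee (φ x)‖ ∂μ
        ≤ ∫ x, ((E n).card : ℝ)⁻¹ *
            ∑ g ∈ E n, ‖ee (φ (T (j g) x) - φ x - R' g x) - 1‖ ∂μ := by
          refine integral_mono_of_nonneg (Filter.Eventually.of_forall fun x => norm_nonneg _) ?_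
            (Filter.Eventually.of_forall hpt)
          exact (integrable_finsetSum _ fun g _ => hint g).const_mul _
      _ = ((E n).card : ℝ)⁻¹ * ∑ g ∈ E n, nrm μ (fun x => φ (T (j g) x) - φ x - R' g x) := by
          rw [integral_const_mul, integral_finsetSum _ fun g _ => hint g]
          rfl
      _ ≤ ((E n).card : ℝ)⁻¹ * ∑ g ∈ E n, 7 * ε := by
          refine mul_le_mul_of_nonneg_left (Finset.sum_le_sum fun g _ => hR'n g)
            (inv_nonneg.2 (hcard n).le)
      _ = 7 * ε := by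
          rw [Finset.sum_const, nsmul_eq_mul, ← mul_assoc, inv_mul_cancel₀ (hcard n).ne', one_mul]
  have hI2 : ∀ n, Integrable (fun x => ‖A n x - Ψ x‖) μ := fun n =>
    (pc_integrable ((hAm n).sub hΨm) 2 fun x => (norm_sub_le _ _).trans (by
      have := hAb n x
      have := hΨ1 x
      linarith)).norm
  have hI3 : ∀ n, Integrable (fun x => ‖A n x - ee (φ x)‖) μ := fun n =>
    (pc_integrable ((hAm n).sub (pc_meas_ee.comp hφ)) 2 fun x => (norm_sub_le _ _).trans (by
      have h1 := hAb n x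
      have h2 := norm_ee (φ x)
      simp only [Function.comp_apply]
      linarith)).norm
  have hL1 : Tendsto (fun n => ∫ x, ‖A n x - Ψ x‖ ∂μ) atTop (𝓝 0) := by
    have h1 : ∀ n, (∫ x, ‖A n x - Ψ x‖ ∂μ) ^ 2 ≤ ∫ x, ‖A n x - Ψ x‖ ^ 2 ∂μ := by
      intro n
      have hi2 : Integrable (fun x => ‖A n x - Ψ x‖ ^ 2) μ := by
        refine Integrable.of_bound (C := 4)
          (((hAm n).sub hΨm).norm.pow_const 2).aestronglyMeasurable
          (Filter.Eventually.of_forall fun x => ?_)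
        rw [norm_pow, norm_norm]
        have h2 : ‖A n x - Ψ x‖ ≤ 2 := (norm_sub_le _ _).trans (by
          have := hAb n x
          have := hΨ1 x
          linarith)
        nlinarith [norm_nonneg (A n x - Ψ x)]
      set m := ∫ x, ‖A n x - Ψ x‖ ∂μ with hm
      have h3 : 0 ≤ ∫ x, (‖A n x - Ψ x‖ - m) ^ 2 ∂μ := integral_nonneg fun x => sq_nonneg _
      have h4 : ∫ x, (‖A n x - Ψ x‖ - m) ^ 2 ∂μ = (∫ x, ‖A n x - Ψ x‖ ^ 2 ∂μ) - m ^ 2 := by
        have e : (fun x => (‖A n x - Ψ x‖ - m) ^ 2) =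
            fun x => ‖A n x - Ψ x‖ ^ 2 - (2 * m) * ‖A n x - Ψ x‖ + m ^ 2 := by
          funext x; ring
        have hi3 : Integrable (fun x => (2 * m) * ‖A n x - Ψ x‖) μ := (hI2 n).const_mul _
        have hi4 : Integrable (fun x => ‖A n x - Ψ x‖ ^ 2 - (2 * m) * ‖A n x - Ψ x‖) μ :=
          hi2.sub hi3
        rw [e, integral_add hi4 (integrable_const _), integral_sub hi2 hi3, integral_const_mul,
          ← hm]
        simp
        ring
      linarith
    have h2 : Tendsto (fun n => (∫ x, ‖A n x - Ψ x‖ ∂μ) ^ 2) atTop (𝓝 0) :=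
      squeeze_zero (fun n => sq_nonneg _) h1 hΨl
    have h3 := h2.sqrt
    simp only [Real.sqrt_zero] at h3
    refine h3.congr fun n => ?_
    rw [Real.sqrt_sq (integral_nonneg fun x => norm_nonneg _)]
  have hfin : ∀ n, ∫ x, ‖Ψ x - ee (φ x)‖ ∂μ ≤ (∫ x, ‖A n x - Ψ x‖ ∂μ) + 7 * ε := by
    intro n
    have h1 : ∫ x, ‖Ψ x - ee (φ x)‖ ∂μ ≤ ∫ x, (‖A n x - Ψ x‖ + ‖A n x - ee (φ x)‖) ∂μ := by
      refine integral_mono_of_nonneg (Filter.Eventually.of_forall fun x => norm_nonneg _)
        ((hI2 n).add (hI3 n)) (Filter.Eventually.of_forall fun x => ?_)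
      have h2 : Ψ x - ee (φ x) = -(A n x - Ψ x) + (A n x - ee (φ x)) := by ring
      show ‖Ψ x - ee (φ x)‖ ≤ _
      rw [h2]
      refine (norm_add_le _ _).trans ?_
      rw [norm_neg]
    rw [integral_add (hI2 n) (hI3 n)] at h1
    have := hAφ n
    linarith
  have hlim := hL1.add_const (7 * ε)
  rw [zero_add] at hlim
  exact ge_of_tendsto' hlim hfin

/-- an eigenfunction of constant modulus gives a polynomial -/
lemma pc_eigen {l : ℕ} {Γ : Type} [AddCommGroup Γ] [Countable Γ] {X : Type u} [MeasurableSpace X]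
    {μ : Measure X} {T : Γ → X → X} (hT : IsAction μ T) (Q : Γ → X → UnitAddCircle)
    (hQ : ∀ g, AEPoly μ T (l + 1) (Q g)) (Ψ : X → ℂ) (hΨ : Measurable Ψ)
    (hΨT : ∀ g, ∀ᵐ x ∂μ, Ψ (T g x) = ee (Q g x) * Ψ x) (c : ℝ) (hc : c ≠ 0)
    (hΨc : ∀ᵐ x ∂μ, ‖Ψ x‖ = c) :
    ∃ P : X → UnitAddCircle, Measurable P ∧ AEPoly μ T (l + 2) P ∧
      ∀ᵐ x ∂μ, Ψ x = c * ee (P x) := by
  obtain ⟨θ, hθm, hθ, -⟩ := exists_arg
  have hP : ∀ᵐ x ∂μ, Ψ x = c * ee (θ (Ψ x)) := by
    filter_upwards [hΨc] with x hx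
    have := hθ (Ψ x)
    rw [hx] at this
    exact this
  refine ⟨fun x => θ (Ψ x), hθm.comp hΨ, ?_, hP⟩
  intro g
  refine (hQ g).congr hT.qmp ?_
  filter_upwards [hP, (hT.qmp g).ae hP, hΨT g] with x h1 h2 h3
  rw [h2, h1] at h3
  have hc' : (c : ℂ) ≠ 0 := by exact_mod_cast hc
  have h4 : ee (θ (Ψ (T g x))) = ee (Q g x + θ (Ψ x)) := by
    rw [ee_add]
    apply mul_left_cancel₀ hc'
    rw [h3]; ring
  rw [ee_inj.1 h4]
  abel

theorem near_poly (p l : ℕ) [Fact p.Prime] (δ : ℝ) (hδ : 0 < δ) : ∃ ε : ℝ, 0 < ε ∧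
    ∀ (Γ : Type) [AddCommGroup Γ] [Countable Γ], (∀ g : Γ, p • g = 0) →
    ∀ (X : Type u) [MeasurableSpace X] (μ : Measure X) [IsProbabilityMeasure μ] (T : Γ → X → X),
      IsAction μ T → IsErgodic μ T → ∀ ψ : X → UnitAddCircle, Measurable ψ →
      (∀ g, ∃ R : X → UnitAddCircle, Measurable R ∧ AEPoly μ T (l + 1) R ∧
        nrm μ (fun x => ψ (T g x) - ψ x - R x) ≤ ε) →
      ∃ P : X → UnitAddCircle, Measurable P ∧ AEPoly μ T (l + 2) P ∧
        nrm μ (fun x => ψ x - P x) ≤ δ := by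
  obtain ⟨ε0, hε0, hcore⟩ := pc_core.{u} p l
  refine ⟨min ε0 (min (δ / 14) (1 / 14)), lt_min hε0 (lt_min (by linarith) (by norm_num)), ?_⟩
  intro Γ _ _ hΓ X _ μ _ T hT hE ψ hψ hR
  set ε := min ε0 (min (δ / 14) (1 / 14)) with hε
  have hε1 : ε ≤ ε0 := min_le_left _ _
  have hε2 : ε ≤ δ / 14 := (min_le_right _ _).trans (min_le_left _ _)
  have hε3 : ε ≤ 1 / 14 := (min_le_right _ _).trans (min_le_right _ _)
  obtain ⟨R, Ψ, hRm, hRp, hΨm, hΨ1, hΨT, hcl⟩ :=
    hcore Γ hΓ X μ T hT hE Γ hΓ (AddMonoidHom.id Γ) ψ hψ ε hε1 hR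
  simp only [AddMonoidHom.id_apply] at hΨT
  obtain ⟨c, hc⟩ := hE.const hT (f := fun x => ‖Ψ x‖) hΨm.norm (fun g => by
    filter_upwards [hΨT g] with x hx
    rw [hx, norm_mul, norm_ee, one_mul])
  have hint : Integrable (fun x => ‖Ψ x - ee (ψ x)‖) μ :=
    (pc_integrable (hΨm.sub (pc_meas_ee.comp hψ)) 2 fun x => (norm_sub_le _ _).trans (by
      have h1 := hΨ1 x
      have h2 := norm_ee (ψ x)
      simp only [Function.comp_apply]
      linarith)).norm
  have hc1 : |c - 1| ≤ 7 * ε := by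
    refine le_trans ?_ hcl
    have h1 : ∫ _ : X, |c - 1| ∂μ ≤ ∫ x, ‖Ψ x - ee (ψ x)‖ ∂μ := by
      refine integral_mono_ae (integrable_const _) hint ?_
      filter_upwards [hc] with x hx
      rw [← hx, ← norm_ee (ψ x)]
      exact abs_norm_sub_norm_le _ _
    simpa using h1
  have hc0 : c ≠ 0 := by
    rintro rfl
    rw [zero_sub, abs_neg, abs_one] at hc1
    linarith
  obtain ⟨P, hPm, hPp, hP⟩ := pc_eigen hT R hRp Ψ hΨm hΨT c hc0 hc
  refine ⟨P, hPm, hPp, ?_⟩
  have h1 : nrm μ (fun x => ψ x - P x) ≤ ∫ x, (‖Ψ x - ee (ψ x)‖ + |c - 1|) ∂μ := by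
    rw [nrm]
    refine integral_mono_of_nonneg (Filter.Eventually.of_forall fun x => norm_nonneg _)
      (hint.add (integrable_const _)) ?_
    filter_upwards [hP] with x hx
    show ‖ee (ψ x - P x) - 1‖ ≤ ‖Ψ x - ee (ψ x)‖ + |c - 1|
    rw [← pc_norm_sub]
    have h2 : ee (ψ x) - ee (P x) = -(Ψ x - ee (ψ x)) + ((c - 1 : ℝ) : ℂ) * ee (P x) := by
      rw [hx]; push_cast; ring
    rw [h2]
    refine (norm_add_le _ _).trans ?_
    rw [norm_neg, norm_mul, norm_ee, mul_one, Complex.norm_real, Real.norm_eq_abs]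
  rw [integral_add hint (integrable_const _)] at h1
  simp at h1
  linarith

/-- the map `Γ → (F → ZMod p)` given by the coordinates in a finite set is onto -/
lemma pc_surj (p : ℕ) [Fact p.Prime] {Γ : Type} [AddCommGroup Γ] [Countable Γ] {X : Type u}
    [MeasurableSpace X] {μ : Measure X} [IsProbabilityMeasure μ] {T : Γ → X → X}
    (hT : IsAction μ T) (hE : IsErgodic μ T) {I : Type} [Countable I]
    {η : Measure (I → ZMod p)} [IsProbabilityMeasure η] [η.IsAddLeftInvariant]
    {α : Γ → I → ZMod p} {z : X → I → ZMod p} (hz : Kron p μ T η α z) (F : Finset I)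
    (v : F → ZMod p) : ∃ g : Γ, ∀ i : F, α g i = v i := by
  classical
  have hpos : η.IsOpenPosMeasure :=
    isOpenPosMeasure_of_addLeftInvariant_of_compact (μ := η) Set.univ isCompact_univ (by simp)
  set zF : X → F → ZMod p := fun x i => z x i with hzF
  have hzFm : Measurable zF := measurable_pi_lambda _ fun i =>
    (measurable_pi_apply (i : I)).comp hz.mp.measurable
  have hpt : ∀ w : F → ZMod p, μ {x | zF x = w} ≠ 0 := by
    intro w
    set O : Set (I → ZMod p) := {k | (fun i : F => k i) = w} with hO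
    have hOo : IsOpen O := by
      have : Continuous fun (k : I → ZMod p) (i : F) => k i :=
        continuous_pi fun i => continuous_apply (i : I)
      exact (isOpen_discrete {w}).preimage this
    have hOn : O.Nonempty := by
      refine ⟨fun i => if h : i ∈ F then w ⟨i, h⟩ else 0, ?_⟩
      simp [hO]
    have h1 : μ (z ⁻¹' O) = η O := hz.mp.measure_preimage hOo.measurableSet.nullMeasurableSet
    have h2 : η O ≠ 0 := (hOo.measure_pos η hOn).ne'
    rw [← h1] at h2
    exact h2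
  set V : Set (F → ZMod p) := {w | ∃ g : Γ, ∀ i : F, α g i = w i} with hV
  have hVadd : ∀ g w, (w + fun i : F => α g i) ∈ V ↔ w ∈ V := by
    intro g w
    constructor
    · rintro ⟨h, hh⟩
      refine ⟨h - g, fun i => ?_⟩
      have h1 := hz.hom (h - g) g
      rw [sub_add_cancel] at h1
      have h2 := congrFun h1 i
      have h3 := hh i
      simp only [Pi.add_apply] at h2 h3
      rw [h2] at h3
      exact add_right_cancel h3
    · rintro ⟨h, hh⟩
      refine ⟨h + g, fun i => ?_⟩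
      rw [hz.hom]
      simp [hh i]
  rcases hE.ae_inv hT (A := zF ⁻¹' V) (hzFm (Set.toFinite V).measurableSet) (fun g => by
    filter_upwards [hz.eqv g] with x hx
    apply propext
    show zF (T g x) ∈ V ↔ zF x ∈ V
    rw [← hVadd g (zF x)]
    have : zF (T g x) = zF x + fun i : F => α g i := by
      funext i
      simp only [hzF, Pi.add_apply, hx]
    rw [this]) with h0 | h0
  · exfalso
    refine hpt 0 (measure_mono_null ?_ h0)
    intro x hx
    show zF x ∈ V
    rw [show zF x = 0 from hx]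
    have h00 : α 0 = 0 := by
      have := hz.hom 0 0
      rw [add_zero] at this
      exact left_eq_add.1 this
    exact ⟨0, fun i => by rw [h00]; rfl⟩
  · by_contra hv
    refine hpt v (measure_mono_null ?_ h0)
    intro x hx
    show ¬ zF x ∈ V
    rw [show zF x = v from hx]
    exact hv

lemma pc_section (p : ℕ) [Fact p.Prime] {Γ : Type} [AddCommGroup Γ] (hΓ : ∀ g : Γ, p • g = 0)
    {F : Type} (r : Γ →+ (F → ZMod p)) (hr : Function.Surjective r) :
    ∃ s : (F → ZMod p) →+ Γ, ∀ v, r (s v) = v := by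
  let inst : Module (ZMod p) Γ := AddCommGroup.zmodModule hΓ
  let rl : Γ →ₗ[ZMod p] (F → ZMod p) := AddMonoidHom.toZModLinearMap p r
  obtain ⟨s, hs⟩ := LinearMap.exists_rightInverse_of_surjective rl (LinearMap.range_eq_top.2 hr)
  exact ⟨s.toAddMonoidHom, fun v => LinearMap.congr_fun hs v⟩

theorem near_poly_index (p l : ℕ) [Fact p.Prime] : ∃ ε : ℝ, 0 < ε ∧
    ∀ (Γ : Type) [AddCommGroup Γ] [Countable Γ], (∀ g : Γ, p • g = 0) →
    ∀ (X : Type u) [MeasurableSpace X] (μ : Measure X) [IsProbabilityMeasure μ] (T : Γ → X → X),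
      IsAction μ T → IsErgodic μ T →
    ∀ (I : Type) [Countable I] (η : Measure (I → ZMod p)) [IsProbabilityMeasure η]
      [η.IsAddLeftInvariant] (α : Γ → I → ZMod p) (z : X → I → ZMod p), Kron p μ T η α z →
    ∀ U : AddSubgroup (I → ZMod p), IsOpen (U : Set (I → ZMod p)) →
    ∀ φ : X → UnitAddCircle, Measurable φ →
      (∀ g, α g ∈ U → ∃ R : X → UnitAddCircle, Measurable R ∧ AEPoly μ T (l + 1) R ∧
        nrm μ (fun x => φ (T g x) - φ x - R x) ≤ ε) →
      ∃ P : X → UnitAddCircle, Measurable P ∧ AEPoly μ T (l + 2) P ∧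
        ∫ x, ee (φ x - P x) ∂μ ≠ 0 := by
  classical
  obtain ⟨ε0, hε0, hcore⟩ := pc_core.{u} p l
  refine ⟨min ε0 (1 / 14), lt_min hε0 (by norm_num), ?_⟩
  intro Γ _ _ hΓ X _ μ _ T hT hE I _ η _ _ α z hz U hU φ hφ hR
  set ε := min ε0 (1 / 14) with hε
  have hε1 : ε ≤ ε0 := min_le_left _ _
  have hε3 : ε ≤ 1 / 14 := min_le_right _ _
  have hTm : ∀ g, Measurable (T g) := fun g => (hT.mp g).measurable
  -- a finite set of coordinates
  obtain ⟨F, hF⟩ : ∃ F : Finset I, ∀ w : I → ZMod p, (∀ i ∈ F, w i = 0) → w ∈ U := by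
    obtain ⟨F, u, hu, hFu⟩ := isOpen_pi_iff.1 hU 0 U.zero_mem
    refine ⟨F, fun w hw => hFu ?_⟩
    intro i hi
    rw [hw i hi]
    exact (hu i hi).2
  have hα0 : α 0 = 0 := by
    have := hz.hom 0 0
    rw [add_zero] at this
    exact left_eq_add.1 this
  let r : Γ →+ (F → ZMod p) :=
    { toFun := fun g i => α g i
      map_zero' := by rw [hα0]; rfl
      map_add' := fun g h => by rw [hz.hom]; rfl }
  have hr : ∀ g (i : F), r g i = α g i := fun g i => rfl
  let G : AddSubgroup Γ := r.ker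
  have hGU : ∀ g : G, α (g : Γ) ∈ U := by
    intro g
    apply hF
    intro i hi
    have h1 : r (g : Γ) = 0 := g.2
    exact congrFun h1 ⟨i, hi⟩
  obtain ⟨R, Ψ, hRm, hRp, hΨm, hΨ1, hΨT, hcl⟩ :=
    hcore Γ hΓ X μ T hT hE G (fun g => Subtype.ext (by simpa using hΓ g)) G.subtype φ hφ ε hε1
      (fun g => hR g (hGU g))
  simp only [AddSubgroup.subtype_apply] at hΨT
  -- a section
  obtain ⟨s, hs⟩ : ∃ s : (F → ZMod p) →+ Γ, ∀ v, r (s v) = v := by
    refine pc_section p hΓ r fun v => ?_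
    obtain ⟨g, hg⟩ := pc_surj p hT hE hz F v
    exact ⟨g, funext hg⟩
  set zF : X → F → ZMod p := fun x i => z x i with hzF
  have hzFm : Measurable zF := measurable_pi_lambda _ fun i =>
    (measurable_pi_apply (i : I)).comp hz.mp.measurable
  have hzFT : ∀ g, ∀ᵐ x ∂μ, zF (T g x) = zF x + r g := by
    intro g
    filter_upwards [hz.eqv g] with x hx
    funext i
    simp only [hzF, Pi.add_apply, hx, hr]
  -- the integral
  have hcj : Measurable fun x => ee (φ x) * (starRingEnd ℂ) (Ψ x) :=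
    (pc_meas_ee.comp hφ).mul (Complex.continuous_conj.measurable.comp hΨm)
  have hcjb : ∀ x, ‖ee (φ x) * (starRingEnd ℂ) (Ψ x)‖ ≤ 1 := by
    intro x
    rw [norm_mul, norm_ee, one_mul, RCLike.norm_conj]
    exact hΨ1 x
  have hne : ∫ x, ee (φ x) * (starRingEnd ℂ) (Ψ x) ∂μ ≠ 0 := by
    intro h0
    have h1 : ∫ x, ee (φ x) * (starRingEnd ℂ) (Ψ x - ee (φ x)) ∂μ = -1 := by
      have e : (fun x => ee (φ x) * (starRingEnd ℂ) (Ψ x - ee (φ x))) =
          fun x => ee (φ x) * (starRingEnd ℂ) (Ψ x) - 1 := by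
        funext x
        rw [map_sub, mul_sub, Complex.mul_conj, Complex.normSq_eq_norm_sq, norm_ee]
        simp
      rw [e, integral_sub (pc_integrable hcj 1 hcjb) (integrable_const _), h0]
      simp
    have h2 : ‖∫ x, ee (φ x) * (starRingEnd ℂ) (Ψ x - ee (φ x)) ∂μ‖ ≤
        ∫ x, ‖Ψ x - ee (φ x)‖ ∂μ := by
      refine (norm_integral_le_integral_norm _).trans (le_of_eq ?_)
      congr 1
      funext x
      rw [norm_mul, norm_ee, one_mul, RCLike.norm_conj]
    rw [h1, norm_neg, norm_one] at h2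
    linarith
  obtain ⟨ω, hω⟩ : ∃ ω : F → ZMod p,
      ∫ x, (if zF x = ω then ee (φ x) * (starRingEnd ℂ) (Ψ x) else 0) ∂μ ≠ 0 := by
    by_contra hcon
    push Not at hcon
    apply hne
    have h1 : (fun x => ee (φ x) * (starRingEnd ℂ) (Ψ x)) =
        fun x => ∑ ω : F → ZMod p, (if zF x = ω then ee (φ x) * (starRingEnd ℂ) (Ψ x) else 0) := by
      funext x
      simp
    rw [h1, integral_finsetSum]
    · exact Finset.sum_eq_zero fun ω _ => hcon ω
    · intro ω _
      refine pc_integrable ?_ 1 ?_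
      · exact Measurable.ite (hzFm (measurableSet_singleton ω)) hcj measurable_const
      · intro x
        split_ifs
        · exact hcjb x
        · simp
  -- the retraction
  set ρ : X → X := fun x => T (-s (zF x - ω)) x with hρ
  have hρm : Measurable ρ := by
    have : Measurable fun y : (F → ZMod p) × X => T (-s (y.1 - ω)) y.2 :=
      measurable_from_prod_countable_right fun v => hTm (-s (v - ω))
    exact this.comp (hzFm.prodMk measurable_id)
  have hρq : Measure.QuasiMeasurePreserving ρ μ μ := by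
    refine ⟨hρm, Measure.AbsolutelyContinuous.mk fun N hNm hN => ?_⟩
    rw [Measure.map_apply hρm hNm]
    refine measure_mono_null (t := ⋃ v : F → ZMod p, T (-s (v - ω)) ⁻¹' N) ?_ ?_
    · intro x hx
      exact Set.mem_iUnion.2 ⟨zF x, hx⟩
    · refine measure_iUnion_null fun v => ?_
      rw [(hT.mp _).measure_preimage hNm.nullMeasurableSet]
      exact hN
  have hpr : ∀ g, g - s (r g) ∈ G := by
    intro g
    show r (g - s (r g)) = 0
    rw [map_sub, hs, sub_self]
  have hρT : ∀ g, ∀ᵐ x ∂μ, ρ (T g x) = T (g - s (r g)) (ρ x) := by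
    intro g
    filter_upwards [hzFT g] with x hx
    simp only [hρ]
    rw [hx, ← hT.add, ← hT.add]
    congr 1
    rw [show zF x + r g - ω = (zF x - ω) + r g by abel, map_add]
    abel
  have hρω : ∀ x, zF x = ω → ρ x = x := by
    intro x hx
    simp only [hρ]
    rw [hx, sub_self, map_zero, neg_zero, hT.zero]
  -- the new eigenfunction
  set Q : Γ → X → UnitAddCircle := fun g x => R ⟨g - s (r g), hpr g⟩ (ρ x) with hQ
  have hQp : ∀ g, AEPoly μ T (l + 1) (Q g) := by
    intro g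
    have h1 : AEPoly μ (fun g : Γ => T (g - s (r g))) (l + 1) (R ⟨g - s (r g), hpr g⟩) := by
      have gen : ∀ (n : ℕ) (f : X → UnitAddCircle), AEPoly μ T n f →
          AEPoly μ (fun g : Γ => T (g - s (r g))) n f := by
        intro n
        induction n with
        | zero => intro f hf; exact hf
        | succ n ih => intro f hf i; exact ih _ (hf _)
      exact gen _ _ (hRp _)
    exact AEPoly.comp_factor hρq hT.qmp hρT h1
  have hΨQ : ∀ g, ∀ᵐ x ∂μ, Ψ (ρ (T g x)) = ee (Q g x) * Ψ (ρ x) := by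
    intro g
    filter_upwards [hρT g, hρq.ae (hΨT ⟨g - s (r g), hpr g⟩)] with x h1 h2
    rw [h1, h2]
  obtain ⟨c, hc⟩ := hE.const hT (f := fun x => ‖Ψ (ρ x)‖) (hΨm.comp hρm).norm (fun g => by
    filter_upwards [hΨQ g] with x hx
    rw [hx, norm_mul, norm_ee, one_mul])
  have hc0 : c ≠ 0 := by
    rintro rfl
    apply hω
    rw [integral_eq_zero_of_ae]
    filter_upwards [hc] with x hx
    simp only [Pi.zero_apply]
    split_ifs with h
    · rw [hρω x h] at hx
      rw [norm_eq_zero.1 hx]; simp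
    · rfl
  obtain ⟨P, hPm, hPp, hP⟩ := pc_eigen hT Q hQp (fun x => Ψ (ρ x)) (hΨm.comp hρm) hΨQ c hc0 hc
  have hω2 : ∫ x, (if zF x = ω then ee (φ x - P x) else 0) ∂μ ≠ 0 := by
    intro h0
    apply hω
    have h1 : ∫ x, (if zF x = ω then ee (φ x) * (starRingEnd ℂ) (Ψ x) else 0) ∂μ =
        ∫ x, (c : ℂ) * (if zF x = ω then ee (φ x - P x) else 0) ∂μ := by
      apply integral_congr_ae
      filter_upwards [hP] with x hx
      split_ifs with h
      · rw [hρω x h] at hx
        rw [hx, map_mul, Complex.conj_ofReal, sub_eq_add_neg, ee_add, ee_neg]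
        ring
      · rw [mul_zero]
    rw [h1, integral_const_mul, h0, mul_zero]
  -- expand the indicator function in characters
  obtain ⟨χ, hχ⟩ : ∃ χ : AddChar (F → ZMod p) ℂ,
      ∫ x, χ (zF x - ω) * ee (φ x - P x) ∂μ ≠ 0 := by
    by_contra hcon
    push Not at hcon
    apply hω2
    have hcd : (Fintype.card (F → ZMod p) : ℂ) ≠ 0 := Nat.cast_ne_zero.2 Fintype.card_ne_zero
    have h1 : (fun x => (if zF x = ω then ee (φ x - P x) else 0)) =
        fun x => (Fintype.card (F → ZMod p) : ℂ)⁻¹ * ∑ χ : AddChar (F → ZMod p) ℂ,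
          χ (zF x - ω) * ee (φ x - P x) := by
      funext x
      rw [← Finset.sum_mul, AddChar.sum_apply_eq_ite]
      by_cases h : zF x = ω
      · rw [if_pos h, if_pos (sub_eq_zero.2 h), ← mul_assoc, inv_mul_cancel₀ hcd, one_mul]
      · rw [if_neg h, if_neg (fun h' => h (sub_eq_zero.1 h')), zero_mul, mul_zero]
    rw [h1, integral_const_mul, integral_finsetSum]
    · rw [Finset.sum_eq_zero fun χ _ => hcon χ, mul_zero]
    · intro χ _
      refine pc_integrable ?_ 1 ?_
      · exact ((measurable_of_countable (fun v : F → ZMod p => χ (v - ω))).comp hzFm).mul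
          (pc_meas_ee.comp (hφ.sub hPm))
      · intro x
        rw [norm_mul, norm_ee, AddChar.norm_apply, one_mul]
  obtain ⟨θ, hθm, hθ, -⟩ := exists_arg
  have hθχ : ∀ v : F → ZMod p, χ v = ee (θ (χ v)) := by
    intro v
    have := hθ (χ v)
    rw [AddChar.norm_apply] at this
    simpa using this
  set ζ : X → UnitAddCircle := fun x => θ (χ (zF x - ω)) with hζ
  have hζm : Measurable ζ :=
    (measurable_of_countable (fun v : F → ZMod p => θ (χ (v - ω)))).comp hzFm
  have hζp : AEPoly μ T 2 ζ := by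
    intro g
    refine (AEPoly.const (θ (χ (r g)))).congr hT.qmp ?_
    filter_upwards [hzFT g] with x hx
    have h1 : ee (ζ (T g x)) = ee (ζ x + θ (χ (r g))) := by
      simp only [hζ]
      rw [ee_add, ← hθχ, ← hθχ, ← hθχ, hx, show zF x + r g - ω = (zF x - ω) + r g by abel,
        AddChar.map_add_eq_mul]
    rw [ee_inj.1 h1]
    abel
  refine ⟨fun x => P x - ζ x, hPm.sub hζm, hPp.sub (hζp.mono (by omega) hT.qmp), ?_⟩
  have h1 : (fun x => ee (φ x - (P x - ζ x))) = fun x => χ (zF x - ω) * ee (φ x - P x) := by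
    funext x
    rw [show φ x - (P x - ζ x) = ζ x + (φ x - P x) by abel, ee_add, hθχ (zF x - ω)]
  rw [h1]
  exact hχ

end Pool.Agent.FpTrans
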