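import Pool.Agent.FpOrd.Split1

/-!
# Splitting of functions on pairs
-/

set_option autoImplicit false
open MeasureTheory Filter Topology ProbabilityTheory

namespace Pool.Agent.FpTrans

universe u v w

theorem sp_mp_of_comp {A B C : Type*} [MeasurableSpace A] [MeasurableSpace B] [MeasurableSpace C]
    {M : Measure A} {M' : Measure B} {N : Measure C} {φ : A → B} {ψ : B → C}
    (hφ : MeasurePreserving φ M M') (hψ : Measurable ψ) (h : MeasurePreserving (ψ ∘ φ) M N) :
    MeasurePreserving ψ M' N := by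
  refine ⟨hψ, ?_⟩
  rw [← hφ.map_eq, Measure.map_map hψ hφ.measurable, h.map_eq]

theorem sp_ae_swap {A B : Type*} [MeasurableSpace A] [MeasurableSpace B] {M : Measure A}
    [SFinite M] {N : Measure B} [SFinite N] {P : A × B → Prop} (h : ∀ᵐ w ∂(M.prod N), P w) :
    ∀ᵐ b ∂N, ∀ᵐ a ∂M, P (a, b) :=
  Measure.ae_ae_of_ae_prod
    ((Measure.measurePreserving_swap (μ := N) (ν := M)).quasiMeasurePreserving.ae h)

theorem sp_ae_mp {A B : Type*} [MeasurableSpace A] [MeasurableSpace B] {M : Measure A}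
    {N : Measure B} {φ : A → B} (hφ : MeasurePreserving φ M N) {P : B → Prop}
    (h : ∀ᵐ b ∂N, P b) : ∀ᵐ a ∂M, P (φ a) :=
  hφ.quasiMeasurePreserving.ae h

section Square

variable {Γ : Type} [AddCommGroup Γ] {X : Type u} [MeasurableSpace X]
  {μ : Measure X} [IsProbabilityMeasure μ] {T : Γ → X → X} (hT : IsAction μ T)
  {K : Type v} [MeasurableSpace K] {ν : Measure K}
  [IsProbabilityMeasure ν] {S : Γ → K → K} (hS : IsAction ν S) {y : X → K}
  (hy : MeasurePreserving y μ ν) (hyS : ∀ g, ∀ᵐ x ∂μ, y (T g x) = S g (y x))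
  {Θ : K → unitInterval → X} (hΘm : Measurable (Function.uncurry Θ))
  (hΘ : MeasurePreserving (Function.uncurry Θ) (ν.prod volume) μ)
  (hyΘ : ∀ᵐ w ∂(ν.prod (volume : Measure unitInterval)), y (Θ w.1 w.2) = w.1)

include hΘm in
theorem sp_bm {B : Set X} (hB : MeasurableSet B) :
    Measurable fun k => (volume : Measure unitInterval) {t | Θ k t ∈ B} :=
  measurable_measure_prodMk_left (hΘm hB)

include hy hΘm hΘ hyΘ in
theorem sp_claim1 {B : Set X} (hB : MeasurableSet B) {A : Set K} (hA : MeasurableSet A) :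
    ∫⁻ k in A, (volume : Measure unitInterval) {t | Θ k t ∈ B} ∂ν = μ (y ⁻¹' A ∩ B) := by
  have h1 : μ (y ⁻¹' A ∩ B) = (ν.prod (volume : Measure unitInterval))
      (Function.uncurry Θ ⁻¹' (y ⁻¹' A ∩ B)) :=
    (hΘ.measure_preimage ((hy.measurable hA).inter hB).nullMeasurableSet).symm
  have h2 : (ν.prod (volume : Measure unitInterval)) (Function.uncurry Θ ⁻¹' (y ⁻¹' A ∩ B)) =
      (ν.prod (volume : Measure unitInterval))
        ((A ×ˢ Set.univ) ∩ (Function.uncurry Θ ⁻¹' B)) := by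
    refine measure_congr ?_
    filter_upwards [hyΘ] with w hw
    apply propext
    show (y (Θ w.1 w.2) ∈ A ∧ Θ w.1 w.2 ∈ B) ↔ ((w.1 ∈ A ∧ w.2 ∈ Set.univ) ∧ Θ w.1 w.2 ∈ B)
    rw [hw]; simp
  rw [h1, h2, Measure.prod_apply ((hA.prod MeasurableSet.univ).inter (hΘm hB)),
    ← lintegral_indicator hA]
  refine lintegral_congr fun k => ?_
  by_cases hk : k ∈ A
  · simp only [hk, Set.indicator_of_mem]
    congr 1
    ext t
    simp [hk]
  · simp only [hk, not_false_eq_true, Set.indicator_of_notMem]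
    have : (Prod.mk k ⁻¹' (A ×ˢ Set.univ ∩ Function.uncurry Θ ⁻¹' B)) = ∅ := by
      ext t
      simp [hk]
    rw [this, measure_empty]

include hT hS hy hyS hΘm hΘ hyΘ in
theorem sp_claim2 (g : Γ) {B : Set X} (hB : MeasurableSet B) :
    (fun k => (volume : Measure unitInterval) {t | Θ k t ∈ T g ⁻¹' B}) =ᵐ[ν]
      fun k => (volume : Measure unitInterval) {t | Θ (S g k) t ∈ B} := by
  have hTB : MeasurableSet (T g ⁻¹' B) := (hT.mp g).measurable hB
  refine ae_eq_of_forall_setLIntegral_eq_of_sigmaFinite (sp_bm hΘm hTB)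
    ((sp_bm hΘm hB).comp (hS.mp g).measurable) fun A hA _ => ?_
  rw [sp_claim1 hy hΘm hΘ hyΘ hTB hA]
  have hA' : MeasurableSet (S (-g) ⁻¹' A) := (hS.mp (-g)).measurable hA
  have h1 := sp_claim1 hy hΘm hΘ hyΘ hB hA'
  have h2 : ∫⁻ k in A, (volume : Measure unitInterval) {t | Θ (S g k) t ∈ B} ∂ν =
      ∫⁻ k in S (-g) ⁻¹' A, (volume : Measure unitInterval) {t | Θ k t ∈ B} ∂ν := by
    rw [← lintegral_indicator hA, ← lintegral_indicator hA']
    have hm : Measurable ((S (-g) ⁻¹' A).indicator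
        fun k => (volume : Measure unitInterval) {t | Θ k t ∈ B}) :=
      (sp_bm hΘm hB).indicator hA'
    rw [← (hS.mp g).lintegral_comp hm]
    refine lintegral_congr fun k => ?_
    have h3 : (S g k ∈ S (-g) ⁻¹' A) ↔ k ∈ A := by
      show S (-g) (S g k) ∈ A ↔ _
      rw [hS.neg_cancel]
    by_cases hk : k ∈ A
    · simp [hk, h3.2 hk]
    · simp [hk, mt h3.1 hk]
  rw [h2, h1]
  have h4 : μ (y ⁻¹' (S (-g) ⁻¹' A) ∩ B) = μ (T g ⁻¹' (y ⁻¹' (S (-g) ⁻¹' A) ∩ B)) :=
    ((hT.mp g).measure_preimage ((hy.measurable hA').inter hB).nullMeasurableSet).symm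
  rw [h4]
  refine measure_congr ?_
  filter_upwards [hyS g] with x hx
  apply propext
  show (y x ∈ A ∧ T g x ∈ B) ↔ (S (-g) (y (T g x)) ∈ A ∧ T g x ∈ B)
  rw [hx, hS.neg_cancel]

/-- the relative square of `μ` over `y` -/
noncomputable def spm (μ : Measure X) (y : X → K) (Θ : K → unitInterval → X) :
    Measure (X × X) :=
  (μ.prod (volume : Measure unitInterval)).map fun w => (w.1, Θ (y w.1) w.2)

include hy hΘm in
theorem sp_P1 : Measurable fun w : X × unitInterval => (w.1, Θ (y w.1) w.2) :=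
  measurable_fst.prodMk (hΘm.comp ((hy.measurable.comp measurable_fst).prodMk measurable_snd))

include hy hΘm in
theorem sp_mp1 : MeasurePreserving (fun w : X × unitInterval => (w.1, Θ (y w.1) w.2))
    (μ.prod volume) (spm μ y Θ) :=
  ⟨sp_P1 hy hΘm, rfl⟩

include hy hΘm in
theorem sp_prob : IsProbabilityMeasure (spm μ y Θ) :=
  Measure.isProbabilityMeasure_map (sp_P1 hy hΘm).aemeasurable

include hy hΘm in
theorem sp_rect {A B : Set X} (hA : MeasurableSet A) (hB : MeasurableSet B) :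
    spm μ y Θ (A ×ˢ B) = ∫⁻ x in A, (volume : Measure unitInterval) {t | Θ (y x) t ∈ B} ∂μ := by
  rw [spm, Measure.map_apply (sp_P1 hy hΘm) (hA.prod hB),
    Measure.prod_apply (sp_P1 hy hΘm (hA.prod hB)), ← lintegral_indicator hA]
  refine lintegral_congr fun x => ?_
  by_cases hx : x ∈ A
  · simp only [hx, Set.indicator_of_mem]
    congr 1
    ext t
    simp [hx]
  · simp only [hx, not_false_eq_true, Set.indicator_of_notMem]
    have : (Prod.mk x ⁻¹' ((fun w : X × unitInterval => (w.1, Θ (y w.1) w.2)) ⁻¹' (A ×ˢ B))) =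
        ∅ := by
      ext t
      simp [hx]
    rw [this, measure_empty]

include hT hS hy hyS hΘm hΘ hyΘ in
theorem sp_sq_action : IsAction (spm μ y Θ) (pact T T) where
  zero := fun q => by simp [pact, hT.zero]
  add := fun g h q => by simp [pact, hT.add]
  mp := fun g => by
    have := sp_prob (μ := μ) hy hΘm
    have hm : Measurable (pact T T g) :=
      ((hT.mp g).measurable.comp measurable_fst).prodMk
        ((hT.mp g).measurable.comp measurable_snd)
    refine ⟨hm, ?_⟩
    have hp : IsProbabilityMeasure ((spm μ y Θ).map (pact T T g)) :=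
      Measure.isProbabilityMeasure_map hm.aemeasurable
    refine Measure.ext_prod fun {A B} hA hB => ?_
    rw [Measure.map_apply hm (hA.prod hB)]
    have h1 : pact T T g ⁻¹' (A ×ˢ B) = (T g ⁻¹' A) ×ˢ (T g ⁻¹' B) := by
      ext q; simp [pact]
    have hTA : MeasurableSet (T g ⁻¹' A) := (hT.mp g).measurable hA
    have hTB : MeasurableSet (T g ⁻¹' B) := (hT.mp g).measurable hB
    rw [h1, sp_rect hy hΘm hTA hTB, sp_rect hy hΘm hA hB, ← lintegral_indicator hTA,
      ← lintegral_indicator hA]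
    have hmm : Measurable (A.indicator
        fun x => (volume : Measure unitInterval) {t | Θ (y x) t ∈ B}) :=
      ((sp_bm hΘm hB).comp hy.measurable).indicator hA
    rw [← (hT.mp g).lintegral_comp hmm]
    refine lintegral_congr_ae ?_
    filter_upwards [hyS g, sp_ae_mp hy (sp_claim2 hT hS hy hyS hΘm hΘ hyΘ g hB)] with x a1 a2
    by_cases hx : T g x ∈ A
    · have hx' : x ∈ T g ⁻¹' A := hx
      simp only [hx, hx', Set.indicator_of_mem]
      rw [a1]; exact a2
    · have hx' : x ∉ T g ⁻¹' A := hx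
      simp only [hx, hx', not_false_eq_true, Set.indicator_of_notMem]

end Square

section Swap

variable {p : ℕ} [Fact p.Prime] {X : Type u} [MeasurableSpace X]
  {μ : Measure X} [IsProbabilityMeasure μ]
  {I : Type} [Countable I] {η : Measure (I → ZMod p)}
  [IsProbabilityMeasure η] [η.IsAddLeftInvariant] {z : X → I → ZMod p}
  (hzm : MeasurePreserving z μ η) {κ : Kernel (I → ZMod p) (X × X)} [IsMarkovKernel κ]
  (hκ : IsPair μ z η κ)

/-- the swapped kernel -/
noncomputable def spσ (κ : Kernel (I → ZMod p) (X × X)) : Kernel (I → ZMod p) (X × X) :=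
  (κ.comap (fun s => -s) measurable_neg).map Prod.swap

theorem spσ_apply (κ : Kernel (I → ZMod p) (X × X)) (s : I → ZMod p) :
    spσ κ s = (κ (-s)).map Prod.swap := by
  rw [spσ, Kernel.map_apply _ measurable_swap, Kernel.comap_apply]

instance spσ_markov (κ : Kernel (I → ZMod p) (X × X)) [IsMarkovKernel κ] :
    IsMarkovKernel (spσ κ) := by
  rw [spσ]
  exact Kernel.IsMarkovKernel.map _ measurable_swap

include hzm hκ in
theorem spσ_pair : IsPair μ z η (spσ κ) := by
  have hc : Measurable fun q : X × X => z q.2 - z q.1 := (sp_diff hzm).measurable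
  have hm : Measurable fun q : X × X => (z q.2 - z q.1, q) := hc.prodMk measurable_id
  show η ⊗ₘ spσ κ = (μ.prod μ).map fun q => (z q.2 - z q.1, q)
  have hN : Measurable fun w : (I → ZMod p) × (X × X) => (-w.1, w.2.swap) :=
    (measurable_neg.comp measurable_fst).prodMk (measurable_swap.comp measurable_snd)
  have h1 : η ⊗ₘ spσ κ = (η ⊗ₘ κ).map fun w => (-w.1, w.2.swap) := by
    ext A hA
    rw [Measure.map_apply hN hA, Measure.compProd_apply hA, Measure.compProd_apply (hN hA)]
    have hF : Measurable fun s => κ (-s) (Prod.mk (-s) ⁻¹' ((fun w : (I → ZMod p) × (X × X) =>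
        (-w.1, w.2.swap)) ⁻¹' A)) :=
      (Kernel.measurable_kernel_prodMk_left (κ := κ) (hN hA)).comp measurable_neg
    have h2 := (sp_neg hzm).lintegral_comp hF
    simp only [neg_neg] at h2
    rw [h2]
    refine lintegral_congr fun s => ?_
    rw [spσ_apply, Measure.map_apply measurable_swap (measurable_prodMk_left hA)]
    congr 1
    ext q
    simp
  rw [h1, show η ⊗ₘ κ = _ from hκ, Measure.map_map hN hm]
  have h3 : (fun w : (I → ZMod p) × (X × X) => (-w.1, w.2.swap)) ∘
      (fun q : X × X => (z q.2 - z q.1, q)) = (fun q : X × X => (z q.2 - z q.1, q)) ∘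
        Prod.swap := by
    funext q
    simp
  rw [h3, ← Measure.map_map hm measurable_swap, Measure.prod_swap]

end Swap

section Pairs

variable (p : ℕ) [Fact p.Prime] {Γ : Type} [AddCommGroup Γ] [Countable Γ]
  (hΓ : ∀ g : Γ, p • g = 0) {X : Type u} [MeasurableSpace X] [StandardBorelSpace X]
  {μ : Measure X} [IsProbabilityMeasure μ] {T : Γ → X → X} (hT : IsAction μ T)
  (hE : IsErgodic μ T) {I : Type} [Countable I] {η : Measure (I → ZMod p)}
  [IsProbabilityMeasure η] [η.IsAddLeftInvariant] {α : Γ → I → ZMod p} {z : X → I → ZMod p}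
  (hz : Kron p μ T η α z) {κ : Kernel (I → ZMod p) (X × X)} [IsMarkovKernel κ]
  (hκ : IsPair μ z η κ)
  {K : Type v} [MeasurableSpace K] [StandardBorelSpace K] {ν : Measure K}
  [IsProbabilityMeasure ν] {S : Γ → K → K} (hS : IsAction ν S) {y : X → K}
  (hy : MeasurePreserving y μ ν) (hyS : ∀ g, ∀ᵐ x ∂μ, y (T g x) = S g (y x))
  (hzy : Capt μ y z)

include hΓ hT hE hz hκ hS hy hyS hzy in
theorem sp_half {Θ : K → unitInterval → X} (hΘm : Measurable (Function.uncurry Θ))
    (hΘ : MeasurePreserving (Function.uncurry Θ) (ν.prod volume) μ)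
    (hyΘ : ∀ᵐ w ∂(ν.prod (volume : Measure unitInterval)), y (Θ w.1 w.2) = w.1) :
    ∀ᵐ s ∂η, ∀ Q : X × X → UnitAddCircle, Measurable Q →
      (∀ g, Capt (κ s) (fun q => (y q.1, y q.2)) (fun q => Q (pact T T g q) - Q q)) →
      ∃ (φ' : X → UnitAddCircle) (B : K × X → UnitAddCircle), Measurable φ' ∧ Measurable B ∧
        ∀ᵐ q ∂(κ s), Q q = φ' q.1 + B (y q.1, q.2) := by
  obtain ⟨E, hEx⟩ := exists_exh p (Nat.Prime.pos Fact.out) Γ hΓ
  obtain ⟨θ, hθm, hθ1, hθ2⟩ := exists_arg
  have hc : Measurable fun q : X × X => z q.2 - z q.1 := (sp_diff hz.mp).measurable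
  have hprob := sp_prob (μ := μ) hy hΘm
  have hA2 : IsAction (spm μ y Θ) (pact T T) := sp_sq_action hT hS hy hyS hΘm hΘ hyΘ
  set M3 : Measure ((X × X) × X) := (spm μ y Θ).prod μ with hM3
  have hA3 : IsAction M3 (pact (pact T T) T) := sp_pact hA2 hT
  have hfst1 : MeasurePreserving Prod.fst (spm μ y Θ) μ := by
    refine sp_mp_of_comp (sp_mp1 (μ := μ) hy hΘm) measurable_fst ?_
    exact measurePreserving_fst
  have hψ1m : Measurable fun w : (X × X) × X => (w.1.1, w.2) :=
    (measurable_fst.comp measurable_fst).prodMk measurable_snd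
  have hψ2m : Measurable fun w : (X × X) × X => (w.1.2, w.2) :=
    (measurable_snd.comp measurable_fst).prodMk measurable_snd
  have hψ1M : MeasurePreserving (fun w : (X × X) × X => (w.1.1, w.2)) M3 (μ.prod μ) :=
    hfst1.prod (MeasurePreserving.id μ)
  have hc3 : MeasurePreserving (fun w : (X × X) × X => z w.2 - z w.1.1) M3 η :=
    (sp_diff hz.mp).comp hψ1M
  obtain ⟨κ3, hκ3M, hκ3⟩ := exists_dis M3 η _ hc3
  have hc3T : ∀ g, ∀ᵐ w ∂M3, z (pact (pact T T) T g w).2 - z (pact (pact T T) T g w).1.1 =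
      z w.2 - z w.1.1 := by
    intro g
    have h1 : ∀ᵐ w ∂M3, z (T g w.1.1) = z w.1.1 + α g :=
      sp_ae_mp (hfst1.comp measurePreserving_fst) (hz.eqv g)
    have h2 : ∀ᵐ w ∂M3, z (T g w.2) = z w.2 + α g :=
      sp_ae_mp measurePreserving_snd (hz.eqv g)
    filter_upwards [h1, h2] with w a1 a2
    simp only [pact]
    rw [a1, a2, add_sub_add_right_eq_sub]
  have hinv := fiber_inv hEx hA3 hc3.measurable hc3T hκ3 (Prod.fst : (X × X) × X → X × X)
    measurable_fst (by
      intro H hH hb hi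
      obtain ⟨h, hh, hHh⟩ := prod_inv p hΓ hT hE hz hA2 H hH hb hi
      refine ⟨fun w => h (w.1, w.2 + z w.1.1), hh.comp (measurable_fst.prodMk
        (measurable_snd.add (hz.mp.measurable.comp (measurable_fst.comp measurable_fst)))), ?_⟩
      filter_upwards [hHh] with w hw
      rw [hw]
      simp)
  -- the map `φ3`
  have e1 : MeasurePreserving (fun w : (X × X) × unitInterval => ((w.1.1, w.2), w.1.2))
      ((μ.prod μ).prod volume) ((μ.prod volume).prod μ) := by
    have i1 := measurePreserving_prodAssoc μ μ (volume : Measure unitInterval)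
    have i2 := (MeasurePreserving.id μ).prod
      (Measure.measurePreserving_swap (μ := μ) (ν := (volume : Measure unitInterval)))
    have i3 := (measurePreserving_prodAssoc μ (volume : Measure unitInterval) μ).symm
    exact (i3.comp i2).comp i1
  have hφ3 : MeasurePreserving
      (fun w : (X × X) × unitInterval => ((w.1.1, Θ (y w.1.1) w.2), w.1.2))
      ((μ.prod μ).prod volume) M3 :=
    ((sp_mp1 (μ := μ) hy hΘm).prod (MeasurePreserving.id μ)).comp e1
  have hdp := dis_prod (Y' := unitInterval) (ρ := volume) hc hκ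
  have hker : ∀ s, (κ ×ₖ Kernel.const (I → ZMod p) (volume : Measure unitInterval)) s =
      (κ s).prod volume := by
    intro s
    rw [Kernel.prod_apply, Kernel.const_apply]
  have g1 := dis_map (hc.comp measurable_fst) hc3.measurable hdp hκ3 _ hφ3
    (Eventually.of_forall fun w => rfl)
  filter_upwards [g1, hinv, resample p hz hκ hy hzy hΘm hΘ hyΘ, sp_fst hz.mp hκ] with s a1 a2 a3 a4
  rw [hker] at a1
  intro Q hQ hQd
  have hψ1 : MeasurePreserving (fun w : (X × X) × X => (w.1.1, w.2)) (κ3 s) (κ s) := by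
    refine sp_mp_of_comp a1 hψ1m ?_
    exact measurePreserving_fst
  have hψ2 : MeasurePreserving (fun w : (X × X) × X => (w.1.2, w.2)) (κ3 s) (κ s) :=
    sp_mp_of_comp a1 hψ2m a3.1
  -- `y` of the resampled point
  have hyI : MeasurePreserving (fun w : (X × X) × unitInterval => (y w.1.1, w.2))
      ((κ s).prod volume) (ν.prod volume) :=
    (hy.comp a4).prod (MeasurePreserving.id _)
  have hyy : ∀ᵐ w ∂((κ s).prod (volume : Measure unitInterval)),
      y (Θ (y w.1.1) w.2) = y w.1.1 := sp_ae_mp hyI hyΘ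
  have hyy3 : ∀ᵐ w ∂(κ3 s), y w.1.2 = y w.1.1 := by
    have hms : MeasurableSet {w : (X × X) × X | y w.1.2 = y w.1.1} :=
      measurableSet_eq_fun (hy.measurable.comp (measurable_snd.comp measurable_fst))
        (hy.measurable.comp (measurable_fst.comp measurable_fst))
    rw [← a1.map_eq, ae_map_iff a1.measurable.aemeasurable hms]
    exact hyy
  set R : (X × X) × X → UnitAddCircle := fun w => Q (w.1.1, w.2) - Q (w.1.2, w.2) with hR
  have hRm : Measurable R := (hQ.comp hψ1m).sub (hQ.comp hψ2m)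
  have hRi : ∀ g, ∀ᵐ w ∂(κ3 s), R (pact (pact T T) T g w) = R w := by
    intro g
    obtain ⟨q, hqm, hq⟩ := hQd g
    filter_upwards [sp_ae_mp hψ1 hq, sp_ae_mp hψ2 hq, hyy3] with w b1 b2 b3
    simp only [pact] at b1 b2
    simp only [hR, pact]
    rw [b3] at b2
    have b4 : Q (T g w.1.1, T g w.2) - Q (w.1.1, w.2) =
        Q (T g w.1.2, T g w.2) - Q (w.1.2, w.2) := by rw [b1, b2]
    rw [sub_eq_sub_iff_add_eq_add] at b4 ⊢
    rw [b4]; abel
  obtain ⟨F, hFm, hF⟩ := a2 (fun w => ee (R w)) (continuous_ee.measurable.comp hRm)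
    ⟨1, fun w => (norm_ee _).le⟩ (fun g => by
      filter_upwards [hRi g] with w hw
      rw [hw])
  have hRr : ∀ᵐ w ∂(κ3 s), R w = θ (F w.1) := by
    filter_upwards [hF] with w hw
    rw [← hw, hθ2]
  have h1 := sp_ae_mp a1 hRr
  obtain ⟨t, ht⟩ := (sp_ae_swap h1).exists
  have hΘt : Measurable fun k => Θ k t := hΘm.comp (measurable_id.prodMk measurable_const)
  refine ⟨fun x => θ (F (x, Θ (y x) t)), fun w => Q (Θ w.1 t, w.2), ?_, ?_, ?_⟩
  · exact hθm.comp (hFm.comp (measurable_id.prodMk (hΘt.comp hy.measurable)))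
  · exact hQ.comp ((hΘt.comp measurable_fst).prodMk measurable_snd)
  · filter_upwards [ht] with q hq
    simp only [hR] at hq
    rw [← hq]
    simp

omit [IsProbabilityMeasure μ] [IsProbabilityMeasure ν] [StandardBorelSpace X]
  [StandardBorelSpace K] in
include hy in
theorem sp_cap {W : Type*} [MeasurableSpace W] {M : Measure W} [SFinite M] {π : W → X}
    (hπ : MeasurePreserving π M μ) {Θ : K → unitInterval → X}
    (hΘm : Measurable (Function.uncurry Θ)) {ψ : X → UnitAddCircle} (hψ : Measurable ψ)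
    (h : ∀ᵐ w ∂(M.prod (volume : Measure unitInterval)),
      ψ (Θ (y (π w.1)) w.2) = ψ (π w.1)) : Capt μ y ψ := by
  obtain ⟨t, ht⟩ := (sp_ae_swap h).exists
  have hΘt : Measurable fun k => Θ k t := hΘm.comp (measurable_id.prodMk measurable_const)
  refine ⟨fun k => ψ (Θ k t), hψ.comp hΘt, ?_⟩
  have hms : MeasurableSet {x | ψ x = ψ (Θ (y x) t)} :=
    measurableSet_eq_fun hψ (hψ.comp (hΘt.comp hy.measurable))
  have : ∀ᵐ x ∂μ, ψ x = ψ (Θ (y x) t) := by
    rw [← hπ.map_eq, ae_map_iff hπ.measurable.aemeasurable hms]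
    filter_upwards [ht] with w hw
    exact hw.symm
  exact this

include hΓ hT hE hz hκ hS hy hyS hzy in
/-- Splitting: a function on pairs with derivatives captured by `y × y` is a sum of a function
of the first point, a function of the second point, and a function captured by `y × y`. -/
theorem split : ∀ᵐ s ∂η, ∀ Q : X × X → UnitAddCircle, Measurable Q →
    (∀ g, Capt (κ s) (fun q => (y q.1, y q.2)) (fun q => Q (pact T T g q) - Q q)) →
    ∃ (φ' φ : X → UnitAddCircle) (D : K × K → UnitAddCircle), Measurable φ' ∧ Measurable φ ∧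
      Measurable D ∧ (∀ g, Capt μ y (fun x => φ' (T g x) - φ' x)) ∧
      (∀ g, Capt μ y (fun x => φ (T g x) - φ x)) ∧
      ∀ᵐ q ∂(κ s), Q q = φ' q.1 + φ q.2 + D (y q.1, y q.2) := by
  obtain ⟨Θ, hΘm, hΘ, hyΘ⟩ := exists_theta hy
  have H1 := sp_half p hΓ hT hE hz hκ hS hy hyS hzy hΘm hΘ hyΘ
  have H2 := sp_ae_mp (sp_neg hz.mp)
    (sp_half p hΓ hT hE hz (spσ_pair hz.mp hκ) hS hy hyS hzy hΘm hΘ hyΘ)
  filter_upwards [H1, H2, pair_basic p hΓ hT hE hz hκ, resample p hz hκ hy hzy hΘm hΘ hyΘ]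
    with s a1 a2 a3 a4
  obtain ⟨hact, -, hfst, hsnd, -⟩ := a3
  intro Q hQ hQd
  obtain ⟨φ', B, hφ', hB, h1⟩ := a1 Q hQ hQd
  have hsw : ∀ P : X × X → Prop, (∀ᵐ q ∂(spσ κ (-s)), P q) ↔ ∀ᵐ q ∂(κ s), P q.swap := by
    intro P
    rw [spσ_apply, neg_neg]
    exact (MeasurableEquiv.prodComm (α := X) (β := X)).measurableEmbedding.ae_map_iff
  obtain ⟨φ, A, hφ, hA, h2⟩ := a2 (fun q => Q q.swap) (hQ.comp measurable_swap) (by
    intro g
    obtain ⟨q0, hq0m, hq0⟩ := hQd g
    refine ⟨fun k => q0 k.swap, hq0m.comp measurable_swap, ?_⟩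
    rw [Filter.EventuallyEq, hsw]
    filter_upwards [hq0] with q hq
    exact hq)
  rw [hsw] at h2
  -- `y` of the resampled points
  have hyI1 : MeasurePreserving (fun w : (X × X) × unitInterval => (y w.1.1, w.2))
      ((κ s).prod volume) (ν.prod volume) := (hy.comp hfst).prod (MeasurePreserving.id _)
  have hyy1 : ∀ᵐ w ∂((κ s).prod (volume : Measure unitInterval)),
      y (Θ (y w.1.1) w.2) = y w.1.1 := sp_ae_mp hyI1 hyΘ
  have hyI2 : MeasurePreserving (fun w : (X × X) × unitInterval => (y w.1.2, w.2))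
      ((κ s).prod volume) (ν.prod volume) := (hy.comp hsnd).prod (MeasurePreserving.id _)
  have hyy2 : ∀ᵐ w ∂((κ s).prod (volume : Measure unitInterval)),
      y (Θ (y w.1.2) w.2) = y w.1.2 := sp_ae_mp hyI2 hyΘ
  have hfstI : ∀ {P : X × X → Prop}, (∀ᵐ q ∂(κ s), P q) →
      ∀ᵐ w ∂((κ s).prod (volume : Measure unitInterval)), P w.1 := fun h =>
    sp_ae_mp measurePreserving_fst h
  -- the function `D`
  have h3 : ∀ᵐ w ∂((κ s).prod (volume : Measure unitInterval)),
      B (y w.1.1, w.1.2) =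
        φ w.1.2 + (A (y w.1.2, Θ (y w.1.1) w.2) - φ' (Θ (y w.1.1) w.2)) := by
    filter_upwards [sp_ae_mp a4.1 h1, sp_ae_mp a4.1 h2, hyy1] with w b1 b2 b3
    simp only [Prod.swap] at b1 b2
    rw [b1, b3] at b2
    rw [← add_sub_assoc, ← b2]
    abel
  obtain ⟨t, ht⟩ := (sp_ae_swap h3).exists
  have hΘt : Measurable fun k => Θ k t := hΘm.comp (measurable_id.prodMk measurable_const)
  set D : K × K → UnitAddCircle := fun k => A (k.2, Θ k.1 t) - φ' (Θ k.1 t) with hD
  have hDm : Measurable D := (hA.comp (measurable_snd.prodMk (hΘt.comp measurable_fst))).sub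
    (hφ'.comp (hΘt.comp measurable_fst))
  have hQD : ∀ᵐ q ∂(κ s), Q q = φ' q.1 + φ q.2 + D (y q.1, y q.2) := by
    filter_upwards [h1, ht] with q b1 b2
    rw [b1, b2, hD, add_assoc]
  have hder : ∀ g, ∃ q0 : K × K → UnitAddCircle, Measurable q0 ∧ ∀ᵐ q ∂(κ s),
      (φ' (T g q.1) - φ' q.1) + (φ (T g q.2) - φ q.2) = q0 (y q.1, y q.2) := by
    intro g
    obtain ⟨q0, hq0m, hq0⟩ := hQd g
    refine ⟨fun k => q0 k - (D (S g k.1, S g k.2) - D k), ?_, ?_⟩
    · have hSm : Measurable fun k : K × K => (S g k.1, S g k.2) :=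
        ((hS.mp g).measurable.comp measurable_fst).prodMk
          ((hS.mp g).measurable.comp measurable_snd)
      exact hq0m.sub ((hDm.comp hSm).sub hDm)
    · filter_upwards [hq0, hQD, sp_ae_mp (hact.mp g) hQD, sp_ae_mp hfst (hyS g),
        sp_ae_mp hsnd (hyS g)] with q b1 b2 b3 b4 b5
      simp only [pact] at b1 b3
      rw [b4, b5] at b3
      rw [← b1, b3, b2]
      abel
  refine ⟨φ', φ, D, hφ', hφ, hDm, fun g => ?_, fun g => ?_, hQD⟩
  · obtain ⟨q0, hq0m, hq0⟩ := hder g
    have hψ : Measurable fun x => φ' (T g x) - φ' x :=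
      (hφ'.comp (hT.mp g).measurable).sub hφ'
    refine sp_cap hy hfst hΘm hψ ?_
    filter_upwards [sp_ae_mp a4.1 hq0, hfstI hq0, hyy1] with w b1 b2 b3
    rw [b3, ← b2] at b1
    exact add_right_cancel b1
  · obtain ⟨q0, hq0m, hq0⟩ := hder g
    have hψ : Measurable fun x => φ (T g x) - φ x :=
      (hφ.comp (hT.mp g).measurable).sub hφ
    refine sp_cap hy hsnd hΘm hψ ?_
    filter_upwards [sp_ae_mp a4.2 hq0, hfstI hq0, hyy2] with w b1 b2 b3
    rw [b3, ← b2] at b1
    exact add_left_cancel b1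

end Pairs

end Pool.Agent.FpTrans
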