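import Pool.Agent.FpOrd.PairTow2
import Pool.Agent.FpOrd.Split

/-!
# Package K (helper50): the tower of a pair of points
-/

set_option autoImplicit false
open MeasureTheory Filter Topology ProbabilityTheory

namespace Pool.Agent.FpTrans

universe u v w

theorem exists_pair (p D n : ℕ) [Fact p.Prime] (B : ℕ → ℕ → ℕ) : ∃ (B' : ℕ → ℕ → ℕ) (D' : ℕ),
    ∀ (Γ : Type) [AddCommGroup Γ] [Countable Γ], (∀ g : Γ, p • g = 0) →
    ∀ (X : Type u) [MeasurableSpace X] [StandardBorelSpace X] (μ : Measure X)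
      [IsProbabilityMeasure μ] (T : Γ → X → X), IsAction μ T → IsErgodic μ T →
    ∀ (I : Type) [Countable I] (η : Measure (I → ZMod p)) [IsProbabilityMeasure η]
      [η.IsAddLeftInvariant] (α : Γ → I → ZMod p) (z : X → I → ZMod p), Kron p μ T η α z →
    ∀ (κ : Kernel (I → ZMod p) (X × X)) [IsMarkovKernel κ], IsPair μ z η κ →
    ∀ M : Tow p μ T α z B D n,
    ∃ (νW : Measure (I ⊕ (M.J ⊕ M.J) → ZMod p)) (_ : IsProbabilityMeasure νW)
      (_ : νW.IsAddLeftInvariant), ∀ᵐ s ∂η,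
      ∃ S' : Γ → (I ⊕ (M.J ⊕ M.J) → ZMod p) → (I ⊕ (M.J ⊕ M.J) → ZMod p),
        IsAction νW S' ∧ (∀ g, Continuous (S' g)) ∧ IsErgodic νW S' ∧ PolyProp p νW S' B' ∧
        (∀ j, IsPoly (tm S') (D' + 1) (fun k => k j)) ∧
        (∀ g, ∀ j ∈ U₁ I M.J, DepOn {i | i ∈ U₁ I M.J ∧ lw M.lev i < lw M.lev j}
          (fun k => S' g k j - k j)) ∧
        (∀ g, ∀ j ∈ U₂ I M.J, DepOn {i | i ∈ U₂ I M.J ∧ lw M.lev i < lw M.lev j}
          (fun k => S' g k j - k j)) ∧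
        MeasurePreserving (wmap M.a) (κ s) νW ∧
        ∀ g, ∀ᵐ q ∂(κ s), wmap M.a (pact T T g q) = S' g (wmap M.a q) := by
  obtain ⟨B', D', h⟩ := pk_exists_pair.{u} p D n B
  exact ⟨B', D', fun Γ _ _ hΓ X _ _ μ _ T hT hE I _ η _ _ α z hz κ _ hκ M =>
    h Γ X μ T hT I η α z hz κ hκ (pair_basic p hΓ hT hE hz hκ) M⟩

end Pool.Agent.FpTrans
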