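import Pool.Agent.FpOrd.ProdInv3

/-!
# Invariant functions on a product with an ergodic system come from the Kronecker factor
-/

set_option autoImplicit false
open MeasureTheory Filter Topology ProbabilityTheory

namespace Pool.Agent.FpTrans

universe u v w

/-- decomposition of an indicator function -/
theorem pd_decomp {X : Type u} [mX : MeasurableSpace X] {μ : Measure X} [IsProbabilityMeasure μ]
    {K : Type v} [MeasurableSpace K] {z : X → K} (hz : Measurable z) {t : Set X}
    (ht : MeasurableSet t) :
    ∃ f : K → ℝ, Measurable f ∧ (∀ k, |f k| ≤ 1) ∧ ∀ h : K → ℂ, Measurable h →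
      Integrable (fun x => h (z x)) μ →
      ∫ x, (((t.indicator (fun _ => (1 : ℝ)) x - f (z x) : ℝ) : ℂ)) * h (z x) ∂μ = 0 := by
  have hle : MeasurableSpace.comap z inferInstance ≤ mX := hz.comap_le
  have hi : Measurable (t.indicator (fun _ => (1 : ℝ))) := measurable_const.indicator ht
  have hint : Integrable (t.indicator (fun _ => (1 : ℝ))) μ := (integrable_const _).indicator ht
  have hem : Measurable[MeasurableSpace.comap z inferInstance] (μ[t.indicator (fun _ => (1 : ℝ)) | MeasurableSpace.comap z inferInstance]) :=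
    stronglyMeasurable_condExp.measurable
  obtain ⟨f₀, hf₀, hfe⟩ := hem.exists_eq_measurable_comp
  have hb : ∀ᵐ x ∂μ, |(μ[t.indicator (fun _ => (1 : ℝ)) | MeasurableSpace.comap z inferInstance]) x| ≤ 1 := by
    refine ae_bdd_abs_condExp_of_ae_bdd_abs (Filter.Eventually.of_forall fun x => ?_)
    by_cases hx : x ∈ t <;> simp [hx]
  set f : K → ℝ := fun k => max (-1) (min 1 (f₀ k)) with hf
  have hfm : Measurable f := measurable_const.max (measurable_const.min hf₀)
  have hfb : ∀ k, |f k| ≤ 1 := fun k => by
    rw [abs_le]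
    exact ⟨le_max_left _ _, max_le (by norm_num) (min_le_left _ _)⟩
  have hfe2 : ∀ᵐ x ∂μ, (μ[t.indicator (fun _ => (1 : ℝ)) | MeasurableSpace.comap z inferInstance]) x = f (z x) := by
    filter_upwards [hb] with x hx
    rw [hfe] at hx ⊢
    rw [Function.comp_apply] at hx ⊢
    rw [abs_le] at hx
    rw [hf]
    simp only
    rw [min_eq_right hx.2, max_eq_right hx.1]
  refine ⟨f, hfm, hfb, fun h hh hhi => ?_⟩
  have hhm : Measurable[MeasurableSpace.comap z inferInstance] (fun x => h (z x)) := hh.comp (comap_measurable z)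
  have hi1 : Integrable (fun x => (t.indicator (fun _ => (1 : ℝ)) x) • h (z x)) μ := by
    refine hhi.bdd_smul 1 hi.aestronglyMeasurable (Filter.Eventually.of_forall fun x => ?_)
    by_cases hx : x ∈ t <;> simp [hx]
  have hi2 : Integrable (fun x => (f (z x)) • h (z x)) μ := by
    refine hhi.bdd_smul 1 (hfm.comp hz).aestronglyMeasurable
      (Filter.Eventually.of_forall fun x => ?_)
    exact hfb _
  have key := condExp_bilin_of_stronglyMeasurable_right (m := MeasurableSpace.comap z inferInstance) (μ := μ)
    (ContinuousLinearMap.lsmul ℝ ℝ : ℝ →L[ℝ] ℂ →L[ℝ] ℂ)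
    (f := t.indicator (fun _ => (1 : ℝ))) (g := fun x => h (z x)) hhm.stronglyMeasurable
    hi1 hint
  have e1 : ∫ x, (t.indicator (fun _ => (1 : ℝ)) x) • h (z x) ∂μ =
      ∫ x, (f (z x)) • h (z x) ∂μ := by
    have e2 := integral_condExp (m := MeasurableSpace.comap z inferInstance) hle (μ := μ)
      (f := fun x => (t.indicator (fun _ => (1 : ℝ)) x) • h (z x))
    rw [← e2]
    refine integral_congr_ae ?_
    refine key.trans ?_
    filter_upwards [hfe2] with x hx
    show (μ[t.indicator (fun _ => (1 : ℝ)) | MeasurableSpace.comap z inferInstance]) x • h (z x) = f (z x) • h (z x)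
    rw [hx]
  have e3 : ∀ x, (((t.indicator (fun _ => (1 : ℝ)) x - f (z x) : ℝ) : ℂ)) * h (z x) =
      (t.indicator (fun _ => (1 : ℝ)) x) • h (z x) - (f (z x)) • h (z x) := by
    intro x
    rw [Complex.real_smul, Complex.real_smul, ← sub_mul]
    push_cast
    ring
  simp_rw [e3]
  rw [integral_sub hi1 hi2, e1, sub_self]

theorem prod_inv (p : ℕ) [Fact p.Prime] {Γ : Type} [AddCommGroup Γ] [Countable Γ]
    (hΓ : ∀ g : Γ, p • g = 0) {X : Type u} [MeasurableSpace X] [StandardBorelSpace X]
    {μ : Measure X} [IsProbabilityMeasure μ] {T : Γ → X → X} (hT : IsAction μ T)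
    (hE : IsErgodic μ T) {I : Type} [Countable I] {η : Measure (I → ZMod p)}
    [IsProbabilityMeasure η] [η.IsAddLeftInvariant] {α : Γ → I → ZMod p} {z : X → I → ZMod p}
    (hz : Kron p μ T η α z) {A : Type v} [MeasurableSpace A] [StandardBorelSpace A]
    {m : Measure A} [IsProbabilityMeasure m] {S : Γ → A → A} (hS : IsAction m S)
    (H : A × X → ℂ) (hH : Measurable H) (hb : ∃ C : ℝ, ∀ y, ‖H y‖ ≤ C)
    (hinv : ∀ g, ∀ᵐ y ∂(m.prod μ), H (pact S T g y) = H y) :
    Capt (m.prod μ) (fun y => (y.1, z y.2)) H := by
  classical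
  obtain ⟨CH, hCH⟩ := hb
  have hzm : Measurable z := hz.mp.measurable
  set φ : A × X → A × (I → ZMod p) := fun y => (y.1, z y.2) with hφ
  have hφm : Measurable φ := measurable_fst.prodMk (hzm.comp measurable_snd)
  have hle : MeasurableSpace.comap φ inferInstance ≤ (Prod.instMeasurableSpace :
    MeasurableSpace (A × X)) := hφm.comap_le
  have hHi : Integrable H (m.prod μ) := pd_integrable hH hCH
  set H' : A × X → ℂ := (m.prod μ)[H | MeasurableSpace.comap φ inferInstance] with hH'
  have hH'm : Measurable[MeasurableSpace.comap φ inferInstance] H' := stronglyMeasurable_condExp.measurable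
  have hH'i : Integrable H' (m.prod μ) := integrable_condExp
  obtain ⟨h', hh'm, hh'e⟩ := hH'm.exists_eq_measurable_comp
  refine ⟨h', hh'm, ?_⟩
  suffices hsuff : H =ᵐ[m.prod μ] H' by
    rw [hh'e] at hsuff
    exact hsuff
  -- equality of integrals over rectangles
  have hrect : ∀ s : Set A, MeasurableSet s → ∀ t : Set X, MeasurableSet t →
      ∫ y in s ×ˢ t, H y ∂(m.prod μ) = ∫ y in s ×ˢ t, H' y ∂(m.prod μ) := by
    intro s hs t ht
    obtain ⟨f, hfm, hfb, hforth⟩ := pd_decomp (μ := μ) hzm ht
    set u : A → ℂ := s.indicator (fun _ => (1 : ℂ)) with hu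
    have hum : Measurable u := measurable_const.indicator hs
    have hub : ∀ a, ‖u a‖ ≤ 1 := fun a => by
      by_cases ha : a ∈ s <;> simp [hu, ha]
    set v : X → ℂ := fun x => ((t.indicator (fun _ => (1 : ℝ)) x - f (z x) : ℝ) : ℂ) with hv
    have hvm : Measurable v :=
      Complex.measurable_ofReal.comp ((measurable_const.indicator ht).sub (hfm.comp hzm))
    have hvb : ∀ x, ‖v x‖ ≤ 2 := fun x => by
      rw [hv]
      simp only
      rw [Complex.norm_real, Real.norm_eq_abs]
      have h1 := abs_le.1 (hfb (z x))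
      rw [abs_le]
      by_cases hx : x ∈ t
      · simp only [hx, Set.indicator_of_mem]; constructor <;> linarith
      · simp only [hx, not_false_eq_true, Set.indicator_of_notMem]
        constructor <;> linarith
    have hv0 : ∀ h : (I → ZMod p) → ℂ, Measurable h → (∃ C : ℝ, ∀ k, ‖h k‖ ≤ C) →
        ∫ x, v x * h (z x) ∂μ = 0 := by
      rintro h hh ⟨C, hC⟩
      exact hforth h hh (pd_integrable (hh.comp hzm) fun x => hC _)
    set b : A × X → ℂ := fun y => u y.1 * (f (z y.2) : ℂ) with hbdef
    have hbm : Measurable b := (hum.comp measurable_fst).mul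
      (Complex.measurable_ofReal.comp (hfm.comp (hzm.comp measurable_snd)))
    have hbb : ∀ y, ‖b y‖ ≤ 1 := fun y => by
      rw [hbdef]
      simp only [norm_mul]
      calc ‖u y.1‖ * ‖((f (z y.2) : ℝ) : ℂ)‖ ≤ 1 * 1 := by
            refine mul_le_mul (hub _) ?_ (norm_nonneg _) zero_le_one
            rw [Complex.norm_real, Real.norm_eq_abs]; exact hfb _
        _ = 1 := one_mul 1
    have hbm' : Measurable[MeasurableSpace.comap φ inferInstance] b := by
      have h1 : b = (fun q : A × (I → ZMod p) => u q.1 * (f q.2 : ℂ)) ∘ φ := rfl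
      rw [h1]
      refine Measurable.comp ?_ (comap_measurable φ)
      exact (hum.comp measurable_fst).mul
        (Complex.measurable_ofReal.comp (hfm.comp measurable_snd))
    have hwm : Measurable (fun y : A × X => u y.1 * v y.2) :=
      (hum.comp measurable_fst).mul (hvm.comp measurable_snd)
    have hwb : ∀ y : A × X, ‖u y.1 * v y.2‖ ≤ 2 := fun y => by
      rw [norm_mul]
      calc ‖u y.1‖ * ‖v y.2‖ ≤ 1 * 2 :=
            mul_le_mul (hub _) (hvb _) (norm_nonneg _) zero_le_one
        _ = 2 := one_mul 2
    -- expansion of the integral over the rectangle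
    have hexp : ∀ F : A × X → ℂ, Integrable F (m.prod μ) →
        ∫ y in s ×ˢ t, F y ∂(m.prod μ) = ∫ y, F y * (u y.1 * v y.2) ∂(m.prod μ) +
          ∫ y, F y * b y ∂(m.prod μ) := by
      intro F hF
      rw [← integral_indicator (hs.prod ht), ← integral_add]
      · refine integral_congr_ae (Filter.Eventually.of_forall fun y => ?_)
        show (s ×ˢ t).indicator F y = F y * (u y.1 * v y.2) + F y * b y
        have e1 : (s ×ˢ t).indicator F y =
            F y * (u y.1 * ((t.indicator (fun _ => (1 : ℝ)) y.2 : ℝ) : ℂ)) := by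
          by_cases h1 : y.1 ∈ s
          · by_cases h2 : y.2 ∈ t
            · rw [Set.indicator_of_mem (Set.mem_prod.2 ⟨h1, h2⟩)]
              simp [hu, h1, h2]
            · rw [Set.indicator_of_notMem (fun h => h2 (Set.mem_prod.1 h).2)]
              simp [hu, h1, h2]
          · rw [Set.indicator_of_notMem (fun h => h1 (Set.mem_prod.1 h).1)]
            simp [hu, h1]
        rw [e1, hv, hbdef]
        simp only
        push_cast
        ring
      · exact hF.mul_bdd (c := 2) hwm.aestronglyMeasurable (Filter.Eventually.of_forall hwb)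
      · exact hF.mul_bdd (c := 1) hbm.aestronglyMeasurable (Filter.Eventually.of_forall hbb)
    rw [hexp H hHi, hexp H' hH'i]
    congr 1
    · rw [pd_orth hΓ hT hE hz hvm hvb hv0 hS hH hCH hinv hum hub]
      symm
      have hi : Integrable (fun y => H' y * (u y.1 * v y.2)) (m.prod μ) :=
        hH'i.mul_bdd (c := 2) hwm.aestronglyMeasurable (Filter.Eventually.of_forall hwb)
      rw [integral_prod _ hi]
      have h1 : ∀ᵐ a ∂m, ∫ x, H' (a, x) * (u (a, x).1 * v (a, x).2) ∂μ = 0 := by
        filter_upwards [hH'i.prod_right_ae] with a ha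
        have h2 : ∀ x, H' (a, x) * (u (a, x).1 * v (a, x).2) =
            u a * (v x * h' (a, z x)) := by
          intro x
          rw [hh'e]
          show h' (a, z x) * (u a * v x) = _
          ring
        simp_rw [h2]
        rw [integral_const_mul, hforth (fun k => h' (a, k))
          (hh'm.comp (measurable_const.prodMk measurable_id)) ?_, mul_zero]
        have h3 : (fun x => h' (a, z x)) = fun x => H' (a, x) := by
          rw [hh'e]; rfl
        rw [h3]
        exact ha
      rw [integral_congr_ae h1]
      simp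
    · have hi : Integrable (fun y => H y * b y) (m.prod μ) :=
        hHi.mul_bdd (c := 1) hbm.aestronglyMeasurable (Filter.Eventually.of_forall hbb)
      have key := condExp_bilin_of_stronglyMeasurable_right (m := MeasurableSpace.comap φ inferInstance) (μ := m.prod μ)
        (ContinuousLinearMap.mul ℝ ℂ) (f := H) (g := b) hbm'.stronglyMeasurable hi hHi
      have e2 := integral_condExp (m := MeasurableSpace.comap φ inferInstance) hle (μ := m.prod μ) (f := fun y => H y * b y)
      rw [← e2]
      exact integral_congr_ae key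
  -- all measurable sets
  refine Integrable.ae_eq_of_forall_setIntegral_eq H H' hHi hH'i fun R hR _ => ?_
  have huniv : ∫ y, H y ∂(m.prod μ) = ∫ y, H' y ∂(m.prod μ) := by
    have := hrect Set.univ MeasurableSet.univ Set.univ MeasurableSet.univ
    rwa [Set.univ_prod_univ, setIntegral_univ, setIntegral_univ] at this
  refine MeasurableSpace.induction_on_inter
    (C := fun R _ => ∫ y in R, H y ∂(m.prod μ) = ∫ y in R, H' y ∂(m.prod μ))
    (generateFrom_prod (α := A) (β := X)).symm isPiSystem_prod ?_ ?_ ?_ ?_ R hR
  · simp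
  · rintro _ ⟨s, hs, t, ht, rfl⟩
    exact hrect s hs t ht
  · intro R hR h1
    have h2 := integral_add_compl hR hHi
    have h3 := integral_add_compl hR hH'i
    rw [h1] at h2
    have h4 := h2.trans (huniv.trans h3.symm)
    exact add_left_cancel h4
  · intro F hF hFm hFe
    rw [integral_iUnion hFm hF hHi.integrableOn, integral_iUnion hFm hF hH'i.integrableOn]
    exact tsum_congr hFe

end Pool.Agent.FpTrans
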