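import Pool.Agent.FpOrd.Defs
import Pool.Agent.FpTrans.Main

/-!
# Package G (helper73): existence of the Kronecker coordinatisation and of towers
-/

set_option autoImplicit false
open MeasureTheory Filter Topology ProbabilityTheory

namespace Pool.Agent.FpTrans

universe u v w

/-! ### transport along an isomorphism of topological groups -/

section transport

variable {Γ K K' : Type} [AddCommGroup K] [AddCommGroup K'] [TopologicalSpace K]
  [TopologicalSpace K'] [MeasurableSpace K] [MeasurableSpace K'] [BorelSpace K] [BorelSpace K']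
  {ν : Measure K} {S : Γ → K → K}

/-- the transported system -/
def pg_tS (e : K ≃+ K') (S : Γ → K → K) : Γ → K' → K' := fun g k => e (S g (e.symm k))

lemma pg_mp {e : K ≃+ K'} (he : Continuous e) : MeasurePreserving e ν (ν.map e) :=
  ⟨he.measurable, rfl⟩

lemma pg_mp' {e : K ≃+ K'} (he : Continuous e) (he' : Continuous e.symm) :
    MeasurePreserving e.symm (ν.map e) ν := by
  refine ⟨he'.measurable, ?_⟩
  rw [Measure.map_map he'.measurable he.measurable]
  have : (e.symm ∘ e : K → K) = id := by funext k; simp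
  rw [this, Measure.map_id]

lemma pg_inv {e : K ≃+ K'} (he : Continuous e) [ν.IsAddLeftInvariant] [ContinuousAdd K]
    [ContinuousAdd K'] : (ν.map e).IsAddLeftInvariant := by
  constructor
  intro c
  rw [Measure.map_map (continuous_const_add c).measurable he.measurable]
  have h1 : ((fun x => c + x) ∘ e : K → K') = e ∘ fun x => e.symm c + x := by
    funext x; simp
  rw [h1, ← Measure.map_map he.measurable (continuous_const_add _).measurable,
    map_add_left_eq_self]

lemma pg_action [AddCommGroup Γ] {e : K ≃+ K'} (he : Continuous e) (he' : Continuous e.symm)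
    (hS : IsAction ν S) : IsAction (ν.map e) (pg_tS e S) := by
  refine ⟨fun k => ?_, fun g h k => ?_, fun g => ?_⟩
  · simp [pg_tS, hS.zero]
  · simp [pg_tS, hS.add]
  · exact (pg_mp he).comp ((hS.mp g).comp (pg_mp' he he'))

lemma pg_ergodic [AddCommGroup Γ] [Countable Γ] {e : K ≃+ K'} (he : Continuous e)
    (hS : IsAction ν S) (hE : IsErgodic ν S) : IsErgodic (ν.map e) (pg_tS e S) :=
  hE.factor hS (pg_mp he) (fun g => Filter.Eventually.of_forall fun x => by simp [pg_tS])

lemma pg_polyProp [AddCommGroup Γ] {p : ℕ} {B : ℕ → ℕ → ℕ} {e : K ≃+ K'} (he : Continuous e)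
    (he' : Continuous e.symm) (hS : IsAction ν S) (h : PolyProp p ν S B) :
    PolyProp p (ν.map e) (pg_tS e S) B := by
  intro N l F hF hFp
  obtain ⟨f, hf, hfe, hfp⟩ := h N l (fun k => F (e k)) (hF.comp he.measurable)
    (hFp.comp_factor (pg_mp he).quasiMeasurePreserving hS.qmp
      (fun g => Filter.Eventually.of_forall fun x => by simp [pg_tS]))
  refine ⟨fun k => f (e.symm k), hf.comp he', ?_, ?_⟩
  · have h1 := (pg_mp' (ν := ν) he he').quasiMeasurePreserving.ae hfe
    filter_upwards [h1] with k hk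
    rw [hk]; simp
  · refine hfp.comp_map (t' := tm (pg_tS e S)) e.symm
      (fun i => match i with
        | .inl y => .inl (e.symm y)
        | .inr g => .inr g) ?_
    rintro (y | g) s
    · simp [tm]
    · simp [tm, pg_tS]

end transport

/-! ### the Kronecker factor -/

theorem exists_kron (p : ℕ) [Fact p.Prime] {Γ : Type} [AddCommGroup Γ] [Countable Γ]
    {X : Type u} [MeasurableSpace X] [StandardBorelSpace X] (μ : Measure X)
    [IsProbabilityMeasure μ] (T : Γ → X → X) (hT : IsAction μ T) (hE : IsErgodic μ T) :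
    ∃ (I : Type) (_ : Countable I) (η : Measure (I → ZMod p)) (_ : IsProbabilityMeasure η)
      (_ : η.IsAddLeftInvariant) (α : Γ → I → ZMod p) (z : X → I → ZMod p),
      Kron p μ T η α z := by
  have hconst : MeasurePreserving (fun _ : X => ()) μ (Measure.dirac ()) := by
    refine ⟨measurable_const, ?_⟩
    rw [Measure.map_const]; simp
  obtain ⟨I, hI, η, hη1, hη2, V, hV, hVP, hVc, hVq⟩ :=
    stage p 0 2 μ T hT hE Unit (Measure.dirac ()) (fun (_ : Γ) k => k)
      ⟨fun _ => rfl, fun _ _ _ => rfl, fun _ => MeasurePreserving.id _⟩ (fun _ => ()) hconst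
      (fun g => Filter.Eventually.of_forall fun x => rfl)
  have hVmp : MeasurePreserving V μ η := measurePreserving_snd.comp hV
  choose f hfm hf using hVc
  have heqv : ∀ g, ∀ᵐ x ∂μ, V (T g x) = V x + fun i => f g i () := by
    intro g
    filter_upwards [ae_all_iff.2 (hf g)] with x hx
    funext i
    have := hx i
    simp only [Pi.add_apply]
    rw [← this]
    ring
  refine ⟨I, hI, η, hη1, hη2, fun g i => f g i (), V, hVmp, ?_, heqv, ?_⟩
  · intro g h
    obtain ⟨x, h1, h2, h3⟩ := ((heqv (g + h)).and ((heqv h).and ((hT.qmp h).ae (heqv g)))).exists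
    rw [hT.add, h3, h2, add_assoc] at h1
    rw [← add_left_cancel h1, add_comm]
  · intro Q hQm hQp
    set c1 : ZMod p ≃+* ZMod (p ^ (0 + 1)) := ZMod.ringEquivCongr (by simp) with hc1
    have hm1 : Measurable fun x => c1 (Q x) := (measurable_of_countable (⇑c1)).comp hQm
    have hp1 : AEPoly μ T 2 (fun x => c1 (Q x)) := hQp.hom c1.toAddMonoidHom
    have hcap := hVq (fun x => c1 (Q x)) hm1 hp1 (fun g => ?_) ?_
    · obtain ⟨F, hF, hFe⟩ := hcap
      refine ⟨fun v => c1.symm (F ((), v)), (measurable_of_countable (⇑c1.symm)).comp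
        (hF.comp (measurable_const.prodMk measurable_id)), ?_⟩
      filter_upwards [hFe] with x hx
      rw [← hx]; simp
    · have h1 : AEPoly μ T 1 (fun x => c1 (Q (T g x)) - c1 (Q x)) := hp1 g
      obtain ⟨c, hc⟩ := hE.const hT (f := fun x => c1 (Q (T g x)) - c1 (Q x))
        ((hm1.comp (hT.mp g).measurable).sub hm1) (fun h => by
          have h2 : (fun x => (c1 (Q (T g (T h x))) - c1 (Q (T h x)))
            - (c1 (Q (T g x)) - c1 (Q x))) =ᵐ[μ] 0 := h1 h
          filter_upwards [h2] with x hx
          exact sub_eq_zero.1 hx)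
      exact ⟨fun _ => c, measurable_const, hc⟩
    · refine ⟨fun _ => 0, measurable_const, Filter.Eventually.of_forall fun x => ?_⟩
      have : ∀ y : ZMod (p ^ (0 + 1)), p • y = 0 := by
        intro y
        rw [nsmul_eq_mul]
        have : ((p : ℕ) : ZMod (p ^ (0 + 1))) = ((p ^ (0 + 1) : ℕ) : ZMod (p ^ (0 + 1))) := by
          congr 1
          ring
        rw [this, ZMod.natCast_self, zero_mul]
      exact this _

/-! ### towers -/

/-- coordinates of the base tower -/
def pg_e0 (p : ℕ) (I : Type) : (Unit × (I → ZMod p)) ≃+ (I ⊕ Empty → ZMod p) where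
  toFun y := Sum.elim y.2 (fun j => j.elim)
  invFun k := ((), fun i => k (Sum.inl i))
  left_inv y := rfl
  right_inv k := by
    funext i
    rcases i with i | j
    · rfl
    · exact j.elim
  map_add' y y' := by
    funext i
    rcases i with i | j
    · rfl
    · exact j.elim

/-- coordinates of the next tower -/
def pg_e (p : ℕ) (I J I' : Type) :
    ((I ⊕ J → ZMod p) × (I' → ZMod p)) ≃+ (I ⊕ (J ⊕ I') → ZMod p) where
  toFun y := Sum.elim (fun i => y.1 (Sum.inl i)) (Sum.elim (fun j => y.1 (Sum.inr j)) y.2)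
  invFun k := (Sum.elim (fun i => k (Sum.inl i)) (fun j => k (Sum.inr (Sum.inl j))),
    fun i => k (Sum.inr (Sum.inr i)))
  left_inv y := by
    refine Prod.ext ?_ rfl
    funext i
    rcases i with i | j <;> rfl
  right_inv k := by
    funext i
    rcases i with i | j | i' <;> rfl
  map_add' y y' := by
    funext i
    rcases i with i | j | i' <;> rfl

lemma pg_e0_cont (p : ℕ) (I : Type) : Continuous (pg_e0 p I) := by
  refine continuous_pi fun i => ?_
  rcases i with i | j
  · exact (continuous_apply i).comp continuous_snd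
  · exact j.elim

lemma pg_e0_cont' (p : ℕ) (I : Type) : Continuous (pg_e0 p I).symm :=
  continuous_const.prodMk (continuous_pi fun i => continuous_apply (Sum.inl i))

lemma pg_e_cont (p : ℕ) (I J I' : Type) : Continuous (pg_e p I J I') := by
  refine continuous_pi fun i => ?_
  rcases i with i | j | i'
  · have h : Continuous fun y : (I ⊕ J → ZMod p) × (I' → ZMod p) => y.1 (Sum.inl i) :=
      (continuous_apply (Sum.inl i)).comp continuous_fst
    exact h
  · have h : Continuous fun y : (I ⊕ J → ZMod p) × (I' → ZMod p) => y.1 (Sum.inr j) :=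
      (continuous_apply (Sum.inr j)).comp continuous_fst
    exact h
  · have h : Continuous fun y : (I ⊕ J → ZMod p) × (I' → ZMod p) => y.2 i' :=
      (continuous_apply i').comp continuous_snd
    exact h

lemma pg_e_cont' (p : ℕ) (I J I' : Type) : Continuous (pg_e p I J I').symm := by
  refine Continuous.prodMk (continuous_pi fun i => ?_) (continuous_pi fun i => ?_)
  · rcases i with i | j
    · exact continuous_apply (Sum.inl i)
    · exact continuous_apply (Sum.inr (Sum.inl j))
  · exact continuous_apply (Sum.inr (Sum.inr i))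

theorem pg_base (p : ℕ) [Fact p.Prime] : ∃ B : ℕ → ℕ → ℕ,
    ∀ (Γ : Type) [AddCommGroup Γ] [Countable Γ] (X : Type u) [MeasurableSpace X]
      [StandardBorelSpace X] (μ : Measure X) [IsProbabilityMeasure μ] (T : Γ → X → X),
      IsAction μ T → IsErgodic μ T → ∀ (I : Type) [Countable I] (η : Measure (I → ZMod p))
      [IsProbabilityMeasure η] [η.IsAddLeftInvariant] (α : Γ → I → ZMod p)
      (z : X → I → ZMod p), Kron p μ T η α z → Nonempty (Tow p μ T α z B 1 0) := by
  obtain ⟨B', hB'⟩ := polyProp_step p 2 (fun _ _ => 1)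
  refine ⟨B', ?_⟩
  intro Γ _ _ X _ _ μ _ T hT hE I _ η _ _ α z hz
  have hinvU : (Measure.dirac () : Measure Unit).IsAddLeftInvariant := by
    constructor
    intro g
    have : (fun x : Unit => g + x) = id := by funext x; rfl
    rw [this, Measure.map_id]
  have hSU : IsAction (Measure.dirac () : Measure Unit) (fun (_ : Γ) k => k) :=
    ⟨fun _ => rfl, fun _ _ _ => rfl, fun _ => MeasurePreserving.id _⟩
  have hPU : PolyProp p (Measure.dirac () : Measure Unit) (fun (_ : Γ) k => k)
      (fun _ _ => 1) := by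
    intro N l F hF _
    refine ⟨F, continuous_of_discreteTopology, ae_eq_refl _, ?_⟩
    intro i s
    show F (tm (fun _ k => k) i s) - F s = 0
    rw [Subsingleton.elim (tm (fun (_ : Γ) (k : Unit) => k) i s) s, sub_self]
  set R0 : Γ → Unit → I → ZMod p := fun g _ => α g with hR0
  have hα0 : α 0 = 0 := by
    have := hz.hom 0 0
    rw [add_zero] at this
    exact left_eq_add.1 this
  have hact : IsAction ((Measure.dirac ()).prod η) (ext (fun (_ : Γ) (k : Unit) => k) R0) := by
    refine ⟨?_, ?_, ?_⟩
    · intro y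
      simp [ext, hR0, hα0]
    · intro g h y
      simp only [ext, hR0, hz.hom]
      rw [add_assoc, add_comm (α h) (α g)]
    · intro g
      refine (MeasurePreserving.id (Measure.dirac ())).skew_product
        (g := fun k u => u + R0 g k) ?_ ?_
      · exact measurable_snd.add (measurable_const)
      · refine Filter.Eventually.of_forall fun k => ?_
        have : (fun u : I → ZMod p => u + R0 g k) = fun u => R0 g k + u := by
          funext u; rw [add_comm]
        rw [this]
        exact map_add_left_eq_self η _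
  have hconst : MeasurePreserving (fun x : X => ((), z x)) μ ((Measure.dirac ()).prod η) := by
    refine ⟨measurable_const.prodMk hz.mp.measurable, ?_⟩
    rw [Measure.dirac_prod, ← hz.mp.map_eq,
      Measure.map_map measurable_prodMk_left hz.mp.measurable]
    rfl
  have haS : ∀ g, ∀ᵐ x ∂μ, ((), z (T g x)) = ext (fun (_ : Γ) (k : Unit) => k) R0 g ((), z x) := by
    intro g
    filter_upwards [hz.eqv g] with x hx
    simp only [ext, hR0]
    rw [hx]
  have hE' : IsErgodic ((Measure.dirac ()).prod η) (ext (fun (_ : Γ) (k : Unit) => k) R0) :=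
    hE.factor hT hconst haS
  have hpp := hB' Γ Unit (Measure.dirac ()) (fun _ k => k) hSU (fun _ => continuous_id) hPU I η R0
    (fun g => continuous_const) hact hE' (fun i => by
      intro g h
      refine Filter.Eventually.of_forall fun y => ?_
      simp [ext, hR0])
  have he := pg_e0_cont p I
  have he' := pg_e0_cont' p I
  have hinv : ((Measure.dirac ()).prod η).IsAddLeftInvariant :=
    Measure.prod.instIsAddLeftInvariant
  refine ⟨{ J := Empty, lev := fun j => j.elim, hlev := fun j => j.elim,
            ν := ((Measure.dirac ()).prod η).map (pg_e0 p I),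
            prob := Measure.isProbabilityMeasure_map he.measurable.aemeasurable,
            inv := pg_inv he,
            S := pg_tS (pg_e0 p I) (ext (fun (_ : Γ) (k : Unit) => k) R0),
            hS := pg_action he he' hact,
            hSc := ?_, hS0 := ?_, tri := ?_,
            a := fun x => pg_e0 p I ((), z x), az := fun x i => rfl,
            ha := (pg_mp he).comp hconst, haS := ?_, pp := pg_polyProp he he' hact hpp,
            hw := ?_ }⟩
  · intro g
    have hc : Continuous (ext (fun (_ : Γ) (k : Unit) => k) R0 g) :=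
      continuous_fst.prodMk (continuous_snd.add continuous_const)
    exact he.comp (hc.comp he')
  · intro g k i
    rfl
  · intro g j k k' _
    rcases j with i | j
    · show k (Sum.inl i) + α g i - k (Sum.inl i) = k' (Sum.inl i) + α g i - k' (Sum.inl i)
      ring
    · exact j.elim
  · intro g
    filter_upwards [haS g] with x hx
    simp only [pg_tS]
    rw [hx]
    simp
  · intro j
    rcases j with i | j
    · rintro (y | g)
      · refine (IsPoly.const (y (Sum.inl i))).congr fun s => ?_
        simp [tm]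
      · refine (IsPoly.const (α g i)).congr fun s => ?_
        show s (Sum.inl i) + α g i - s (Sum.inl i) = α g i
        ring
    · exact j.elim

theorem pg_next (p R m : ℕ) [Fact p.Prime] (B : ℕ → ℕ → ℕ) (D n : ℕ) :
    ∃ (B' : ℕ → ℕ → ℕ) (D' : ℕ), ∀ (Γ : Type) [AddCommGroup Γ] [Countable Γ] (X : Type u)
      [MeasurableSpace X] [StandardBorelSpace X] (μ : Measure X) [IsProbabilityMeasure μ]
      (T : Γ → X → X), IsAction μ T → IsErgodic μ T → ∀ (I : Type) [Countable I]
      (α : Γ → I → ZMod p) (z : X → I → ZMod p) (M : Tow p μ T α z B D n),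
      ∃ M' : Tow p μ T α z B' D' (n + 1),
        (∀ Q : X → ZMod (p ^ (R + 1)), Capt μ M.a Q → Capt μ M'.a Q) ∧
        ∀ Q : X → ZMod (p ^ (R + 1)), Measurable Q → AEPoly μ T m Q →
          (∀ g, Capt μ M.a fun x => Q (T g x) - Q x) → Capt μ M.a (fun x => p • Q x) →
          Capt μ M'.a Q := by
  obtain ⟨e0, he0⟩ := comp_digits.{u, 0} p (R + 1) 1 m
  obtain ⟨B', hB'⟩ := polyProp_step p (e0 + 1) B
  refine ⟨B', max D (max 1 (B 1 e0)), ?_⟩
  intro Γ _ _ X _ _ μ _ T hT hE I _ α z M
  obtain ⟨I', hI', η, hη1, hη2, V, hV, hVP, hVc, hVq⟩ :=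
    stage p R m μ T hT hE (I ⊕ M.J → ZMod p) M.ν M.S M.hS M.a M.ha M.haS
  have hpos : M.ν.IsOpenPosMeasure :=
    isOpenPosMeasure_of_addLeftInvariant_of_compact (μ := M.ν) Set.univ isCompact_univ (by simp)
  set c1 : ZMod p ≃+* ZMod (p ^ 1) := ZMod.ringEquivCongr (pow_one p).symm with hc1
  -- the new coordinates are polynomials
  have hVpoly : ∀ i, AEPoly μ T e0 (fun x => V x i) := by
    intro i
    obtain ⟨P, hPm, hPp, hPV⟩ := hVP i
    obtain ⟨P', hP'm, hP'e, hP'p⟩ := hPp.exists_isPoly hT hPm
    have h1 := he0 X Γ T P' hP'p (fun a => c1 (Pool.Agent.FpTrans.td p R a))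
    have h2 : IsPoly T e0 (fun x => Pool.Agent.FpTrans.td p R (P' x)) :=
      IsPoly.of_hom c1.toAddMonoidHom c1.injective h1
    refine (AEPoly.of_isPoly h2).congr hT.qmp ?_
    filter_upwards [hP'e] with x hx
    rw [hPV, hx]
  -- the cocycle
  choose r hrm hr using hVc
  have hrpoly : ∀ g i, AEPoly M.ν M.S e0 (r g i) := by
    intro g i
    refine AEPoly.of_comp_factor M.ha hT.qmp (fun g => (M.hS.mp g).measurable) M.haS (hrm g i) ?_
    have h1 : AEPoly μ T e0 (fun x => V (T g x) i - V x i) := ((hVpoly i).succ hT.qmp) g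
    exact h1.congr hT.qmp (hr g i).symm
  have hrc : ∀ g i, ∃ f : (I ⊕ M.J → ZMod p) → ZMod p, Continuous f ∧ f =ᵐ[M.ν] r g i ∧
      IsPoly (tm M.S) (B 1 e0) f := by
    intro g i
    have hm : Measurable fun k => c1 (r g i k) := (measurable_of_countable (⇑c1)).comp (hrm g i)
    obtain ⟨f, hfc, hfe, hfp⟩ := M.pp 1 e0 (fun k => c1 (r g i k)) hm
      ((hrpoly g i).hom c1.toAddMonoidHom)
    refine ⟨fun k => c1.symm (f k), continuous_of_discreteTopology.comp hfc, ?_, ?_⟩
    · filter_upwards [hfe] with k hk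
      rw [hk]; simp
    · exact hfp.hom c1.symm.toAddMonoidHom
  choose f hfc hfe hfp using hrc
  set Rr : Γ → (I ⊕ M.J → ZMod p) → I' → ZMod p := fun g k i => f g i k with hRr
  have hRc : ∀ g, Continuous (Rr g) := fun g => continuous_pi fun i => hfc g i
  have hVT : ∀ g, ∀ᵐ x ∂μ, V (T g x) = V x + Rr g (M.a x) := by
    intro g
    have h1 : ∀ i, ∀ᵐ x ∂μ, V (T g x) i = V x i + Rr g (M.a x) i := by
      intro i
      have h2 : ∀ᵐ x ∂μ, f g i (M.a x) = r g i (M.a x) :=
        M.ha.quasiMeasurePreserving.ae (hfe g i)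
      filter_upwards [hr g i, h2] with x hx1 hx2
      simp only [hRr]
      rw [hx2, ← hx1]; ring
    filter_upwards [ae_all_iff.2 h1] with x hx
    funext i
    exact hx i
  have haS' : ∀ g, ∀ᵐ x ∂μ, (M.a (T g x), V (T g x)) = ext M.S Rr g (M.a x, V x) := by
    intro g
    filter_upwards [M.haS g, hVT g] with x hx1 hx2
    simp only [ext]
    rw [hx1, hx2]
  have hact : IsAction (M.ν.prod η) (ext M.S Rr) := by
    refine ⟨?_, ?_, ?_⟩
    · intro y
      have h0 : Rr 0 = fun _ => 0 := by
        refine ae_of_factor_eq M.ha (hRc 0) continuous_const ?_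
        filter_upwards [hVT 0] with x hx
        rw [hT.zero] at hx
        exact left_eq_add.1 hx
      simp only [ext, M.hS.zero, h0]
      simp
    · intro g h y
      have h0 : Rr (g + h) = fun k => Rr h k + Rr g (M.S h k) := by
        refine ae_of_factor_eq M.ha (hRc _) ((hRc h).add ((hRc g).comp (M.hSc h))) ?_
        filter_upwards [hVT (g + h), hVT h, (hT.qmp h).ae (hVT g), M.haS h] with x h1 h2 h3 h4
        rw [hT.add, h3, h2, h4, add_assoc] at h1
        exact (add_left_cancel h1).symm
      simp only [ext, M.hS.add, h0]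
      rw [add_assoc]
    · intro g
      refine (M.hS.mp g).skew_product (g := fun k u => u + Rr g k) ?_ ?_
      · exact (continuous_snd.add ((hRc g).comp continuous_fst)).measurable
      · refine Filter.Eventually.of_forall fun k => ?_
        have : (fun u : I' → ZMod p => u + Rr g k) = fun u => Rr g k + u := by
          funext u; rw [add_comm]
        rw [this]
        exact map_add_left_eq_self η _
  have hE' : IsErgodic (M.ν.prod η) (ext M.S Rr) := hE.factor hT hV haS'
  have hcoord : ∀ i, AEPoly (M.ν.prod η) (ext M.S Rr) (e0 + 1) (fun y => y.2 i) := by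
    intro i
    refine AEPoly.of_comp_factor hV hT.qmp (fun g => (hact.mp g).measurable) haS'
      ((measurable_pi_apply i).comp measurable_snd) ?_
    exact (hVpoly i).succ hT.qmp
  have hpp := hB' Γ (I ⊕ M.J → ZMod p) M.ν M.S M.hS M.hSc M.pp I' η Rr hRc hact hE' hcoord
  have he := pg_e_cont p I M.J I'
  have he' := pg_e_cont' p I M.J I'
  have hinv : (M.ν.prod η).IsAddLeftInvariant := Measure.prod.instIsAddLeftInvariant
  -- pulling back polynomials
  have hpull : ∀ (l : ℕ) (F : (I ⊕ M.J → ZMod p) → ZMod p), IsPoly (tm M.S) l F →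
      IsPoly (tm (pg_tS (pg_e p I M.J I') (ext M.S Rr))) l
        (fun k => F ((pg_e p I M.J I').symm k).1) := by
    intro l F hF
    refine hF.comp_map (t' := tm (pg_tS (pg_e p I M.J I') (ext M.S Rr)))
      (fun k => ((pg_e p I M.J I').symm k).1)
      (fun i => match i with
        | .inl y => .inl ((pg_e p I M.J I').symm y).1
        | .inr g => .inr g) ?_
    rintro (y | g) s
    · simp [tm]
    · simp [tm, pg_tS, ext]
  refine ⟨{ J := M.J ⊕ I', lev := Sum.elim M.lev (fun _ => n + 1), hlev := ?_,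
            ν := (M.ν.prod η).map (pg_e p I M.J I'),
            prob := Measure.isProbabilityMeasure_map he.measurable.aemeasurable,
            inv := pg_inv he,
            S := pg_tS (pg_e p I M.J I') (ext M.S Rr),
            hS := pg_action he he' hact,
            hSc := ?_, hS0 := ?_, tri := ?_,
            a := fun x => pg_e p I M.J I' (M.a x, V x), az := fun x i => M.az x i,
            ha := (pg_mp he).comp hV, haS := ?_, pp := pg_polyProp he he' hact hpp,
            hw := ?_ }, ?_, ?_⟩
  · rintro (j | i)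
    · exact ⟨(M.hlev j).1, (M.hlev j).2.trans (Nat.le_succ n)⟩
    · exact ⟨Nat.succ_le_succ (Nat.zero_le n), le_rfl⟩
  · intro g
    have hc : Continuous (ext M.S Rr g) := ((M.hSc g).comp continuous_fst).prodMk
      (continuous_snd.add ((hRc g).comp continuous_fst))
    exact he.comp (hc.comp he')
  · intro g k i
    exact M.hS0 g _ i
  · intro g j k k' hkk
    rcases j with i | j | i'
    · have h1 := M.hS0 g ((pg_e p I M.J I').symm k).1 i
      have h2 := M.hS0 g ((pg_e p I M.J I').symm k').1 i
      show M.S g ((pg_e p I M.J I').symm k).1 (Sum.inl i) - k (Sum.inl i)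
        = M.S g ((pg_e p I M.J I').symm k').1 (Sum.inl i) - k' (Sum.inl i)
      rw [h1, h2]
      show k (Sum.inl i) + α g i - k (Sum.inl i) = k' (Sum.inl i) + α g i - k' (Sum.inl i)
      ring
    · refine M.tri g (Sum.inr j) ((pg_e p I M.J I').symm k).1 ((pg_e p I M.J I').symm k').1 ?_
      intro j' hj'
      rcases j' with i' | j'
      · exact hkk (Sum.inl i') hj'
      · exact hkk (Sum.inr (Sum.inl j')) hj'
    · have h1 : ((pg_e p I M.J I').symm k).1 = ((pg_e p I M.J I').symm k').1 := by
        funext j'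
        rcases j' with i'' | j'
        · exact hkk (Sum.inl i'') (Nat.succ_pos n)
        · exact hkk (Sum.inr (Sum.inl j')) (Nat.lt_succ_of_le (M.hlev j').2)
      show k (Sum.inr (Sum.inr i')) + Rr g ((pg_e p I M.J I').symm k).1 i'
          - k (Sum.inr (Sum.inr i'))
        = k' (Sum.inr (Sum.inr i')) + Rr g ((pg_e p I M.J I').symm k').1 i'
          - k' (Sum.inr (Sum.inr i'))
      rw [h1]
      ring
  · intro g
    filter_upwards [haS' g] with x hx
    simp only [pg_tS]
    rw [hx]
    simp
  · rintro (i | j | i')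
    · exact (hpull _ _ (M.hw (Sum.inl i))).mono (by simp)
    · exact (hpull _ _ (M.hw (Sum.inr j))).mono (by simp)
    · have h1 : IsPoly (tm (pg_tS (pg_e p I M.J I') (ext M.S Rr))) (max 1 (B 1 e0) + 1)
          (fun k : I ⊕ (M.J ⊕ I') → ZMod p => k (Sum.inr (Sum.inr i'))) := by
        rintro (y | g)
        · refine IsPoly.mono (le_max_left _ _)
            ((IsPoly.const (y (Sum.inr (Sum.inr i')))).congr fun s => ?_)
          simp [tm]
        · refine IsPoly.mono (le_max_right _ _) ((hpull _ _ (hfp g i')).congr fun s => ?_)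
          show s (Sum.inr (Sum.inr i')) + Rr g ((pg_e p I M.J I').symm s).1 i'
            - s (Sum.inr (Sum.inr i')) = _
          simp only [hRr]
          ring
      exact h1.mono (by simp)
  · rintro Q ⟨F, hF, hQ⟩
    refine ⟨fun k => F ((pg_e p I M.J I').symm k).1,
      hF.comp (measurable_fst.comp he'.measurable), ?_⟩
    filter_upwards [hQ] with x hx
    rw [hx]
    simp
  · intro Q hQm hQp hQ1 hQ2
    obtain ⟨F, hF, hFe⟩ := hVq Q hQm hQp hQ1 hQ2
    refine ⟨fun k => F ((pg_e p I M.J I').symm k), hF.comp he'.measurable, ?_⟩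
    filter_upwards [hFe] with x hx
    rw [hx]
    simp

theorem pg_model (p R : ℕ) [Fact p.Prime] : ∀ m t : ℕ, t ≤ R + 1 →
    ∃ (B : ℕ → ℕ → ℕ) (D n : ℕ), ∀ (Γ : Type) [AddCommGroup Γ] [Countable Γ] (X : Type u)
      [MeasurableSpace X] [StandardBorelSpace X] (μ : Measure X) [IsProbabilityMeasure μ]
      (T : Γ → X → X), IsAction μ T → IsErgodic μ T → ∀ (I : Type) [Countable I]
      (η : Measure (I → ZMod p)) [IsProbabilityMeasure η] [η.IsAddLeftInvariant]
      (α : Γ → I → ZMod p) (z : X → I → ZMod p), Kron p μ T η α z →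
      ∃ M : Tow p μ T α z B D n,
        (∀ Q : X → ZMod (p ^ (R + 1)), Measurable Q → AEPoly μ T m Q → Capt μ M.a Q) ∧
        ∀ Q : X → ZMod (p ^ (R + 1)), Measurable Q → AEPoly μ T (m + 1) Q →
          Capt μ M.a (fun x => p ^ (R + 1 - t) • Q x) := by
  have hzero : ∀ x : ZMod (p ^ (R + 1)), p ^ (R + 1) • x = 0 := by
    intro x
    rw [nsmul_eq_mul, ZMod.natCast_self, zero_mul]
  intro m
  induction m with
  | zero =>
    intro t
    induction t with
    | zero =>
      intro _
      obtain ⟨B0, hB0⟩ := pg_base.{u} p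
      refine ⟨B0, 1, 0, fun Γ _ _ X _ _ μ _ T hT hE I _ η _ _ α z hz => ?_⟩
      obtain ⟨M⟩ := hB0 Γ X μ T hT hE I η α z hz
      refine ⟨M, fun Q hQm hQ => ⟨fun _ => 0, measurable_const, hQ⟩,
        fun Q hQm hQ => ⟨fun _ => 0, measurable_const, ?_⟩⟩
      exact Filter.Eventually.of_forall fun x => hzero (Q x)
    | succ t iht =>
      intro ht
      obtain ⟨B, D, n, hBD⟩ := iht (by omega)
      obtain ⟨B', D', hBD'⟩ := pg_next.{u} p R (0 + 1) B D n
      refine ⟨B', D', n + 1, fun Γ _ _ X _ _ μ _ T hT hE I _ η _ _ α z hz => ?_⟩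
      obtain ⟨M, hM1, hM2⟩ := hBD Γ X μ T hT hE I η α z hz
      obtain ⟨M', hM'1, hM'2⟩ := hBD' Γ X μ T hT hE I α z M
      refine ⟨M', fun Q hQm hQ => hM'1 Q (hM1 Q hQm hQ), fun Q hQm hQ => ?_⟩
      have hQ'm : Measurable fun x => p ^ (R + 1 - (t + 1)) • Q x :=
        (measurable_of_countable (fun a : ZMod (p ^ (R + 1)) => p ^ (R + 1 - (t + 1)) • a)).comp hQm
      have hQ' : AEPoly μ T (0 + 1) fun x => p ^ (R + 1 - (t + 1)) • Q x := hQ.nsmul _
      refine hM'2 _ hQ'm hQ' (fun g => ?_) ?_
      · refine hM1 _ ((hQ'm.comp (hT.mp g).measurable).sub hQ'm) (hQ' g)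
      · obtain ⟨F, hF, hFe⟩ := hM2 Q hQm hQ
        refine ⟨F, hF, ?_⟩
        filter_upwards [hFe] with x hx
        rw [← hx, smul_smul, ← pow_succ']
        congr 2
        omega
  | succ m ihm =>
    intro t
    induction t with
    | zero =>
      intro _
      obtain ⟨B, D, n, hBD⟩ := ihm (R + 1) le_rfl
      refine ⟨B, D, n, fun Γ _ _ X _ _ μ _ T hT hE I _ η _ _ α z hz => ?_⟩
      obtain ⟨M, hM1, hM2⟩ := hBD Γ X μ T hT hE I η α z hz
      refine ⟨M, fun Q hQm hQ => ?_, fun Q hQm hQ => ⟨fun _ => 0, measurable_const, ?_⟩⟩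
      · have := hM2 Q hQm hQ
        simpa using this
      · exact Filter.Eventually.of_forall fun x => hzero (Q x)
    | succ t iht =>
      intro ht
      obtain ⟨B, D, n, hBD⟩ := iht (by omega)
      obtain ⟨B', D', hBD'⟩ := pg_next.{u} p R (m + 1 + 1) B D n
      refine ⟨B', D', n + 1, fun Γ _ _ X _ _ μ _ T hT hE I _ η _ _ α z hz => ?_⟩
      obtain ⟨M, hM1, hM2⟩ := hBD Γ X μ T hT hE I η α z hz
      obtain ⟨M', hM'1, hM'2⟩ := hBD' Γ X μ T hT hE I α z M
      refine ⟨M', fun Q hQm hQ => hM'1 Q (hM1 Q hQm hQ), fun Q hQm hQ => ?_⟩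
      have hQ'm : Measurable fun x => p ^ (R + 1 - (t + 1)) • Q x :=
        (measurable_of_countable (fun a : ZMod (p ^ (R + 1)) => p ^ (R + 1 - (t + 1)) • a)).comp hQm
      have hQ' : AEPoly μ T (m + 1 + 1) fun x => p ^ (R + 1 - (t + 1)) • Q x := hQ.nsmul _
      refine hM'2 _ hQ'm hQ' (fun g => ?_) ?_
      · refine hM1 _ ((hQ'm.comp (hT.mp g).measurable).sub hQ'm) (hQ' g)
      · obtain ⟨F, hF, hFe⟩ := hM2 Q hQm hQ
        refine ⟨F, hF, ?_⟩
        filter_upwards [hFe] with x hx
        rw [← hx, smul_smul, ← pow_succ']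
        congr 2
        omega

theorem exists_tow (p C : ℕ) [Fact p.Prime] : ∃ (B : ℕ → ℕ → ℕ) (D n : ℕ),
    ∀ (Γ : Type) [AddCommGroup Γ] [Countable Γ], (∀ g : Γ, p • g = 0) →
    ∀ (X : Type u) [MeasurableSpace X] [StandardBorelSpace X] (μ : Measure X)
      [IsProbabilityMeasure μ] (T : Γ → X → X), IsAction μ T → IsErgodic μ T →
    ∀ (I : Type) [Countable I] (η : Measure (I → ZMod p)) [IsProbabilityMeasure η]
      [η.IsAddLeftInvariant] (α : Γ → I → ZMod p) (z : X → I → ZMod p), Kron p μ T η α z →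
    ∃ M : Tow p μ T α z B D n, ∀ P : X → UnitAddCircle, IsPhasePoly μ T C P → Capt μ M.a P := by
  obtain ⟨B, D, n, hBD⟩ := pg_model.{u} p C (C + 1) 0 (Nat.zero_le _)
  refine ⟨B, D, n, fun Γ _ _ hΓ X _ _ μ _ T hT hE I _ η _ _ α z hz => ?_⟩
  obtain ⟨M, hM1, -⟩ := hBD Γ X μ T hT hE I η α z hz
  exact ⟨M, fun P hP => phase_capt hΓ hT hE (fun Q hQm hQ => hM1 Q hQm hQ) hP⟩

end Pool.Agent.FpTrans
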