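import Pool.Agent.FpOrd.Norm

/-!
# Package L: from a Conze-Lesigne type equation to an open subgroup of almost quasi-periods
-/

set_option autoImplicit false
open MeasureTheory Filter Topology ProbabilityTheory
open scoped Pointwise

namespace Pool.Agent.FpTrans

universe u v w

section pl

variable {p : ℕ} [Fact p.Prime] {I : Type} [Countable I] (η : Measure (I → ZMod p))
  [IsProbabilityMeasure η] [η.IsAddLeftInvariant]

/-- continuity of translations in `L¹` -/
private theorem pl_cont (f : (I → ZMod p) → ℂ) (hf : Measurable f) (C : ℝ)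
    (hC : ∀ z, ‖f z‖ ≤ C) (w₀ : I → ZMod p) :
    Tendsto (fun w => ∫ z, ‖f (z + w) - f (z + w₀)‖ ∂η) (𝓝 w₀) (𝓝 0) := by
  have hmem : MemLp f 1 η := MemLp.of_bound hf.aestronglyMeasurable C (ae_of_all _ hC)
  let F : Lp ℂ 1 η := hmem.toLp f
  let G : (I → ZMod p) → C(I → ZMod p, I → ZMod p) := fun w => ⟨fun z => z + w, by fun_prop⟩
  have hG : Continuous G := by
    have h : Continuous (fun q : (I → ZMod p) × (I → ZMod p) => q.2 + q.1) := by fun_prop
    exact (ContinuousMap.curry ⟨_, h⟩).continuous
  have hGm : ∀ w, MeasurePreserving (G w) η η := fun w => measurePreserving_add_right η w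
  have hc : Continuous (fun w => Lp.compMeasurePreserving (G w) (hGm w) F) :=
    Continuous.compMeasurePreservingLp continuous_const hG hGm ENNReal.one_ne_top
  have h1 : Tendsto (fun w => dist (Lp.compMeasurePreserving (G w) (hGm w) F)
      (Lp.compMeasurePreserving (G w₀) (hGm w₀) F)) (𝓝 w₀) (𝓝 0) :=
    tendsto_iff_dist_tendsto_zero.1 (hc.tendsto w₀)
  refine h1.congr fun w => ?_
  rw [L1.dist_eq_integral_dist]
  refine integral_congr_ae ?_
  filter_upwards [Lp.coeFn_compMeasurePreserving F (hGm w),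
    Lp.coeFn_compMeasurePreserving F (hGm w₀),
    (hGm w).quasiMeasurePreserving.ae hmem.coeFn_toLp,
    (hGm w₀).quasiMeasurePreserving.ae hmem.coeFn_toLp] with z h1 h2 h3 h4
  rw [h1, h2, dist_eq_norm]
  simp only [Function.comp]
  rw [h3, h4]
  rfl

/-- continuity of translations, in terms of `nrm` -/
private theorem pl_cont' (φ : (I → ZMod p) → UnitAddCircle) (hφ : Measurable φ)
    (w₀ : I → ZMod p) (δ : ℝ) (hδ : 0 < δ) :
    ∀ᶠ w in 𝓝 w₀, nrm η (fun z => φ (z + w) - φ (z + w₀)) < δ := by
  have h := pl_cont η (fun z => ee (φ z)) (continuous_ee.measurable.comp hφ) 1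
    (fun z => (norm_ee _).le) w₀
  have h2 := (tendsto_order.1 h).2 δ hδ
  filter_upwards [h2] with w hw
  refine lt_of_eq_of_lt ?_ hw
  unfold nrm
  refine integral_congr_ae (ae_of_all _ fun z => ?_)
  simp only
  have e1 : ee (φ (z + w)) = ee (φ (z + w) - φ (z + w₀)) * ee (φ (z + w₀)) := by
    rw [← ee_add, sub_add_cancel]
  rw [e1]
  have e2 : ee (φ (z + w) - φ (z + w₀)) * ee (φ (z + w₀)) - ee (φ (z + w₀)) =
      (ee (φ (z + w) - φ (z + w₀)) - 1) * ee (φ (z + w₀)) := by ring
  rw [e2, norm_mul, norm_ee, mul_one]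

/-- a set of positive measure contained, with its difference set, in a set closed under limits -/
private theorem pl_steinhaus (E : Set (I → ZMod p)) (hE : η E ≠ 0) :
    closure (E - E) ∈ 𝓝 (0 : I → ZMod p) := by
  have _ : η.IsAddHaarMeasure :=
    Measure.isAddHaarMeasure_of_isCompact_nonempty_interior η Set.univ isCompact_univ
      (by rw [interior_univ]; exact Set.univ_nonempty) (by simp) (by simp)
  have h1 : closure E - closure E ∈ 𝓝 (0 : I → ZMod p) := by
    refine Measure.sub_mem_nhds_zero_of_addHaar_pos η (closure E)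
      isClosed_closure.measurableSet ?_
    exact lt_of_lt_of_le (pos_iff_ne_zero.2 hE) (measure_mono subset_closure)
  refine mem_of_superset h1 ?_
  rintro _ ⟨x, hx, y, hy, rfl⟩
  exact map_mem_closure₂ continuous_sub hx hy fun a ha b hb => Set.sub_mem_sub ha hb

omit [Countable I] in
private theorem pl_open (W : Set (I → ZMod p)) (hW : W ∈ 𝓝 (0 : I → ZMod p)) :
    ∃ U : AddSubgroup (I → ZMod p), IsOpen (U : Set (I → ZMod p)) ∧ (U : Set (I → ZMod p)) ⊆ W := by
  rw [nhds_pi, Filter.mem_pi] at hW
  obtain ⟨s, hs, t, ht, hst⟩ := hW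
  refine ⟨{ carrier := {w | ∀ i ∈ s, w i = 0}
            add_mem' := fun {a b} ha hb i hi => by simp [ha i hi, hb i hi]
            zero_mem' := fun i hi => rfl
            neg_mem' := fun {a} ha i hi => by simp [ha i hi] }, ?_, ?_⟩
  · have e : ({w : I → ZMod p | ∀ i ∈ s, w i = 0} : Set (I → ZMod p)) =
        s.pi (fun _ => {0}) := by
      ext w; simp [Set.mem_pi]
    show IsOpen {w : I → ZMod p | ∀ i ∈ s, w i = 0}
    rw [e]
    exact isOpen_set_pi hs fun i _ => isOpen_discrete _
  · intro w hw
    refine hst fun i hi => ?_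
    have h0 : w i = 0 := hw i hi
    rw [h0]
    exact mem_of_mem_nhds (ht i)

end pl

theorem z_stage (p l : ℕ) [Fact p.Prime] (ε : ℝ) (hε : 0 < ε) {Γ : Type} [AddCommGroup Γ]
    [Countable Γ] (hΓ : ∀ g : Γ, p • g = 0) {I : Type} [Countable I]
    (η : Measure (I → ZMod p)) [IsProbabilityMeasure η] [η.IsAddLeftInvariant]
    (α : Γ → I → ZMod p) (hα : ∀ g h, α (g + h) = α g + α h)
    (a a' : Γ → (I → ZMod p) → UnitAddCircle) (ha : ∀ g, Measurable (a g))
    (ha' : ∀ g, Measurable (a' g)) (E : Set (I → ZMod p)) (hE : η E ≠ 0)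
    (D : (I → ZMod p) → (I → ZMod p) → UnitAddCircle) (hD : ∀ s ∈ E, Measurable (D s))
    (h : ∀ s ∈ E, ∀ g, AEPoly η (fun g z => z + α g) l
      (fun z => a' g z + a g (z + s) + D s (z + α g) - D s z)) :
    ∃ U : AddSubgroup (I → ZMod p), IsOpen (U : Set (I → ZMod p)) ∧ ∀ w ∈ U, ∀ g,
      ∃ R : (I → ZMod p) → UnitAddCircle, Measurable R ∧ AEPoly η (fun g z => z + α g) l R ∧
        nrm η (fun z => a g (z + w) - a g z - R z) ≤ ε := by
  obtain ⟨E', hE', hE'0, hE'1⟩ := pigeon η η E hE D hD (ε / 4) (by positivity)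
  have hmp : ∀ w : I → ZMod p, MeasurePreserving (fun z => z + w) η η :=
    fun w => measurePreserving_add_right η w
  -- differences of elements of `E'`
  have key : ∀ w ∈ E' - E', ∀ g, ∃ R : (I → ZMod p) → UnitAddCircle, Measurable R ∧
      AEPoly η (fun g z => z + α g) l R ∧
        nrm η (fun z => a g (z + w) - a g z - R z) ≤ ε / 2 := by
    rintro _ ⟨s, hs, t, ht, rfl⟩ g
    have hDs := hD s (hE' hs)
    have hDt := hD t (hE' ht)
    have hR := ((h s (hE' hs) g).sub (h t (hE' ht) g)).comp_factor (a := fun z => z + (-t))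
      (hmp (-t)).quasiMeasurePreserving (T := fun g z => z + α g)
      (fun i => (hmp (α i)).quasiMeasurePreserving)
      (fun i => ae_of_all _ fun z => by abel)
    refine ⟨_, ?_, hR, ?_⟩
    · fun_prop
    · have e : (fun z => a g (z + (s - t)) - a g z -
          ((a' g (z + -t) + a g (z + -t + s) + D s (z + -t + α g) - D s (z + -t)) -
          (a' g (z + -t) + a g (z + -t + t) + D t (z + -t + α g) - D t (z + -t)))) =
          fun z => (D s (z + -t) - D t (z + -t)) -
            (D s (z + (-t + α g)) - D t (z + (-t + α g))) := by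
        funext z
        have e1 : z + -t + s = z + (s - t) := by abel
        have e2 : z + -t + t = z := by abel
        have e3 : z + -t + α g = z + (-t + α g) := by abel
        rw [e1, e2, e3]
        generalize D s (z + -t) = x1
        generalize D t (z + -t) = x2
        generalize D s (z + (-t + α g)) = x3
        generalize D t (z + (-t + α g)) = x4
        generalize a g (z + (s - t)) = x5
        generalize a g z = x6
        generalize a' g (z + -t) = x7
        abel
      rw [e]
      have hm : Measurable (fun y => D s y - D t y) := hDs.sub hDt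
      refine (nrm_sub_le (hm.comp (hmp (-t)).measurable)
        (hm.comp (hmp (-t + α g)).measurable)).trans ?_
      have h1 := nrm_comp (hmp (-t)) hm
      have h2 := nrm_comp (hmp (-t + α g)) hm
      have h3 := hE'1 s hs t ht
      simp only [Function.comp_def] at *
      rw [h1, h2]
      linarith
  obtain ⟨U, hUo, hU⟩ := pl_open (closure (E' - E')) (pl_steinhaus η E' hE'0)
  refine ⟨U, hUo, fun w hw g => ?_⟩
  have hcl := hU hw
  obtain ⟨w', hw'1, hw'2⟩ := (mem_closure_iff_nhds.1 hcl) _
    (pl_cont' η (a g) (ha g) w (ε / 2) (by positivity))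
  obtain ⟨R, hRm, hRp, hRn⟩ := key w' hw'2 g
  refine ⟨R, hRm, hRp, ?_⟩
  have e : (fun z => a g (z + w) - a g z - R z) =
      fun z => (a g (z + w') - a g z - R z) - (a g (z + w') - a g (z + w)) := by
    funext z; abel
  rw [e]
  refine (nrm_sub_le ?_ ?_).trans ?_
  · have := ha g; fun_prop
  · have := ha g; fun_prop
  · have : nrm η (fun z => a g (z + w') - a g (z + w)) < ε / 2 := hw'1
    linarith

end Pool.Agent.FpTrans
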