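import Pool.Agent.FpOrd.Norm
import Pool.Agent.FpOrd.Mean
import Pool.Agent.FpOrd.Near
import Pool.Agent.FpOrd.ProdInv
import Pool.Agent.FpOrd.Fiber
import Pool.Agent.FpOrd.Split
import Pool.Agent.FpOrd.TowExists
import Pool.Agent.FpOrd.TransPoly
import Pool.Agent.FpOrd.LemR
import Pool.Agent.FpOrd.LemS
import Pool.Agent.FpOrd.PairTow
import Pool.Agent.FpOrd.ZStage
import Pool.Agent.FpOrd.Discrete
import Pool.Agent.FpOrd.HK
import Pool.Agent.FpTrans.Main

/-!
# From an approximate cohomological equation on the Kronecker factor to correlation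
-/

set_option autoImplicit false
open MeasureTheory Filter Topology ProbabilityTheory

namespace Pool.Agent.FpTrans

universe u v w

theorem rot_action {p : ℕ} [Fact p.Prime] {Γ : Type} [AddCommGroup Γ] {I : Type} [Countable I]
    (η : Measure (I → ZMod p)) [η.IsAddLeftInvariant] {α : Γ → I → ZMod p}
    (hα : ∀ g h, α (g + h) = α g + α h) :
    IsAction η (fun (g : Γ) (ζ : I → ZMod p) => ζ + α g) := by
  refine ⟨fun x => ?_, fun g h x => ?_, fun g => ?_⟩
  · have h0 : α 0 = 0 := by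
      have := hα 0 0
      rw [add_zero] at this
      exact (add_eq_left.1 this.symm)
    simp [h0]
  · simp only [hα]
    rw [add_comm (α g), add_assoc]
  · have : (fun ζ : I → ZMod p => ζ + α g) = fun ζ => α g + ζ := by
      funext ζ; rw [add_comm]
    rw [this]
    exact measurePreserving_add_left η (α g)

theorem kron_ergodic {p : ℕ} [Fact p.Prime] {Γ : Type} [AddCommGroup Γ] [Countable Γ] {X : Type u}
    [MeasurableSpace X] {μ : Measure X} {T : Γ → X → X} (hT : IsAction μ T)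
    (hE : IsErgodic μ T) {I : Type} [Countable I] {η : Measure (I → ZMod p)}
    {α : Γ → I → ZMod p} {z : X → I → ZMod p} (hz : Kron p μ T η α z) :
    IsErgodic η (fun (g : Γ) (ζ : I → ZMod p) => ζ + α g) :=
  hE.factor hT hz.mp hz.eqv

theorem IsPoly.comp_trans {K K' : Type} [AddCommGroup K] [AddCommGroup K'] {A : Type v}
    [AddCommGroup A] {l : ℕ} {f : K → A} (hf : IsPoly trans l f) (φ : K' → K) (ψ : K' → K)
    (h : ∀ a k, φ (k + a) = φ k + ψ a) : IsPoly trans l (fun k => f (φ k)) :=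
  hf.comp_map (t' := trans) φ ψ (fun i s => by simp only [trans]; exact h i s)

theorem IsPoly.tm_trans {K Γ : Type} [AddCommGroup K] {A : Type v} [AddCommGroup A] {S : Γ → K → K}
    {l : ℕ} {f : K → A} (hf : IsPoly (tm S) l f) : IsPoly trans l f :=
  hf.comp_map (t' := trans) id Sum.inl (fun _ _ => rfl)

theorem IsPoly.tm_S {K Γ : Type} [AddCommGroup K] {A : Type v} [AddCommGroup A] {S : Γ → K → K}
    {l : ℕ} {f : K → A} (hf : IsPoly (tm S) l f) : IsPoly S l f :=
  hf.comp_map (t' := S) id Sum.inr (fun _ _ => rfl)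

theorem corr (p l D n : ℕ) [Fact p.Prime] (B : ℕ → ℕ → ℕ) : ∃ L : ℕ,
    ∀ (Γ : Type) [AddCommGroup Γ] [Countable Γ], (∀ g : Γ, p • g = 0) →
    ∀ (X : Type u) [MeasurableSpace X] [StandardBorelSpace X] (μ : Measure X)
      [IsProbabilityMeasure μ] (T : Γ → X → X), IsAction μ T → IsErgodic μ T →
    ∀ (I : Type) [Countable I] (η : Measure (I → ZMod p)) [IsProbabilityMeasure η]
      [η.IsAddLeftInvariant] (α : Γ → I → ZMod p) (z : X → I → ZMod p), Kron p μ T η α z →
    ∀ M : Tow p μ T α z B D n, ∀ φ : X → UnitAddCircle, Measurable φ →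
    ∀ (b b' : Γ → (I → ZMod p) → UnitAddCircle) (P : Γ → (I ⊕ M.J → ZMod p) → UnitAddCircle),
      (∀ g, Measurable (b g)) → (∀ g, Measurable (b' g)) → (∀ g, Continuous (P g)) →
      (∀ g, IsPoly trans l (P g)) →
      (∀ g, ∀ᵐ x ∂μ, φ (T g x) - φ x = b g (z x) + P g (M.a x)) →
    ∀ E : Set (I → ZMod p), η E ≠ 0 → ∀ d : (I → ZMod p) → (I → ZMod p) → UnitAddCircle,
      (∀ s ∈ E, Measurable (d s)) →
      (∀ s ∈ E, ∀ g, AEPoly η (fun g ζ => ζ + α g) l
        (fun ζ => b' g ζ + b g (ζ + s) + d s (ζ + α g) - d s ζ)) →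
      ∃ R : X → UnitAddCircle, Measurable R ∧ AEPoly μ T L R ∧
        ∫ x, ee (φ x - R x) ∂μ ≠ 0 := by
  obtain ⟨l', hl'⟩ := trans_poly p l D
  set L₂ := max l l' with hL₂
  obtain ⟨ε₂, hε₂, h₂⟩ := near_poly_index.{u} p (L₂ + 1)
  obtain ⟨ε₁, hε₁, h₁⟩ := near_poly.{0} p L₂ ε₂ hε₂
  refine ⟨L₂ + 1 + 2, ?_⟩
  intro Γ _ _ hΓ X _ _ μ _ T hT hE I _ η _ _ α z hz M φ hφ b b' P hb hb' hPc hPp hder E hEη d hd
    hCL
  obtain ⟨U, hU, hUR⟩ := z_stage p l ε₁ hε₁ hΓ η α hz.hom b b' hb hb' E hEη d hd hCL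
  refine h₂ Γ hΓ X μ T hT hE I η α z hz U hU φ hφ ?_
  intro h hh
  have hrot := rot_action η hz.hom
  have hrotE := kron_ergodic hT hE hz
  have hPX : ∀ g, AEPoly μ T l' (fun x => P g (M.a x)) := fun g =>
    AEPoly.comp_factor M.ha.quasiMeasurePreserving hT.qmp M.haS
      (AEPoly.of_isPoly (hl' (I ⊕ M.J) Γ M.S M.hw (P g) (hPc g) (hPp g)).tm_S)
  -- `b h` is nearly a polynomial
  obtain ⟨Q, hQm, hQp, hQn⟩ := h₁ Γ hΓ (I → ZMod p) η (fun g ζ => ζ + α g) hrot hrotE (b h) (hb h)
    (by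
      intro g
      obtain ⟨R, hRm, hRp, hRn⟩ := hUR (α h) hh g
      have hcm : Measurable fun ζ : I → ZMod p =>
          b h (ζ + α g) - b h ζ - (b g (ζ + α h) - b g ζ) :=
        (((hb h).comp (measurable_id.add_const _)).sub (hb h)).sub
          (((hb g).comp (measurable_id.add_const _)).sub (hb g))
      have hc : AEPoly η (fun g ζ => ζ + α g) l'
          (fun ζ => b h (ζ + α g) - b h ζ - (b g (ζ + α h) - b g ζ)) := by
        refine AEPoly.of_comp_factor hz.mp hT.qmp (fun g => (hrot.mp g).measurable) hz.eqv hcm ?_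
        have h3 : AEPoly μ T l' (fun x => (P g (M.a (T h x)) - P g (M.a x)) -
            (P h (M.a (T g x)) - P h (M.a x))) :=
          ((hPX g).succ hT.qmp h).sub ((hPX h).succ hT.qmp g)
        refine h3.congr hT.qmp ?_
        filter_upwards [hder g, hder h, (hT.qmp h).ae (hder g), (hT.qmp g).ae (hder h),
          hz.eqv g, hz.eqv h] with x e1 e2 e3 e4 e5 e6
        rw [hT.comm g h] at e3
        rw [e6] at e3
        rw [e5] at e4
        have e7 : (b g (z x + α h) + P g (M.a (T h x))) - (b g (z x) + P g (M.a x)) =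
            (b h (z x + α g) + P h (M.a (T g x))) - (b h (z x) + P h (M.a x)) := by
          rw [← e1, ← e2, ← e3, ← e4]; abel
        have e8 := sub_eq_zero.2 e7
        refine (eq_of_sub_eq_zero ?_).symm
        rw [← e8]; abel
      refine ⟨fun ζ => R ζ + (b h (ζ + α g) - b h ζ - (b g (ζ + α h) - b g ζ)),
        hRm.add hcm, ?_, ?_⟩
      · exact (AEPoly.add (hRp.mono (le_max_left l l') hrot.qmp)
          (hc.mono (le_max_right l l') hrot.qmp)).mono (Nat.le_succ _) hrot.qmp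
      · have h5 : (fun ζ => b h (ζ + α g) - b h ζ -
            (R ζ + (b h (ζ + α g) - b h ζ - (b g (ζ + α h) - b g ζ)))) =
            fun ζ => b g (ζ + α h) - b g ζ - R ζ := by
          funext ζ; abel
        rw [h5]; exact hRn)
  refine ⟨fun x => Q (z x) + P h (M.a x), (hQm.comp hz.mp.measurable).add
    ((hPc h).measurable.comp M.ha.measurable), ?_, ?_⟩
  · refine AEPoly.add ?_ ?_
    · exact AEPoly.comp_factor hz.mp.quasiMeasurePreserving hT.qmp hz.eqv hQp
    · exact (hPX h).mono (by omega) hT.qmp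
  · have h4 : nrm μ (fun x => φ (T h x) - φ x - (Q (z x) + P h (M.a x))) =
        nrm μ (fun x => (b h - Q) (z x)) := by
      refine nrm_congr ?_
      filter_upwards [hder h] with x hx
      rw [hx, Pi.sub_apply]
      abel
    rw [h4, nrm_comp hz.mp ((hb h).sub hQm)]
    exact hQn

end Pool.Agent.FpTrans
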