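import Pool.Agent.FpOrd.Defs

/-!
# Disintegrations: existence, maps, products, actions on the fibres
-/

set_option autoImplicit false
open MeasureTheory Filter Topology ProbabilityTheory

namespace Pool.Agent.FpTrans

universe u v w

theorem exists_dis {Y : Type u} [MeasurableSpace Y] [StandardBorelSpace Y] {Z : Type v}
    [MeasurableSpace Z] [StandardBorelSpace Z] (M : Measure Y) [IsProbabilityMeasure M]
    (η : Measure Z) (c : Y → Z) (hc : MeasurePreserving c M η) :
    ∃ κ : Kernel Z Y, IsMarkovKernel κ ∧ IsDis M c η κ := by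
  have hY : Nonempty Y := by
    by_contra h
    rw [not_nonempty_iff] at h
    have h1 : M Set.univ = 0 := by
      rw [Set.univ_eq_empty_iff.2 h]; simp
    simp at h1
  set ρ : Measure (Z × Y) := M.map (fun y => (c y, y)) with hρ
  have hm : Measurable (fun y => (c y, y)) := hc.measurable.prodMk measurable_id
  have : IsProbabilityMeasure ρ := Measure.isProbabilityMeasure_map hm.aemeasurable
  have hfst : ρ.fst = η := by
    rw [Measure.fst, hρ, Measure.map_map measurable_fst hm]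
    exact hc.map_eq
  refine ⟨ρ.condKernel, inferInstance, ?_⟩
  unfold IsDis
  rw [← hfst, ρ.disintegrate ρ.condKernel]

/-- disintegrations are compatible with maps -/
theorem dis_map {Y : Type u} [MeasurableSpace Y] [StandardBorelSpace Y] {Y' : Type w}
    [MeasurableSpace Y'] [StandardBorelSpace Y'] {Z : Type v} [MeasurableSpace Z]
    [StandardBorelSpace Z] {M : Measure Y} [IsProbabilityMeasure M] {M' : Measure Y'}
    [IsProbabilityMeasure M'] {η : Measure Z} [IsProbabilityMeasure η] {c : Y → Z}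
    (hc : Measurable c) {c' : Y' → Z} (hc' : Measurable c') {κ : Kernel Z Y} [IsMarkovKernel κ]
    (hκ : IsDis M c η κ) {κ' : Kernel Z Y'} [IsMarkovKernel κ'] (hκ' : IsDis M' c' η κ')
    (f : Y → Y') (hf : MeasurePreserving f M M') (hcf : ∀ᵐ y ∂M, c' (f y) = c y) :
    ∀ᵐ s ∂η, MeasurePreserving f (κ s) (κ' s) := by
  have hfm := hf.measurable
  have : IsMarkovKernel (κ.map f) := Kernel.IsMarkovKernel.map _ hfm
  have key : η ⊗ₘ (κ.map f) = η ⊗ₘ κ' := by
    rw [Measure.compProd_map hfm]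
    unfold IsDis at hκ hκ'
    have hm1 : Measurable (fun y : Y => (c y, y)) := hc.prodMk measurable_id
    have hm2 : Measurable (fun y : Y' => (c' y, y)) := hc'.prodMk measurable_id
    rw [hκ, hκ', Measure.map_map (measurable_id.prodMap hfm) hm1,
      ← hf.map_eq, Measure.map_map hm2 hfm]
    apply Measure.map_congr
    filter_upwards [hcf] with y hy
    simp [hy]
  have h2 := Kernel.ae_eq_of_compProd_eq key
  filter_upwards [h2] with s hs
  refine ⟨hfm, ?_⟩
  rw [← hs, Kernel.map_apply _ hfm]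

/-- the disintegration of `M × ρ` over a function on `M` -/
theorem dis_prod {Y : Type u} [MeasurableSpace Y] [StandardBorelSpace Y] {Y' : Type w}
    [MeasurableSpace Y'] [StandardBorelSpace Y'] {Z : Type v} [MeasurableSpace Z]
    [StandardBorelSpace Z] {M : Measure Y} [IsProbabilityMeasure M] {ρ : Measure Y'}
    [IsProbabilityMeasure ρ] {η : Measure Z} [IsProbabilityMeasure η] {c : Y → Z}
    (hc : Measurable c) {κ : Kernel Z Y} [IsMarkovKernel κ] (hκ : IsDis M c η κ) :
    IsDis (M.prod ρ) (fun y => c y.1) η (κ ×ₖ Kernel.const Z ρ) := by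
  unfold IsDis at hκ ⊢
  have hm : Measurable (fun y : Y × Y' => (c y.1, y)) :=
    (hc.comp measurable_fst).prodMk measurable_id
  have hm' : Measurable (fun y : Y => (c y, y)) := hc.prodMk measurable_id
  ext s hs
  rw [Measure.compProd_apply hs, Measure.map_apply hm hs, Measure.prod_apply (hm hs)]
  have h1 : ∀ z, (κ ×ₖ Kernel.const Z ρ) z (Prod.mk z ⁻¹' s) =
      ∫⁻ y, ρ {y' | (z, (y, y')) ∈ s} ∂(κ z) := by
    intro z
    rw [Kernel.prod_apply, Measure.prod_apply (measurable_prodMk_left hs)]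
    rfl
  simp_rw [h1]
  have hg : Measurable (fun q : Z × Y => ρ {y' | (q.1, (q.2, y')) ∈ s}) := by
    have : MeasurableSet ((fun q : (Z × Y) × Y' => (q.1.1, (q.1.2, q.2))) ⁻¹' s) := by
      have hmm : Measurable (fun q : (Z × Y) × Y' => (q.1.1, (q.1.2, q.2))) := by fun_prop
      exact hmm hs
    exact measurable_measure_prodMk_left this
  have h2 : ∫⁻ a, ∫⁻ y, ρ {y' | (a, (y, y')) ∈ s} ∂(κ a) ∂η =
      ∫⁻ q, ρ {y' | (q.1, (q.2, y')) ∈ s} ∂(η ⊗ₘ κ) := by
    rw [Measure.lintegral_compProd hg]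
  rw [h2, hκ, lintegral_map hg hm']
  rfl

/-- if something holds almost everywhere then it holds almost everywhere on almost every fibre -/
theorem fiber_ae {Y : Type u} [MeasurableSpace Y] {Z : Type v} [MeasurableSpace Z]
    {M : Measure Y} [IsProbabilityMeasure M] {η : Measure Z} [IsProbabilityMeasure η] {c : Y → Z}
    (hc : Measurable c) {κ : Kernel Z Y} [IsMarkovKernel κ] (hκ : IsDis M c η κ) {q : Y → Prop}
    (h : ∀ᵐ y ∂M, q y) : ∀ᵐ s ∂η, ∀ᵐ y ∂(κ s), q y := by
  unfold IsDis at hκ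
  have hm' : Measurable (fun y : Y => (c y, y)) := hc.prodMk measurable_id
  have h1 : ∀ᵐ w ∂(η ⊗ₘ κ), q w.2 := by
    rw [hκ]
    have hq : (M.map (fun y => (c y, y))).map Prod.snd = M := by
      rw [Measure.map_map measurable_snd hm']
      exact Measure.map_id
    have h3 : ∀ᵐ y ∂((M.map (fun y => (c y, y))).map Prod.snd), q y := by rw [hq]; exact h
    exact ae_of_ae_map measurable_snd.aemeasurable h3
  exact Measure.ae_ae_of_ae_compProd h1

theorem fiber_action {Γ : Type} [AddCommGroup Γ] [Countable Γ] {Y : Type u} [MeasurableSpace Y]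
    [StandardBorelSpace Y] {M : Measure Y} [IsProbabilityMeasure M] {T : Γ → Y → Y}
    (hT : IsAction M T) {Z : Type v} [MeasurableSpace Z] [StandardBorelSpace Z] {η : Measure Z}
    [IsProbabilityMeasure η] {c : Y → Z} (hc : Measurable c)
    (hcT : ∀ g, ∀ᵐ y ∂M, c (T g y) = c y) {κ : Kernel Z Y} [IsMarkovKernel κ]
    (hκ : IsDis M c η κ) : ∀ᵐ s ∂η, IsAction (κ s) T ∧ ∀ᵐ y ∂(κ s), c y = s := by
  have h1 : ∀ᵐ s ∂η, ∀ g, MeasurePreserving (T g) (κ s) (κ s) := by
    rw [ae_all_iff]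
    intro g
    exact dis_map hc hc hκ hκ (T g) (hT.mp g) (hcT g)
  have h2 : ∀ᵐ s ∂η, ∀ᵐ y ∂(κ s), c y = s := by
    have h3 : ∀ᵐ w ∂(η ⊗ₘ κ), c w.2 = w.1 := by
      unfold IsDis at hκ
      rw [hκ]
      have hm' : Measurable (fun y : Y => (c y, y)) := hc.prodMk measurable_id
      rw [ae_map_iff hm'.aemeasurable]
      · simp
      · exact measurableSet_eq_fun (hc.comp measurable_snd) measurable_fst
    exact Measure.ae_ae_of_ae_compProd h3
  filter_upwards [h1, h2] with s hs1 hs2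
  exact ⟨⟨hT.zero, hT.add, hs1⟩, hs2⟩

/-! ### Fibres and invariant functions -/

/-- a countable family of bounded functions which is dense in `L²(ρ)` for every finite `ρ` -/
theorem pe_dense (Y : Type u) [MeasurableSpace Y] [StandardBorelSpace Y] :
    ∃ F : ℕ → Y → ℂ, (∀ i, Measurable (F i)) ∧ (∀ i, ∃ C : ℝ, ∀ y, ‖F i y‖ ≤ C) ∧
      ∀ (ρ : Measure Y) [IsFiniteMeasure ρ] (f : Y → ℂ), Measurable f → MemLp f 2 ρ →
        ∀ ε : ENNReal, 0 < ε → ∃ i, eLpNorm (F i - f) 2 ρ < ε := by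
  let e : Y → unitInterval := unitInterval.sigmoid ∘ embeddingReal Y
  have he : MeasurableEmbedding e := measurableEmbedding_sigmoid_comp_embeddingReal Y
  let G : ℕ → C(unitInterval, ℂ) := TopologicalSpace.denseSeq C(unitInterval, ℂ)
  have hG : DenseRange G := TopologicalSpace.denseRange_denseSeq _
  refine ⟨fun i y => G i (e y), fun i => (G i).continuous.measurable.comp he.measurable,
    fun i => ⟨‖G i‖, fun y => (G i).norm_coe_le_norm (e y)⟩, ?_⟩
  intro ρ _ f hf hf2 ε hε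
  let ρ' : Measure unitInterval := ρ.map e
  have hρ' : IsFiniteMeasure ρ' := Measure.isFiniteMeasure_map ρ e
  let f' : unitInterval → ℂ := Function.extend e f 0
  have hf' : f' ∘ e = f := by
    ext y
    exact he.injective.extend_apply f 0 y
  have hf'2 : MemLp f' 2 ρ' := by
    rw [he.memLp_map_measure_iff, hf']
    exact hf2
  have hd := (ContinuousMap.toLp_denseRange ℂ ρ' ℂ (p := 2) (by norm_num)).comp hG
    (ContinuousLinearMap.continuous _)
  obtain ⟨i, hi⟩ := hd.exists_mem_open (Metric.isOpen_eball (x := hf'2.toLp f') (ε := ε))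
    ⟨_, Metric.mem_eball_self hε⟩
  refine ⟨i, ?_⟩
  rw [Metric.mem_eball, Lp.edist_def] at hi
  have h1 : (⇑((ContinuousMap.toLp 2 ρ' ℂ : C(unitInterval, ℂ) →L[ℂ] Lp ℂ 2 ρ') (G i)) -
      ⇑(hf'2.toLp f')) =ᵐ[ρ'] ⇑(G i) - f' := by
    filter_upwards [ContinuousMap.coeFn_toLp (p := 2) (𝕜 := ℂ) ρ' (G i), hf'2.coeFn_toLp]
      with x hx1 hx2
    rw [Pi.sub_apply, Pi.sub_apply, hx1, hx2]
  have h2 : eLpNorm (⇑(G i) - f') 2 ρ' < ε := by
    rw [← eLpNorm_congr_ae h1]; exact hi
  rw [he.eLpNorm_map_measure] at h2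
  convert h2 using 2
  ext y
  have := congrFun hf' y
  simp only [Function.comp] at this
  simp [this]

theorem pe_lint {Y : Type u} [MeasurableSpace Y] {Z : Type v} [MeasurableSpace Z]
    {M : Measure Y} [IsProbabilityMeasure M] {η : Measure Z} [IsProbabilityMeasure η] {c : Y → Z}
    (hc : Measurable c) {κ : Kernel Z Y} [IsMarkovKernel κ] (hκ : IsDis M c η κ)
    (G : Y → ENNReal) (hG : Measurable G) :
    ∫⁻ s, ∫⁻ y, G y ∂(κ s) ∂η = ∫⁻ y, G y ∂M := by
  unfold IsDis at hκ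
  have hm' : Measurable (fun y : Y => (c y, y)) := hc.prodMk measurable_id
  have h1 : ∫⁻ w, G w.2 ∂(η ⊗ₘ κ) = ∫⁻ s, ∫⁻ y, G y ∂(κ s) ∂η :=
    Measure.lintegral_compProd (hG.comp measurable_snd)
  rw [← h1, hκ]
  exact lintegral_map (hG.comp measurable_snd) hm'

/-- `L²` norms and integrals of squares -/
theorem pe_sq {Y : Type u} [MeasurableSpace Y] (ρ : Measure Y) (u : Y → ℂ) :
    eLpNorm u 2 ρ = (∫⁻ y, ENNReal.ofReal (‖u y‖ ^ 2) ∂ρ) ^ (1 / 2 : ℝ) := by
  rw [eLpNorm_eq_lintegral_rpow_enorm_toReal (by norm_num) (by norm_num)]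
  have : (2 : ENNReal).toReal = 2 := by norm_num
  rw [this]
  congr 1
  apply lintegral_congr
  intro y
  rw [ENNReal.ofReal_pow (norm_nonneg _), ofReal_norm]
  norm_cast

/-- averages do not increase the `L²` norm -/
theorem pe_avg {Γ : Type} [AddCommGroup Γ] {Y : Type u} [MeasurableSpace Y] {ρ : Measure Y}
    [IsProbabilityMeasure ρ] {T : Γ → Y → Y} (hT : IsAction ρ T) (E : Finset Γ)
    (hE : E.Nonempty) (u F : Y → ℂ) (hu : Measurable u) (hF : Measurable F)
    (hFi : ∀ g, ∀ᵐ y ∂ρ, F (T g y) = F y) :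
    eLpNorm (fun y => avg E (fun g => u (T g y)) - F y) 2 ρ ≤ eLpNorm (u - F) 2 ρ := by
  have hcard : (E.card : ℝ) ≠ 0 := by
    have := hE.card_pos
    positivity
  have h1 : (fun y => avg E (fun g => u (T g y)) - F y) =ᵐ[ρ]
      ((E.card : ℝ)⁻¹) • ∑ g ∈ E, ((u - F) ∘ T g) := by
    have h2 : ∀ᵐ y ∂ρ, ∀ g ∈ E, F (T g y) = F y := by
      rw [Filter.eventually_all_finset]
      intro g _
      exact hFi g
    filter_upwards [h2] with y hy
    unfold avg
    simp only [Pi.smul_apply, Finset.sum_apply, Function.comp, Pi.sub_apply,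
      Finset.sum_sub_distrib]
    rw [Finset.sum_congr rfl hy, smul_sub, Finset.sum_const, ← Nat.cast_smul_eq_nsmul ℝ,
      smul_smul, inv_mul_cancel₀ hcard, one_smul]
  rw [eLpNorm_congr_ae h1, eLpNorm_const_smul]
  have h3 : eLpNorm (∑ g ∈ E, ((u - F) ∘ T g)) 2 ρ ≤ (E.card : ENNReal) * eLpNorm (u - F) 2 ρ := by
    refine (eLpNorm_sum_le (fun g _ => ?_) (by norm_num)).trans ?_
    · exact ((hu.sub hF).comp (hT.mp g).measurable).aestronglyMeasurable
    · rw [← nsmul_eq_mul, ← Finset.sum_const]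
      apply le_of_eq
      apply Finset.sum_congr rfl
      intro g _
      exact eLpNorm_comp_measurePreserving (hu.sub hF).aestronglyMeasurable (hT.mp g)
  calc ‖((E.card : ℝ)⁻¹)‖ₑ * eLpNorm (∑ g ∈ E, ((u - F) ∘ T g)) 2 ρ
      ≤ ‖((E.card : ℝ)⁻¹)‖ₑ * ((E.card : ENNReal) * eLpNorm (u - F) 2 ρ) := by gcongr
    _ = eLpNorm (u - F) 2 ρ := by
        rw [← mul_assoc]
        have : ‖((E.card : ℝ)⁻¹)‖ₑ * (E.card : ENNReal) = 1 := by
          have h5 : (E.card : ENNReal) = ‖(E.card : ℝ)‖ₑ := by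
            simp
          rw [h5, ← enorm_mul, inv_mul_cancel₀ hcard]
          simp
        rw [this, one_mul]

/-- a limit in `L²` of functions of `a` is a function of `a` -/
theorem pe_limit {Y : Type u} [MeasurableSpace Y] {ρ : Measure Y} {A : Type w}
    [MeasurableSpace A] (a : Y → A) (ha : Measurable a) (F : Y → ℂ) (hF : Measurable F)
    (h : ∀ ε : ENNReal, 0 < ε → ∃ k : A → ℂ, Measurable k ∧ eLpNorm (k ∘ a - F) 2 ρ < ε) :
    Capt ρ a F := by
  choose! k hkm hk using h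
  let δ : ℕ → ENNReal := fun n => ((n : ENNReal) + 1)⁻¹
  have hδ0 : ∀ n, 0 < δ n := fun n => by
    simp only [δ, ENNReal.inv_pos]
    exact ENNReal.add_ne_top.2 ⟨ENNReal.natCast_ne_top n, ENNReal.one_ne_top⟩
  have hδ : Tendsto δ atTop (𝓝 0) := by
    have h1 := ENNReal.tendsto_inv_nat_nhds_zero
    have h2 := (tendsto_add_atTop_iff_nat 1).2 h1
    refine h2.congr fun n => ?_
    simp [δ]
  have h2 : Tendsto (fun n => eLpNorm (k (δ n) ∘ a - F) 2 ρ) atTop (𝓝 0) :=
    tendsto_of_tendsto_of_tendsto_of_le_of_le tendsto_const_nhds hδ (fun _ => zero_le)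
      (fun n => (hk (δ n) (hδ0 n)).le)
  have h3 : TendstoInMeasure ρ (fun n => k (δ n) ∘ a) atTop F :=
    tendstoInMeasure_of_tendsto_eLpNorm (by norm_num)
      (fun n => ((hkm _ (hδ0 n)).comp ha).aestronglyMeasurable) hF.aestronglyMeasurable h2
  obtain ⟨ns, -, hns⟩ := h3.exists_seq_tendsto_ae
  have h4 : ∀ᵐ x ∂(ρ.map a), ∃ l, Tendsto (fun n => k (δ (ns n)) x) atTop (𝓝 l) := by
    rw [ae_map_iff ha.aemeasurable
      (measurableSet_exists_tendsto (fun n => hkm _ (hδ0 (ns n))))]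
    filter_upwards [hns] with y hy
    exact ⟨F y, hy⟩
  obtain ⟨f, hfm, hf⟩ := measurable_limit_of_tendsto_metrizable_ae
    (fun n => (hkm _ (hδ0 (ns n))).aemeasurable) h4
  refine ⟨f, hfm, ?_⟩
  have h5 := ae_of_ae_map ha.aemeasurable hf
  filter_upwards [hns, h5] with y hy1 hy2
  exact tendsto_nhds_unique hy1 hy2

end Pool.Agent.FpTrans
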