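import Pool.Agent.FpOrd.Norm

/-!
# A function orthogonal to all characters of a factor is orthogonal to the factor
-/

set_option autoImplicit false
open MeasureTheory Filter Topology

namespace Pool.Agent.FpTrans

universe u v w

section orth

variable {p : ℕ} [Fact p.Prime] {X : Type u} [MeasurableSpace X] {μ : Measure X}
  [IsProbabilityMeasure μ] {J : Type} [Countable J] {a : X → J → ZMod p}

/-- the characters -/
noncomputable def chi (p : ℕ) [Fact p.Prime] (w : ZMod p) : ℂ := ee (-ZMod.toAddCircle w)

theorem chi_add (v w : ZMod p) : chi p (v + w) = chi p v * chi p w := by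
  unfold chi
  rw [map_add, neg_add, ee_add]

theorem chi_eq (w : ZMod p) : chi p w = ZMod.stdAddChar (-w) := by
  unfold chi
  rw [← map_neg]
  rfl

theorem norm_chi (w : ZMod p) : ‖chi p w‖ = 1 := norm_ee _

theorem measurable_chi : Measurable (chi p) := measurable_of_countable _

theorem ind_eq (v t : ZMod p) : (if v = t then (1 : ℂ) else 0) =
    (p : ℂ)⁻¹ * ∑ u : ZMod p, chi p (-(u * t)) * chi p (u * v) := by
  classical
  have h1 := AddChar.sum_mulShift (R := ZMod p) (t - v) (ZMod.isPrimitive_stdAddChar p)
  have h2 : ∑ u : ZMod p, chi p (-(u * t)) * chi p (u * v) =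
      ∑ u : ZMod p, ZMod.stdAddChar (u * (t - v)) := by
    refine Finset.sum_congr rfl fun u _ => ?_
    rw [← chi_add, chi_eq]
    congr 1
    ring
  rw [h2, h1]
  have hp : (p : ℂ) ≠ 0 := by exact_mod_cast (Fact.out : p.Prime).ne_zero
  by_cases hvt : v = t
  · rw [if_pos hvt, if_pos (sub_eq_zero.2 hvt.symm)]
    simp [hp]
  · rw [if_neg hvt, if_neg (fun h => hvt (sub_eq_zero.1 h).symm)]
    simp

theorem orth_cyl (ha : Measurable a) {f : X → ℂ} (hf : Integrable f μ)
    (h0 : ∀ (s : Finset J) (c : J → ZMod p),
      ∫ x, f x * chi p (∑ j ∈ s, c j * a x j) ∂μ = 0) (S : Finset J) (t : J → ZMod p) :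
    ∀ (s : Finset J) (c : J → ZMod p),
      ∫ x, f x * chi p (∑ j ∈ s, c j * a x j) *
        (∏ j ∈ S, if a x j = t j then (1 : ℂ) else 0) ∂μ = 0 := by
  classical
  induction S using Finset.induction_on with
  | empty => intro s c; simpa using h0 s c
  | insert j S hj ih =>
    intro s c
    have h1 : ∀ x, f x * chi p (∑ i ∈ s, c i * a x i) *
        (∏ i ∈ insert j S, if a x i = t i then (1 : ℂ) else 0) =
        ∑ u : ZMod p, ((p : ℂ)⁻¹ * chi p (-(u * t j))) *
          (f x * chi p (∑ i ∈ insert j s, ((if i ∈ s then c i else 0) +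
            (if i = j then u else 0)) * a x i) *
            (∏ i ∈ S, if a x i = t i then (1 : ℂ) else 0)) := by
      intro x
      have h2 : ∀ u : ZMod p, ∑ i ∈ insert j s, ((if i ∈ s then c i else 0) +
            (if i = j then u else 0)) * a x i = ∑ i ∈ s, c i * a x i + u * a x j := by
        intro u
        simp only [add_mul, Finset.sum_add_distrib]
        congr 1
        · rw [← Finset.sum_subset (Finset.subset_insert j s)]
          · refine Finset.sum_congr rfl fun i hi => ?_
            rw [if_pos hi]
          · intro i _ hi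
            rw [if_neg hi, zero_mul]
        · rw [Finset.sum_eq_single j]
          · rw [if_pos rfl]
          · intro i _ hi
            rw [if_neg hi, zero_mul]
          · intro h; exact absurd (Finset.mem_insert_self j s) h
      rw [Finset.prod_insert hj, ind_eq (a x j) (t j)]
      simp only [h2, chi_add]
      rw [Finset.mul_sum, Finset.sum_mul, Finset.mul_sum]
      refine Finset.sum_congr rfl fun u _ => ?_
      ring
    simp only [h1]
    rw [integral_finsetSum]
    · refine Finset.sum_eq_zero fun u _ => ?_
      rw [integral_const_mul, ih, mul_zero]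
    · intro u _
      refine Integrable.const_mul ?_ _
      have h3 : Integrable (fun x => (chi p (∑ i ∈ insert j s, ((if i ∈ s then c i else 0) +
            (if i = j then u else 0)) * a x i) *
            (∏ i ∈ S, if a x i = t i then (1 : ℂ) else 0)) * f x) μ := by
        refine Integrable.bdd_mul (c := 1) hf ?_ ?_
        · refine (Measurable.mul ?_ ?_).aestronglyMeasurable
          · refine measurable_chi.comp (Finset.measurable_sum _ fun i _ => ?_)
            exact (measurable_of_countable (fun v : ZMod p => _ * v)).comp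
              ((measurable_pi_apply i).comp ha)
          · refine Finset.measurable_prod _ fun i _ => ?_
            exact (measurable_of_countable (fun v : ZMod p => if v = t i then (1 : ℂ) else 0)).comp
              ((measurable_pi_apply i).comp ha)
        · refine Filter.Eventually.of_forall fun x => ?_
          rw [norm_mul, norm_chi, one_mul, norm_prod]
          refine Finset.prod_le_one (fun i _ => norm_nonneg _) fun i _ => ?_
          split_ifs <;> simp
      refine h3.congr (Filter.Eventually.of_forall fun x => ?_)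
      show _ * f x = _
      ring

/-- the cylinders -/
def cyl (p : ℕ) (J : Type) : Set (Set (J → ZMod p)) :=
  {A | ∃ (S : Finset J) (t : J → ZMod p), A = {k | ∀ j ∈ S, k j = t j}}

theorem cyl_pi : IsPiSystem (cyl p J) := by
  classical
  rintro _ ⟨S, t, rfl⟩ _ ⟨S', t', rfl⟩ ⟨k, hk, hk'⟩
  refine ⟨S ∪ S', k, ?_⟩
  ext w
  simp only [Set.mem_inter_iff, Set.mem_setOf_eq, Finset.mem_union] at hk hk' ⊢
  constructor
  · rintro ⟨h1, h2⟩ j (hj | hj)
    · rw [h1 j hj, hk j hj]
    · rw [h2 j hj, hk' j hj]
  · intro h
    exact ⟨fun j hj => by rw [h j (Or.inl hj), hk j hj], fun j hj => by rw [h j (Or.inr hj), hk' j hj]⟩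

theorem cyl_gen : (MeasurableSpace.pi : MeasurableSpace (J → ZMod p)) =
    MeasurableSpace.generateFrom (cyl p J) := by
  apply le_antisymm
  · refine iSup_le fun j => ?_
    rintro _ ⟨s, -, rfl⟩
    have : (fun k : J → ZMod p => k j) ⁻¹' s = ⋃ t ∈ s, {k | k j = t} := by
      ext k; simp
    rw [this]
    refine MeasurableSet.biUnion s.to_countable fun t _ => ?_
    refine MeasurableSpace.measurableSet_generateFrom ⟨{j}, fun _ => t, ?_⟩
    ext k; simp
  · refine MeasurableSpace.generateFrom_le ?_
    rintro _ ⟨S, t, rfl⟩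
    have : {k : J → ZMod p | ∀ j ∈ S, k j = t j} = ⋂ j ∈ S, (fun k => k j) ⁻¹' {t j} := by
      ext k; simp
    rw [this]
    exact Finset.measurableSet_biInter S fun j _ => measurable_pi_apply j (measurableSet_singleton _)

theorem orth_set (ha : Measurable a) {f : X → ℂ} (hf : Integrable f μ)
    (h0 : ∀ (s : Finset J) (c : J → ZMod p),
      ∫ x, f x * chi p (∑ j ∈ s, c j * a x j) ∂μ = 0) {A : Set (J → ZMod p)}
    (hA : MeasurableSet A) : ∫ x in a ⁻¹' A, f x ∂μ = 0 := by
  classical
  have hbasic : ∀ (S : Finset J) (t : J → ZMod p),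
      ∫ x in a ⁻¹' {k | ∀ j ∈ S, k j = t j}, f x ∂μ = 0 := by
    intro S t
    have hm : MeasurableSet {k : J → ZMod p | ∀ j ∈ S, k j = t j} := by
      have : {k : J → ZMod p | ∀ j ∈ S, k j = t j} = ⋂ j ∈ S, (fun k => k j) ⁻¹' {t j} := by
        ext k; simp
      rw [this]
      exact Finset.measurableSet_biInter S fun j _ =>
        measurable_pi_apply j (measurableSet_singleton _)
    have h1 := orth_cyl ha hf h0 S t ∅ (fun _ => 0)
    rw [← integral_indicator (ha hm), ← h1]
    refine integral_congr_ae (Filter.Eventually.of_forall fun x => ?_)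
    have h2 : chi p (∑ j ∈ (∅ : Finset J), (0 : ZMod p) * a x j) = 1 := by
      simp [chi, ee_zero]
    show (a ⁻¹' {k | ∀ j ∈ S, k j = t j}).indicator f x = f x * _ * _
    rw [h2, mul_one]
    by_cases hx : ∀ j ∈ S, a x j = t j
    · rw [Set.indicator_of_mem (by exact hx)]
      rw [Finset.prod_eq_one (fun j hj => if_pos (hx j hj)), mul_one]
    · rw [Set.indicator_of_notMem (by exact hx)]
      push Not at hx
      obtain ⟨j, hj, hne⟩ := hx
      rw [Finset.prod_eq_zero hj (if_neg hne), mul_zero]
  induction A, hA using MeasurableSpace.induction_on_inter (cyl_gen (p := p) (J := J)) cyl_pi with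
  | empty => simp
  | basic A hA =>
    obtain ⟨S, t, rfl⟩ := hA
    exact hbasic S t
  | compl A hA ih =>
    have h1 := integral_add_compl (ha hA) hf
    have h2 : ∫ x, f x ∂μ = 0 := by
      have := hbasic ∅ (fun _ => 0)
      simpa using this
    rw [ih, zero_add, h2] at h1
    exact h1
  | iUnion A hd hA ih =>
    have hd' : Pairwise (Function.onFun Disjoint fun n => a ⁻¹' (A n)) := fun i j hij =>
      (hd hij).preimage a
    rw [Set.preimage_iUnion, integral_iUnion (fun n => ha (hA n)) hd' hf.integrableOn]
    simp [ih]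

theorem orth_of_char (ha : Measurable a)
    {f : X → ℂ} (hf : Measurable f) (hb : ∃ C : ℝ, ∀ x, ‖f x‖ ≤ C)
    (h0 : ∀ (s : Finset J) (c : J → ZMod p),
      ∫ x, f x * ee (-ZMod.toAddCircle (∑ j ∈ s, c j * a x j)) ∂μ = 0)
    (h : (J → ZMod p) → ℂ) (hh : Measurable h) (hhb : ∃ C : ℝ, ∀ k, ‖h k‖ ≤ C) :
    ∫ x, f x * h (a x) ∂μ = 0 := by
  obtain ⟨C, hC⟩ := hb
  obtain ⟨C', hC'⟩ := hhb
  have hfi : Integrable f μ := Integrable.of_bound hf.aestronglyMeasurable C
    (Filter.Eventually.of_forall hC)
  have hsimple : ∀ φ : SimpleFunc (J → ZMod p) ℂ, ∫ x, f x * φ (a x) ∂μ = 0 := by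
    intro φ
    induction φ using SimpleFunc.induction with
    | const c hs =>
      rename_i s
      have h1 := orth_set ha hfi h0 hs
      have h2 : ∀ x, f x * (SimpleFunc.piecewise s hs (SimpleFunc.const _ c)
          (SimpleFunc.const _ 0)) (a x) = (a ⁻¹' s).indicator (fun x => f x * c) x := by
        intro x
        by_cases hx : a x ∈ s
        · rw [Set.indicator_of_mem (by exact hx)]
          simp [SimpleFunc.piecewise_apply, hx]
        · rw [Set.indicator_of_notMem (by exact hx)]
          simp [SimpleFunc.piecewise_apply, hx]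
      simp only [h2]
      rw [integral_indicator (ha hs), integral_mul_const, h1, zero_mul]
    | add hd h1 h2 =>
      rename_i φ ψ
      have hi : ∀ φ : SimpleFunc (J → ZMod p) ℂ, Integrable (fun x => f x * φ (a x)) μ := by
        intro φ
        obtain ⟨c, hc⟩ := φ.exists_forall_norm_le
        refine Integrable.of_bound (hf.mul (φ.measurable.comp ha)).aestronglyMeasurable (C * c) ?_
        refine Filter.Eventually.of_forall fun x => ?_
        rw [norm_mul]
        exact mul_le_mul (hC x) (hc _) (norm_nonneg _) ((norm_nonneg _).trans (hC x))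
      have h3 : ∀ x, f x * (φ + ψ) (a x) = f x * φ (a x) + f x * ψ (a x) := by
        intro x
        simp [mul_add]
      simp only [h3]
      rw [integral_add (hi φ) (hi ψ), h1, h2, add_zero]
  have hlim := tendsto_integral_of_dominated_convergence (μ := μ)
    (F := fun n x => f x * (SimpleFunc.approxOn h hh Set.univ 0 (Set.mem_univ _) n) (a x))
    (f := fun x => f x * h (a x)) (fun _ => C * (C' + C')) ?_ (integrable_const _) ?_ ?_
  · have h1 : (fun n => ∫ x, f x * (SimpleFunc.approxOn h hh Set.univ 0 (Set.mem_univ _) n)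
        (a x) ∂μ) = fun _ => 0 := by
      funext n; exact hsimple _
    rw [h1] at hlim
    exact (tendsto_nhds_unique hlim tendsto_const_nhds)
  · intro n
    exact (hf.mul ((SimpleFunc.measurable _).comp ha)).aestronglyMeasurable
  · intro n
    refine Filter.Eventually.of_forall fun x => ?_
    rw [norm_mul]
    refine mul_le_mul (hC x) ?_ (norm_nonneg _) ((norm_nonneg _).trans (hC x))
    refine (SimpleFunc.norm_approxOn_zero_le hh (Set.mem_univ _) (a x) n).trans ?_
    exact add_le_add (hC' _) (hC' _)
  · refine Filter.Eventually.of_forall fun x => ?_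
    refine Tendsto.const_mul _ ?_
    exact SimpleFunc.tendsto_approxOn hh (Set.mem_univ _) (by simp)

end orth

end Pool.Agent.FpTrans
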