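import Pool.Agent.FpOrd.PairCapt
import Pool.Agent.FpOrd.Orth

/-!
# The inverse theorem, and the structure theorem for systems of order `k`
-/

set_option autoImplicit false
open MeasureTheory Filter Topology ProbabilityTheory

namespace Pool.Agent.FpTrans

universe u v w

theorem char_phase {p : ℕ} [Fact p.Prime] {Γ : Type} [AddCommGroup Γ] {X : Type u}
    [MeasurableSpace X] {μ : Measure X} {T : Γ → X → X} (hT : IsAction μ T) {I : Type}
    [Countable I] {α : Γ → I → ZMod p} {z : X → I → ZMod p} {B : ℕ → ℕ → ℕ} {D n : ℕ}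
    (M : Tow p μ T α z B D n) (s : Finset (I ⊕ M.J)) (c : I ⊕ M.J → ZMod p) :
    IsPhasePoly μ T D (fun x => ZMod.toAddCircle (∑ j ∈ s, c j * M.a x j)) := by
  have hm : Measurable fun x => ∑ j ∈ s, c j * M.a x j :=
    Finset.measurable_sum _ fun j _ =>
      (measurable_of_countable (fun t : ZMod p => c j * t)).comp
        ((measurable_pi_apply j).comp M.ha.measurable)
  refine ⟨(measurable_of_countable _).comp hm, ?_⟩
  refine AEPoly.hom (ZMod.toAddCircle : ZMod p →+ UnitAddCircle) ?_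
  refine AEPoly.sum s (fun j x => c j * M.a x j) fun j _ => ?_
  exact AEPoly.hom (AddMonoidHom.mulLeft (c j)) (AEPoly.comp_factor
    M.ha.quasiMeasurePreserving hT.qmp M.haS (AEPoly.of_isPoly (M.hw j).tm_S))

theorem dif_mp {p : ℕ} [Fact p.Prime] {X : Type u} [MeasurableSpace X] {μ : Measure X}
    [IsProbabilityMeasure μ] {I : Type} [Countable I] {η : Measure (I → ZMod p)}
    [IsProbabilityMeasure η] [η.IsAddLeftInvariant] {z : X → I → ZMod p}
    (hz : MeasurePreserving z μ η) :
    MeasurePreserving (fun q : X × X => z q.2 - z q.1) (μ.prod μ) η := by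
  have h1 : MeasurePreserving (fun q : (I → ZMod p) × (I → ZMod p) => (q.1, q.2 - q.1))
      (η.prod η) (η.prod η) := by
    refine (MeasurePreserving.id η).skew_product (g := fun a b => b - a) ?_ ?_
    · exact measurable_snd.sub measurable_fst
    · refine Filter.Eventually.of_forall fun a => ?_
      have : (fun b : I → ZMod p => b - a) = fun b => -a + b := by
        funext b; rw [add_comm, sub_eq_add_neg]
      rw [this]
      exact map_add_left_eq_self η (-a)
  exact (measurePreserving_snd.comp h1).comp (hz.prod hz)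

theorem inverse (p : ℕ) [Fact p.Prime] (k : ℕ) : ∃ c : ℕ,
    ∀ (Γ : Type) [AddCommGroup Γ] [Countable Γ], (∀ g : Γ, p • g = 0) →
    ∀ E : ℕ → Finset Γ, IsExh E →
    ∀ (X : Type u) [MeasurableSpace X] [StandardBorelSpace X] (μ : Measure X)
      [IsProbabilityMeasure μ] (T : Γ → X → X), IsAction μ T → IsErgodic μ T →
    ∀ f : X → ℂ, Measurable f → (∃ C : ℝ, ∀ x, ‖f x‖ ≤ C) →
      (∀ P : X → UnitAddCircle, IsPhasePoly μ T c P → ∫ x, f x * ee (-P x) ∂μ = 0) →
      hk μ E T (k + 1) f = 0 := by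
  induction k with
  | zero =>
    refine ⟨0, ?_⟩
    intro Γ _ _ hΓ E hEx X _ _ μ _ T hT hE f hf hb h0
    rw [hk_prod hEx hT hE 0 f hf hb]
    have h1 := h0 (fun _ => 0) ⟨measurable_const, AEPoly.zero_fun 1⟩
    simp only [neg_zero, ee_zero, mul_one] at h1
    show (∫ q : X × X, f q.1 * (starRingEnd ℂ) (f q.2) ∂(μ.prod μ)).re = 0
    rw [integral_prod_mul (fun x => f x) (fun x => (starRingEnd ℂ) (f x)), h1]
    simp
  | succ k ih =>
    obtain ⟨c, hc⟩ := ih
    obtain ⟨c', hc'⟩ := pair_capt.{u} p c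
    obtain ⟨B, D, n, htow⟩ := exists_tow.{u} p c'
    refine ⟨D, ?_⟩
    intro Γ _ _ hΓ E hEx X _ _ μ _ T hT hE f hf hb h0
    obtain ⟨I, i1, η, i2, i3, α, z, hz⟩ := exists_kron p μ T hT hE
    obtain ⟨M, hM⟩ := htow Γ hΓ X μ T hT hE I η α z hz
    have hcm : MeasurePreserving (fun q : X × X => z q.2 - z q.1) (μ.prod μ) η := dif_mp hz.mp
    obtain ⟨κ, hκM, hκ⟩ := exists_dis (μ.prod μ) η _ hcm
    have hzc : Capt μ M.a z := by
      refine ⟨fun k i => k (Sum.inl i), measurable_pi_iff.2 fun i => measurable_pi_apply _, ?_⟩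
      refine Filter.Eventually.of_forall fun x => ?_
      funext i; exact (M.az x i).symm
    have horth := pair_orth p hz hκ M.ha hzc f hf hb (fun h hh hhb =>
      orth_of_char M.ha.measurable hf hb (fun s c => h0 _ (char_phase hT M s c)) h hh hhb)
    have hcap := hc' Γ hΓ X μ T hT hE I η α z hz κ hκ B D n M hM
    obtain ⟨C, hC⟩ := hb
    have hC0 : 0 ≤ C := by
      obtain ⟨x⟩ : Nonempty X := nonempty_of_isProbabilityMeasure μ
      exact (norm_nonneg _).trans (hC x)
    have hFm : Measurable fun q : X × X => f q.1 * (starRingEnd ℂ) (f q.2) :=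
      (hf.comp measurable_fst).mul (Complex.continuous_conj.measurable.comp (hf.comp measurable_snd))
    have hFb : ∃ C : ℝ, ∀ q : X × X, ‖f q.1 * (starRingEnd ℂ) (f q.2)‖ ≤ C := by
      refine ⟨C * C, fun q => ?_⟩
      rw [norm_mul, RCLike.norm_conj]
      exact mul_le_mul (hC _) (hC _) (norm_nonneg _) hC0
    have hzero : ∀ᵐ s ∂η, hk (κ s) E (pact T T) (k + 1)
        (fun q => f q.1 * (starRingEnd ℂ) (f q.2)) = 0 := by
      filter_upwards [horth, hcap, pair_basic p hΓ hT hE hz hκ] with s e1 e2 e3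
      obtain ⟨hact, herg, -⟩ := e3
      refine hc Γ hΓ E hEx (X × X) (κ s) (pact T T) hact herg _ hFm hFb ?_
      intro Q hQ
      obtain ⟨F, hF, hFe⟩ := e2 Q hQ
      have h1 := e1 (fun k => ee (-F k)) (continuous_ee.measurable.comp hF.neg)
        ⟨1, fun k => by rw [norm_ee]⟩
      rw [← h1]
      refine integral_congr_ae ?_
      filter_upwards [hFe] with q hq
      rw [hq]
    have hle := hk_dis hEx (M := μ.prod μ) (T := pact T T)
      (fun g => ((hT.mp g).measurable.comp measurable_fst).prodMk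
        ((hT.mp g).measurable.comp measurable_snd)) hcm.measurable hκ (k + 1) _ hFm hFb hzero
    rw [← hk_prod hEx hT hE (k + 1) f hf ⟨C, hC⟩] at hle
    exact le_antisymm hle (hk_nonneg hEx hT (k + 1) f hf ⟨C, hC⟩)

/-- A bounded function minus its conditional expectation on a factor. -/
theorem exists_orth {X : Type u} [MeasurableSpace X] [StandardBorelSpace X] {μ : Measure X}
    [IsProbabilityMeasure μ] {K : Type v} [MeasurableSpace K] [StandardBorelSpace K]
    {ν : Measure K} [IsProbabilityMeasure ν] {y : X → K} (hy : MeasurePreserving y μ ν)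
    {f : X → ℂ} (hf : Measurable f) {C : ℝ} (hb : ∀ x, ‖f x‖ ≤ C) :
    ∃ g : K → ℂ, Measurable g ∧ (∀ k, ‖g k‖ ≤ C) ∧
      ∀ h : K → ℂ, Measurable h → (∃ C : ℝ, ∀ k, ‖h k‖ ≤ C) →
        ∫ x, (f x - g (y x)) * h (y x) ∂μ = 0 := by
  obtain ⟨Θ, hΘm, hΘ, hΘy⟩ := exists_theta hy
  have hfΘ : Measurable fun w : K × unitInterval => f (Θ w.1 w.2) := hf.comp hΘm
  have hgm : Measurable fun k => ∫ t, f (Θ k t) ∂(volume : Measure unitInterval) :=
    (hfΘ.stronglyMeasurable.integral_prod_right).measurable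
  have hgb : ∀ k, ‖∫ t, f (Θ k t) ∂(volume : Measure unitInterval)‖ ≤ C := by
    intro k
    refine (norm_integral_le_of_norm_le_const (C := C)
      (Filter.Eventually.of_forall fun t => hb _)).trans ?_
    simp
  refine ⟨fun k => ∫ t, f (Θ k t) ∂(volume : Measure unitInterval), hgm, hgb, ?_⟩
  rintro h hh ⟨C', hC'⟩
  have hyb : ∀ x, ‖h (y x)‖ ≤ C' := fun x => hC' _
  have i1 : Integrable (fun x => f x * h (y x)) μ := by
    refine Integrable.of_bound (hf.mul (hh.comp hy.measurable)).aestronglyMeasurable (C * C') ?_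
    refine Filter.Eventually.of_forall fun x => ?_
    rw [norm_mul]
    exact mul_le_mul (hb x) (hyb x) (norm_nonneg _) ((norm_nonneg _).trans (hb x))
  have i2 : Integrable (fun x => (∫ t, f (Θ (y x) t) ∂(volume : Measure unitInterval)) *
      h (y x)) μ := by
    refine Integrable.of_bound ((hgm.comp hy.measurable).mul
      (hh.comp hy.measurable)).aestronglyMeasurable (C * C') ?_
    refine Filter.Eventually.of_forall fun x => ?_
    rw [norm_mul]
    exact mul_le_mul (hgb _) (hyb x) (norm_nonneg _) ((norm_nonneg _).trans (hgb (y x)))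
  have e1 : ∫ x, f x * h (y x) ∂μ =
      ∫ x, (∫ t, f (Θ (y x) t) ∂(volume : Measure unitInterval)) * h (y x) ∂μ := by
    have e2 : ∫ x, f x * h (y x) ∂μ =
        ∫ w, f (Θ w.1 w.2) * h (y (Θ w.1 w.2)) ∂(ν.prod (volume : Measure unitInterval)) := by
      rw [← hΘ.map_eq, integral_map hΘ.measurable.aemeasurable]
      · rfl
      · exact (hf.mul (hh.comp hy.measurable)).aestronglyMeasurable
    have e3 : ∫ w, f (Θ w.1 w.2) * h (y (Θ w.1 w.2)) ∂(ν.prod (volume : Measure unitInterval)) =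
        ∫ w, f (Θ w.1 w.2) * h w.1 ∂(ν.prod (volume : Measure unitInterval)) := by
      refine integral_congr_ae ?_
      filter_upwards [hΘy] with w hw
      rw [hw]
    have i3 : Integrable (fun w : K × unitInterval => f (Θ w.1 w.2) * h w.1)
        (ν.prod (volume : Measure unitInterval)) := by
      refine Integrable.of_bound (hfΘ.mul (hh.comp measurable_fst)).aestronglyMeasurable
        (C * C') ?_
      refine Filter.Eventually.of_forall fun w => ?_
      rw [norm_mul]
      exact mul_le_mul (hb _) (hC' _) (norm_nonneg _) ((norm_nonneg _).trans (hb (Θ w.1 w.2)))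
    rw [e2, e3, integral_prod _ i3]
    rw [← hy.map_eq, integral_map hy.measurable.aemeasurable]
    · refine integral_congr_ae (Filter.Eventually.of_forall fun x => ?_)
      show ∫ t, f (Θ (y x) t) * h (y x) ∂(volume : Measure unitInterval) = _
      rw [integral_mul_const]
    · rw [hy.map_eq]
      exact i3.integral_prod_left.aestronglyMeasurable
  have e4 : ∀ x, (f x - ∫ t, f (Θ (y x) t) ∂(volume : Measure unitInterval)) * h (y x) =
      f x * h (y x) - (∫ t, f (Θ (y x) t) ∂(volume : Measure unitInterval)) * h (y x) :=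
    fun x => sub_mul _ _ _
  simp only [e4]
  rw [integral_sub i1 i2, e1, sub_self]

/-- a measurable bounded injective function on `ℂ` with measurable left inverse -/
theorem exists_squash : ∃ Φ Ψ : ℂ → ℂ, Measurable Φ ∧ Measurable Ψ ∧ (∀ z, ‖Φ z‖ ≤ 1) ∧
    ∀ z, Ψ (Φ z) = z := by
  refine ⟨fun z => (((1 + ‖z‖)⁻¹ : ℝ) : ℂ) * z, fun w => (((1 - ‖w‖)⁻¹ : ℝ) : ℂ) * w, ?_, ?_, ?_, ?_⟩
  · exact (Complex.measurable_ofReal.comp (measurable_norm.const_add 1).inv).mul measurable_id
  · exact (Complex.measurable_ofReal.comp (measurable_norm.const_sub 1).inv).mul measurable_id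
  · intro z
    have h1 : 0 < 1 + ‖z‖ := by positivity
    rw [norm_mul, Complex.norm_real, norm_inv, Real.norm_of_nonneg h1.le, inv_mul_le_iff₀ h1]
    linarith
  · intro z
    have h1 : 0 < 1 + ‖z‖ := by positivity
    have h2 : ‖(((1 + ‖z‖)⁻¹ : ℝ) : ℂ) * z‖ = (1 + ‖z‖)⁻¹ * ‖z‖ := by
      rw [norm_mul, Complex.norm_real, norm_inv, Real.norm_of_nonneg h1.le]
    show (((1 - ‖(((1 + ‖z‖)⁻¹ : ℝ) : ℂ) * z‖)⁻¹ : ℝ) : ℂ) *
      ((((1 + ‖z‖)⁻¹ : ℝ) : ℂ) * z) = z
    rw [h2, ← mul_assoc, ← Complex.ofReal_mul]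
    have h3 : (1 - (1 + ‖z‖)⁻¹ * ‖z‖)⁻¹ * (1 + ‖z‖)⁻¹ = 1 := by
      rw [← mul_inv]
      have : (1 - (1 + ‖z‖)⁻¹ * ‖z‖) * (1 + ‖z‖) = 1 := by
        field_simp
        ring
      rw [this, inv_one]
    rw [h3]
    simp

/-- A system all of whose bounded functions are captured by a tower is translational. -/
theorem translational_of_tow {p : ℕ} [Fact p.Prime] {Γ : Type} [AddCommGroup Γ] [Countable Γ]
    {X : Type u} [MeasurableSpace X] [StandardBorelSpace X] {μ : Measure X}
    [IsProbabilityMeasure μ] {T : Γ → X → X} {I : Type} [Countable I]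
    {α : Γ → I → ZMod p} {z : X → I → ZMod p} {B : ℕ → ℕ → ℕ} {D n : ℕ}
    (M : Tow p μ T α z B D n)
    (hcap : ∀ f : X → ℂ, Measurable f → (∃ C : ℝ, ∀ x, ‖f x‖ ≤ C) → Capt μ M.a f) :
    IsTranslational μ T D := by
  have hcap' : ∀ f : X → ℂ, Measurable f → Capt μ M.a f := by
    intro f hf
    obtain ⟨Φ, Ψ, hΦ, hΨ, hΦb, hΨΦ⟩ := exists_squash
    obtain ⟨F, hF, hFe⟩ := hcap (fun x => Φ (f x)) (hΦ.comp hf) ⟨1, fun x => hΦb _⟩
    refine ⟨fun k => Ψ (F k), hΨ.comp hF, ?_⟩
    filter_upwards [hFe] with x hx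
    rw [← hx, hΨΦ]
  have hd : Dense {f : Lp ℂ 2 μ | ∃ h : (I ⊕ M.J → ZMod p) → ℂ, Measurable h ∧
      f =ᵐ[μ] fun x => h (M.a x)} := by
    have : {f : Lp ℂ 2 μ | ∃ h : (I ⊕ M.J → ZMod p) → ℂ, Measurable h ∧
      f =ᵐ[μ] fun x => h (M.a x)} = Set.univ := by
      refine Set.eq_univ_of_forall fun f => ?_
      have hf := (Lp.aestronglyMeasurable f)
      obtain ⟨F, hF, hFe⟩ := hcap' (hf.mk f) hf.stronglyMeasurable_mk.measurable
      exact ⟨F, hF, hf.ae_eq_mk.trans hFe⟩
    rw [this]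
    exact dense_univ
  obtain ⟨b, hb, hba, hab⟩ := exists_inverse μ M.ν M.a M.ha hd
  obtain ⟨G, i1, i2, i3, i4, F, hF, L, hL, φ, e, he, heν⟩ :=
    exists_group p Γ (I ⊕ M.J → ZMod p) M.ν M.S M.hS M.hSc (I ⊕ M.J)
      (fun j => Pi.evalAddMonoidHom _ j) (fun j => continuous_apply j)
      (fun k hk => funext fun j => hk j) D M.hw
  let _ : MeasurableSpace (G ⧸ L) := borel _
  have _ : BorelSpace (G ⧸ L) := ⟨rfl⟩
  have hes : MeasurePreserving e.symm M.ν (M.ν.map e.symm) := ⟨e.symm.continuous.measurable, rfl⟩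
  have he' : MeasurePreserving e (M.ν.map e.symm) M.ν := by
    refine ⟨e.continuous.measurable, ?_⟩
    rw [Measure.map_map e.continuous.measurable e.symm.continuous.measurable]
    have : (e ∘ e.symm : (I ⊕ M.J → ZMod p) → _) = id := by funext k; simp
    rw [this, Measure.map_id]
  have hprob : IsProbabilityMeasure (M.ν.map e.symm) :=
    Measure.isProbabilityMeasure_map e.symm.continuous.measurable.aemeasurable
  have hcomp : CompactSpace (G ⧸ L) := e.symm.compactSpace
  refine ⟨G, i1, i2, i3, i4, F, hF, L, hL, hcomp, inferInstance, inferInstance,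
    M.ν.map e.symm, hprob, ?_, φ, fun x => e.symm (M.a x), fun y => b (e y),
    hes.comp M.ha, hb.comp e.continuous.measurable, ?_, ?_, ?_⟩
  · intro g
    have h1 := (hes.comp (heν g)).comp he'
    have h2 : (fun y : G ⧸ L => g • y) =
        ((e.symm : (I ⊕ M.J → ZMod p) → G ⧸ L) ∘ fun k => e (g • e.symm k)) ∘ e := by
      funext y; simp
    rw [h2]; exact h1
  · filter_upwards [hba] with x hx
    simp [hx]
  · have h1 : ∀ᵐ y ∂(M.ν.map e.symm), M.a (b (e y)) = e y := he'.quasiMeasurePreserving.ae hab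
    filter_upwards [h1] with y hy
    rw [hy]; simp
  · intro g
    filter_upwards [M.haS g] with x hx
    rw [hx]
    apply e.injective
    rw [he]
    simp

/-- Every ergodic `F_p^ω`-system of order `k` is a translational system of degree `C(k, p)`. -/
theorem order_translational (p k : ℕ) [Fact p.Prime] : ∃ C : ℕ,
    ∀ (X : Type u) [MeasurableSpace X] [StandardBorelSpace X] (μ : Measure X)
      [IsProbabilityMeasure μ] (T : Fpω p → X → X), IsAction μ T → IsErgodic μ T →
      IsOrder μ T k → IsTranslational μ T C := by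
  obtain ⟨c, hc⟩ := inverse.{u} p k
  obtain ⟨B, D, n, htow⟩ := exists_tow.{u} p c
  refine ⟨D, ?_⟩
  intro X _ _ μ _ T hT hE hord
  have hΓ : ∀ g : Fpω p, p • g = 0 := by
    intro g
    ext i
    simp
  obtain ⟨I, i1, η, i2, i3, α, z, hz⟩ := exists_kron p μ T hT hE
  obtain ⟨M, hM⟩ := htow (Fpω p) hΓ X μ T hT hE I η α z hz
  refine translational_of_tow M ?_
  rintro f hf ⟨C, hC⟩
  obtain ⟨g, hg, hgb, hgo⟩ := exists_orth M.ha hf hC
  have h0 : (fun x => f x - g (M.a x)) =ᵐ[μ] 0 := by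
    refine hord _ (hf.sub (hg.comp M.ha.measurable)) ⟨C + C, fun x => ?_⟩ ?_
    · exact (norm_sub_le _ _).trans (add_le_add (hC x) (hgb _))
    · refine hc (Fpω p) hΓ (box p) (isExh_box p) X μ T hT hE _
        (hf.sub (hg.comp M.ha.measurable)) ⟨C + C, fun x => ?_⟩ ?_
      · exact (norm_sub_le _ _).trans (add_le_add (hC x) (hgb _))
      · intro P hP
        obtain ⟨F, hF, hFe⟩ := hM P hP
        rw [← hgo (fun k => ee (-F k)) (continuous_ee.measurable.comp hF.neg)
          ⟨1, fun k => by rw [norm_ee]⟩]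
        refine integral_congr_ae ?_
        filter_upwards [hFe] with x hx
        rw [hx]
  refine ⟨g, hg, ?_⟩
  filter_upwards [h0] with x hx
  exact sub_eq_zero.1 hx

end Pool.Agent.FpTrans
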