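import Pool.Agent.FpOrd.Defs
import Pool.Agent.FpTrans.Main

/-!
# The norm `nrm`, the gap lemma, a pigeonhole principle, ergodicity of translations
-/

set_option autoImplicit false
open MeasureTheory Filter Topology ProbabilityTheory

namespace Pool.Agent.FpTrans

universe u v w

theorem ee_add (s t : UnitAddCircle) : ee (s + t) = ee s * ee t := by
  simp [ee, AddCircle.toCircle_add]

theorem ee_neg (t : UnitAddCircle) : ee (-t) = (starRingEnd ℂ) (ee t) := by
  simp only [ee, AddCircle.toCircle_neg, Circle.coe_inv_eq_conj]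

theorem ee_zero : ee 0 = 1 := by
  simp [ee]

theorem norm_ee (t : UnitAddCircle) : ‖ee t‖ = 1 := by
  simp [ee]

theorem continuous_ee : Continuous ee :=
  continuous_subtype_val.comp AddCircle.continuous_toCircle

theorem ee_inj {s t : UnitAddCircle} : ee s = ee t ↔ s = t := by
  constructor
  · intro h
    exact AddCircle.injective_toCircle one_ne_zero (Subtype.ext h)
  · rintro rfl; rfl

/-- a measurable argument -/
theorem exists_arg : ∃ θ : ℂ → UnitAddCircle, Measurable θ ∧ (∀ z, z = ‖z‖ * ee (θ z)) ∧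
    ∀ t, θ (ee t) = t := by
  have h1 : ∀ z : ℂ, z = ‖z‖ * ee ((Complex.arg z / (2 * Real.pi) : ℝ) : UnitAddCircle) := by
    intro z
    have h2 : ee ((Complex.arg z / (2 * Real.pi) : ℝ) : UnitAddCircle) =
        Complex.exp (Complex.arg z * Complex.I) := by
      rw [ee, AddCircle.toCircle_apply_mk, Circle.coe_exp]
      congr 2
      push_cast
      have : (Real.pi : ℂ) ≠ 0 := by exact_mod_cast Real.pi_ne_zero
      field_simp
    rw [h2]
    exact (Complex.norm_mul_exp_arg_mul_I z).symm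
  refine ⟨fun z => ((Complex.arg z / (2 * Real.pi) : ℝ) : UnitAddCircle), ?_, h1, ?_⟩
  · exact (AddCircle.measurable_mk').comp (Complex.measurable_arg.div_const _)
  · intro t
    have h3 := h1 (ee t)
    rw [norm_ee, Complex.ofReal_one, one_mul] at h3
    exact (ee_inj.1 h3).symm

theorem nrm_nonneg {X : Type u} [MeasurableSpace X] (μ : Measure X) (φ : X → UnitAddCircle) :
    0 ≤ nrm μ φ := integral_nonneg fun _ => norm_nonneg _

theorem nrm_congr {X : Type u} [MeasurableSpace X] {μ : Measure X} {φ ψ : X → UnitAddCircle}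
    (h : φ =ᵐ[μ] ψ) : nrm μ φ = nrm μ ψ := by
  refine integral_congr_ae ?_
  filter_upwards [h] with x hx
  rw [hx]

theorem pa_meas {X : Type u} [MeasurableSpace X] {φ : X → UnitAddCircle} (hφ : Measurable φ) :
    Measurable fun x => ‖ee (φ x) - 1‖ :=
  ((continuous_ee.measurable.comp hφ).sub_const 1).norm

theorem pa_le_two (t : UnitAddCircle) : ‖ee t - 1‖ ≤ 2 := by
  calc ‖ee t - 1‖ ≤ ‖ee t‖ + ‖(1 : ℂ)‖ := norm_sub_le _ _
    _ = 2 := by rw [norm_ee, norm_one]; norm_num

theorem pa_int {X : Type u} [MeasurableSpace X] {μ : Measure X} [IsProbabilityMeasure μ]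
    {φ : X → UnitAddCircle} (hφ : Measurable φ) : Integrable (fun x => ‖ee (φ x) - 1‖) μ := by
  refine Integrable.mono' (integrable_const (2 : ℝ)) (pa_meas hφ).aestronglyMeasurable ?_
  refine Filter.Eventually.of_forall fun x => ?_
  rw [norm_norm]
  exact pa_le_two _

theorem pa_sub (s t : UnitAddCircle) : ‖ee (s - t) - 1‖ = ‖ee s - ee t‖ := by
  have h1 : ee s - ee t = (ee (s - t) - 1) * ee t := by
    rw [sub_mul, ← ee_add, sub_add_cancel, one_mul]
  rw [h1, norm_mul, norm_ee, mul_one]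

theorem nrm_add_le {X : Type u} [MeasurableSpace X] {μ : Measure X} [IsProbabilityMeasure μ]
    {φ ψ : X → UnitAddCircle} (hφ : Measurable φ) (hψ : Measurable ψ) :
    nrm μ (fun x => φ x + ψ x) ≤ nrm μ φ + nrm μ ψ := by
  unfold nrm
  rw [← integral_add (pa_int hφ) (pa_int hψ)]
  refine integral_mono (pa_int (hφ.add hψ)) ((pa_int hφ).add (pa_int hψ)) fun x => ?_
  show ‖ee (φ x + ψ x) - 1‖ ≤ ‖ee (φ x) - 1‖ + ‖ee (ψ x) - 1‖
  have h1 : ee (φ x + ψ x) - 1 = (ee (φ x) - 1) * ee (ψ x) + (ee (ψ x) - 1) := by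
    rw [ee_add]; ring
  calc ‖ee (φ x + ψ x) - 1‖ ≤ ‖(ee (φ x) - 1) * ee (ψ x)‖ + ‖ee (ψ x) - 1‖ := by
        rw [h1]; exact norm_add_le _ _
    _ = _ := by rw [norm_mul, norm_ee, mul_one]

theorem nrm_neg {X : Type u} [MeasurableSpace X] (μ : Measure X) (φ : X → UnitAddCircle) :
    nrm μ (fun x => -φ x) = nrm μ φ := by
  unfold nrm
  congr 1
  funext x
  have h1 : ee (-φ x) - 1 = (starRingEnd ℂ) (ee (φ x) - 1) := by
    rw [ee_neg, map_sub, map_one]
  rw [h1, RCLike.norm_conj]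

theorem nrm_sub_le {X : Type u} [MeasurableSpace X] {μ : Measure X} [IsProbabilityMeasure μ]
    {φ ψ : X → UnitAddCircle} (hφ : Measurable φ) (hψ : Measurable ψ) :
    nrm μ (fun x => φ x - ψ x) ≤ nrm μ φ + nrm μ ψ := by
  have h1 : (fun x => φ x - ψ x) = fun x => φ x + (fun y => -ψ y) x := by
    funext x; exact sub_eq_add_neg _ _
  rw [h1, ← nrm_neg μ ψ]
  exact nrm_add_le hφ hψ.neg

theorem nrm_comp {X : Type u} {Y : Type v} [MeasurableSpace X] [MeasurableSpace Y]
    {μ : Measure X} {ν : Measure Y} {a : X → Y} (ha : MeasurePreserving a μ ν)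
    {φ : Y → UnitAddCircle} (hφ : Measurable φ) : nrm μ (fun x => φ (a x)) = nrm ν φ := by
  unfold nrm
  rw [← ha.map_eq, integral_map ha.measurable.aemeasurable (pa_meas hφ).aestronglyMeasurable]

theorem nrm_le_two {X : Type u} [MeasurableSpace X] {μ : Measure X} [IsProbabilityMeasure μ]
    (φ : X → UnitAddCircle) : nrm μ φ ≤ 2 := by
  by_cases h : Integrable (fun x => ‖ee (φ x) - 1‖) μ
  · calc nrm μ φ ≤ ∫ _, (2 : ℝ) ∂μ :=
        integral_mono h (integrable_const _) fun x => pa_le_two _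
      _ = 2 := by simp
  · rw [nrm, integral_undef h]; norm_num

theorem pa_sep (N : ℕ) [NeZero N] : ∃ δ : ℝ, 0 < δ ∧ ∀ v : ZMod N, v ≠ 0 →
    2 * δ ≤ ‖ee (ZMod.toAddCircle v) - 1‖ := by
  by_cases hne : Nonempty {v : ZMod N // v ≠ 0}
  · obtain ⟨v0, hv0⟩ := Finite.exists_min
      (fun v : {v : ZMod N // v ≠ 0} => ‖ee (ZMod.toAddCircle (v : ZMod N)) - 1‖)
    have hpos : 0 < ‖ee (ZMod.toAddCircle (v0 : ZMod N)) - 1‖ := by
      rw [norm_pos_iff, sub_ne_zero, ← ee_zero, ne_eq, ee_inj]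
      intro h
      apply v0.2
      apply ZMod.toAddCircle_injective N
      rw [h, map_zero]
    refine ⟨‖ee (ZMod.toAddCircle (v0 : ZMod N)) - 1‖ / 2, by linarith, fun v hv => ?_⟩
    have := hv0 ⟨v, hv⟩
    simp only at this
    linarith
  · refine ⟨1, one_pos, fun v hv => (hne ⟨⟨v, hv⟩⟩).elim⟩

/-- A polynomial of degree `< l` which is close to `0` is constant. -/
theorem gap (p l : ℕ) [Fact p.Prime] : ∃ ε : ℝ, 0 < ε ∧
    ∀ (Γ : Type) [AddCommGroup Γ] [Countable Γ], (∀ g : Γ, p • g = 0) →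
    ∀ (X : Type u) [MeasurableSpace X] (μ : Measure X) [IsProbabilityMeasure μ] (T : Γ → X → X),
      IsAction μ T → IsErgodic μ T → ∀ P : X → UnitAddCircle, Measurable P → AEPoly μ T l P →
      nrm μ P < ε → ∃ c : UnitAddCircle, P =ᵐ[μ] fun _ => c := by
  have hp : 0 < p := (Fact.out : p.Prime).pos
  rcases l with _ | C
  · exact ⟨1, one_pos, fun Γ _ _ _ X _ μ _ T _ _ P _ hP _ => ⟨0, hP⟩⟩
  set N : ℕ := p ^ (C + 1) with hN
  have hNpos : 0 < N := pow_pos hp _
  obtain ⟨δ, hδ, hsep⟩ := pa_sep N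
  refine ⟨δ * (1 / 2) ^ (C + 1), by positivity, ?_⟩
  intro Γ _ _ hΓ X _ μ _ T hT hE P hPm hPp hnrm
  have h1 := hPp.torsion hp hΓ hT
  obtain ⟨c0, hc0⟩ := hE.const hT (f := fun x => p ^ C • P x)
    ((continuous_nsmul (p ^ C)).measurable.comp hPm) (fun g => by
    filter_upwards [h1 g] with x hx
    rw [smul_sub] at hx
    exact sub_eq_zero.1 hx)
  obtain ⟨c, hc⟩ : ∃ c : UnitAddCircle, p ^ C • c = c0 := by
    induction c0 using QuotientAddGroup.induction_on with
    | H r =>
      refine ⟨((r / p ^ C : ℝ) : UnitAddCircle), ?_⟩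
      rw [← AddCircle.coe_nsmul]
      congr 1
      rw [nsmul_eq_mul]
      push_cast
      field_simp
  have hmem : MeasurableEmbedding (ZMod.toAddCircle : ZMod N →+ UnitAddCircle) := by
    refine ⟨ZMod.toAddCircle_injective N, measurable_of_countable _, ?_⟩
    intro s _
    exact (s.toFinite.image _).measurableSet
  obtain ⟨h, hhm, hh⟩ := hmem.exists_measurable_extend (g := id) measurable_id
    (fun _ => ⟨(0 : ZMod N)⟩)
  have hQ : (fun x => P x - c) =ᵐ[μ] fun x => ZMod.toAddCircle (h (P x - c)) := by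
    filter_upwards [hc0] with x hx
    have h2 : N • (P x - c) = 0 := by
      rw [hN, pow_succ, mul_comm, mul_smul, smul_sub, hx, hc, sub_self, smul_zero]
    rw [AddCircle.nsmul_eq_zero_iff hNpos] at h2
    obtain ⟨m, hm, hm2⟩ := h2
    have h3 : (ZMod.toAddCircle (m : ZMod N) : UnitAddCircle) = P x - c := by
      rw [← hm2, ZMod.toAddCircle_natCast]
      simp
    rw [← h3]
    have h4 := congrFun hh (m : ZMod N)
    simp only [Function.comp_apply, id] at h4
    rw [h4]
  have hpoly : AEPoly μ T (C + 1) (fun x => h (P x - c)) := by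
    apply AEPoly.of_hom (ZMod.toAddCircle : ZMod N →+ UnitAddCircle) (ZMod.toAddCircle_injective N)
    refine AEPoly.congr hT.qmp (hPp.sub ((AEPoly.const c).mono (by omega) hT.qmp)) hQ.symm
  -- Markov
  have hmark : μ {x | δ ≤ ‖ee (P x) - 1‖} < (1 / 2 : ENNReal) ^ (C + 1) := by
    have h5 := mul_meas_ge_le_integral_of_nonneg (μ := μ)
      (Filter.Eventually.of_forall fun x => norm_nonneg (ee (P x) - 1)) (pa_int hPm) δ
    have h6 : μ.real {x | δ ≤ ‖ee (P x) - 1‖} < (1 / 2) ^ (C + 1) := by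
      have h7 : δ * μ.real {x | δ ≤ ‖ee (P x) - 1‖} < δ * (1 / 2) ^ (C + 1) :=
        lt_of_le_of_lt h5 hnrm
      exact lt_of_mul_lt_mul_left h7 hδ.le
    have h8 : μ {x | δ ≤ ‖ee (P x) - 1‖} = ENNReal.ofReal (μ.real {x | δ ≤ ‖ee (P x) - 1‖}) := by
      rw [ofReal_measureReal]
    rw [h8]
    have h9 : ((1 : ENNReal) / 2) ^ (C + 1) = ENNReal.ofReal ((1 / 2) ^ (C + 1)) := by
      rw [ENNReal.ofReal_pow (by norm_num)]
      congr 1
      rw [ENNReal.ofReal_div_of_pos (by norm_num)]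
      simp
    rw [h9]
    exact (ENNReal.ofReal_lt_ofReal_iff (by positivity)).2 h6
  have hlt1 : μ {x | δ ≤ ‖ee (P x) - 1‖} < 1 :=
    hmark.trans_le (pow_le_one₀ (by simp) (by simp))
  obtain ⟨x0, hx0, hx0'⟩ : ∃ x0, P x0 - c = ZMod.toAddCircle (h (P x0 - c)) ∧
      ‖ee (P x0) - 1‖ < δ := by
    by_contra hcon
    push Not at hcon
    have h10 : ∀ᵐ x ∂μ, x ∈ {x | δ ≤ ‖ee (P x) - 1‖} := by
      filter_upwards [hQ] with x hx
      exact hcon x hx
    have h11 : μ {x | δ ≤ ‖ee (P x) - 1‖} = 1 := by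
      rw [measure_congr (show {x | δ ≤ ‖ee (P x) - 1‖} =ᵐ[μ] (Set.univ : Set X) from
        eventuallyEq_univ.2 h10), measure_univ]
    rw [h11] at hlt1
    exact lt_irrefl _ hlt1
  set v0 : ZMod N := h (P x0 - c) with hv0
  have hpoly2 : AEPoly μ T (C + 1) (fun x => h (P x - c) - v0) :=
    hpoly.sub ((AEPoly.const v0).mono (by omega) hT.qmp)
  have hzero : (fun x => h (P x - c) - v0) =ᵐ[μ] 0 := by
    refine st_disagree hT hE (C + 1) ((hhm.comp (hPm.sub_const c)).sub_const v0) hpoly2 ?_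
    refine lt_of_le_of_lt ?_ hmark
    refine measure_mono_ae ?_
    filter_upwards [hQ] with x hx hx2
    have hx3 : h (P x - c) - v0 ≠ 0 := hx2
    show δ ≤ ‖ee (P x) - 1‖
    have h12 := hsep _ hx3
    have h13 : ZMod.toAddCircle (h (P x - c) - v0) = P x - P x0 := by
      rw [map_sub, ← hx, ← hx0]; abel
    rw [h13, pa_sub] at h12
    have h14 : ‖ee (P x) - ee (P x0)‖ ≤ ‖ee (P x) - 1‖ + ‖ee (P x0) - 1‖ := by
      calc ‖ee (P x) - ee (P x0)‖ = ‖(ee (P x) - 1) - (ee (P x0) - 1)‖ := by congr 1; ring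
        _ ≤ _ := norm_sub_le _ _
    linarith
  refine ⟨ZMod.toAddCircle v0 + c, ?_⟩
  filter_upwards [hQ, hzero] with x hx hx2
  have hx3 : h (P x - c) - v0 = 0 := hx2
  rw [← sub_eq_zero.1 hx3, ← hx, sub_add_cancel]

/-- pigeonhole in the separable space `L¹(μ)`, for an arbitrary (non-measurable) family -/
theorem pigeon {X : Type u} [MeasurableSpace X] [StandardBorelSpace X] (μ : Measure X)
    [IsProbabilityMeasure μ] {Z : Type v} [MeasurableSpace Z] (η : Measure Z) (E : Set Z)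
    (hE : η E ≠ 0) (φ : Z → X → UnitAddCircle) (hφ : ∀ s ∈ E, Measurable (φ s)) (ε : ℝ)
    (hε : 0 < ε) :
    ∃ E' ⊆ E, η E' ≠ 0 ∧ ∀ s ∈ E', ∀ t ∈ E', nrm μ (fun x => φ s x - φ t x) < ε := by
  classical
  have hmem : ∀ s ∈ E, MemLp (fun x => ee (φ s x)) 1 μ := by
    intro s hs
    refine MemLp.of_bound ((continuous_ee.measurable.comp (hφ s hs)).aestronglyMeasurable) 1 ?_
    exact Filter.Eventually.of_forall fun x => (norm_ee _).le
  let F : Z → Lp ℂ 1 μ := fun s => if hs : s ∈ E then (hmem s hs).toLp _ else 0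
  have hFs : ∀ s (hs : s ∈ E), F s = (hmem s hs).toLp _ := fun s hs => dif_pos hs
  have hsep : TopologicalSpace.SeparableSpace (Lp ℂ 1 μ) := by
    have : Fact ((1 : ENNReal) ≤ 1) := ⟨le_refl _⟩
    have : Fact ((1 : ENNReal) ≠ ⊤) := ⟨ENNReal.one_ne_top⟩
    infer_instance
  obtain ⟨d, hd⟩ := TopologicalSpace.exists_dense_seq (Lp ℂ 1 μ)
  have hcov : E ⊆ ⋃ n, {s | s ∈ E ∧ dist (F s) (d n) < ε / 2} := by
    intro s hs
    obtain ⟨n, hn⟩ := hd.exists_dist_lt (F s) (half_pos hε)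
    exact Set.mem_iUnion.2 ⟨n, hs, hn⟩
  obtain ⟨n, hn⟩ : ∃ n, η {s | s ∈ E ∧ dist (F s) (d n) < ε / 2} ≠ 0 := by
    by_contra hcon
    push Not at hcon
    exact hE (measure_mono_null hcov (measure_iUnion_null hcon))
  refine ⟨_, fun s hs => hs.1, hn, ?_⟩
  intro s hs t ht
  have h1 : dist (F s) (F t) < ε := by
    calc dist (F s) (F t) ≤ dist (F s) (d n) + dist (F t) (d n) := dist_triangle_right _ _ _
      _ < ε / 2 + ε / 2 := add_lt_add hs.2 ht.2
      _ = ε := by ring
  have h2 : dist (F s) (F t) = nrm μ (fun x => φ s x - φ t x) := by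
    rw [hFs s hs.1, hFs t ht.1, dist_eq_norm, ← MemLp.toLp_sub, L1.norm_eq_integral_norm]
    refine integral_congr_ae ?_
    filter_upwards [((hmem s hs.1).sub (hmem t ht.1)).coeFn_toLp] with x hx
    rw [hx, pa_sub]
    rfl
  rw [← h2]
  exact h1

theorem exists_exh (p : ℕ) (hp : 0 < p) (Γ : Type) [AddCommGroup Γ] [Countable Γ]
    (hΓ : ∀ g : Γ, p • g = 0) : ∃ E : ℕ → Finset Γ, IsExh E := by
  classical
  obtain ⟨f, hf⟩ := exists_surjective_nat Γ
  let S : ℕ → AddSubgroup Γ := fun n => AddSubgroup.closure (f '' Set.Iio n)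
  have hfin : ∀ n, Finite (S n) := by
    intro n
    have h1 : (S n).FG := ⟨((Set.finite_Iio n).image f).toFinset, by simp [S]⟩
    have h2 : AddGroup.FG (S n) := (AddGroup.fg_iff_addSubgroup_fg _).2 h1
    refine AddCommGroup.finite_of_fg_isAddTorsion (S n) ?_
    intro x
    rw [isOfFinAddOrder_iff_nsmul_eq_zero]
    refine ⟨p, hp, ?_⟩
    apply Subtype.ext
    rw [AddSubgroup.coe_nsmul, hΓ]
    rfl
  have hfin' : ∀ n, ((S n : AddSubgroup Γ) : Set Γ).Finite := fun n => Set.toFinite _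
  refine ⟨fun n => (hfin' n).toFinset, ?_, ?_, ?_, ?_, ?_⟩
  · intro n
    simp
  · intro n g hg h hh
    simp only [Set.Finite.mem_toFinset, SetLike.mem_coe] at hg hh ⊢
    exact (S n).add_mem hg hh
  · intro n g hg
    simp only [Set.Finite.mem_toFinset, SetLike.mem_coe] at hg ⊢
    exact (S n).neg_mem hg
  · intro n m hnm g hg
    simp only [Set.Finite.mem_toFinset, SetLike.mem_coe] at hg ⊢
    exact AddSubgroup.closure_mono (Set.image_mono (Set.Iio_subset_Iio hnm)) hg
  · intro g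
    obtain ⟨n, rfl⟩ := hf g
    refine ⟨n + 1, ?_⟩
    simp only [Set.Finite.mem_toFinset, SetLike.mem_coe]
    exact AddSubgroup.subset_closure ⟨n, by simp, rfl⟩

/-- translations by finitely supported vectors are an ergodic action on `(ℤ/p)^J` -/
theorem trans_ergodic (p : ℕ) [Fact p.Prime] (J : Type) [Countable J] (ν : Measure (J → ZMod p))
    [IsProbabilityMeasure ν] [ν.IsAddLeftInvariant] :
    IsAction ν (fun (g : J →₀ ZMod p) (k : J → ZMod p) => k + ⇑g) ∧
    IsErgodic ν (fun (g : J →₀ ZMod p) (k : J → ZMod p) => k + ⇑g) := by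
  classical
  constructor
  · refine ⟨fun x => ?_, fun g h x => ?_, fun g => ?_⟩
    · simp
    · simp only [Finsupp.coe_add]
      abel
    · exact measurePreserving_add_right ν _
  · intro A hA hinv
    have hdense : Dense {g : J → ZMod p | (g +ᵥ ·) ⁻¹' A = A} := by
      have hsub : Set.range (fun g : J →₀ ZMod p => (⇑g : J → ZMod p)) ⊆
          {g : J → ZMod p | (g +ᵥ ·) ⁻¹' A = A} := by
        rintro _ ⟨g, rfl⟩
        have h1 := hinv g
        show (fun k : J → ZMod p => ⇑g +ᵥ k) ⁻¹' A = A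
        have h2 : (fun k : J → ZMod p => (⇑g : J → ZMod p) +ᵥ k) = fun k => k + ⇑g := by
          funext k
          rw [vadd_eq_add, add_comm]
        rw [h2]
        exact h1
      refine Dense.mono hsub ?_
      intro k
      rw [mem_closure_iff_nhds]
      intro U hU
      rw [nhds_pi, Filter.mem_pi] at hU
      obtain ⟨I, hI, t, ht, htU⟩ := hU
      refine ⟨_, htU (fun i hi => ?_), ⟨Finsupp.onFinset hI.toFinset
        (fun j => if j ∈ I then k j else 0) (fun j hj => ?_), rfl⟩⟩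
      · show (if i ∈ I then k i else 0) ∈ t i
        rw [if_pos hi]
        exact mem_of_mem_nhds (ht i)
      · by_contra hcon
        apply hj
        rw [if_neg]
        simpa using hcon
    have herg : ErgodicVAdd (J → ZMod p) (J → ZMod p) ν :=
      instErgodicVAddOfIsAddLeftInvariant (G := J → ZMod p) (μ := ν)
    have hcont : ContinuousVAdd (J → ZMod p) (J → ZMod p) :=
      ⟨(continuous_fst.add continuous_snd : Continuous fun q : (J → ZMod p) × (J → ZMod p) =>
        q.1 + q.2)⟩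
    have hconst := aeconst_of_dense_setOfPred_preimage_vadd_eq (M := J → ZMod p)
      (X := J → ZMod p) (μ := ν) (s := A) hA.nullMeasurableSet hdense
    rw [eventuallyConst_set] at hconst
    rcases hconst with h | h
    · right
      exact h
    · left
      exact measure_eq_zero_iff_ae_notMem.2 h

end Pool.Agent.FpTrans
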