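import Pool.Agent.FpOrd.PairSplit

/-!
# Phase polynomials on pairs are captured by a tower
-/

set_option autoImplicit false
open MeasureTheory Filter Topology ProbabilityTheory

namespace Pool.Agent.FpTrans

universe u v w

/-- uniqueness of the Haar measure -/
theorem haar_uniq {p : ℕ} [Fact p.Prime] {I : Type} [Countable I] (η η' : Measure (I → ZMod p))
    [IsProbabilityMeasure η] [η.IsAddLeftInvariant] [IsProbabilityMeasure η']
    [η'.IsAddLeftInvariant] : η = η' := by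
  have hpos : η.IsOpenPosMeasure :=
    isOpenPosMeasure_of_addLeftInvariant_of_compact (μ := η) Set.univ isCompact_univ (by simp)
  have hH : η.IsAddHaarMeasure := {}
  have hpos' : η'.IsOpenPosMeasure :=
    isOpenPosMeasure_of_addLeftInvariant_of_compact (μ := η') Set.univ isCompact_univ (by simp)
  have hH' : η'.IsAddHaarMeasure := {}
  exact Measure.isAddHaarMeasure_eq_of_isProbabilityMeasure η η'

/-- negation preserves the Haar measure -/
theorem neg_mp {p : ℕ} [Fact p.Prime] {I : Type} [Countable I] (η : Measure (I → ZMod p))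
    [IsProbabilityMeasure η] [η.IsAddLeftInvariant] :
    MeasurePreserving (fun s : I → ZMod p => -s) η η := by
  have hm : Measurable (fun s : I → ZMod p => -s) := measurable_neg
  refine ⟨hm, ?_⟩
  have h1 : IsProbabilityMeasure (η.map (fun s : I → ZMod p => -s)) :=
    Measure.isProbabilityMeasure_map hm.aemeasurable
  have h2 : (η.map (fun s : I → ZMod p => -s)).IsAddLeftInvariant := by
    constructor
    intro g
    rw [Measure.map_map (measurable_const_add g) hm]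
    have h3 : ((fun x => g + x) ∘ fun s : I → ZMod p => -s) =
        (fun s : I → ZMod p => -s) ∘ fun x => -g + x := by
      funext s
      simp only [Function.comp_apply, neg_add_rev, neg_neg]
      rw [add_comm]
    rw [h3, ← Measure.map_map hm (measurable_const_add (-g)), map_add_left_eq_self]
  exact haar_uniq _ _

theorem DForm.sub {p : ℕ} {Γ : Type} {X : Type u} [MeasurableSpace X] {μ : Measure X}
    {T : Γ → X → X} {I J : Type} {z : X → I → ZMod p} {a : X → J → ZMod p} {l : ℕ}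
    {φ ψ : X → UnitAddCircle} (hφ : DForm μ T z a l φ) (hψ : DForm μ T z a l ψ) :
    DForm μ T z a l (fun x => φ x - ψ x) := by
  intro g
  obtain ⟨b, P, h1, h2, h3, h4⟩ := hφ g
  obtain ⟨b', P', h1', h2', h3', h4'⟩ := hψ g
  refine ⟨fun ζ => b ζ - b' ζ, fun k => P k - P' k, h1.sub h1', h2.sub h2', h3.sub h3', ?_⟩
  filter_upwards [h4, h4'] with x e1 e2
  have : φ (T g x) - ψ (T g x) - (φ x - ψ x) = (φ (T g x) - φ x) - (ψ (T g x) - ψ x) := by abel
  rw [this, e1, e2]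
  abel

/-- `a` composed with a continuous translation polynomial is a polynomial on `X` -/
theorem Tow.poly_comp {p l D n : ℕ} [Fact p.Prime] {B : ℕ → ℕ → ℕ} {l' : ℕ}
    (hl' : ∀ (J : Type) [Countable J] (Γ : Type) (S : Γ → (J → ZMod p) → (J → ZMod p)),
      (∀ j, IsPoly (tm S) (D + 1) (fun k => k j)) →
      ∀ f : (J → ZMod p) → UnitAddCircle, Continuous f → IsPoly trans l f → IsPoly (tm S) l' f)
    {Γ : Type} [AddCommGroup Γ] {X : Type u} [MeasurableSpace X] {μ : Measure X}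
    {T : Γ → X → X} (hT : IsAction μ T) {I : Type} [Countable I] {α : Γ → I → ZMod p}
    {z : X → I → ZMod p} (M : Tow p μ T α z B D n) {P : (I ⊕ M.J → ZMod p) → UnitAddCircle}
    (hPc : Continuous P) (hPp : IsPoly trans l P) : AEPoly μ T l' (fun x => P (M.a x)) :=
  AEPoly.comp_factor M.ha.quasiMeasurePreserving hT.qmp M.haS
    (AEPoly.of_isPoly (hl' (I ⊕ M.J) Γ M.S M.hw P hPc hPp).tm_S)

theorem corr_pair (p l D n : ℕ) [Fact p.Prime] (B : ℕ → ℕ → ℕ) : ∃ L : ℕ,
    ∀ (Γ : Type) [AddCommGroup Γ] [Countable Γ], (∀ g : Γ, p • g = 0) →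
    ∀ (X : Type u) [MeasurableSpace X] [StandardBorelSpace X] (μ : Measure X)
      [IsProbabilityMeasure μ] (T : Γ → X → X), IsAction μ T → IsErgodic μ T →
    ∀ (I : Type) [Countable I] (η : Measure (I → ZMod p)) [IsProbabilityMeasure η]
      [η.IsAddLeftInvariant] (α : Γ → I → ZMod p) (z : X → I → ZMod p), Kron p μ T η α z →
    ∀ κ : Kernel (I → ZMod p) (X × X),
    ∀ M : Tow p μ T α z B D n, ∀ φ' φ : X → UnitAddCircle, Measurable φ' → Measurable φ →
      DForm μ T z M.a l φ' → DForm μ T z M.a l φ →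
    ∀ E : Set (I → ZMod p), η E ≠ 0 →
      (∀ s ∈ E, IsAction (κ s) (pact T T) ∧ MeasurePreserving Prod.fst (κ s) μ ∧
        MeasurePreserving Prod.snd (κ s) μ ∧ ∀ᵐ q ∂(κ s), z q.2 = z q.1 + s) →
    ∀ d' d : (I → ZMod p) → (I → ZMod p) → UnitAddCircle,
      (∀ s ∈ E, Measurable (d' s)) → (∀ s ∈ E, Measurable (d s)) →
      (∀ s ∈ E, AEPoly (κ s) (pact T T) l
        (fun q => (φ' q.1 + d' s (z q.1)) + (φ q.2 + d s (z q.2)))) →
      (∃ R : X → UnitAddCircle, Measurable R ∧ AEPoly μ T L R ∧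
        ∫ x, ee (φ' x - R x) ∂μ ≠ 0) ∧
      (∃ R : X → UnitAddCircle, Measurable R ∧ AEPoly μ T L R ∧
        ∫ x, ee (φ x - R x) ∂μ ≠ 0) := by
  obtain ⟨l', hl'⟩ := trans_poly p l D
  set l₂ := max l l' with hl₂
  obtain ⟨L, hL⟩ := corr.{u} p l₂ D n B
  refine ⟨L, ?_⟩
  intro Γ _ _ hΓ X _ _ μ _ T hT hE I _ η _ _ α z hz κ M φ' φ hφ'm hφm hφ' hφ E hEη hκs d' d
    hd' hd hsum
  choose b' P' hb'm hP'c hP'p hP'e using hφ'
  choose b P hbm hPc hPp hPe using hφ
  have hrot := rot_action η hz.hom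
  set Dd : (I → ZMod p) → (I → ZMod p) → UnitAddCircle := fun s ζ => d' s ζ + d s (ζ + s) with hDd
  have hDm : ∀ s ∈ E, Measurable (Dd s) := fun s hs =>
    (hd' s hs).add ((hd s hs).comp (measurable_id.add_const s))
  have hA : ∀ s ∈ E, ∀ g, AEPoly η (fun g ζ => ζ + α g) l₂
      (fun ζ => b' g ζ + b g (ζ + s) + Dd s (ζ + α g) - Dd s ζ) := by
    intro s hs g
    obtain ⟨hact, hfst, hsnd, hzs⟩ := hκs s hs
    have hAm : Measurable fun ζ => b' g ζ + b g (ζ + s) + Dd s (ζ + α g) - Dd s ζ :=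
      (((hb'm g).add ((hbm g).comp (measurable_id.add_const s))).add
        ((hDm s hs).comp (measurable_id.add_const (α g)))).sub (hDm s hs)
    have hzT : ∀ g, ∀ᵐ q ∂(κ s), z (pact T T g q).1 = z q.1 + α g := fun g =>
      hfst.quasiMeasurePreserving.ae (hz.eqv g)
    refine AEPoly.of_comp_factor (hz.mp.comp hfst) hact.qmp (fun g => (hrot.mp g).measurable)
      hzT hAm ?_
    have h1 : AEPoly (κ s) (pact T T) l' (fun q => P' g (M.a q.1)) :=
      AEPoly.comp_factor hfst.quasiMeasurePreserving hact.qmp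
        (fun g => Filter.Eventually.of_forall fun q => rfl) (M.poly_comp hl' hT (hP'c g) (hP'p g))
    have h2 : AEPoly (κ s) (pact T T) l' (fun q => P g (M.a q.2)) :=
      AEPoly.comp_factor hsnd.quasiMeasurePreserving hact.qmp
        (fun g => Filter.Eventually.of_forall fun q => rfl) (M.poly_comp hl' hT (hPc g) (hPp g))
    refine ((((hsum s hs).succ hact.qmp g).mono (le_max_left l l') hact.qmp).sub
      ((h1.add h2).mono (le_max_right l l') hact.qmp)).congr hact.qmp ?_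
    filter_upwards [hzs, (hact.qmp g).ae hzs, hzT g,
      hfst.quasiMeasurePreserving.ae (hP'e g), hsnd.quasiMeasurePreserving.ae (hPe g)]
      with q e1 e2 e3 e4 e5
    simp only [pact] at e2 e3 e4 e5 ⊢
    simp only [Function.comp_apply, hDd]
    rw [e2, e3, e1]
    rw [e1] at e5
    have e6 : φ' (T g q.1) = b' g (z q.1) + P' g (M.a q.1) + φ' q.1 := by rw [← e4]; abel
    have e7 : φ (T g q.2) = b g (z q.1 + s) + P g (M.a q.2) + φ q.2 := by rw [← e5]; abel
    rw [e6, e7]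
    have e8 : z q.1 + α g + s = z q.1 + s + α g := by abel
    rw [e8]
    abel
  refine ⟨?_, ?_⟩
  · refine hL Γ hΓ X μ T hT hE I η α z hz M φ' hφ'm b' b P' hb'm hbm hP'c
      (fun g => (hP'p g).mono (le_max_left l l')) hP'e ((fun s => -s) ⁻¹' E) ?_
      (fun t ζ => Dd (-t) (ζ + t)) ?_ ?_
    · intro h0
      refine hEη ?_
      have h1 : ∀ᵐ s ∂η, -s ∉ E := measure_eq_zero_iff_ae_notMem.1 h0
      have h2 : ∀ᵐ s ∂η, -(-s) ∉ E := (neg_mp η).quasiMeasurePreserving.ae h1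
      have h3 : ∀ᵐ s ∂η, s ∉ E := by
        filter_upwards [h2] with s hs
        rwa [neg_neg] at hs
      exact measure_eq_zero_iff_ae_notMem.2 h3
    · intro t ht
      exact (hDm _ ht).comp (measurable_id.add_const t)
    · intro t ht g
      have h1 := hA (-t) ht g
      have h2 : MeasurePreserving (fun ζ : I → ZMod p => ζ + t) η η := by
        have : (fun ζ : I → ZMod p => ζ + t) = fun ζ => t + ζ := by
          funext ζ; rw [add_comm]
        rw [this]
        exact measurePreserving_add_left η t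
      refine (AEPoly.comp_factor h2.quasiMeasurePreserving hrot.qmp
        (fun g => Filter.Eventually.of_forall fun ζ => ?_) h1).congr hrot.qmp ?_
      · show ζ + α g + t = ζ + t + α g
        abel
      · refine Filter.Eventually.of_forall fun ζ => ?_
        show b g ζ + b' g (ζ + t) + Dd (-t) (ζ + α g + t) - Dd (-t) (ζ + t) =
          b' g (ζ + t) + b g (ζ + t + -t) + Dd (-t) (ζ + t + α g) - Dd (-t) (ζ + t)
        have e1 : ζ + t + -t = ζ := by abel
        have e2 : ζ + α g + t = ζ + t + α g := by abel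
        rw [e1, e2, add_comm (b g ζ)]
  · exact hL Γ hΓ X μ T hT hE I η α z hz M φ hφm b b' P hbm hb'm hPc
      (fun g => (hPp g).mono (le_max_left l l')) hPe E hEη Dd hDm hA

/-- a tower capturing polynomials of degree `c` captures all functions of bounded degree into
`(ℤ/p)^J'` -/
theorem capt_pi {p c : ℕ} [Fact p.Prime] {Γ : Type} [AddCommGroup Γ] {X : Type u}
    [MeasurableSpace X] {μ : Measure X} {T : Γ → X → X} {K : Type} [MeasurableSpace K] {a : X → K}
    (h : ∀ P : X → UnitAddCircle, IsPhasePoly μ T c P → Capt μ a P) {J' : Type} [Countable J']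
    {y : X → J' → ZMod p} (hym : Measurable y) (hy : ∀ j, AEPoly μ T (c + 1) (fun x => y x j)) :
    Capt μ a y := by
  have h1 : ∀ j, Capt μ a (fun x => y x j) := by
    intro j
    have hj : Measurable fun x => y x j := (measurable_pi_apply j).comp hym
    obtain ⟨F, hF, hFe⟩ := h (fun x => ZMod.toAddCircle (y x j))
      ⟨(measurable_of_countable _).comp hj, (hy j).hom (ZMod.toAddCircle : ZMod p →+ _)⟩
    have hmem : MeasurableEmbedding (ZMod.toAddCircle : ZMod p →+ UnitAddCircle) := by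
      refine ⟨ZMod.toAddCircle_injective p, measurable_of_countable _, ?_⟩
      intro s _
      exact (s.toFinite.image _).measurableSet
    obtain ⟨i, him, hi⟩ := hmem.exists_measurable_extend (g := id) measurable_id
      (fun _ => ⟨(0 : ZMod p)⟩)
    refine ⟨fun k => i (F k), him.comp hF, ?_⟩
    filter_upwards [hFe] with x hx
    rw [← hx]
    exact (congrFun hi (y x j)).symm
  choose F hF hFe using h1
  refine ⟨fun k j => F j k, measurable_pi_iff.2 hF, ?_⟩
  filter_upwards [ae_all_iff.2 hFe] with x hx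
  funext j
  exact hx j

theorem Capt.comp {X : Type u} [MeasurableSpace X] {μ : Measure X} {K K' A : Type}
    [MeasurableSpace K] [MeasurableSpace K'] [MeasurableSpace A] {a : X → K} {y : X → K'}
    (h : Capt μ a y) {F : K' → A} (hF : Measurable F) : Capt μ a (fun x => F (y x)) := by
  obtain ⟨G, hG, hGe⟩ := h
  refine ⟨fun k => F (G k), hF.comp hG, ?_⟩
  filter_upwards [hGe] with x hx
  rw [hx]

/-- correlation with a captured polynomial gives capture -/
theorem capt_of_corr {p c L : ℕ} [Fact p.Prime] {Γ : Type} [AddCommGroup Γ] [Countable Γ]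
    {X : Type u} [MeasurableSpace X] [StandardBorelSpace X] {μ : Measure X}
    [IsProbabilityMeasure μ] {T : Γ → X → X} (hT : IsAction μ T) (hE : IsErgodic μ T) {I : Type}
    [Countable I] {α : Γ → I → ZMod p} {z : X → I → ZMod p} {B : ℕ → ℕ → ℕ} {D n : ℕ}
    (M : Tow p μ T α z B D n) (hM : ∀ P : X → UnitAddCircle, IsPhasePoly μ T c P → Capt μ M.a P)
    (hLc : L ≤ c + 1) {φ : X → UnitAddCircle} (hφ : Measurable φ)
    (hd : ∀ g, Capt μ M.a (fun x => φ (T g x) - φ x)) {R : X → UnitAddCircle} (hR : Measurable R)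
    (hRp : AEPoly μ T L R) (hne : ∫ x, ee (φ x - R x) ∂μ ≠ 0) : Capt μ M.a φ := by
  obtain ⟨F, hF, hFe⟩ := hM R ⟨hR, hRp.mono hLc hT.qmp⟩
  refine rank_one hT hE M.hS M.ha M.haS φ hφ hd (fun k => ee (-F k))
    (continuous_ee.measurable.comp hF.neg) ⟨1, fun k => by rw [norm_ee]⟩ ?_
  intro h0
  refine hne ?_
  rw [← h0]
  refine integral_congr_ae ?_
  filter_upwards [hFe] with x hx
  rw [sub_eq_add_neg, ee_add, hx]

theorem pair_capt (p : ℕ) [Fact p.Prime] (m : ℕ) : ∃ c : ℕ,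
    ∀ (Γ : Type) [AddCommGroup Γ] [Countable Γ], (∀ g : Γ, p • g = 0) →
    ∀ (X : Type u) [MeasurableSpace X] [StandardBorelSpace X] (μ : Measure X)
      [IsProbabilityMeasure μ] (T : Γ → X → X), IsAction μ T → IsErgodic μ T →
    ∀ (I : Type) [Countable I] (η : Measure (I → ZMod p)) [IsProbabilityMeasure η]
      [η.IsAddLeftInvariant] (α : Γ → I → ZMod p) (z : X → I → ZMod p), Kron p μ T η α z →
    ∀ (κ : Kernel (I → ZMod p) (X × X)) [IsMarkovKernel κ], IsPair μ z η κ →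
    ∀ (B : ℕ → ℕ → ℕ) (D n : ℕ) (M : Tow p μ T α z B D n),
      (∀ P : X → UnitAddCircle, IsPhasePoly μ T c P → Capt μ M.a P) →
    ∀ᵐ s ∂η, ∀ Q : X × X → UnitAddCircle, IsPhasePoly (κ s) (pact T T) m Q →
      Capt (κ s) (fun q => (M.a q.1, M.a q.2)) Q := by
  induction m with
  | zero =>
    refine ⟨0, ?_⟩
    intro Γ _ _ hΓ X _ _ μ _ T hT hE I _ η _ _ α z hz κ _ hκ B D n M hM
    filter_upwards [pair_basic p hΓ hT hE hz hκ] with s hs
    obtain ⟨hact, herg, -⟩ := hs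
    rintro Q ⟨hQm, hQp⟩
    obtain ⟨c, hc⟩ := herg.const hact hQm (fun g => by
      filter_upwards [hQp g] with q hq
      exact sub_eq_zero.1 hq)
    exact ⟨fun _ => c, measurable_const, hc⟩
  | succ m ih =>
    obtain ⟨c, hc⟩ := ih
    obtain ⟨B₀, D₀, n₀, htow⟩ := exists_tow.{u} p c
    obtain ⟨l, hl⟩ := pair_split.{u} p (m + 2) D₀ n₀ B₀
    obtain ⟨ε, hε, hdisc⟩ := near_zero_capt.{u} p l D₀ n₀ B₀
    obtain ⟨L, hL⟩ := corr_pair.{u} p l D₀ n₀ B₀
    refine ⟨max D₀ L, ?_⟩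
    intro Γ _ _ hΓ X _ _ μ _ T hT hE I _ η _ _ α z hz κ _ hκ B D n M hM
    obtain ⟨M₀, hM₀⟩ := htow Γ hΓ X μ T hT hE I η α z hz
    have h1 := hc Γ hΓ X μ T hT hE I η α z hz κ hκ B₀ D₀ n₀ M₀ hM₀
    have h2 := hl Γ hΓ X μ T hT hE I η α z hz κ hκ M₀
    have h3 := pair_basic p hΓ hT hE hz hκ
    by_contra hcon
    set E₀ : Set (I → ZMod p) := {s | (∀ Q : X × X → UnitAddCircle,
        IsPhasePoly (κ s) (pact T T) m Q → Capt (κ s) (fun q => (M₀.a q.1, M₀.a q.2)) Q) ∧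
      (∀ Q : X × X → UnitAddCircle, Measurable Q → AEPoly (κ s) (pact T T) (m + 2) Q →
        (∀ g, Capt (κ s) (fun q => (M₀.a q.1, M₀.a q.2)) (fun q => Q (pact T T g q) - Q q)) →
        ∃ φ' φ : X → UnitAddCircle, Measurable φ' ∧ Measurable φ ∧ DForm μ T z M₀.a l φ' ∧
        DForm μ T z M₀.a l φ ∧ AEPoly (κ s) (pact T T) l (fun q => φ' q.1 + φ q.2) ∧
        Capt (κ s) (fun q => (M₀.a q.1, M₀.a q.2)) (fun q => Q q - (φ' q.1 + φ q.2))) ∧
      (IsAction (κ s) (pact T T) ∧ IsErgodic (κ s) (pact T T) ∧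
        MeasurePreserving Prod.fst (κ s) μ ∧ MeasurePreserving Prod.snd (κ s) μ ∧
        ∀ᵐ q ∂(κ s), z q.2 = z q.1 + s) ∧
      ∃ Q : X × X → UnitAddCircle, IsPhasePoly (κ s) (pact T T) (m + 1) Q ∧
        ¬ Capt (κ s) (fun q => (M.a q.1, M.a q.2)) Q} with hE₀
    have hE₀η : η E₀ ≠ 0 := by
      intro h0
      refine hcon ?_
      filter_upwards [h1, h2, h3, measure_eq_zero_iff_ae_notMem.1 h0] with s e1 e2 e3 e4
      intro Q hQ
      by_contra hQ'
      exact e4 ⟨e1, e2, e3, Q, hQ, hQ'⟩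
    have hdata : ∀ s ∈ E₀, ∃ (Q : X × X → UnitAddCircle) (φ' φ : X → UnitAddCircle),
        ¬ Capt (κ s) (fun q => (M.a q.1, M.a q.2)) Q ∧ Measurable φ' ∧ Measurable φ ∧
        DForm μ T z M₀.a l φ' ∧ DForm μ T z M₀.a l φ ∧
        AEPoly (κ s) (pact T T) l (fun q => φ' q.1 + φ q.2) ∧
        Capt (κ s) (fun q => (M₀.a q.1, M₀.a q.2)) (fun q => Q q - (φ' q.1 + φ q.2)) := by
      rintro s ⟨e1, e2, e3, Q, hQ, hQ'⟩
      have hTm : ∀ g, Measurable (pact T T g) := fun g => (e3.1.mp g).measurable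
      obtain ⟨φ', φ, f1, f2, f3, f4, f5, f6⟩ := e2 Q hQ.1 hQ.2 (fun g =>
        e1 _ ⟨(hQ.1.comp (hTm g)).sub hQ.1, hQ.2 g⟩)
      exact ⟨Q, φ', φ, hQ', f1, f2, f3, f4, f5, f6⟩
    choose! Q φ' φ hQ hφ'm hφm hφ' hφ hsum hcapt using hdata
    obtain ⟨E₁, hE₁, hE₁η, hE₁n⟩ := pigeon μ η E₀ hE₀η φ hφm ε hε
    obtain ⟨E₂, hE₂, hE₂η, hE₂n⟩ := pigeon μ η E₁ hE₁η φ' (fun s hs => hφ'm s (hE₁ hs)) ε hε
    obtain ⟨s₀, hs₀⟩ : E₂.Nonempty := by
      rw [Set.nonempty_iff_ne_empty]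
      rintro rfl
      exact hE₂η measure_empty
    have hmem : ∀ s ∈ E₂, s ∈ E₀ := fun s hs => hE₁ (hE₂ hs)
    have hd : ∀ s ∈ E₂, Capt μ z (fun x => φ s x - φ s₀ x) := fun s hs =>
      hdisc Γ hΓ X μ T hT hE I η α z hz M₀ _ ((hφm s (hmem s hs)).sub (hφm s₀ (hmem s₀ hs₀)))
        ((hφ s (hmem s hs)).sub (hφ s₀ (hmem s₀ hs₀)))
        (hE₁n s (hE₂ hs) s₀ (hE₂ hs₀))
    have hd' : ∀ s ∈ E₂, Capt μ z (fun x => φ' s x - φ' s₀ x) := fun s hs =>
      hdisc Γ hΓ X μ T hT hE I η α z hz M₀ _ ((hφ'm s (hmem s hs)).sub (hφ'm s₀ (hmem s₀ hs₀)))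
        ((hφ' s (hmem s hs)).sub (hφ' s₀ (hmem s₀ hs₀)))
        (hE₂n s hs s₀ hs₀)
    choose! d hdm hde using hd
    choose! d' hd'm hd'e using hd'
    obtain ⟨⟨R', hR'm, hR'p, hR'n⟩, ⟨R, hRm, hRp, hRn⟩⟩ := hL Γ hΓ X μ T hT hE I η α z hz κ M₀
      (φ' s₀) (φ s₀) (hφ'm s₀ (hmem s₀ hs₀)) (hφm s₀ (hmem s₀ hs₀)) (hφ' s₀ (hmem s₀ hs₀))
      (hφ s₀ (hmem s₀ hs₀)) E₂ hE₂η
      (fun s hs => ⟨(hmem s hs).2.2.1.1, (hmem s hs).2.2.1.2.2⟩) d' d hd'm hdm (by
        intro s hs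
        obtain ⟨hact, -, hfst, hsnd, -⟩ := (hmem s hs).2.2.1
        refine (hsum s (hmem s hs)).congr hact.qmp ?_
        filter_upwards [hfst.quasiMeasurePreserving.ae (hd'e s hs),
          hsnd.quasiMeasurePreserving.ae (hde s hs)] with q e1 e2
        rw [← e1, ← e2]; abel)
    -- everything is captured by `M`
    have hzc : Capt μ M.a z := by
      refine ⟨fun k i => k (Sum.inl i), measurable_pi_iff.2 fun i => measurable_pi_apply _, ?_⟩
      refine Filter.Eventually.of_forall fun x => ?_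
      funext i; exact (M.az x i).symm
    have hM₀c : Capt μ M.a M₀.a := by
      refine capt_pi hM M₀.ha.measurable fun j => ?_
      refine AEPoly.mono (Nat.add_le_add_right (le_max_left D₀ L) 1) hT.qmp ?_
      exact AEPoly.comp_factor M₀.ha.quasiMeasurePreserving hT.qmp M₀.haS
        (AEPoly.of_isPoly (M₀.hw j).tm_S)
    have hder : ∀ ψ : X → UnitAddCircle, DForm μ T z M₀.a l ψ →
        ∀ g, Capt μ M.a (fun x => ψ (T g x) - ψ x) := by
      intro ψ hψ g
      obtain ⟨b, P, hb, hPc, hPp, hbe⟩ := hψ g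
      obtain ⟨G, hG, hGe⟩ := hzc.comp hb
      obtain ⟨G', hG', hGe'⟩ := hM₀c.comp hPc.measurable
      refine ⟨fun k => G k + G' k, hG.add hG', ?_⟩
      filter_upwards [hbe, hGe, hGe'] with x e1 e2 e3
      rw [e1, e2, e3]
    have hc1 : Capt μ M.a (φ s₀) := capt_of_corr hT hE M hM
      ((le_max_right D₀ L).trans (Nat.le_succ _)) (hφm s₀ (hmem s₀ hs₀))
      (hder _ (hφ s₀ (hmem s₀ hs₀))) hRm hRp hRn
    have hc2 : Capt μ M.a (φ' s₀) := capt_of_corr hT hE M hM
      ((le_max_right D₀ L).trans (Nat.le_succ _)) (hφ'm s₀ (hmem s₀ hs₀))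
      (hder _ (hφ' s₀ (hmem s₀ hs₀))) hR'm hR'p hR'n
    refine hQ s₀ (hmem s₀ hs₀) ?_
    obtain ⟨-, -, hfst, hsnd, -⟩ := (hmem s₀ hs₀).2.2.1
    obtain ⟨F, hF, hFe⟩ := hcapt s₀ (hmem s₀ hs₀)
    obtain ⟨G, hG, hGe⟩ := hM₀c
    obtain ⟨F₁, hF₁, hF₁e⟩ := hc1
    obtain ⟨F₂, hF₂, hF₂e⟩ := hc2
    refine ⟨fun k => F (G k.1, G k.2) + (F₂ k.1 + F₁ k.2),
      (hF.comp ((hG.comp measurable_fst).prodMk (hG.comp measurable_snd))).add
        ((hF₂.comp measurable_fst).add (hF₁.comp measurable_snd)), ?_⟩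
    filter_upwards [hFe, hfst.quasiMeasurePreserving.ae hGe, hsnd.quasiMeasurePreserving.ae hGe,
      hsnd.quasiMeasurePreserving.ae hF₁e, hfst.quasiMeasurePreserving.ae hF₂e]
      with q e1 e2 e3 e4 e5
    rw [← e2, ← e3, ← e4, ← e5, ← e1]
    abel

end Pool.Agent.FpTrans
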