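import Pool.Agent.FpOrd.Corr

/-!
# Polynomials on pairs split
-/

set_option autoImplicit false
set_option linter.unusedSectionVars false
open MeasureTheory Filter Topology ProbabilityTheory

namespace Pool.Agent.FpTrans

universe u v w

/-- the derivatives of `φ` are functions of `z` plus polynomials of degree `< l` in `a` -/
def DForm {p : ℕ} {Γ : Type} {X : Type u} [MeasurableSpace X] (μ : Measure X)
    (T : Γ → X → X) {I J : Type} (z : X → I → ZMod p) (a : X → J → ZMod p) (l : ℕ)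
    (φ : X → UnitAddCircle) : Prop :=
  ∀ g, ∃ (b : (I → ZMod p) → UnitAddCircle) (P : (J → ZMod p) → UnitAddCircle),
    Measurable b ∧ Continuous P ∧ IsPoly trans l P ∧
    ∀ᵐ x ∂μ, φ (T g x) - φ x = b (z x) + P (a x)

section maps

variable {A I J : Type}

def i1 [Zero A] (k : I ⊕ J → A) : I ⊕ (J ⊕ J) → A :=
  Sum.elim (fun i => k (Sum.inl i)) (Sum.elim (fun j => k (Sum.inr j)) (fun _ => 0))

def i2 [AddGroup A] (s : I → A) (k : I ⊕ J → A) : I ⊕ (J ⊕ J) → A :=
  Sum.elim (fun i => k (Sum.inl i) - s i) (Sum.elim (fun _ => 0) (fun j => k (Sum.inr j)))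

def p1 (w : I ⊕ (J ⊕ J) → A) : I ⊕ J → A :=
  Sum.elim (fun i => w (Sum.inl i)) (fun j => w (Sum.inr (Sum.inl j)))

def p2 [Add A] (s : I → A) (w : I ⊕ (J ⊕ J) → A) : I ⊕ J → A :=
  Sum.elim (fun i => w (Sum.inl i) + s i) (fun j => w (Sum.inr (Sum.inr j)))

def cmb (k : (I ⊕ J → A) × (I ⊕ J → A)) : I ⊕ (J ⊕ J) → A :=
  Sum.elim (fun i => k.1 (Sum.inl i))
    (Sum.elim (fun j => k.1 (Sum.inr j)) (fun j => k.2 (Sum.inr j)))

def i0 [Zero A] (k : I → A) : I ⊕ (J ⊕ J) → A := Sum.elim k (fun _ => 0)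

end maps

section meas

variable {p : ℕ} [Fact p.Prime] {I J : Type} [Countable I] [Countable J]

theorem measurable_i1 : Measurable (i1 : (I ⊕ J → ZMod p) → _) := by
  refine measurable_pi_iff.2 ?_
  rintro (i | j | j)
  · exact measurable_pi_apply _
  · exact measurable_pi_apply _
  · exact measurable_const

theorem measurable_i2 (s : I → ZMod p) : Measurable (i2 s : (I ⊕ J → ZMod p) → _) := by
  refine measurable_pi_iff.2 ?_
  rintro (i | j | j)
  · exact (measurable_pi_apply _).sub_const _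
  · exact measurable_const
  · exact measurable_pi_apply _

theorem measurable_p1 : Measurable (p1 : (I ⊕ (J ⊕ J) → ZMod p) → _) := by
  refine measurable_pi_iff.2 ?_
  rintro (i | j)
  · exact measurable_pi_apply _
  · exact measurable_pi_apply _

theorem measurable_p2 (s : I → ZMod p) : Measurable (p2 s : (I ⊕ (J ⊕ J) → ZMod p) → _) := by
  refine measurable_pi_iff.2 ?_
  rintro (i | j)
  · exact (measurable_pi_apply _).add_const _
  · exact measurable_pi_apply _

theorem measurable_cmb : Measurable (cmb : (I ⊕ J → ZMod p) × (I ⊕ J → ZMod p) → _) := by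
  refine measurable_pi_iff.2 ?_
  rintro (i | j | j)
  · exact (measurable_pi_apply (Sum.inl i : I ⊕ J)).comp measurable_fst
  · exact (measurable_pi_apply (Sum.inr j : I ⊕ J)).comp measurable_fst
  · exact (measurable_pi_apply (Sum.inr j : I ⊕ J)).comp measurable_snd

theorem measurable_i0 : Measurable (i0 : (I → ZMod p) → (I ⊕ (J ⊕ J) → ZMod p)) := by
  refine measurable_pi_iff.2 ?_
  rintro (i | j)
  · exact measurable_pi_apply _
  · exact measurable_const

theorem continuous_i1 : Continuous (i1 : (I ⊕ J → ZMod p) → _) := by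
  refine continuous_pi ?_
  rintro (i | j | j)
  · exact continuous_apply _
  · exact continuous_apply _
  · exact continuous_const

theorem continuous_i2 (s : I → ZMod p) : Continuous (i2 s : (I ⊕ J → ZMod p) → _) := by
  refine continuous_pi ?_
  rintro (i | j | j)
  · exact (continuous_apply _).sub continuous_const
  · exact continuous_const
  · exact continuous_apply _

end meas

theorem ae_push {X : Type u} {Y : Type v} [MeasurableSpace X] [MeasurableSpace Y]
    {μ : Measure X} {ν : Measure Y} {a : X → Y} (ha : MeasurePreserving a μ ν)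
    {f g : Y → UnitAddCircle} (hf : Measurable f) (hg : Measurable g)
    (h : ∀ᵐ x ∂μ, f (a x) = g (a x)) : ∀ᵐ y ∂ν, f y = g y := by
  rw [← ha.map_eq, ae_map_iff (p := fun y => f y = g y) ha.measurable.aemeasurable
    (measurableSet_eq_fun hf hg)]
  exact h

theorem pact_qmp {Γ : Type} [AddCommGroup Γ] {X : Type u} [MeasurableSpace X] {m : Measure (X × X)}
    {T : Γ → X → X} (h : IsAction m (pact T T)) : ∀ g, Measure.QuasiMeasurePreserving
      (pact T T g) m m := h.qmp

theorem dep1 {p : ℕ} {I J : Type} {β : Type v} {F : (I ⊕ (J ⊕ J) → ZMod p) → β}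
    (hF : DepOn (U₁ I J) F) {X : Type u} (a : X → (I ⊕ J → ZMod p)) (q : X × X) :
    F (wmap a q) = F (i1 (a q.1)) := by
  refine hF _ _ ?_
  rintro (i | j | j) hj
  · rfl
  · rfl
  · exact absurd rfl (hj j)

theorem dep2 {p : ℕ} {I J : Type} {β : Type v} {F : (I ⊕ (J ⊕ J) → ZMod p) → β}
    (hF : DepOn (U₂ I J) F) {X : Type u} (a : X → (I ⊕ J → ZMod p)) (q : X × X)
    (s : I → ZMod p) (h : ∀ i, a q.2 (Sum.inl i) = a q.1 (Sum.inl i) + s i) :
    F (wmap a q) = F (i2 s (a q.2)) := by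
  refine hF _ _ ?_
  rintro (i | j | j) hj
  · show a q.1 (Sum.inl i) = a q.2 (Sum.inl i) - s i
    rw [h i]; abel
  · exact absurd rfl (hj j)
  · rfl

theorem dep0 {p : ℕ} {I J : Type} {β : Type v} {F : (I ⊕ (J ⊕ J) → ZMod p) → β}
    (hF : DepOn (U₁ I J ∩ U₂ I J) F) {X : Type u} (a : X → (I ⊕ J → ZMod p)) (q : X × X) :
    F (wmap a q) = F (i0 fun i => a q.1 (Sum.inl i)) := by
  refine hF _ _ ?_
  rintro (i | j | j) hj
  · rfl
  · exact absurd rfl (hj.2 j)
  · exact absurd rfl (hj.1 j)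

theorem p1_wmap {p : ℕ} {I J : Type} {X : Type u} (a : X → (I ⊕ J → ZMod p)) (q : X × X) :
    p1 (wmap a q) = a q.1 := by
  funext i
  rcases i with i | j <;> rfl

theorem p2_wmap {p : ℕ} {I J : Type} {X : Type u} (a : X → (I ⊕ J → ZMod p)) (q : X × X)
    (s : I → ZMod p) (h : ∀ i, a q.2 (Sum.inl i) = a q.1 (Sum.inl i) + s i) :
    p2 s (wmap a q) = a q.2 := by
  funext i
  rcases i with i | j
  · exact (h i).symm
  · rfl

theorem cmb_wmap {p : ℕ} {I J : Type} {X : Type u} (a : X → (I ⊕ J → ZMod p)) (q : X × X) :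
    cmb (a q.1, a q.2) = wmap a q := rfl

theorem depOn_p1 {p : ℕ} {I J : Type} {β : Type v} (F : (I ⊕ J → ZMod p) → β) :
    DepOn (U₁ I J) (fun w => F (p1 w)) := by
  intro k k' h
  refine congrArg F ?_
  funext i
  rcases i with i | j
  · exact h _ (fun j => by simp)
  · exact h _ (fun j => by simp)

theorem depOn_p2 {p : ℕ} {I J : Type} {β : Type v} (s : I → ZMod p)
    (F : (I ⊕ J → ZMod p) → β) : DepOn (U₂ I J) (fun w => F (p2 s w)) := by
  intro k k' h
  refine congrArg F ?_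
  funext i
  rcases i with i | j
  · show k (Sum.inl i) + s i = k' (Sum.inl i) + s i
    rw [h _ (fun j => by simp)]
  · exact h _ (fun j => by simp)

theorem pair_split (p m D n : ℕ) [Fact p.Prime] (B : ℕ → ℕ → ℕ) : ∃ l : ℕ,
    ∀ (Γ : Type) [AddCommGroup Γ] [Countable Γ], (∀ g : Γ, p • g = 0) →
    ∀ (X : Type u) [MeasurableSpace X] [StandardBorelSpace X] (μ : Measure X)
      [IsProbabilityMeasure μ] (T : Γ → X → X), IsAction μ T → IsErgodic μ T →
    ∀ (I : Type) [Countable I] (η : Measure (I → ZMod p)) [IsProbabilityMeasure η]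
      [η.IsAddLeftInvariant] (α : Γ → I → ZMod p) (z : X → I → ZMod p), Kron p μ T η α z →
    ∀ (κ : Kernel (I → ZMod p) (X × X)) [IsMarkovKernel κ], IsPair μ z η κ →
    ∀ M : Tow p μ T α z B D n, ∀ᵐ s ∂η, ∀ Q : X × X → UnitAddCircle, Measurable Q →
      AEPoly (κ s) (pact T T) m Q →
      (∀ g, Capt (κ s) (fun q => (M.a q.1, M.a q.2)) (fun q => Q (pact T T g q) - Q q)) →
      ∃ φ' φ : X → UnitAddCircle, Measurable φ' ∧ Measurable φ ∧ DForm μ T z M.a l φ' ∧
        DForm μ T z M.a l φ ∧ AEPoly (κ s) (pact T T) l (fun q => φ' q.1 + φ q.2) ∧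
        Capt (κ s) (fun q => (M.a q.1, M.a q.2)) (fun q => Q q - (φ' q.1 + φ q.2)) := by
  obtain ⟨B', D', hpair⟩ := exists_pair.{u} p D n B
  obtain ⟨l₁, hl₁⟩ := lemS p m D' n B'
  set l₂ := max m l₁ with hl₂
  obtain ⟨l₃, hl₃⟩ := lemX p l₂ B'
  refine ⟨max l₂ l₃, ?_⟩
  intro Γ _ _ hΓ X _ _ μ _ T hT hE I _ η _ _ α z hz κ _ hκ M
  obtain ⟨νW, i1W, i2W, hW⟩ := hpair Γ hΓ X μ T hT hE I η α z hz κ hκ M
  have hzM : (fun x => fun i => M.a x (Sum.inl i)) = z := by
    funext x i; exact M.az x i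
  have hzy : Capt μ M.a z := by
    refine ⟨fun k i => k (Sum.inl i), ?_, ?_⟩
    · exact measurable_pi_iff.2 fun i => measurable_pi_apply _
    · refine Filter.Eventually.of_forall fun x => ?_
      funext i; exact (M.az x i).symm
  filter_upwards [hW, pair_basic p hΓ hT hE hz hκ,
    split p hΓ hT hE hz hκ M.hS M.ha M.haS hzy] with s hs hb hsp
  obtain ⟨S', hS', hSc', hE', hPP', hw', htri1, htri2, hwmp, hwS⟩ := hs
  obtain ⟨hact, herg, hfst, hsnd, hzs⟩ := hb
  intro Q hQm hQp hQc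
  obtain ⟨φ₀', φ₀, D₀, hφ₀'m, hφ₀m, hD₀m, hφ₀'c, hφ₀c, hQ⟩ := hsp Q hQm hQc
  -- the coordinates of the second point
  have hzs' : ∀ᵐ q ∂(κ s), ∀ i, M.a q.2 (Sum.inl i) = M.a q.1 (Sum.inl i) + s i := by
    filter_upwards [hzs] with q hq i
    rw [M.az, M.az, hq]; rfl
  have hSm : ∀ g, Measurable (M.S g) := fun g => (M.hS.mp g).measurable
  have hS'm : ∀ g, Measurable (S' g) := fun g => (hS'.mp g).measurable
  choose lam' hlam'm hlam' using hφ₀'c
  choose lam hlamm hlam using hφ₀c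
  choose qg hqgm hqg using hQc
  set F : (I ⊕ (M.J ⊕ M.J) → ZMod p) → UnitAddCircle := fun w => D₀ (p1 w, p2 s w) with hF
  have hFm : Measurable F := hD₀m.comp (measurable_p1.prodMk (measurable_p2 s))
  have hFw : ∀ᵐ q ∂(κ s), F (wmap M.a q) = D₀ (M.a q.1, M.a q.2) := by
    filter_upwards [hzs'] with q hq
    simp only [hF]
    rw [p1_wmap, p2_wmap M.a q s hq]
  have hFwg : ∀ g, ∀ᵐ q ∂(κ s), F (wmap M.a (pact T T g q)) =
      D₀ (M.a (T g q.1), M.a (T g q.2)) := fun g => (hact.qmp g).ae hFw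
  obtain ⟨A, Bf, Pf, hAm, hBm, hPm, hAd, hBd, hPp, hFe⟩ := hl₁ Γ hΓ I M.J M.lev M.hlev νW S' hS'
    hSc' hE' hPP' hw' htri1 htri2 F hFm (by
      intro g
      refine ⟨fun w => -lam' g (p1 w), fun w => -lam g (p2 s w),
        fun w => qg g (p1 w, p2 s w), ((hlam'm g).comp measurable_p1).neg,
        ((hlamm g).comp (measurable_p2 s)).neg,
        (hqgm g).comp (measurable_p1.prodMk (measurable_p2 s)),
        depOn_p1 (fun k => -lam' g k), depOn_p2 s (fun k => -lam g k), ?_, ?_⟩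
      · refine AEPoly.of_comp_factor hwmp hact.qmp hS'm hwS
          ((hqgm g).comp (measurable_p1.prodMk (measurable_p2 s))) ?_
        refine (hQp.succ hact.qmp g).congr hact.qmp ?_
        filter_upwards [hqg g, hzs'] with q h1 h2
        rw [p1_wmap, p2_wmap M.a q s h2, h1]
      · refine ae_push hwmp ((hFm.comp (hS'm g)).sub hFm)
          (((((hlam'm g).comp measurable_p1).neg).add (((hlamm g).comp (measurable_p2 s)).neg)).add
            ((hqgm g).comp (measurable_p1.prodMk (measurable_p2 s)))) ?_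
        filter_upwards [hqg g, hzs', hwS g, hFw, hFwg g, hQ, (hact.qmp g).ae hQ,
          hfst.quasiMeasurePreserving.ae (hlam' g), hsnd.quasiMeasurePreserving.ae (hlam g)]
          with q e1 e2 e3 e4 e5 e6 e7 e8 e9
        simp only [pact] at e1 e3 e5 e7
        rw [← e3, e5, e4, p1_wmap, p2_wmap M.a q s e2, ← e1, e7, e6, ← e8, ← e9]
        abel)
  have hFe' : ∀ᵐ q ∂(κ s), F (wmap M.a q) = A (wmap M.a q) + Bf (wmap M.a q) +
      Pf (wmap M.a q) := hwmp.quasiMeasurePreserving.ae hFe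
  set φ' : X → UnitAddCircle := fun x => φ₀' x + A (i1 (M.a x)) with hφ'
  set φ : X → UnitAddCircle := fun x => φ₀ x + Bf (i2 s (M.a x)) with hφ
  have hφ'm : Measurable φ' := hφ₀'m.add (hAm.comp (measurable_i1.comp M.ha.measurable))
  have hφm : Measurable φ := hφ₀m.add (hBm.comp ((measurable_i2 s).comp M.ha.measurable))
  have hrem : ∀ᵐ q ∂(κ s), Q q - (φ' q.1 + φ q.2) = Pf (wmap M.a q) := by
    filter_upwards [hFe', hFw, hQ, hzs'] with q e1 e2 e3 e4
    have e5 := dep1 hAd M.a q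
    have e6 := dep2 hBd M.a q s e4
    simp only [hφ', hφ]
    rw [e3, ← e2, e1, e5, e6]
    abel
  have hsum : AEPoly (κ s) (pact T T) l₂ (fun q => φ' q.1 + φ q.2) := by
    have h1 : AEPoly (κ s) (pact T T) l₂ (fun q => Pf (wmap M.a q)) :=
      (AEPoly.comp_factor hwmp.quasiMeasurePreserving hact.qmp hwS hPp).mono (le_max_right _ _)
        hact.qmp
    refine ((hQp.mono (le_max_left m l₁) hact.qmp).sub h1).congr hact.qmp ?_
    filter_upwards [hrem] with q hq
    rw [← hq]; abel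
  -- derivatives
  have hmain : ∀ g, ∃ (b' b : (I → ZMod p) → UnitAddCircle)
      (P' P : (I ⊕ M.J → ZMod p) → UnitAddCircle), Measurable b' ∧ Measurable b ∧
      Continuous P' ∧ Continuous P ∧ IsPoly trans l₃ P' ∧ IsPoly trans l₃ P ∧
      (∀ᵐ x ∂μ, φ' (T g x) - φ' x = b' (z x) + P' (M.a x)) ∧
      (∀ᵐ x ∂μ, φ (T g x) - φ x = b (z x) + P (M.a x)) := by
    intro g
    set L' : (I ⊕ M.J → ZMod p) → UnitAddCircle :=
      fun k => lam' g k + (A (i1 (M.S g k)) - A (i1 k)) with hL'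
    set L : (I ⊕ M.J → ZMod p) → UnitAddCircle :=
      fun k => lam g k + (Bf (i2 s (M.S g k)) - Bf (i2 s k)) with hL
    have hL'm : Measurable L' := (hlam'm g).add (((hAm.comp measurable_i1).comp (hSm g)).sub
      (hAm.comp measurable_i1))
    have hLm : Measurable L := (hlamm g).add (((hBm.comp (measurable_i2 s)).comp (hSm g)).sub
      (hBm.comp (measurable_i2 s)))
    have hL'e : ∀ᵐ x ∂μ, φ' (T g x) - φ' x = L' (M.a x) := by
      filter_upwards [hlam' g, M.haS g] with x e1 e2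
      simp only [hφ', hL']
      rw [← e1, ← e2]; abel
    have hLe : ∀ᵐ x ∂μ, φ (T g x) - φ x = L (M.a x) := by
      filter_upwards [hlam g, M.haS g] with x e1 e2
      simp only [hφ, hL]
      rw [← e1, ← e2]; abel
    have hLW : AEPoly νW S' l₂ (fun w => L' (p1 w) + L (p2 s w)) := by
      refine AEPoly.of_comp_factor hwmp hact.qmp hS'm hwS
        ((hL'm.comp measurable_p1).add (hLm.comp (measurable_p2 s))) ?_
      refine (hsum.succ hact.qmp g).congr hact.qmp ?_
      filter_upwards [hfst.quasiMeasurePreserving.ae hL'e, hsnd.quasiMeasurePreserving.ae hLe,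
        hzs'] with q e1 e2 e3
      rw [p1_wmap, p2_wmap M.a q s e3, ← e1, ← e2]
      simp only [pact]
      abel
    obtain ⟨⟨a₀, P₁, ha₀m, hP₁c, ha₀d, hP₁d, hP₁p, hP₁e⟩,
      ⟨b₀, P₂, hb₀m, hP₂c, hb₀d, hP₂d, hP₂p, hP₂e⟩⟩ := hl₃ Γ hΓ I M.J νW S' hS' hSc' hE' hPP'
      (fun w => L' (p1 w)) (fun w => L (p2 s w)) (hL'm.comp measurable_p1)
      (hLm.comp (measurable_p2 s)) (depOn_p1 _) (depOn_p2 s _) hLW
    refine ⟨fun ζ => a₀ (i0 ζ), fun ζ => b₀ (i0 (ζ - s)), fun k => P₁ (i1 k),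
      fun k => P₂ (i2 s k), ha₀m.comp measurable_i0,
      hb₀m.comp (measurable_i0.comp (measurable_id.sub_const s)), hP₁c.comp continuous_i1,
      hP₂c.comp (continuous_i2 s), ?_, ?_, ?_, ?_⟩
    · refine hP₁p.comp_trans i1 i1 fun a k => ?_
      funext i
      rcases i with i | j | j
      · rfl
      · rfl
      · exact (add_zero (0 : ZMod p)).symm
    · refine hP₂p.comp_trans (i2 s) (i2 0) fun a k => ?_
      funext i
      rcases i with i | j | j
      · show k (Sum.inl i) + a (Sum.inl i) - s i = (k (Sum.inl i) - s i) + (a (Sum.inl i) - 0)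
        abel
      · exact (add_zero (0 : ZMod p)).symm
      · rfl
    · have h1 : ∀ᵐ q ∂(κ s), L' (M.a q.1) = a₀ (i0 (z q.1)) + P₁ (i1 (M.a q.1)) := by
        filter_upwards [hwmp.quasiMeasurePreserving.ae hP₁e] with q e1
        rw [p1_wmap, dep0 ha₀d, dep1 hP₁d] at e1
        rw [e1]
        have : (fun i => M.a q.1 (Sum.inl i)) = z q.1 := by
          funext i; exact M.az _ _
        rw [this]
      have h2 := ae_push hfst (f := fun x => L' (M.a x))
        (g := fun x => a₀ (i0 (z x)) + P₁ (i1 (M.a x))) (hL'm.comp M.ha.measurable)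
        ((ha₀m.comp (measurable_i0.comp hz.mp.measurable)).add
          ((hP₁c.comp continuous_i1).measurable.comp M.ha.measurable)) h1
      filter_upwards [hL'e, h2] with x e1 e2
      rw [e1, e2]
    · have h1 : ∀ᵐ q ∂(κ s), L (M.a q.2) = b₀ (i0 (z q.2 - s)) + P₂ (i2 s (M.a q.2)) := by
        filter_upwards [hwmp.quasiMeasurePreserving.ae hP₂e, hzs', hzs] with q e1 e2 e3
        rw [p2_wmap M.a q s e2, dep0 hb₀d, dep2 hP₂d M.a q s e2] at e1
        rw [e1]
        have : (fun i => M.a q.1 (Sum.inl i)) = z q.2 - s := by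
          rw [e3]
          funext i
          show M.a q.1 (Sum.inl i) = z q.1 i + s i - s i
          rw [M.az]; abel
        rw [this]
      have h2 := ae_push hsnd (f := fun x => L (M.a x))
        (g := fun x => b₀ (i0 (z x - s)) + P₂ (i2 s (M.a x))) (hLm.comp M.ha.measurable)
        ((hb₀m.comp (measurable_i0.comp (hz.mp.measurable.sub_const s))).add
          ((hP₂c.comp (continuous_i2 s)).measurable.comp M.ha.measurable)) h1
      filter_upwards [hLe, h2] with x e1 e2
      rw [e1, e2]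
  refine ⟨φ', φ, hφ'm, hφm, ?_, ?_, hsum.mono (le_max_left _ _) hact.qmp, ?_⟩
  · intro g
    obtain ⟨b', b, P', P, h1, h2, h3, h4, h5, h6, h7, h8⟩ := hmain g
    exact ⟨b', P', h1, h3, h5.mono (le_max_right _ _), h7⟩
  · intro g
    obtain ⟨b', b, P', P, h1, h2, h3, h4, h5, h6, h7, h8⟩ := hmain g
    exact ⟨b, P, h2, h4, h6.mono (le_max_right _ _), h8⟩
  · refine ⟨fun k => Pf (cmb k), hPm.comp measurable_cmb, ?_⟩
    filter_upwards [hrem] with q e1
    rw [e1]
    rfl

end Pool.Agent.FpTrans
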