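import Pool.Agent.FpOrd.Defs
import Pool.Agent.FpTrans.Main

/-!
# Package K, part 1 (helper50): transport of `PolyProp`, chains of closed sets of coordinates
-/

set_option autoImplicit false
open MeasureTheory Filter Topology ProbabilityTheory

namespace Pool.Agent.FpTrans

universe u v w

/-- uniqueness of the Haar probability measure of a compact group -/
theorem pk_haar_unique {G : Type*} [AddCommGroup G] [TopologicalSpace G]
    [IsTopologicalAddGroup G] [CompactSpace G] [MeasurableSpace G] [BorelSpace G]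
    (μ ν : Measure G) [IsProbabilityMeasure μ] [IsProbabilityMeasure ν] [μ.IsAddLeftInvariant]
    [ν.IsAddLeftInvariant] : μ = ν := by
  have h1 : μ.IsOpenPosMeasure :=
    isOpenPosMeasure_of_addLeftInvariant_of_compact (μ := μ) Set.univ isCompact_univ (by simp)
  have h2 : ν.IsOpenPosMeasure :=
    isOpenPosMeasure_of_addLeftInvariant_of_compact (μ := ν) Set.univ isCompact_univ (by simp)
  have h3 : μ.IsAddHaarMeasure := {}
  have h4 : ν.IsAddHaarMeasure := {}
  exact Measure.isAddHaarMeasure_eq_of_isProbabilityMeasure μ ν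

theorem pk_inv_map {G H : Type*} [AddCommGroup G] [MeasurableSpace G]
    [AddCommGroup H] [MeasurableSpace H] [MeasurableAdd G] [MeasurableAdd H]
    (μ : Measure G) [μ.IsAddLeftInvariant] (f : G →+ H)
    (hf : Measurable f) (hs : Function.Surjective f) : (μ.map f).IsAddLeftInvariant :=
  isAddLeftInvariant_map (μ := μ) (f : AddHom G H) hf hs

/-- a surjective continuous homomorphism maps Haar measure to Haar measure -/
theorem pk_haar_map {G H : Type*} [AddCommGroup G] [TopologicalSpace G]
    [IsTopologicalAddGroup G] [MeasurableSpace G] [BorelSpace G]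
    [AddCommGroup H] [TopologicalSpace H] [IsTopologicalAddGroup H] [CompactSpace H]
    [MeasurableSpace H] [BorelSpace H]
    (μ : Measure G) (ν : Measure H) [IsProbabilityMeasure μ]
    [IsProbabilityMeasure ν] [μ.IsAddLeftInvariant] [ν.IsAddLeftInvariant] (f : G →+ H)
    (hf : Continuous f) (hs : Function.Surjective f) : MeasurePreserving f μ ν := by
  refine ⟨hf.measurable, ?_⟩
  have h1 : (μ.map f).IsAddLeftInvariant :=
    pk_inv_map μ f hf.measurable hs
  have h2 : IsProbabilityMeasure (μ.map f) :=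
    Measure.isProbabilityMeasure_map hf.measurable.aemeasurable
  exact pk_haar_unique _ _

/-- transport of `PolyProp` along an isomorphism -/
theorem pk_polyProp_equiv {p : ℕ} {Γ : Type} {K K' : Type} [AddCommGroup K]
    [TopologicalSpace K] [MeasurableSpace K] [AddCommGroup K']
    [TopologicalSpace K'] [MeasurableSpace K'] {ν : Measure K} {ν' : Measure K'}
    (e : K →+ K') (e' : K' →+ K) (h1 : ∀ k, e' (e k) = k) (h2 : ∀ k, e (e' k) = k)
    (he' : Continuous e') (hm : MeasurePreserving e ν ν')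
    (hm' : MeasurePreserving e' ν' ν)
    {S : Γ → K → K} {S' : Γ → K' → K'} (hS : ∀ g, Measure.QuasiMeasurePreserving (S g) ν ν)
    (heS : ∀ g k, e (S g k) = S' g (e k)) {B : ℕ → ℕ → ℕ} (h : PolyProp p ν S B) :
    PolyProp p ν' S' B := by
  intro N l F hF hFp
  have h3 : AEPoly ν S l (fun k => F (e k)) := by
    refine AEPoly.comp_factor hm.quasiMeasurePreserving hS (fun g => ?_) hFp
    exact Filter.Eventually.of_forall fun k => heS g k
  obtain ⟨f, hfc, hfe, hfp⟩ := h N l (fun k => F (e k)) (hF.comp hm.measurable) h3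
  refine ⟨fun k => f (e' k), hfc.comp he', ?_, ?_⟩
  · filter_upwards [hm'.quasiMeasurePreserving.ae hfe] with k hk
    rw [hk, h2]
  · refine hfp.comp_map (t' := tm S') (fun k => e' k)
      (fun i => match i with
      | .inl y => .inl (e' y)
      | .inr g => .inr g) ?_
    rintro (y | g) s
    · exact map_add e' s y
    · show e' (S' g s) = S g (e' s)
      have := heS g (e' s)
      rw [h2] at this
      rw [← this, h1]

section chain

variable {p : ℕ} {Γ J : Type}

/-- restriction to a set of coordinates -/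
def pk_res (p : ℕ) {J : Type} (C : Set J) : (J → ZMod p) →+ ({j // j ∈ C} → ZMod p) where
  toFun k := fun j => k j.1
  map_zero' := rfl
  map_add' _ _ := rfl

open Classical in
/-- extension by zero -/
noncomputable def pk_ex (p : ℕ) {J : Type} (C : Set J) (k : {j // j ∈ C} → ZMod p) :
    J → ZMod p :=
  fun j => if h : j ∈ C then k ⟨j, h⟩ else 0

theorem pk_res_ex (C : Set J) (k : {j // j ∈ C} → ZMod p) : pk_res p C (pk_ex p C k) = k := by
  funext j
  exact dif_pos j.2

theorem pk_ex_res (C : Set J) (k : J → ZMod p) (j : J) (hj : j ∈ C) :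
    pk_ex p C (pk_res p C k) j = k j := dif_pos hj

theorem pk_res_surj (C : Set J) : Function.Surjective (pk_res p C) :=
  fun k => ⟨pk_ex p C k, pk_res_ex C k⟩

theorem pk_res_cont (C : Set J) : Continuous (pk_res p C) :=
  continuous_pi fun _ => continuous_apply _

theorem pk_ex_cont (C : Set J) : Continuous (pk_ex p C) := by
  refine continuous_pi fun j => ?_
  by_cases h : j ∈ C
  · simp only [pk_ex, dif_pos h]
    exact continuous_apply _
  · simp only [pk_ex, dif_neg h]
    exact continuous_const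

/-- the action on the coordinates in `C` -/
noncomputable def pk_S (p : ℕ) {Γ J : Type} (S : Γ → (J → ZMod p) → (J → ZMod p)) (C : Set J) :
    Γ → ({j // j ∈ C} → ZMod p) → ({j // j ∈ C} → ZMod p) :=
  fun g k => pk_res p C (S g (pk_ex p C k))

theorem pk_S_res {S : Γ → (J → ZMod p) → (J → ZMod p)} {C : Set J} (hC : Cl S C) (g : Γ)
    (k : J → ZMod p) : pk_S p S C g (pk_res p C k) = pk_res p C (S g k) := by
  funext j
  refine hC g j.1 j.2 _ _ fun i hi => ?_
  exact pk_ex_res C k i hi

theorem pk_S_cont {S : Γ → (J → ZMod p) → (J → ZMod p)} (hS : ∀ g, Continuous (S g)) (C : Set J)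
    (g : Γ) : Continuous (pk_S p S C g) :=
  (pk_res_cont C).comp ((hS g).comp (pk_ex_cont C))

/-- actions descend along surjective equivariant maps -/
theorem pk_factor_action [AddCommGroup Γ] {X : Type u} {Y : Type v} [MeasurableSpace X]
    [MeasurableSpace Y] {μ : Measure X} {ν : Measure Y} {T : Γ → X → X} {S : Γ → Y → Y}
    (hT : IsAction μ T) {b : X → Y} (hb : MeasurePreserving b μ ν) (hs : Function.Surjective b)
    (hbT : ∀ g x, b (T g x) = S g (b x)) (hm : ∀ g, Measurable (S g)) : IsAction ν S := by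
  refine ⟨?_, ?_, ?_⟩
  · intro y
    obtain ⟨x, rfl⟩ := hs y
    rw [← hbT, hT.zero]
  · intro g h y
    obtain ⟨x, rfl⟩ := hs y
    rw [← hbT, ← hbT, ← hbT, hT.add]
  · intro g
    refine ⟨hm g, ?_⟩
    rw [← hb.map_eq, Measure.map_map (hm g) hb.measurable]
    have h2 : S g ∘ b = b ∘ T g := by
      funext k
      exact (hbT g k).symm
    rw [h2, ← Measure.map_map hb.measurable (hT.mp g).measurable, (hT.mp g).map_eq]

end chain

open Classical in
/-- gluing coordinates -/
noncomputable def pk_glue (p : ℕ) {J : Type} (C C' : Set J) :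
    (({j // j ∈ C} → ZMod p) × ({j // j ∈ C' \ C} → ZMod p)) →+ ({j // j ∈ C'} → ZMod p) where
  toFun y := fun j => if h : j.1 ∈ C then y.1 ⟨j.1, h⟩ else y.2 ⟨j.1, ⟨j.2, h⟩⟩
  map_zero' := by
    funext j
    by_cases h : j.1 ∈ C
    · simp [h]
    · simp [h]
  map_add' y z := by
    funext j
    by_cases h : j.1 ∈ C
    · simp [h]
    · simp [h]

/-- splitting coordinates -/
def pk_split (p : ℕ) {J : Type} (C C' : Set J) (h : C ⊆ C') :
    ({j // j ∈ C'} → ZMod p) →+ (({j // j ∈ C} → ZMod p) × ({j // j ∈ C' \ C} → ZMod p)) where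
  toFun k := (fun j => k ⟨j.1, h j.2⟩, fun j => k ⟨j.1, j.2.1⟩)
  map_zero' := rfl
  map_add' _ _ := rfl

theorem pk_step (p : ℕ) [Fact p.Prime] (e : ℕ) (B : ℕ → ℕ → ℕ) : ∃ B' : ℕ → ℕ → ℕ,
    ∀ (Γ : Type) [AddCommGroup Γ] [Countable Γ] (J : Type) [Countable J]
      (ν : Measure (J → ZMod p)) [IsProbabilityMeasure ν] [ν.IsAddLeftInvariant]
      (S : Γ → (J → ZMod p) → (J → ZMod p)), IsAction ν S → (∀ g, Continuous (S g)) →
      IsErgodic ν S → (∀ j, AEPoly ν S e (fun k => k j)) →
    ∀ C C' : Set J, C ⊆ C' → Cl S C → (∀ g, ∀ j ∈ C', DepOn C (fun k => S g k j - k j)) →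
      PolyProp p (ν.map (pk_res p C)) (pk_S p S C) B →
      Cl S C' ∧ PolyProp p (ν.map (pk_res p C')) (pk_S p S C') B' := by
  obtain ⟨B', hB'⟩ := polyProp_step p e B
  refine ⟨B', ?_⟩
  intro Γ _ _ J _ ν _ _ S hS hSc hE he C C' hCC hC hd hpp
  have hC' : Cl S C' := by
    intro g j hj k k' hk
    have h1 : S g k j - k j = S g k' j - k' j := hd g j hj k k' fun i hi => hk i (hCC hi)
    have h2 : k j = k' j := hk j hj
    show S g k j = S g k' j
    rw [h2] at h1
    exact sub_left_injective h1
  refine ⟨hC', ?_⟩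
  -- measures
  have hprob : ∀ D : Set J, IsProbabilityMeasure (ν.map (pk_res p D)) := fun D =>
    Measure.isProbabilityMeasure_map (pk_res_cont D).measurable.aemeasurable
  have hinv : ∀ D : Set J, (ν.map (pk_res p D)).IsAddLeftInvariant := fun D =>
    pk_inv_map ν (pk_res p D) (pk_res_cont D).measurable (pk_res_surj D)
  have hprob1 := hprob C
  have hprob2 := hprob (C' \ C)
  have hprob3 := hprob C'
  have hinv1 := hinv C
  have hinv2 := hinv (C' \ C)
  have hinv3 := hinv C'
  have hinv4 : ((ν.map (pk_res p C)).prod (ν.map (pk_res p (C' \ C)))).IsAddLeftInvariant :=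
    Measure.prod.instIsAddLeftInvariant
  -- the factor map
  set b : (J → ZMod p) →+ (({j // j ∈ C} → ZMod p) × ({j // j ∈ C' \ C} → ZMod p)) :=
    (pk_res p C).prod (pk_res p (C' \ C)) with hb
  have hbc : Continuous b := (pk_res_cont C).prodMk (pk_res_cont (C' \ C))
  have hbg : ∀ k, pk_glue p C C' (b k) = pk_res p C' k := by
    intro k
    funext j
    by_cases h : j.1 ∈ C
    · simp [pk_glue, pk_res, hb, h]
    · simp [pk_glue, pk_res, hb, h]
  have hsg : ∀ y, pk_split p C C' hCC (pk_glue p C C' y) = y := by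
    intro y
    refine Prod.ext ?_ ?_
    · funext j
      simp [pk_split, pk_glue]
    · funext j
      simp [pk_split, pk_glue, j.2.2]
  have hgs : ∀ k, pk_glue p C C' (pk_split p C C' hCC k) = k := by
    intro k
    funext j
    by_cases h : j.1 ∈ C
    · simp [pk_glue, pk_split, h]
    · simp [pk_glue, pk_split, h]
  have hbs : Function.Surjective b := by
    intro y
    refine ⟨pk_ex p C' (pk_glue p C C' y), ?_⟩
    rw [← hsg (b _), hbg, pk_res_ex, hsg]
  have hbm : MeasurePreserving b ν ((ν.map (pk_res p C)).prod (ν.map (pk_res p (C' \ C)))) :=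
    pk_haar_map _ _ b hbc hbs
  have hgc : Continuous (pk_glue p C C') := by
    refine continuous_pi fun j => ?_
    by_cases h : j.1 ∈ C
    · simp only [pk_glue, AddMonoidHom.coe_mk, ZeroHom.coe_mk, dif_pos h]
      exact (continuous_apply _).comp continuous_fst
    · simp only [pk_glue, AddMonoidHom.coe_mk, ZeroHom.coe_mk, dif_neg h]
      exact (continuous_apply _).comp continuous_snd
  have hsc : Continuous (pk_split p C C' hCC) :=
    (continuous_pi fun j => continuous_apply _).prodMk (continuous_pi fun j => continuous_apply _)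
  have hgm : MeasurePreserving (pk_glue p C C')
      ((ν.map (pk_res p C)).prod (ν.map (pk_res p (C' \ C)))) (ν.map (pk_res p C')) :=
    pk_haar_map _ _ _ hgc fun k => ⟨_, hgs k⟩
  have hsm : MeasurePreserving (pk_split p C C' hCC) (ν.map (pk_res p C'))
      ((ν.map (pk_res p C)).prod (ν.map (pk_res p (C' \ C)))) :=
    pk_haar_map _ _ _ hsc fun k => ⟨_, hsg k⟩
  -- the cocycle
  set R : Γ → ({j // j ∈ C} → ZMod p) → ({j // j ∈ C' \ C} → ZMod p) :=
    fun g k i => S g (pk_ex p C k) i.1 - pk_ex p C k i.1 with hR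
  have hRc : ∀ g, Continuous (R g) := by
    intro g
    refine continuous_pi fun i => ?_
    exact ((continuous_apply i.1).comp ((hSc g).comp (pk_ex_cont C))).sub
      ((continuous_apply i.1).comp (pk_ex_cont C))
  have hbS : ∀ g k, b (S g k) = ext (pk_S p S C) R g (b k) := by
    intro g k
    refine Prod.ext ?_ ?_
    · exact (pk_S_res hC g k).symm
    · funext i
      show S g k i.1 = k i.1 + (S g (pk_ex p C (pk_res p C k)) i.1 -
        pk_ex p C (pk_res p C k) i.1)
      have h1 : S g (pk_ex p C (pk_res p C k)) i.1 - pk_ex p C (pk_res p C k) i.1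
          = S g k i.1 - k i.1 := hd g i.1 i.2.1 _ _ fun j hj => pk_ex_res C k j hj
      rw [h1]; ring
  have hec : ∀ g, Continuous (ext (pk_S p S C) R g) := fun g =>
    ((pk_S_cont hSc C g).comp continuous_fst).prodMk
      (continuous_snd.add ((hRc g).comp continuous_fst))
  have hact : IsAction ((ν.map (pk_res p C)).prod (ν.map (pk_res p (C' \ C))))
      (ext (pk_S p S C) R) :=
    pk_factor_action hS hbm hbs hbS fun g => (hec g).measurable
  have hactC : IsAction (ν.map (pk_res p C)) (pk_S p S C) :=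
    pk_factor_action hS ⟨(pk_res_cont C).measurable, rfl⟩ (pk_res_surj C)
      (fun g k => (pk_S_res hC g k).symm) fun g => (pk_S_cont hSc C g).measurable
  have hE' : IsErgodic ((ν.map (pk_res p C)).prod (ν.map (pk_res p (C' \ C))))
      (ext (pk_S p S C) R) :=
    hE.factor hS hbm fun g => Filter.Eventually.of_forall fun k => hbS g k
  have hpoly : ∀ i, AEPoly ((ν.map (pk_res p C)).prod (ν.map (pk_res p (C' \ C))))
      (ext (pk_S p S C) R) e (fun y => y.2 i) := by
    intro i
    refine AEPoly.of_comp_factor hbm hS.qmp (fun g => (hec g).measurable)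
      (fun g => Filter.Eventually.of_forall fun k => hbS g k)
      ((measurable_pi_apply i).comp measurable_snd) ?_
    exact he i.1
  have hpp' := hB' Γ ({j // j ∈ C} → ZMod p) (ν.map (pk_res p C)) (pk_S p S C) hactC
    (pk_S_cont hSc C) hpp {j // j ∈ C' \ C} (ν.map (pk_res p (C' \ C))) R hRc hact hE' hpoly
  refine pk_polyProp_equiv (pk_glue p C C') (pk_split p C C' hCC) hsg hgs hsc hgm hsm hact.qmp
    ?_ hpp'
  intro g y
  obtain ⟨k, rfl⟩ := hbs y
  rw [← hbS, hbg, hbg, pk_S_res hC']

theorem pk_chain (p : ℕ) [Fact p.Prime] (e : ℕ) (B : ℕ → ℕ → ℕ) : ∀ n : ℕ, ∃ B' : ℕ → ℕ → ℕ,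
    ∀ (Γ : Type) [AddCommGroup Γ] [Countable Γ] (J : Type) [Countable J]
      (ν : Measure (J → ZMod p)) [IsProbabilityMeasure ν] [ν.IsAddLeftInvariant]
      (S : Γ → (J → ZMod p) → (J → ZMod p)), IsAction ν S → (∀ g, Continuous (S g)) →
      IsErgodic ν S → (∀ j, AEPoly ν S e (fun k => k j)) →
    ∀ C : ℕ → Set J, (∀ r, C r ⊆ C (r + 1)) → Cl S (C 0) →
      (∀ r g, ∀ j ∈ C (r + 1), j ∉ C r → DepOn (C r) (fun k => S g k j - k j)) →
      PolyProp p (ν.map (pk_res p (C 0))) (pk_S p S (C 0)) B →
      Cl S (C n) ∧ PolyProp p (ν.map (pk_res p (C n))) (pk_S p S (C n)) B' := by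
  intro n
  induction n with
  | zero =>
    exact ⟨B, fun Γ _ _ J _ ν _ _ S hS hSc hE he C hCC hC hd hpp => ⟨hC, hpp⟩⟩
  | succ n ih =>
    obtain ⟨B1, hB1⟩ := ih
    obtain ⟨B2, hB2⟩ := pk_step p e B1
    refine ⟨B2, fun Γ _ _ J _ ν _ _ S hS hSc hE he C hCC hC hd hpp => ?_⟩
    obtain ⟨h1, h2⟩ := hB1 Γ J ν S hS hSc hE he C hCC hC hd hpp
    refine hB2 Γ J ν S hS hSc hE he (C n) (C (n + 1)) (hCC n) h1 ?_ h2
    intro g j hj
    by_cases h : j ∈ C n
    · intro k k' hk
      show S g k j - k j = S g k' j - k' j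
      rw [hk j h]
      congr 1
      exact h1 g j h k k' hk
    · exact hd n g j hj h

/-- a set containing all coordinates -/
theorem pk_top {p : ℕ} [Fact p.Prime] {B : ℕ → ℕ → ℕ} {Γ : Type} [AddCommGroup Γ]
    {J : Type} [Countable J] {ν : Measure (J → ZMod p)} [IsProbabilityMeasure ν]
    [ν.IsAddLeftInvariant] {S : Γ → (J → ZMod p) → (J → ZMod p)} (hS : IsAction ν S)
    (hSc : ∀ g, Continuous (S g)) {C : Set J} (hC : ∀ j, j ∈ C)
    (h : PolyProp p (ν.map (pk_res p C)) (pk_S p S C) B) : PolyProp p ν S B := by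
  have hCl : Cl S C := by
    intro g j _ k k' hk
    have : k = k' := funext fun i => hk i (hC i)
    rw [this]
  let e : ({j // j ∈ C} → ZMod p) →+ (J → ZMod p) :=
    { toFun := fun k j => k ⟨j, hC j⟩
      map_zero' := rfl
      map_add' := fun _ _ => rfl }
  have hec : Continuous e := continuous_pi fun j => continuous_apply _
  have hprob : IsProbabilityMeasure (ν.map (pk_res p C)) :=
    Measure.isProbabilityMeasure_map (pk_res_cont C).measurable.aemeasurable
  have hinv : (ν.map (pk_res p C)).IsAddLeftInvariant :=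
    pk_inv_map ν (pk_res p C) (pk_res_cont C).measurable (pk_res_surj C)
  have hm : MeasurePreserving e (ν.map (pk_res p C)) ν :=
    pk_haar_map _ _ e hec fun k => ⟨pk_res p C k, rfl⟩
  refine pk_polyProp_equiv e (pk_res p C) (fun _ => rfl) (fun _ => rfl) (pk_res_cont C) hm
    ⟨(pk_res_cont C).measurable, rfl⟩
    (pk_factor_action hS ⟨(pk_res_cont C).measurable, rfl⟩ (pk_res_surj C)
      (fun g k => (pk_S_res hCl g k).symm) fun g => (pk_S_cont hSc C g).measurable).qmp ?_ h
  intro g k
  obtain ⟨k, rfl⟩ := pk_res_surj C k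
  rw [pk_S_res hCl]
  rfl

end Pool.Agent.FpTrans
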