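import Pool.Agent.FpOrd.PairTow1

/-!
# Package K, part 2 (helper50): the tower of a pair of points, from the basic properties of the
ergodic components of `μ × μ`
-/

set_option autoImplicit false
open MeasureTheory Filter Topology ProbabilityTheory

namespace Pool.Agent.FpTrans

universe u v w

section pair

variable {p : ℕ} {Γ I J : Type}

/-- coordinates of the first point -/
def pk_A1 (k : I ⊕ (J ⊕ J) → ZMod p) : I ⊕ J → ZMod p :=
  Sum.elim (fun i => k (Sum.inl i)) (fun j => k (Sum.inr (Sum.inl j)))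

/-- coordinates of the second point -/
def pk_A2 (s : I → ZMod p) (k : I ⊕ (J ⊕ J) → ZMod p) : I ⊕ J → ZMod p :=
  Sum.elim (fun i => k (Sum.inl i) + s i) (fun j => k (Sum.inr (Sum.inr j)))

/-- the action on pairs -/
def pk_SW (S : Γ → (I ⊕ J → ZMod p) → (I ⊕ J → ZMod p)) (α : Γ → I → ZMod p) (s : I → ZMod p) :
    Γ → (I ⊕ (J ⊕ J) → ZMod p) → (I ⊕ (J ⊕ J) → ZMod p) :=
  fun g k => Sum.elim (fun i => k (Sum.inl i) + α g i)
    (Sum.elim (fun j => S g (pk_A1 k) (Sum.inr j)) (fun j => S g (pk_A2 s k) (Sum.inr j)))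

theorem pk_A_ext {s : I → ZMod p} {k k' : I ⊕ (J ⊕ J) → ZMod p} (h1 : pk_A1 k = pk_A1 k')
    (h2 : pk_A2 s k = pk_A2 s k') : k = k' := by
  funext j
  rcases j with i | j | j
  · exact congrFun h1 (Sum.inl i)
  · exact congrFun h1 (Sum.inr j)
  · exact congrFun h2 (Sum.inr j)

variable {S : Γ → (I ⊕ J → ZMod p) → (I ⊕ J → ZMod p)} {α : Γ → I → ZMod p} {s : I → ZMod p}

theorem pk_A1_SW (h0 : ∀ g k i, S g k (Sum.inl i) = k (Sum.inl i) + α g i) (g : Γ)
    (k : I ⊕ (J ⊕ J) → ZMod p) : pk_A1 (pk_SW S α s g k) = S g (pk_A1 k) := by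
  funext j
  rcases j with i | j
  · rw [h0]; rfl
  · rfl

theorem pk_A2_SW (h0 : ∀ g k i, S g k (Sum.inl i) = k (Sum.inl i) + α g i) (g : Γ)
    (k : I ⊕ (J ⊕ J) → ZMod p) : pk_A2 s (pk_SW S α s g k) = S g (pk_A2 s k) := by
  funext j
  rcases j with i | j
  · rw [h0]
    show k (Sum.inl i) + α g i + s i = k (Sum.inl i) + s i + α g i
    ring
  · rfl

theorem pk_A1_cont : Continuous (pk_A1 : (I ⊕ (J ⊕ J) → ZMod p) → I ⊕ J → ZMod p) := by
  refine continuous_pi fun j => ?_
  rcases j with i | j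
  · exact continuous_apply _
  · exact continuous_apply _

theorem pk_A2_cont : Continuous (pk_A2 s : (I ⊕ (J ⊕ J) → ZMod p) → I ⊕ J → ZMod p) := by
  refine continuous_pi fun j => ?_
  rcases j with i | j
  · exact (continuous_apply (Sum.inl i)).add continuous_const
  · exact continuous_apply _

theorem pk_SW_cont (hS : ∀ g, Continuous (S g)) (g : Γ) : Continuous (pk_SW S α s g) := by
  refine continuous_pi fun j => ?_
  rcases j with i | j | j
  · exact (continuous_apply (Sum.inl i)).add continuous_const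
  · exact (continuous_apply (Sum.inr j : I ⊕ J)).comp ((hS g).comp pk_A1_cont)
  · exact (continuous_apply (Sum.inr j : I ⊕ J)).comp ((hS g).comp pk_A2_cont)

/-- the coordinates of a pair are polynomials -/
theorem pk_SW_poly {D : ℕ} (h0 : ∀ g k i, S g k (Sum.inl i) = k (Sum.inl i) + α g i)
    (h : ∀ j, IsPoly (tm S) (D + 1) (fun k => k j)) (j : I ⊕ (J ⊕ J)) :
    IsPoly (tm (pk_SW S α s)) (D + 1) (fun k => k j) := by
  have h1 : ∀ j, IsPoly (tm (pk_SW S α s)) (D + 1) (fun k => pk_A1 k j) := by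
    intro j
    refine (h j).comp_map (t' := tm (pk_SW S α s)) pk_A1
      (fun i => match i with
      | .inl y => .inl (pk_A1 y)
      | .inr g => .inr g) ?_
    rintro (y | g) k
    · funext j
      rcases j with i | j <;> rfl
    · exact pk_A1_SW h0 g k
  have h2 : ∀ j, IsPoly (tm (pk_SW S α s)) (D + 1) (fun k => pk_A2 s k j) := by
    intro j
    refine (h j).comp_map (t' := tm (pk_SW S α s)) (pk_A2 s)
      (fun i => match i with
      | .inl y => .inl (pk_A2 0 y)
      | .inr g => .inr g) ?_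
    rintro (y | g) k
    · funext j
      rcases j with i | j
      · show k (Sum.inl i) + y (Sum.inl i) + s i = k (Sum.inl i) + s i + (y (Sum.inl i) + 0)
        ring
      · rfl
    · exact pk_A2_SW h0 g k
  rcases j with i | j | j
  · exact h1 (Sum.inl i)
  · exact h1 (Sum.inr j)
  · exact h2 (Sum.inr j)

theorem pk_SW_tri1 {lev : J → ℕ}
    (h : ∀ g j, DepOn {i | lv lev i < lv lev j} (fun k => S g k j - k j)) (g : Γ) :
    ∀ j ∈ U₁ I J, DepOn {i | i ∈ U₁ I J ∧ lw lev i < lw lev j}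
      (fun k => pk_SW S α s g k j - k j) := by
  intro j hj k k' hk
  rcases j with i | j | j
  · show k (Sum.inl i) + α g i - k (Sum.inl i) = k' (Sum.inl i) + α g i - k' (Sum.inl i)
    ring
  · refine h g (Sum.inr j) (pk_A1 k) (pk_A1 k') fun i hi => ?_
    rcases i with i | i
    · exact hk (Sum.inl i) ⟨fun _ => by simp, hi⟩
    · exact hk (Sum.inr (Sum.inl i)) ⟨fun _ => by simp, hi⟩
  · exact absurd rfl (hj j)

theorem pk_SW_tri2 {lev : J → ℕ}
    (h : ∀ g j, DepOn {i | lv lev i < lv lev j} (fun k => S g k j - k j)) (g : Γ) :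
    ∀ j ∈ U₂ I J, DepOn {i | i ∈ U₂ I J ∧ lw lev i < lw lev j}
      (fun k => pk_SW S α s g k j - k j) := by
  intro j hj k k' hk
  rcases j with i | j | j
  · show k (Sum.inl i) + α g i - k (Sum.inl i) = k' (Sum.inl i) + α g i - k' (Sum.inl i)
    ring
  · exact absurd rfl (hj j)
  · refine h g (Sum.inr j) (pk_A2 s k) (pk_A2 s k') fun i hi => ?_
    rcases i with i | i
    · show k (Sum.inl i) + s i = k' (Sum.inl i) + s i
      rw [hk (Sum.inl i) ⟨fun _ => by simp, hi⟩]
    · exact hk (Sum.inr (Sum.inr i)) ⟨fun _ => by simp, hi⟩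

/-- the joint coordinates of a pair of points, and the difference of the Kronecker coordinates -/
def pk_joint (p : ℕ) (I J : Type) : ((I ⊕ J → ZMod p) × (I ⊕ J → ZMod p)) →+
    ((I → ZMod p) × (I ⊕ (J ⊕ J) → ZMod p)) where
  toFun y := (fun i => y.2 (Sum.inl i) - y.1 (Sum.inl i),
    Sum.elim (fun i => y.1 (Sum.inl i))
      (Sum.elim (fun j => y.1 (Sum.inr j)) (fun j => y.2 (Sum.inr j))))
  map_zero' := by
    refine Prod.ext ?_ ?_
    · funext i; simp
    · funext j
      rcases j with i | j | j <;> rfl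
  map_add' y z := by
    refine Prod.ext ?_ ?_
    · funext i
      show y.2 (Sum.inl i) + z.2 (Sum.inl i) - (y.1 (Sum.inl i) + z.1 (Sum.inl i)) =
        y.2 (Sum.inl i) - y.1 (Sum.inl i) + (z.2 (Sum.inl i) - z.1 (Sum.inl i))
      ring
    · funext j
      rcases j with i | j | j <;> rfl

theorem pk_joint_cont : Continuous (pk_joint p I J) := by
  refine Continuous.prodMk ?_ ?_
  · refine continuous_pi fun i => ?_
    exact ((continuous_apply _).comp continuous_snd).sub ((continuous_apply _).comp continuous_fst)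
  · refine continuous_pi fun j => ?_
    rcases j with i | j | j
    · exact (continuous_apply (Sum.inl i : I ⊕ J)).comp continuous_fst
    · exact (continuous_apply (Sum.inr j : I ⊕ J)).comp continuous_fst
    · exact (continuous_apply (Sum.inr j : I ⊕ J)).comp continuous_snd

theorem pk_joint_surj : Function.Surjective (pk_joint p I J) := by
  rintro ⟨c, k⟩
  refine ⟨(pk_A1 k, pk_A2 c k), ?_⟩
  refine Prod.ext ?_ ?_
  · funext i
    show k (Sum.inl i) + c i - k (Sum.inl i) = c i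
    ring
  · funext j
    rcases j with i | j | j <;> rfl

end pair

/-- the law of the coordinates of a pair of points on almost every component is Haar measure -/
theorem pk_law (p : ℕ) [Fact p.Prime] {Γ : Type} [AddCommGroup Γ] [Countable Γ] {X : Type u}
    [MeasurableSpace X] {μ : Measure X} [IsProbabilityMeasure μ]
    {T : Γ → X → X} {I : Type} [Countable I] {η : Measure (I → ZMod p)} [IsProbabilityMeasure η]
    [η.IsAddLeftInvariant] {α : Γ → I → ZMod p} {z : X → I → ZMod p} (hzm : Measurable z)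
    {κ : Kernel (I → ZMod p) (X × X)} [IsMarkovKernel κ] (hκ : IsPair μ z η κ)
    {B : ℕ → ℕ → ℕ} {D n : ℕ} (M : Tow p μ T α z B D n)
    (νW : Measure (I ⊕ (M.J ⊕ M.J) → ZMod p)) [IsProbabilityMeasure νW]
    [νW.IsAddLeftInvariant] : ∀ᵐ s ∂η, MeasurePreserving (wmap M.a) (κ s) νW := by
  have hinv1 : (M.ν.prod M.ν).IsAddLeftInvariant := Measure.prod.instIsAddLeftInvariant
  have hinv2 : (η.prod νW).IsAddLeftInvariant := Measure.prod.instIsAddLeftInvariant
  have hj : MeasurePreserving (pk_joint p I M.J) (M.ν.prod M.ν) (η.prod νW) :=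
    pk_haar_map _ _ _ pk_joint_cont pk_joint_surj
  have hc : Measurable fun q : X × X => z q.2 - z q.1 :=
    (hzm.comp measurable_snd).sub (hzm.comp measurable_fst)
  have hjj : MeasurePreserving (fun q : X × X => (z q.2 - z q.1, wmap M.a q)) (μ.prod μ)
      (η.prod νW) := by
    have h1 := hj.comp (M.ha.prod M.ha)
    have h2 : (pk_joint p I M.J) ∘ (Prod.map M.a M.a) =
        fun q : X × X => (z q.2 - z q.1, wmap M.a q) := by
      funext q
      refine Prod.ext ?_ rfl
      funext i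
      show M.a q.2 (Sum.inl i) - M.a q.1 (Sum.inl i) = z q.2 i - z q.1 i
      rw [M.az, M.az]
    rwa [h2] at h1
  have hwm : Measurable (wmap M.a) := measurable_snd.comp hjj.measurable
  have h3 : η ⊗ₘ (κ.map (wmap M.a)) = η ⊗ₘ (Kernel.const _ νW) := by
    rw [Measure.compProd_map hwm, show η ⊗ₘ κ = _ from hκ, Measure.compProd_const,
      Measure.map_map (g := Prod.map id (wmap M.a)) (measurable_id.prodMap hwm)
        (hc.prodMk measurable_id')]
    exact hjj.map_eq
  filter_upwards [Kernel.ae_eq_of_compProd_eq h3] with s hs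
  refine ⟨hwm, ?_⟩
  rw [Kernel.map_apply _ hwm, Kernel.const_apply] at hs
  exact hs

/-- the first point's coordinates -/
theorem pk_base {p : ℕ} [Fact p.Prime] {Γ I J : Type} [AddCommGroup Γ] [Countable I]
    [Countable J] {ν : Measure (I ⊕ J → ZMod p)} [IsProbabilityMeasure ν] [ν.IsAddLeftInvariant]
    {S : Γ → (I ⊕ J → ZMod p) → (I ⊕ J → ZMod p)} (hS : IsAction ν S)
    {νW : Measure (I ⊕ (J ⊕ J) → ZMod p)} [IsProbabilityMeasure νW] [νW.IsAddLeftInvariant]
    {S' : Γ → (I ⊕ (J ⊕ J) → ZMod p) → (I ⊕ (J ⊕ J) → ZMod p)}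
    (h1 : ∀ g k, pk_A1 (S' g k) = S g (pk_A1 k)) {B : ℕ → ℕ → ℕ} (h : PolyProp p ν S B) :
    Cl S' (U₁ I J) ∧ PolyProp p (νW.map (pk_res p (U₁ I J))) (pk_S p S' (U₁ I J)) B := by
  have hCl : Cl S' (U₁ I J) := by
    intro g j hj k k' hk
    have h2 : pk_A1 k = pk_A1 k' := by
      funext i
      rcases i with i | i
      · exact hk (Sum.inl i) fun _ => by simp
      · exact hk (Sum.inr (Sum.inl i)) fun _ => by simp
    have h3 : pk_A1 (S' g k) = pk_A1 (S' g k') := by rw [h1, h1, h2]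
    rcases j with i | j | j
    · exact congrFun h3 (Sum.inl i)
    · exact congrFun h3 (Sum.inr j)
    · exact absurd rfl (hj j)
  refine ⟨hCl, ?_⟩
  have hprob : IsProbabilityMeasure (νW.map (pk_res p (U₁ I J))) :=
    Measure.isProbabilityMeasure_map (pk_res_cont _).measurable.aemeasurable
  have hinv : (νW.map (pk_res p (U₁ I J))).IsAddLeftInvariant :=
    pk_inv_map νW _ (pk_res_cont _).measurable (pk_res_surj _)
  let φ : I ⊕ (J ⊕ J) → I ⊕ J := Sum.elim Sum.inl (Sum.elim Sum.inr Sum.inr)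
  let e : (I ⊕ J → ZMod p) →+ ({j // j ∈ U₁ I J} → ZMod p) :=
    { toFun := fun k j => k (φ j.1)
      map_zero' := rfl
      map_add' := fun _ _ => rfl }
  let ψ : I ⊕ J → {j // j ∈ U₁ I J} :=
    Sum.elim (fun i => ⟨Sum.inl i, fun _ => by simp⟩)
      (fun j => ⟨Sum.inr (Sum.inl j), fun _ => by simp⟩)
  let e' : ({j // j ∈ U₁ I J} → ZMod p) →+ (I ⊕ J → ZMod p) :=
    { toFun := fun k j => k (ψ j)
      map_zero' := rfl
      map_add' := fun _ _ => rfl }
  have hψφ : ∀ j : {j // j ∈ U₁ I J}, ψ (φ j.1) = j := by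
    rintro ⟨j, hj⟩
    rcases j with i | j | j
    · rfl
    · rfl
    · exact absurd rfl (hj j)
  have hφψ : ∀ j : I ⊕ J, φ (ψ j).1 = j := by
    rintro (i | j) <;> rfl
  have hec : Continuous e := continuous_pi fun j => continuous_apply _
  have he'c : Continuous e' := continuous_pi fun j => continuous_apply _
  have hee' : ∀ k, e (e' k) = k := fun k => funext fun j => congrArg k (hψφ j)
  have he'e : ∀ k, e' (e k) = k := fun k => funext fun j => congrArg k (hφψ j)
  refine pk_polyProp_equiv e e' he'e hee' he'c (pk_haar_map _ _ e hec fun k => ⟨_, hee' k⟩)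
    (pk_haar_map _ _ e' he'c fun k => ⟨_, he'e k⟩) hS.qmp ?_ h
  intro g k
  have h4 : ∀ k : I ⊕ (J ⊕ J) → ZMod p, e (pk_A1 k) = pk_res p (U₁ I J) k := by
    intro k
    funext j
    obtain ⟨j, hj⟩ := j
    rcases j with i | j | j
    · rfl
    · rfl
    · exact absurd rfl (hj j)
  have h5 : pk_A1 (pk_ex p (U₁ I J) (e k)) = k := by
    rw [← he'e (pk_A1 _), h4, pk_res_ex, he'e]
  conv_lhs => rw [← h5]
  rw [← h1, h4]
  rfl

theorem pk_exists_pair (p D n : ℕ) [Fact p.Prime] (B : ℕ → ℕ → ℕ) :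
    ∃ (B' : ℕ → ℕ → ℕ) (D' : ℕ),
    ∀ (Γ : Type) [AddCommGroup Γ] [Countable Γ],
    ∀ (X : Type u) [MeasurableSpace X] (μ : Measure X)
      [IsProbabilityMeasure μ] (T : Γ → X → X), IsAction μ T →
    ∀ (I : Type) [Countable I] (η : Measure (I → ZMod p)) [IsProbabilityMeasure η]
      [η.IsAddLeftInvariant] (α : Γ → I → ZMod p) (z : X → I → ZMod p), Kron p μ T η α z →
    ∀ (κ : Kernel (I → ZMod p) (X × X)) [IsMarkovKernel κ], IsPair μ z η κ →
    (∀ᵐ s ∂η, IsAction (κ s) (pact T T) ∧ IsErgodic (κ s) (pact T T) ∧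
      MeasurePreserving Prod.fst (κ s) μ ∧ MeasurePreserving Prod.snd (κ s) μ ∧
      ∀ᵐ q ∂(κ s), z q.2 = z q.1 + s) →
    ∀ M : Tow p μ T α z B D n,
    ∃ (νW : Measure (I ⊕ (M.J ⊕ M.J) → ZMod p)) (_ : IsProbabilityMeasure νW)
      (_ : νW.IsAddLeftInvariant), ∀ᵐ s ∂η,
      ∃ S' : Γ → (I ⊕ (M.J ⊕ M.J) → ZMod p) → (I ⊕ (M.J ⊕ M.J) → ZMod p),
        IsAction νW S' ∧ (∀ g, Continuous (S' g)) ∧ IsErgodic νW S' ∧ PolyProp p νW S' B' ∧
        (∀ j, IsPoly (tm S') (D' + 1) (fun k => k j)) ∧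
        (∀ g, ∀ j ∈ U₁ I M.J, DepOn {i | i ∈ U₁ I M.J ∧ lw M.lev i < lw M.lev j}
          (fun k => S' g k j - k j)) ∧
        (∀ g, ∀ j ∈ U₂ I M.J, DepOn {i | i ∈ U₂ I M.J ∧ lw M.lev i < lw M.lev j}
          (fun k => S' g k j - k j)) ∧
        MeasurePreserving (wmap M.a) (κ s) νW ∧
        ∀ g, ∀ᵐ q ∂(κ s), wmap M.a (pact T T g q) = S' g (wmap M.a q) := by
  obtain ⟨B', hB'⟩ := pk_chain p (D + 1) B n
  refine ⟨B', D, ?_⟩
  intro Γ _ _ X _ μ _ T hT I _ η _ _ α z hz κ _ hκ hpb M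
  let νW : Measure (I ⊕ (M.J ⊕ M.J) → ZMod p) := Measure.addHaarMeasure ⊤
  have hνW : IsProbabilityMeasure νW := ⟨by
    have := Measure.addHaarMeasure_self (K₀ := (⊤ : TopologicalSpace.PositiveCompacts
      (I ⊕ (M.J ⊕ M.J) → ZMod p)))
    simpa using this⟩
  have hνi : νW.IsAddLeftInvariant := inferInstance
  refine ⟨νW, hνW, hνi, ?_⟩
  have hlaw := pk_law p hz.mp.measurable hκ M νW
  filter_upwards [hpb, hlaw] with s hs hsl
  obtain ⟨hsa, hse, hs1, hs2, hsz⟩ := hs
  have h0 := M.hS0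
  have hA1 : ∀ g k, pk_A1 (pk_SW M.S α s g k) = M.S g (pk_A1 k) := pk_A1_SW h0
  have hA2 : ∀ g k, pk_A2 s (pk_SW M.S α s g k) = M.S g (pk_A2 s k) := pk_A2_SW h0
  have hcont : ∀ g, Continuous (pk_SW M.S α s g) := pk_SW_cont M.hSc
  have heq : ∀ g, ∀ᵐ q ∂(κ s), wmap M.a (pact T T g q) = pk_SW M.S α s g (wmap M.a q) := by
    intro g
    filter_upwards [hs1.quasiMeasurePreserving.ae (M.haS g),
      hs2.quasiMeasurePreserving.ae (M.haS g), hsz,
      (hsa.qmp g).ae hsz] with q h1 h2 h3 h4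
    have e1 : ∀ q : X × X, pk_A1 (wmap M.a q) = M.a q.1 := by
      intro q
      funext j
      rcases j with i | j <;> rfl
    have e2 : ∀ q : X × X, z q.2 = z q.1 + s → pk_A2 s (wmap M.a q) = M.a q.2 := by
      intro q hq
      funext j
      rcases j with i | j
      · show M.a q.1 (Sum.inl i) + s i = M.a q.2 (Sum.inl i)
        rw [M.az, M.az, hq]; rfl
      · rfl
    refine pk_A_ext (s := s) ?_ ?_
    · rw [hA1, e1, e1]; exact h1
    · rw [hA2, e2 _ h3, e2 _ h4]; exact h2
  have hact : IsAction νW (pk_SW M.S α s) := by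
    refine ⟨?_, ?_, ?_⟩
    · intro k
      refine pk_A_ext (s := s) ?_ ?_
      · rw [hA1, M.hS.zero]
      · rw [hA2, M.hS.zero]
    · intro g h k
      refine pk_A_ext (s := s) ?_ ?_
      · rw [hA1, hA1, hA1, M.hS.add]
      · rw [hA2, hA2, hA2, M.hS.add]
    · intro g
      refine ⟨(hcont g).measurable, ?_⟩
      rw [← hsl.map_eq, Measure.map_map (hcont g).measurable hsl.measurable]
      have h1 : (κ s).map (pk_SW M.S α s g ∘ wmap M.a) =
          (κ s).map (wmap M.a ∘ pact T T g) := by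
        refine Measure.map_congr ?_
        filter_upwards [heq g] with q hq
        exact hq.symm
      rw [h1, ← Measure.map_map hsl.measurable (hsa.mp g).measurable, (hsa.mp g).map_eq]
  have herg : IsErgodic νW (pk_SW M.S α s) := hse.factor hsa hsl heq
  have hpoly : ∀ j, IsPoly (tm (pk_SW M.S α s)) (D + 1) (fun k => k j) :=
    pk_SW_poly h0 M.hw
  have haepoly : ∀ j, AEPoly νW (pk_SW M.S α s) (D + 1) (fun k => k j) := by
    intro j
    refine AEPoly.of_isPoly ?_
    exact (hpoly j).comp_map (t' := pk_SW M.S α s) (fun k => k) (fun g => .inr g)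
      (fun g k => rfl)
  have htri1 := pk_SW_tri1 (α := α) (s := s) M.tri
  have htri2 := pk_SW_tri2 (α := α) (s := s) M.tri
  refine ⟨pk_SW M.S α s, hact, hcont, herg, ?_, hpoly, htri1, htri2, hsl, heq⟩
  -- the chain
  obtain ⟨hb1, hb2⟩ := pk_base (νW := νW) M.hS hA1 M.pp
  let C : ℕ → Set (I ⊕ (M.J ⊕ M.J)) := fun r => {i | i ∈ U₁ I M.J ∨ lw M.lev i ≤ r}
  have hC0 : C 0 = U₁ I M.J := by
    ext i
    constructor
    · rintro (h | h)
      · exact h
      · rcases i with i | i | i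
        · exact fun _ => by simp
        · exact fun _ => by simp
        · exfalso
          have h1 : M.lev i ≤ 0 := h
          have h2 := (M.hlev i).1
          omega
    · exact Or.inl
  have hCn : ∀ j, j ∈ C n := by
    intro j
    rcases j with i | i | i
    · exact Or.inl fun _ => by simp
    · exact Or.inl fun _ => by simp
    · exact Or.inr (M.hlev i).2
  have hfin := hB' Γ (I ⊕ (M.J ⊕ M.J)) νW (pk_SW M.S α s) hact hcont herg haepoly C ?_ ?_ ?_ ?_
  · exact pk_top hact hcont hCn hfin.2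
  · rintro r i (h | h)
    · exact Or.inl h
    · exact Or.inr (Nat.le_succ_of_le h)
  · rw [hC0]; exact hb1
  · intro r g j hj hj' k k' hk
    have hjU : j ∉ U₁ I M.J := fun h => hj' (Or.inl h)
    have hjl : lw M.lev j ≤ r + 1 := by
      rcases hj with h | h
      · exact absurd h hjU
      · exact h
    rcases j with i | j | j
    · exact absurd (fun _ => by simp) hjU
    · exact absurd (fun _ => by simp) hjU
    · refine htri2 g (Sum.inr (Sum.inr j)) (fun _ => by simp) k k' fun i hi => hk i (Or.inr ?_)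
      have := hi.2
      omega
  · rw [hC0]; exact hb2

end Pool.Agent.FpTrans
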