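import Pool.Agent.FpOrd.Norm
import Pool.Agent.FpOrd.Mean

/-!
# Invariant functions on a product with an ergodic system
-/

set_option autoImplicit false
open MeasureTheory Filter Topology ProbabilityTheory

namespace Pool.Agent.FpTrans

universe u v w

/-- Wiener-type inequality on a finite abelian group. -/
theorem pd_wiener {G : Type*} [AddCommGroup G] [Fintype G] (c : G → ℂ) (d : AddChar G ℂ → ℝ)
    (hd : ∀ ψ : AddChar G ℂ,
      ∑ g, (starRingEnd ℂ) (ψ g) * c g = (Fintype.card G : ℂ) * (d ψ : ℂ))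
    (hd0 : ∀ ψ, 0 ≤ d ψ) (δ : ℝ) (hδ : ∀ ψ, d ψ ≤ δ) :
    ∑ g, ‖c g‖ ^ 2 ≤ (Fintype.card G : ℝ) * (δ * (c 0).re) := by
  classical
  have hcard : (Fintype.card G : ℂ) ≠ 0 := Nat.cast_ne_zero.2 Fintype.card_ne_zero
  have hinv : ∀ g, ∑ ψ : AddChar G ℂ, (d ψ : ℂ) * ψ g = c g := by
    intro g
    have h1 : (Fintype.card G : ℂ) * ∑ ψ : AddChar G ℂ, (d ψ : ℂ) * ψ g =
        (Fintype.card G : ℂ) * c g := by
      rw [Finset.mul_sum]
      have h2 : ∀ ψ : AddChar G ℂ, (Fintype.card G : ℂ) * ((d ψ : ℂ) * ψ g) =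
          ∑ h, c h * ψ (g - h) := by
        intro ψ
        rw [← mul_assoc, ← hd ψ, Finset.sum_mul]
        refine Finset.sum_congr rfl fun h _ => ?_
        rw [sub_eq_add_neg, AddChar.map_add_eq_mul, AddChar.map_neg_eq_conj]
        ring
      rw [Finset.sum_congr rfl fun ψ _ => h2 ψ, Finset.sum_comm]
      have h3 : ∀ h : G, ∑ ψ : AddChar G ℂ, c h * ψ (g - h) =
          if h = g then (Fintype.card G : ℂ) * c g else 0 := by
        intro h
        rw [← Finset.mul_sum, AddChar.sum_apply_eq_ite]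
        by_cases hh : h = g
        · subst hh; simp [mul_comm]
        · rw [if_neg hh, if_neg (fun h' => hh (sub_eq_zero.1 h').symm), mul_zero]
      rw [Finset.sum_congr rfl fun h _ => h3 h]
      simp
    exact mul_left_cancel₀ hcard h1
  have h0 : ∑ ψ : AddChar G ℂ, d ψ = (c 0).re := by
    have := congrArg Complex.re (hinv 0)
    rw [← this]
    simp
  have hpars : (∑ g, ‖c g‖ ^ 2 : ℝ) = (Fintype.card G : ℝ) * ∑ ψ : AddChar G ℂ, d ψ ^ 2 := by
    have h1 : ((∑ g, ‖c g‖ ^ 2 : ℝ) : ℂ) =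
        ((Fintype.card G : ℝ) * ∑ ψ : AddChar G ℂ, d ψ ^ 2 : ℝ) := by
      push_cast
      have h2 : ∀ g, ((‖c g‖ : ℝ) : ℂ) ^ 2 = ∑ ψ : AddChar G ℂ,
          (d ψ : ℂ) * ((starRingEnd ℂ) (ψ g) * c g) := by
        intro g
        have e1 : ((‖c g‖ : ℝ) : ℂ) ^ 2 = (starRingEnd ℂ) (c g) * c g := by
          rw [mul_comm, Complex.mul_conj, Complex.normSq_eq_norm_sq]
          push_cast
          ring
        rw [e1]
        conv_lhs => rw [← hinv g]
        rw [map_sum]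
        conv_lhs => rw [hinv g]
        rw [Finset.sum_mul]
        refine Finset.sum_congr rfl fun ψ _ => ?_
        rw [map_mul, Complex.conj_ofReal]
        ring
      rw [Finset.sum_congr rfl fun g _ => h2 g, Finset.sum_comm, Finset.mul_sum]
      refine Finset.sum_congr rfl fun ψ _ => ?_
      rw [← Finset.mul_sum, hd ψ]
      ring
    exact_mod_cast h1
  rw [hpars, ← h0]
  refine mul_le_mul_of_nonneg_left ?_ (Nat.cast_nonneg _)
  rw [Finset.mul_sum]
  refine Finset.sum_le_sum fun ψ _ => ?_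
  rw [sq]
  exact mul_le_mul_of_nonneg_right (hδ ψ) (hd0 ψ)


theorem pd_ee_nsmul (n : ℕ) (t : UnitAddCircle) : ee (n • t) = ee t ^ n := by
  induction n with
  | zero => simp [ee_zero]
  | succ n ih => rw [succ_nsmul, ee_add, ih, pow_succ]

theorem pd_root {p : ℕ} [Fact p.Prime] {w : ℂ} (hw : w ^ p = 1) :
    ∃ j : ZMod p, w = ee (ZMod.toAddCircle j) := by
  have hp : 0 < p := (Fact.out : p.Prime).pos
  have hn : ‖w‖ = 1 := by
    have h1 : ‖w‖ ^ p = 1 := by rw [← norm_pow, hw, norm_one]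
    exact (pow_eq_one_iff_of_nonneg (norm_nonneg _) hp.ne').1 h1
  obtain ⟨θ, -, hθ, -⟩ := exists_arg
  have h2 : w = ee (θ w) := by
    conv_lhs => rw [hθ w, hn]
    simp
  have h3 : p • θ w = 0 := by
    rw [← ee_inj, pd_ee_nsmul, ← h2, hw, ee_zero]
  rw [AddCircle.nsmul_eq_zero_iff hp] at h3
  obtain ⟨m, hm, hm2⟩ := h3
  refine ⟨(m : ZMod p), ?_⟩
  rw [h2, ← hm2, ZMod.toAddCircle_natCast]
  simp

/-- eigenfunctions are captured by the Kronecker factor -/
theorem pd_eigen {p : ℕ} [Fact p.Prime] {Γ : Type} [AddCommGroup Γ] [Countable Γ]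
    (hΓ : ∀ g : Γ, p • g = 0) {X : Type u} [MeasurableSpace X]
    {μ : Measure X} [IsProbabilityMeasure μ] {T : Γ → X → X} (hT : IsAction μ T)
    (hE : IsErgodic μ T) {I : Type} [Countable I] {η : Measure (I → ZMod p)}
    {α : Γ → I → ZMod p} {z : X → I → ZMod p}
    (hz : Kron p μ T η α z) (χ : Γ → UnitAddCircle) (hχ : ∀ g h, χ (g + h) = χ g + χ h)
    (Ψ : X → ℂ) (hΨ : Measurable Ψ) (hinv : ∀ g, ∀ᵐ x ∂μ, Ψ (T g x) = ee (χ g) * Ψ x) :
    ∃ h : (I → ZMod p) → ℂ, Measurable h ∧ (∃ C : ℝ, ∀ k, ‖h k‖ ≤ C) ∧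
      ∀ᵐ x ∂μ, Ψ x = h (z x) := by
  have hp : 0 < p := (Fact.out : p.Prime).pos
  have hχ0 : χ 0 = 0 := by
    have := hχ 0 0
    rw [add_zero] at this
    simpa using this
  have hχn : ∀ (n : ℕ) g, χ (n • g) = n • χ g := by
    intro n g
    induction n with
    | zero => simp [hχ0]
    | succ n ih => rw [succ_nsmul, hχ, ih, succ_nsmul]
  have hχp : ∀ g, p • χ g = 0 := fun g => by rw [← hχn, hΓ, hχ0]
  -- the `p`-th power is constant
  obtain ⟨w, hw⟩ := hE.const hT (f := fun x => Ψ x ^ p) (hΨ.pow_const p) (fun g => by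
    filter_upwards [hinv g] with x hx
    rw [hx, mul_pow, ← pd_ee_nsmul, hχp, ee_zero, one_mul])
  by_cases hw0 : w = 0
  · refine ⟨fun _ => 0, measurable_const, ⟨0, fun k => by simp⟩, ?_⟩
    filter_upwards [hw] with x hx
    rw [hw0] at hx
    exact pow_eq_zero_iff hp.ne' |>.1 hx
  obtain ⟨w₁, hw₁⟩ := IsAlgClosed.exists_pow_nat_eq w hp
  have hw₁0 : w₁ ≠ 0 := by
    rintro rfl
    rw [zero_pow hp.ne'] at hw₁
    exact hw0 hw₁.symm
  classical
  let Q : X → ZMod p := fun x =>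
    ∑ j : ZMod p, if Ψ x = w₁ * ee (ZMod.toAddCircle j) then j else 0
  have hQm : Measurable Q := by
    refine Finset.measurable_sum _ fun j _ => ?_
    exact Measurable.ite (measurableSet_eq_fun hΨ measurable_const) measurable_const
      measurable_const
  have hQ : ∀ᵐ x ∂μ, Ψ x = w₁ * ee (ZMod.toAddCircle (Q x)) := by
    filter_upwards [hw] with x hx
    have h1 : (Ψ x / w₁) ^ p = 1 := by
      rw [div_pow, hx, hw₁, div_self hw0]
    obtain ⟨j, hj⟩ := pd_root h1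
    have h2 : Ψ x = w₁ * ee (ZMod.toAddCircle j) := by
      rw [← hj]; field_simp
    have h3 : Q x = j := by
      show ∑ j : ZMod p, (if Ψ x = w₁ * ee (ZMod.toAddCircle j) then j else 0) = j
      rw [Finset.sum_eq_single j]
      · rw [if_pos h2]
      · intro i _ hij
        rw [if_neg]
        intro h4
        rw [h2] at h4
        have h5 := mul_left_cancel₀ hw₁0 h4
        rw [ee_inj] at h5
        exact hij (ZMod.toAddCircle_injective p h5).symm
      · intro h4; exact absurd (Finset.mem_univ _) h4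
    rw [h3]; exact h2
  have hpoly : AEPoly μ T 2 Q := by
    apply AEPoly.of_hom (ZMod.toAddCircle : ZMod p →+ UnitAddCircle)
      (ZMod.toAddCircle_injective p)
    intro g
    refine AEPoly.congr hT.qmp (AEPoly.const (χ g)) ?_
    filter_upwards [hinv g, hQ, (hT.qmp g).ae hQ] with x h1 h2 h3
    have h4 : ee (ZMod.toAddCircle (Q (T g x))) = ee (χ g + ZMod.toAddCircle (Q x)) := by
      rw [h3, h2] at h1
      rw [ee_add]
      have h5 : w₁ * ee (ZMod.toAddCircle (Q (T g x))) =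
          w₁ * (ee (χ g) * ee (ZMod.toAddCircle (Q x))) := by
        rw [h1]; ring
      exact mul_left_cancel₀ hw₁0 h5
    rw [ee_inj] at h4
    rw [h4]; abel
  obtain ⟨f, hf, hfe⟩ := hz.full Q hQm hpoly
  refine ⟨fun k => w₁ * ee (ZMod.toAddCircle (f k)), ?_, ⟨‖w₁‖, fun k => ?_⟩, ?_⟩
  · exact measurable_const.mul (continuous_ee.measurable.comp
      ((measurable_of_countable (ZMod.toAddCircle : ZMod p →+ UnitAddCircle)).comp hf))
  · rw [norm_mul, norm_ee, mul_one]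
  · filter_upwards [hQ, hfe] with x h1 h2
    rw [h1, h2]


theorem pd_integrable {X : Type u} [MeasurableSpace X] {μ : Measure X} [IsProbabilityMeasure μ]
    {f : X → ℂ} (hf : Measurable f) {C : ℝ} (hC : ∀ x, ‖f x‖ ≤ C) : Integrable f μ :=
  Integrable.of_bound hf.aestronglyMeasurable C (Filter.Eventually.of_forall hC)

theorem pd_avg_norm {Γ : Type v} {E : Finset Γ} (hE : E.Nonempty) (F : Γ → ℂ) (C : ℝ)
    (h : ∀ g ∈ E, ‖F g‖ ≤ C) : ‖avg E F‖ ≤ C := by
  unfold avg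
  have hc : (0 : ℝ) < E.card := by exact_mod_cast hE.card_pos
  rw [norm_smul, norm_inv, Real.norm_natCast, inv_mul_le_iff₀ hc]
  calc ‖∑ g ∈ E, F g‖ ≤ ∑ g ∈ E, ‖F g‖ := norm_sum_le _ _
    _ ≤ ∑ g ∈ E, C := Finset.sum_le_sum h
    _ = E.card * C := by rw [Finset.sum_const, nsmul_eq_mul]

theorem pd_avg_const {Γ : Type v} {V : Type w} [AddCommGroup V] [Module ℝ V] {E : Finset Γ}
    (hE : E.Nonempty) (c : V) : avg E (fun _ => c) = c := by
  unfold avg
  have hc : (E.card : ℝ) ≠ 0 := by exact_mod_cast hE.card_pos.ne'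
  rw [Finset.sum_const, ← Nat.cast_smul_eq_nsmul ℝ, smul_smul, inv_mul_cancel₀ hc, one_smul]

theorem pd_avg_congr {Γ : Type v} {V : Type w} [AddCommMonoid V] [SMul ℝ V] {E : Finset Γ}
    {F G : Γ → V} (h : ∀ g ∈ E, F g = G g) : avg E F = avg E G := by
  unfold avg
  rw [Finset.sum_congr rfl h]

/-- twisted average -/
noncomputable def pdv {Γ : Type} {X : Type u} (E : Finset Γ) (T : Γ → X → X)
    (χ : Γ → UnitAddCircle) (v : X → ℂ) : X → ℂ :=
  fun x => avg E (fun g => ee (-χ g) * v (T g x))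

/-- a finite subgroup -/
structure IsFS {Γ : Type} [AddCommGroup Γ] (E : Finset Γ) : Prop where
  zero : (0 : Γ) ∈ E
  add : ∀ g ∈ E, ∀ h ∈ E, g + h ∈ E
  neg : ∀ g ∈ E, -g ∈ E

section

variable {Γ : Type} [AddCommGroup Γ] {X : Type u} [MeasurableSpace X]
    {μ : Measure X} [IsProbabilityMeasure μ] {T : Γ → X → X}

theorem pdv_measurable {E : Finset Γ} (hT : IsAction μ T) (χ : Γ → UnitAddCircle) {v : X → ℂ}
    (hv : Measurable v) : Measurable (pdv E T χ v) := by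
  have h1 : Measurable (fun x => ∑ g ∈ E, ee (-χ g) * v (T g x)) :=
    Finset.measurable_sum E fun g _ => measurable_const.mul (hv.comp (hT.mp g).measurable)
  exact h1.const_smul ((E.card : ℝ)⁻¹)

theorem pdv_bound {E : Finset Γ} (hE : E.Nonempty) (χ : Γ → UnitAddCircle) {v : X → ℂ} {C : ℝ}
    (hC : ∀ x, ‖v x‖ ≤ C) (x : X) : ‖pdv E T χ v x‖ ≤ C := by
  refine pd_avg_norm hE _ C fun g _ => ?_
  rw [norm_mul, norm_ee, one_mul]; exact hC _

theorem pdv_eqv {E : Finset Γ} (hE : IsFS E) (hT : IsAction μ T) {χ : Γ → UnitAddCircle}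
    (hχ : ∀ g ∈ E, ∀ h ∈ E, χ (g + h) = χ g + χ h) (v : X → ℂ) {h : Γ} (hh : h ∈ E) (x : X) :
    pdv E T χ v (T h x) = ee (χ h) * pdv E T χ v x := by
  unfold pdv avg
  rw [mul_smul_comm, Finset.mul_sum]
  congr 1
  refine Finset.sum_nbij' (fun g => g + h) (fun g => g - h) ?_ ?_ ?_ ?_ ?_
  · intro g hg; exact hE.add _ hg _ hh
  · intro g hg; show g - h ∈ E; rw [sub_eq_add_neg]; exact hE.add _ hg _ (hE.neg _ hh)
  · intro g _; simp
  · intro g _; simp
  · intro g hg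
    rw [← hT.add, hχ g hg h hh, ← mul_assoc, ← ee_add]
    congr 2
    abel

theorem pd_integral_comp (hT : IsAction μ T) (g : Γ) {f : X → ℂ} (hf : Measurable f) :
    ∫ x, f (T g x) ∂μ = ∫ x, f x ∂μ := by
  conv_rhs => rw [← (hT.mp g).map_eq]
  rw [integral_map (hT.mp g).measurable.aemeasurable hf.aestronglyMeasurable]

theorem pd_integral_avg {E : Finset Γ} (F : Γ → X → ℂ) (hF : ∀ g ∈ E, Integrable (F g) μ) :
    ∫ x, avg E (fun g => F g x) ∂μ = avg E (fun g => ∫ x, F g x ∂μ) := by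
  unfold avg
  rw [integral_smul, integral_finsetSum _ hF]

theorem pd_conj_avg {E : Finset Γ} (F : Γ → ℂ) :
    (starRingEnd ℂ) (avg E F) = avg E (fun g => (starRingEnd ℂ) (F g)) := by
  unfold avg
  rw [Complex.real_smul, map_mul, Complex.conj_ofReal, map_sum, Complex.real_smul]

theorem pd_mul_avg {E : Finset Γ} (F : Γ → ℂ) (c : ℂ) :
    c * avg E F = avg E (fun g => c * F g) := by
  unfold avg
  rw [mul_smul_comm, Finset.mul_sum]

/-- averaging over a subgroup on the right -/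
theorem pd_inner {E F : Finset Γ} (hE : IsFS E) (hF : F.Nonempty) (hFE : F ⊆ E)
    (hT : IsAction μ T) {χ : Γ → UnitAddCircle}
    (hχ : ∀ g ∈ E, ∀ h ∈ E, χ (g + h) = χ g + χ h) {v : X → ℂ} (hv : Measurable v) {C : ℝ}
    (hC : ∀ x, ‖v x‖ ≤ C) :
    ∫ x, pdv E T χ v x * (starRingEnd ℂ) (v x) ∂μ =
      ∫ x, pdv E T χ v x * (starRingEnd ℂ) (pdv F T χ v x) ∂μ := by
  have hEn : E.Nonempty := ⟨0, hE.zero⟩
  have hm : Measurable (pdv E T χ v) := pdv_measurable hT χ hv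
  have hcm : Measurable (starRingEnd ℂ) := Complex.continuous_conj.measurable
  have h1 : ∀ h ∈ F, ∫ x, pdv E T χ v x * (starRingEnd ℂ) (v x) ∂μ =
      ∫ x, pdv E T χ v x * (starRingEnd ℂ) (ee (-χ h) * v (T h x)) ∂μ := by
    intro h hh
    rw [← pd_integral_comp hT h (f := fun x => pdv E T χ v x * (starRingEnd ℂ) (v x))
      (hm.mul (hcm.comp hv))]
    refine integral_congr_ae (Filter.Eventually.of_forall fun x => ?_)
    show pdv E T χ v (T h x) * (starRingEnd ℂ) (v (T h x)) =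
      pdv E T χ v x * (starRingEnd ℂ) (ee (-χ h) * v (T h x))
    rw [pdv_eqv hE hT hχ v (hFE hh), map_mul, ← ee_neg, neg_neg]
    ring
  rw [← pd_avg_const hF (∫ x, pdv E T χ v x * (starRingEnd ℂ) (v x) ∂μ), pd_avg_congr h1,
    ← pd_integral_avg]
  · refine integral_congr_ae (Filter.Eventually.of_forall fun x => ?_)
    show avg F (fun g => pdv E T χ v x * (starRingEnd ℂ) (ee (-χ g) * v (T g x))) =
      pdv E T χ v x * (starRingEnd ℂ) (avg F (fun g => ee (-χ g) * v (T g x)))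
    rw [pd_conj_avg, pd_mul_avg]
  · intro g _
    have hb : ∀ x, ‖pdv E T χ v x * (starRingEnd ℂ) (ee (-χ g) * v (T g x))‖ ≤ C * C := by
      intro x
      rw [norm_mul]
      refine mul_le_mul (pdv_bound hEn χ hC x) ?_ (norm_nonneg _)
        ((norm_nonneg _).trans (hC x))
      rw [RCLike.norm_conj, norm_mul, norm_ee, one_mul]; exact hC _
    exact pd_integrable (hm.mul (hcm.comp (measurable_const.mul
      (hv.comp (hT.mp g).measurable)))) hb

/-- the correlation -/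
noncomputable def pdc (μ : Measure X) (T : Γ → X → X) (v : X → ℂ) (g : Γ) : ℂ :=
  ∫ x, v (T g x) * (starRingEnd ℂ) (v x) ∂μ

theorem pd_inner_eq {E : Finset Γ} (hT : IsAction μ T) (χ : Γ → UnitAddCircle) {v : X → ℂ}
    (hv : Measurable v) {C : ℝ} (hC : ∀ x, ‖v x‖ ≤ C) :
    ∫ x, pdv E T χ v x * (starRingEnd ℂ) (v x) ∂μ = avg E (fun g => ee (-χ g) * pdc μ T v g) := by
  have hcm : Measurable (starRingEnd ℂ) := Complex.continuous_conj.measurable
  have h1 : ∀ g ∈ E, ee (-χ g) * pdc μ T v g =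
      ∫ x, ee (-χ g) * (v (T g x) * (starRingEnd ℂ) (v x)) ∂μ := by
    intro g _
    rw [integral_const_mul]; rfl
  rw [pd_avg_congr h1, ← pd_integral_avg]
  · refine integral_congr_ae (Filter.Eventually.of_forall fun x => ?_)
    show pdv E T χ v x * (starRingEnd ℂ) (v x) = avg E _
    rw [pdv, mul_comm, pd_mul_avg]
    refine pd_avg_congr fun g _ => ?_
    ring
  · intro g _
    have hb : ∀ x, ‖ee (-χ g) * (v (T g x) * (starRingEnd ℂ) (v x))‖ ≤ C * C := by
      intro x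
      rw [norm_mul, norm_ee, one_mul, norm_mul]
      refine mul_le_mul (hC _) ?_ (norm_nonneg _) ((norm_nonneg _).trans (hC x))
      rw [RCLike.norm_conj]; exact hC _
    exact pd_integrable (measurable_const.mul ((hv.comp (hT.mp g).measurable).mul
      (hcm.comp hv))) hb

theorem pd_norm_eq {E : Finset Γ} (hE : IsFS E) (hT : IsAction μ T) {χ : Γ → UnitAddCircle}
    (hχ : ∀ g ∈ E, ∀ h ∈ E, χ (g + h) = χ g + χ h) {v : X → ℂ} (hv : Measurable v) {C : ℝ}
    (hC : ∀ x, ‖v x‖ ≤ C) :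
    ((∫ x, ‖pdv E T χ v x‖ ^ 2 ∂μ : ℝ) : ℂ) = avg E (fun g => ee (-χ g) * pdc μ T v g) := by
  rw [← pd_inner_eq hT χ hv hC, pd_inner hE ⟨0, hE.zero⟩ (Finset.Subset.refl _) hT hχ hv hC,
    ← integral_complex_ofReal]
  refine integral_congr_ae (Filter.Eventually.of_forall fun x => ?_)
  show ((‖pdv E T χ v x‖ ^ 2 : ℝ) : ℂ) = pdv E T χ v x * (starRingEnd ℂ) (pdv E T χ v x)
  rw [Complex.mul_conj, Complex.normSq_eq_norm_sq]

theorem pd_norm_anti {E F : Finset Γ} (hE : IsFS E) (hF : IsFS F) (hFE : F ⊆ E)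
    (hT : IsAction μ T) {χ : Γ → UnitAddCircle}
    (hχ : ∀ g ∈ E, ∀ h ∈ E, χ (g + h) = χ g + χ h) {v : X → ℂ} (hv : Measurable v) {C : ℝ}
    (hC : ∀ x, ‖v x‖ ≤ C) :
    ∫ x, ‖pdv E T χ v x‖ ^ 2 ∂μ ≤ ∫ x, ‖pdv F T χ v x‖ ^ 2 ∂μ := by
  have hEn : E.Nonempty := ⟨0, hE.zero⟩
  have hFn : F.Nonempty := ⟨0, hF.zero⟩
  have hmE : Measurable (pdv E T χ v) := pdv_measurable hT χ hv
  have hmF : Measurable (pdv F T χ v) := pdv_measurable hT χ hv
  have h1 : ∫ x, ‖pdv E T χ v x‖ ^ 2 ∂μ =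
      (∫ x, pdv E T χ v x * (starRingEnd ℂ) (pdv F T χ v x) ∂μ).re := by
    rw [← pd_inner hE hFn hFE hT hχ hv hC, pd_inner_eq hT χ hv hC,
      ← pd_norm_eq hE hT hχ hv hC, Complex.ofReal_re]
  have hiE : Integrable (fun x => ‖pdv E T χ v x‖ ^ 2) μ := by
    refine Integrable.of_bound (hmE.norm.pow_const 2).aestronglyMeasurable (C ^ 2)
      (Filter.Eventually.of_forall fun x => ?_)
    rw [Real.norm_eq_abs, abs_of_nonneg (sq_nonneg _)]
    exact pow_le_pow_left₀ (norm_nonneg _) (pdv_bound hEn χ hC x) 2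
  have hiF : Integrable (fun x => ‖pdv F T χ v x‖ ^ 2) μ := by
    refine Integrable.of_bound (hmF.norm.pow_const 2).aestronglyMeasurable (C ^ 2)
      (Filter.Eventually.of_forall fun x => ?_)
    rw [Real.norm_eq_abs, abs_of_nonneg (sq_nonneg _)]
    exact pow_le_pow_left₀ (norm_nonneg _) (pdv_bound hFn χ hC x) 2
  have h2 : (∫ x, pdv E T χ v x * (starRingEnd ℂ) (pdv F T χ v x) ∂μ).re ≤
      ∫ x, (‖pdv E T χ v x‖ ^ 2 + ‖pdv F T χ v x‖ ^ 2) / 2 ∂μ := by
    refine (Complex.re_le_norm _).trans ((norm_integral_le_integral_norm _).trans ?_)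
    refine integral_mono_of_nonneg (Filter.Eventually.of_forall fun x => norm_nonneg _)
      ((hiE.add hiF).div_const 2) (Filter.Eventually.of_forall fun x => ?_)
    show ‖pdv E T χ v x * (starRingEnd ℂ) (pdv F T χ v x)‖ ≤ _
    rw [norm_mul, RCLike.norm_conj]
    nlinarith [sq_nonneg (‖pdv E T χ v x‖ - ‖pdv F T χ v x‖)]
  rw [integral_div, integral_add hiE hiF] at h2
  rw [← h1] at h2
  linarith

end

end Pool.Agent.FpTrans
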