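import Pool.Agent.FpOrd.ProdInv1

/-!
# Invariant functions on a product with an ergodic system: Wiener's lemma
-/

set_option autoImplicit false
open MeasureTheory Filter Topology ProbabilityTheory

namespace Pool.Agent.FpTrans

universe u v w

theorem IsExh.fs {Γ : Type} [AddCommGroup Γ] {E : ℕ → Finset Γ} (hE : IsExh E) (n : ℕ) :
    IsFS (E n) := ⟨hE.zero n, hE.add n, hE.neg n⟩

theorem pd_cs {X : Type u} [MeasurableSpace X] {μ : Measure X} [IsProbabilityMeasure μ]
    {f : X → ℝ} (hf : Integrable f μ) (hf2 : Integrable (fun x => f x ^ 2) μ) :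
    (∫ x, f x ∂μ) ^ 2 ≤ ∫ x, f x ^ 2 ∂μ := by
  set c := ∫ x, f x ∂μ with hc
  have h1 : 0 ≤ ∫ x, (f x - c) ^ 2 ∂μ := integral_nonneg fun x => sq_nonneg _
  have h2 : ∫ x, (f x - c) ^ 2 ∂μ = ∫ x, f x ^ 2 ∂μ - c ^ 2 := by
    have h3 : ∀ x, (f x - c) ^ 2 = f x ^ 2 - 2 * c * f x + c ^ 2 := fun x => by ring
    simp_rw [h3]
    rw [integral_add (f := fun x => f x ^ 2 - 2 * c * f x) (g := fun _ => c ^ 2)
        (hf2.sub (hf.const_mul _)) (integrable_const _),
      integral_sub (f := fun x => f x ^ 2) (g := fun x => 2 * c * f x) hf2 (hf.const_mul _),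
      integral_const_mul, ← hc]
    simp
    ring
  linarith

theorem pd_ofReal_re_avg {Γ : Type} {E : Finset Γ} (F : Γ → ℂ) :
    (avg E F).re = avg E (fun g => (F g).re) := by
  unfold avg
  rw [Complex.real_smul, Complex.re_ofReal_mul, Complex.re_sum, smul_eq_mul]

/-- Wiener's lemma for functions orthogonal to the Kronecker factor. -/
theorem pd_wiener_dyn {p : ℕ} [Fact p.Prime] {Γ : Type} [AddCommGroup Γ] [Countable Γ]
    (hΓ : ∀ g : Γ, p • g = 0) {E : ℕ → Finset Γ} (hE : IsExh E) {X : Type u} [MeasurableSpace X]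
    {μ : Measure X} [IsProbabilityMeasure μ] {T : Γ → X → X} (hT : IsAction μ T)
    (hEr : IsErgodic μ T) {I : Type} [Countable I] {η : Measure (I → ZMod p)}
    {α : Γ → I → ZMod p} {z : X → I → ZMod p} (hz : Kron p μ T η α z) {v : X → ℂ}
    (hv : Measurable v) {C : ℝ} (hC : ∀ x, ‖v x‖ ≤ C)
    (hv0 : ∀ h : (I → ZMod p) → ℂ, Measurable h → (∃ C : ℝ, ∀ k, ‖h k‖ ≤ C) →
      ∫ x, v x * h (z x) ∂μ = 0) :
    Tendsto (fun n => avg (E n) (fun g => ‖pdc μ T v g‖ ^ 2)) atTop (𝓝 0) := by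
  classical
  by_contra hcon
  rw [Metric.tendsto_atTop] at hcon
  push Not at hcon
  obtain ⟨ε, hε, hfreq⟩ := hcon
  have hann : ∀ n, 0 ≤ avg (E n) (fun g => ‖pdc μ T v g‖ ^ 2) := fun n => by
    unfold avg
    exact mul_nonneg (by positivity) (Finset.sum_nonneg fun g _ => sq_nonneg _)
  set M : ℝ := |(pdc μ T v 0).re| + 1 with hM
  have hMpos : 0 < M := by positivity
  set δ : ℝ := ε / (2 * M) with hδ
  have hδpos : 0 < δ := by positivity
  let K : ℕ → Set (Γ → UnitAddCircle) := fun n =>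
    {χ | (∀ g ∈ E n, ∀ h ∈ E n, χ (g + h) = χ g + χ h) ∧
      δ ≤ (avg (E n) (fun g => ee (-χ g) * pdc μ T v g)).re}
  have hKanti : ∀ {m n : ℕ}, n ≤ m → K m ⊆ K n := by
    intro m n hnm χ hχ
    have hsub : E n ⊆ E m := hE.mono hnm
    have hadd' : ∀ g ∈ E n, ∀ h ∈ E n, χ (g + h) = χ g + χ h :=
      fun g hg h hh => hχ.1 g (hsub hg) h (hsub hh)
    refine ⟨hadd', ?_⟩
    have h1 := pd_norm_eq (hE.fs m) hT hχ.1 hv hC
    have h2 := pd_norm_eq (hE.fs n) hT hadd' hv hC
    have h3 := pd_norm_anti (hE.fs m) (hE.fs n) hsub hT hχ.1 hv hC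
    have h4 := hχ.2
    rw [← h1, Complex.ofReal_re] at h4
    rw [← h2, Complex.ofReal_re]
    exact h4.trans h3
  have hKne : ∀ n, ε ≤ avg (E n) (fun g => ‖pdc μ T v g‖ ^ 2) → (K n).Nonempty := by
    intro n hn
    let G : AddSubgroup Γ :=
      { carrier := (E n : Set Γ)
        add_mem' := fun {a b} ha hb => hE.add n a ha b hb
        zero_mem' := hE.zero n
        neg_mem' := fun {a} ha => hE.neg n a ha }
    have hmemG : ∀ x, x ∈ E n ↔ x ∈ G := fun x => Iff.rfl
    have : Fintype G := Fintype.ofFinset (E n) (fun x => Iff.rfl)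
    have hcardG : Fintype.card G = (E n).card := by
      rw [← Fintype.card_coe]
      exact Fintype.card_congr (Equiv.refl _)
    obtain ⟨θ, -, hθ, -⟩ := exists_arg
    have hψn : ∀ (ψ : AddChar G ℂ) (g : G), ee (θ (ψ g)) = ψ g := by
      intro ψ g
      conv_rhs => rw [hθ (ψ g), AddChar.norm_apply]
      simp
    let χ' : AddChar G ℂ → Γ → UnitAddCircle := fun ψ g =>
      if h : g ∈ E n then θ (ψ ⟨g, h⟩) else 0
    have hχ' : ∀ ψ (g : G), ee (χ' ψ g) = ψ g := by
      intro ψ g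
      have h1 : χ' ψ (g : Γ) = θ (ψ g) := by
        exact dif_pos ((hmemG _).2 g.2)
      rw [h1, hψn]
    have hadd' : ∀ ψ, ∀ g ∈ E n, ∀ h ∈ E n, χ' ψ (g + h) = χ' ψ g + χ' ψ h := by
      intro ψ g hg h hh
      rw [← ee_inj, ee_add]
      have e1 := hχ' ψ ⟨g, hg⟩
      have e2 := hχ' ψ ⟨h, hh⟩
      have e3 := hχ' ψ (⟨g, hg⟩ + ⟨h, hh⟩)
      rw [AddChar.map_add_eq_mul] at e3
      rw [← e1, ← e2] at e3
      exact e3
    by_contra hemp
    rw [Set.not_nonempty_iff_eq_empty] at hemp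
    have hd : ∀ ψ : AddChar G ℂ, ∫ x, ‖pdv (E n) T (χ' ψ) v x‖ ^ 2 ∂μ ≤ δ := by
      intro ψ
      by_contra hlt
      push Not at hlt
      have : χ' ψ ∈ K n := by
        refine ⟨hadd' ψ, ?_⟩
        rw [← pd_norm_eq (hE.fs n) hT (hadd' ψ) hv hC, Complex.ofReal_re]
        exact hlt.le
      rw [hemp] at this
      exact this
    have hne : ((E n).card : ℂ) ≠ 0 := by
      exact_mod_cast (Finset.card_pos.2 ⟨0, hE.zero n⟩).ne'
    have key := pd_wiener (fun g : G => pdc μ T v g)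
      (fun ψ => ∫ x, ‖pdv (E n) T (χ' ψ) v x‖ ^ 2 ∂μ) (fun ψ => by
        rw [pd_norm_eq (hE.fs n) hT (hadd' ψ) hv hC]
        have h1 : ∑ g : G, (starRingEnd ℂ) (ψ g) * pdc μ T v (g : Γ) =
            ∑ g ∈ E n, ee (-χ' ψ g) * pdc μ T v g := by
          rw [Finset.sum_subtype (E n) hmemG]
          refine Finset.sum_congr rfl fun g _ => ?_
          rw [ee_neg, hχ' ψ g]
        rw [h1, hcardG]
        unfold avg
        rw [Complex.real_smul]
        push_cast
        rw [← mul_assoc, mul_inv_cancel₀ hne, one_mul])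
      (fun ψ => integral_nonneg fun x => sq_nonneg _) δ hd
    have h1 : ∑ g : G, ‖pdc μ T v (g : Γ)‖ ^ 2 = ∑ g ∈ E n, ‖pdc μ T v g‖ ^ 2 := by
      rw [Finset.sum_subtype (E n) hmemG]
    have hcpos : (0 : ℝ) < (E n).card := by
      exact_mod_cast (Finset.card_pos.2 ⟨0, hE.zero n⟩)
    rw [h1, hcardG] at key
    have h2 : avg (E n) (fun g => ‖pdc μ T v g‖ ^ 2) ≤ δ * (pdc μ T v 0).re := by
      unfold avg
      rw [smul_eq_mul, inv_mul_le_iff₀ hcpos]
      exact key
    have h3 : δ * (pdc μ T v 0).re ≤ δ * M := by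
      refine mul_le_mul_of_nonneg_left ?_ hδpos.le
      have := le_abs_self (pdc μ T v 0).re
      linarith
    have h4 : δ * M = ε / 2 := by
      rw [hδ]; field_simp
    linarith
  have hKne' : ∀ n, (K n).Nonempty := by
    intro n
    obtain ⟨m, hm, hm2⟩ := hfreq n
    rw [Real.dist_eq, sub_zero, abs_of_nonneg (hann m)] at hm2
    exact (hKne m hm2).mono (hKanti hm)
  have hKcl : ∀ n, IsClosed (K n) := by
    intro n
    have h1 : K n = (⋂ g ∈ E n, ⋂ h ∈ E n, {χ : Γ → UnitAddCircle | χ (g + h) = χ g + χ h}) ∩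
        {χ | δ ≤ (avg (E n) (fun g => ee (-χ g) * pdc μ T v g)).re} := by
      ext χ
      simp [K]
    rw [h1]
    refine IsClosed.inter ?_ ?_
    · refine isClosed_biInter fun g _ => isClosed_biInter fun h _ => ?_
      have h1 : Continuous (fun χ : Γ → UnitAddCircle => χ g + χ h) :=
        (continuous_apply g).add (continuous_apply h)
      exact isClosed_eq (continuous_apply (g + h)) h1
    · refine isClosed_le continuous_const (Complex.continuous_re.comp ?_)
      have h1 : Continuous (fun χ : Γ → UnitAddCircle =>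
          ∑ g ∈ E n, ee (-χ g) * pdc μ T v g) :=
        continuous_finsetSum _ fun g _ =>
          (continuous_ee.comp (continuous_apply g).neg).mul continuous_const
      exact h1.const_smul (((E n).card : ℝ)⁻¹)
  obtain ⟨χ, hχ⟩ := IsCompact.nonempty_iInter_of_sequence_nonempty_isCompact_isClosed K
    (fun n => hKanti (Nat.le_succ n)) hKne' (hKcl 0).isCompact hKcl
  rw [Set.mem_iInter] at hχ
  have hχadd : ∀ g h, χ (g + h) = χ g + χ h := by
    intro g h
    obtain ⟨n1, hn1⟩ := hE.exh g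
    obtain ⟨n2, hn2⟩ := hE.exh h
    exact (hχ (max n1 n2)).1 g (hE.mono (le_max_left _ _) hn1) h
      (hE.mono (le_max_right _ _) hn2)
  obtain ⟨Ψ, hΨm, hΨb, hΨi, hΨt⟩ := twisted_mean hE hT (fun g _ => χ g)
    (fun g => measurable_const) (fun g h => Filter.Eventually.of_forall fun x => hχadd g h)
    v hv C hC
  obtain ⟨h, hhm, ⟨C', hC'⟩, hhe⟩ := pd_eigen hΓ hT hEr hz χ hχadd Ψ hΨm hΨi
  have hcm : Measurable (starRingEnd ℂ) := Complex.continuous_conj.measurable
  have hzero : ∫ x, Ψ x * (starRingEnd ℂ) (v x) ∂μ = 0 := by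
    have h1 := hv0 (fun k => (starRingEnd ℂ) (h k)) (hcm.comp hhm)
      ⟨C', fun k => by rw [RCLike.norm_conj]; exact hC' k⟩
    have h2 : ∫ x, Ψ x * (starRingEnd ℂ) (v x) ∂μ =
        ∫ x, (starRingEnd ℂ) (v x * (starRingEnd ℂ) (h (z x))) ∂μ := by
      refine integral_congr_ae ?_
      filter_upwards [hhe] with x hx
      rw [hx, map_mul, Complex.conj_conj, mul_comm]
    rw [h2, integral_conj, h1, map_zero]
  have hC0 : 0 ≤ C := by
    have : Nonempty X := nonempty_of_isProbabilityMeasure μ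
    exact (norm_nonneg _).trans (hC (Classical.arbitrary X))
  have hbound : ∀ n, δ ^ 2 ≤ C ^ 2 *
      ∫ x, ‖avg (E n) (fun g => ee (-χ g) * v (T g x)) - Ψ x‖ ^ 2 ∂μ := by
    intro n
    have hm : Measurable (pdv (E n) T χ v) := pdv_measurable hT χ hv
    have hEn : (E n).Nonempty := ⟨0, hE.zero n⟩
    have h1 := (hχ n).2
    rw [← pd_inner_eq hT χ hv hC] at h1
    have hb1 : ∀ x, ‖pdv (E n) T χ v x * (starRingEnd ℂ) (v x)‖ ≤ C * C := by
      intro x
      rw [norm_mul, RCLike.norm_conj]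
      exact mul_le_mul (pdv_bound hEn χ hC x) (hC x) (norm_nonneg _) hC0
    have hb2 : ∀ x, ‖Ψ x * (starRingEnd ℂ) (v x)‖ ≤ C * C := by
      intro x
      rw [norm_mul, RCLike.norm_conj]
      exact mul_le_mul (hΨb x) (hC x) (norm_nonneg _) hC0
    have h2 : ∫ x, pdv (E n) T χ v x * (starRingEnd ℂ) (v x) ∂μ =
        ∫ x, (pdv (E n) T χ v x - Ψ x) * (starRingEnd ℂ) (v x) ∂μ := by
      simp_rw [sub_mul]
      rw [integral_sub (f := fun x => pdv (E n) T χ v x * (starRingEnd ℂ) (v x))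
        (g := fun x => Ψ x * (starRingEnd ℂ) (v x)) (pd_integrable (hm.mul (hcm.comp hv)) hb1)
        (pd_integrable (hΨm.mul (hcm.comp hv)) hb2), hzero, sub_zero]
    have hdm : Measurable (fun x => ‖pdv (E n) T χ v x - Ψ x‖) := (hm.sub hΨm).norm
    have hdb : ∀ x, ‖pdv (E n) T χ v x - Ψ x‖ ≤ C + C := fun x =>
      (norm_sub_le _ _).trans (add_le_add (pdv_bound hEn χ hC x) (hΨb x))
    have hdi : Integrable (fun x => ‖pdv (E n) T χ v x - Ψ x‖) μ :=
      Integrable.of_bound hdm.aestronglyMeasurable (C + C)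
        (Filter.Eventually.of_forall fun x => by rw [norm_norm]; exact hdb x)
    have hdi2 : Integrable (fun x => ‖pdv (E n) T χ v x - Ψ x‖ ^ 2) μ :=
      Integrable.of_bound (hdm.pow_const 2).aestronglyMeasurable ((C + C) ^ 2)
        (Filter.Eventually.of_forall fun x => by
          rw [Real.norm_eq_abs, abs_of_nonneg (sq_nonneg _)]
          exact pow_le_pow_left₀ (norm_nonneg _) (hdb x) 2)
    have h3 : δ ≤ C * ∫ x, ‖pdv (E n) T χ v x - Ψ x‖ ∂μ := by
      refine h1.trans ((Complex.re_le_norm _).trans ?_)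
      rw [h2]
      refine (norm_integral_le_integral_norm _).trans ?_
      rw [← integral_const_mul]
      refine integral_mono_of_nonneg (Filter.Eventually.of_forall fun x => norm_nonneg _)
        (hdi.const_mul _) (Filter.Eventually.of_forall fun x => ?_)
      show ‖(pdv (E n) T χ v x - Ψ x) * (starRingEnd ℂ) (v x)‖ ≤ C * ‖pdv (E n) T χ v x - Ψ x‖
      rw [norm_mul, RCLike.norm_conj, mul_comm]
      exact mul_le_mul_of_nonneg_right (hC x) (norm_nonneg _)
    have h4 := pd_cs hdi hdi2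
    have h5 : δ ^ 2 ≤ (C * ∫ x, ‖pdv (E n) T χ v x - Ψ x‖ ∂μ) ^ 2 :=
      pow_le_pow_left₀ hδpos.le h3 2
    rw [mul_pow] at h5
    exact h5.trans (mul_le_mul_of_nonneg_left h4 (sq_nonneg _))
  have hlim : δ ^ 2 ≤ C ^ 2 * 0 := ge_of_tendsto' (hΨt.const_mul (C ^ 2)) hbound
  nlinarith [sq_pos_of_pos hδpos]

end Pool.Agent.FpTrans
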