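import Pool.Agent.FpOrd.ProdInv2

/-!
# Invariant functions on a product with an ergodic system: orthogonality
-/

set_option autoImplicit false
open MeasureTheory Filter Topology ProbabilityTheory

namespace Pool.Agent.FpTrans

universe u v w

theorem IsAction.pact' {Γ : Type} [AddCommGroup Γ] {X : Type u} [MeasurableSpace X]
    {μ : Measure X} [IsProbabilityMeasure μ] {T : Γ → X → X} (hT : IsAction μ T) {A : Type v}
    [MeasurableSpace A] {m : Measure A} [IsProbabilityMeasure m] {S : Γ → A → A}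
    (hS : IsAction m S) : IsAction (m.prod μ) (pact S T) where
  zero := fun x => by simp [pact, hT.zero, hS.zero]
  add := fun g h x => by simp [pact, hT.add, hS.add]
  mp := fun g => (hS.mp g).prod (hT.mp g)

/-- Invariant functions on the product are orthogonal to products with functions that are
orthogonal to the Kronecker factor. -/
theorem pd_orth {p : ℕ} [Fact p.Prime] {Γ : Type} [AddCommGroup Γ] [Countable Γ]
    (hΓ : ∀ g : Γ, p • g = 0) {X : Type u} [MeasurableSpace X]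
    {μ : Measure X} [IsProbabilityMeasure μ] {T : Γ → X → X} (hT : IsAction μ T)
    (hEr : IsErgodic μ T) {I : Type} [Countable I] {η : Measure (I → ZMod p)}
    {α : Γ → I → ZMod p} {z : X → I → ZMod p} (hz : Kron p μ T η α z) {v : X → ℂ}
    (hv : Measurable v) {C : ℝ} (hC : ∀ x, ‖v x‖ ≤ C)
    (hv0 : ∀ h : (I → ZMod p) → ℂ, Measurable h → (∃ C : ℝ, ∀ k, ‖h k‖ ≤ C) →
      ∫ x, v x * h (z x) ∂μ = 0) {A : Type v} [MeasurableSpace A]
    {m : Measure A} [IsProbabilityMeasure m] {S : Γ → A → A} (hS : IsAction m S)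
    {H : A × X → ℂ} (hH : Measurable H) {CH : ℝ} (hCH : ∀ y, ‖H y‖ ≤ CH)
    (hinv : ∀ g, ∀ᵐ y ∂(m.prod μ), H (pact S T g y) = H y) {u : A → ℂ} (hu : Measurable u)
    {Cu : ℝ} (hCu : ∀ a, ‖u a‖ ≤ Cu) :
    ∫ y, H y * (u y.1 * v y.2) ∂(m.prod μ) = 0 := by
  obtain ⟨E, hE⟩ := exists_exh p (Fact.out : p.Prime).pos Γ hΓ
  have hP : IsAction (m.prod μ) (pact S T) := hT.pact' hS
  have hcm : Measurable (starRingEnd ℂ) := Complex.continuous_conj.measurable
  obtain ⟨x0⟩ : Nonempty X := nonempty_of_isProbabilityMeasure μ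
  obtain ⟨a0⟩ : Nonempty A := nonempty_of_isProbabilityMeasure m
  have hC0 : 0 ≤ C := (norm_nonneg _).trans (hC x0)
  have hCu0 : 0 ≤ Cu := (norm_nonneg _).trans (hCu a0)
  have hCH0 : 0 ≤ CH := (norm_nonneg _).trans (hCH (a0, x0))
  set w : A × X → ℂ := fun y => u y.1 * v y.2 with hw
  have hwm : Measurable w := (hu.comp measurable_fst).mul (hv.comp measurable_snd)
  have hwb : ∀ y, ‖w y‖ ≤ Cu * C := fun y => by
    rw [hw]; simp only [norm_mul]
    exact mul_le_mul (hCu _) (hC _) (norm_nonneg _) hCu0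
  -- the correlations of `w`
  have hcorr : ∀ g, pdc (m.prod μ) (pact S T) w g = pdc m S u g * pdc μ T v g := by
    intro g
    unfold pdc
    rw [← integral_prod_mul]
    refine integral_congr_ae (Filter.Eventually.of_forall fun y => ?_)
    show (u (S g y.1) * v (T g y.2)) * (starRingEnd ℂ) (u y.1 * v y.2) =
      (u (S g y.1) * (starRingEnd ℂ) (u y.1)) * (v (T g y.2) * (starRingEnd ℂ) (v y.2))
    rw [map_mul]; ring
  have hcu : ∀ g, ‖pdc m S u g‖ ≤ Cu * Cu := by
    intro g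
    unfold pdc
    refine (norm_integral_le_of_norm_le_const (C := Cu * Cu)
      (Filter.Eventually.of_forall fun a => ?_)).trans ?_
    · rw [norm_mul, RCLike.norm_conj]
      exact mul_le_mul (hCu _) (hCu _) (norm_nonneg _) hCu0
    · simp
  set r : ℝ := ‖∫ y, H y * w y ∂(m.prod μ)‖ with hr
  have h1 : ∀ n, ∫ y, H y * w y ∂(m.prod μ) =
      ∫ y, H y * pdv (E n) (pact S T) 0 w y ∂(m.prod μ) := by
    intro n
    have hEn : (E n).Nonempty := ⟨0, hE.zero n⟩
    have h2 : ∀ g ∈ E n, ∫ y, H y * w y ∂(m.prod μ) =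
        ∫ y, H y * (ee (-(0 : Γ → UnitAddCircle) g) * w (pact S T g y)) ∂(m.prod μ) := by
      intro g _
      rw [← pd_integral_comp hP g (f := fun y => H y * w y) (hH.mul hwm)]
      refine integral_congr_ae ?_
      filter_upwards [hinv g] with y hy
      rw [hy]
      simp [ee_zero]
    rw [← pd_avg_const hEn (∫ y, H y * w y ∂(m.prod μ)), pd_avg_congr h2, ← pd_integral_avg]
    · refine integral_congr_ae (Filter.Eventually.of_forall fun y => ?_)
      show avg (E n) (fun g => H y * (ee (-(0 : Γ → UnitAddCircle) g) * w (pact S T g y))) =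
        H y * avg (E n) (fun g => ee (-(0 : Γ → UnitAddCircle) g) * w (pact S T g y))
      rw [pd_mul_avg]
    · intro g _
      refine pd_integrable (C := CH * (Cu * C)) (hH.mul (measurable_const.mul
        (hwm.comp (hP.mp g).measurable))) fun y => ?_
      rw [norm_mul, norm_mul, norm_ee, one_mul]
      exact mul_le_mul (hCH _) (hwb _) (norm_nonneg _) hCH0
  have hbound : ∀ n, r ^ 4 ≤ (CH ^ 2 * (Cu * Cu)) ^ 2 *
      avg (E n) (fun g => ‖pdc μ T v g‖ ^ 2) := by
    intro n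
    have hEn : (E n).Nonempty := ⟨0, hE.zero n⟩
    have hcpos : (0 : ℝ) < (E n).card := by exact_mod_cast hEn.card_pos
    have hWm : Measurable (pdv (E n) (pact S T) 0 w) := pdv_measurable hP 0 hwm
    have hWb := pdv_bound (T := pact S T) (v := w) hEn 0 hwb
    have hdi : Integrable (fun y => ‖pdv (E n) (pact S T) 0 w y‖) (m.prod μ) :=
      Integrable.of_bound hWm.norm.aestronglyMeasurable (Cu * C)
        (Filter.Eventually.of_forall fun x => by rw [norm_norm]; exact hWb x)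
    have hdi2 : Integrable (fun y => ‖pdv (E n) (pact S T) 0 w y‖ ^ 2) (m.prod μ) :=
      Integrable.of_bound (hWm.norm.pow_const 2).aestronglyMeasurable ((Cu * C) ^ 2)
        (Filter.Eventually.of_forall fun x => by
          rw [Real.norm_eq_abs, abs_of_nonneg (sq_nonneg _)]
          exact pow_le_pow_left₀ (norm_nonneg _) (hWb x) 2)
    have h2 : r ≤ CH * ∫ y, ‖pdv (E n) (pact S T) 0 w y‖ ∂(m.prod μ) := by
      rw [hr, h1 n]
      refine (norm_integral_le_integral_norm _).trans ?_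
      rw [← integral_const_mul]
      refine integral_mono_of_nonneg (Filter.Eventually.of_forall fun x => norm_nonneg _)
        (hdi.const_mul _) (Filter.Eventually.of_forall fun y => ?_)
      show ‖H y * pdv (E n) (pact S T) 0 w y‖ ≤ CH * ‖pdv (E n) (pact S T) 0 w y‖
      rw [norm_mul]
      exact mul_le_mul_of_nonneg_right (hCH y) (norm_nonneg _)
    have h3 := pd_cs hdi hdi2
    have h4 := pd_norm_eq (χ := 0) (hE.fs n) hP (fun g _ h _ => by simp) hwm hwb
    have h5 : ∫ y, ‖pdv (E n) (pact S T) 0 w y‖ ^ 2 ∂(m.prod μ) ≤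
        (Cu * Cu) * avg (E n) (fun g => ‖pdc μ T v g‖) := by
      have h6 : ∫ y, ‖pdv (E n) (pact S T) 0 w y‖ ^ 2 ∂(m.prod μ) =
          ‖avg (E n) (fun g => ee (-(0 : Γ → UnitAddCircle) g) *
            pdc (m.prod μ) (pact S T) w g)‖ := by
        rw [← h4, Complex.norm_real, Real.norm_eq_abs, abs_of_nonneg]
        exact integral_nonneg fun y => sq_nonneg _
      rw [h6]
      unfold avg
      rw [norm_smul, norm_inv, Real.norm_natCast, smul_eq_mul, mul_left_comm]
      refine mul_le_mul_of_nonneg_left ?_ (by positivity)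
      rw [Finset.mul_sum]
      refine (norm_sum_le _ _).trans (Finset.sum_le_sum fun g _ => ?_)
      rw [norm_mul, norm_ee, one_mul, hcorr, norm_mul]
      exact mul_le_mul_of_nonneg_right (hcu g) (norm_nonneg _)
    have h7 : (avg (E n) (fun g => ‖pdc μ T v g‖)) ^ 2 ≤
        avg (E n) (fun g => ‖pdc μ T v g‖ ^ 2) := by
      unfold avg
      rw [smul_eq_mul, smul_eq_mul, mul_pow]
      have h8 := sq_sum_le_card_mul_sum_sq (s := E n) (f := fun g => ‖pdc μ T v g‖)
      calc ((E n).card : ℝ)⁻¹ ^ 2 * (∑ g ∈ E n, ‖pdc μ T v g‖) ^ 2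
          ≤ ((E n).card : ℝ)⁻¹ ^ 2 * ((E n).card * ∑ g ∈ E n, ‖pdc μ T v g‖ ^ 2) :=
            mul_le_mul_of_nonneg_left h8 (by positivity)
        _ = ((E n).card : ℝ)⁻¹ * ∑ g ∈ E n, ‖pdc μ T v g‖ ^ 2 := by
            field_simp
    have hr0 : 0 ≤ r := norm_nonneg _
    have h9 : r ^ 2 ≤ CH ^ 2 * ((Cu * Cu) * avg (E n) (fun g => ‖pdc μ T v g‖)) := by
      calc r ^ 2 ≤ (CH * ∫ y, ‖pdv (E n) (pact S T) 0 w y‖ ∂(m.prod μ)) ^ 2 :=
            pow_le_pow_left₀ hr0 h2 2
        _ = CH ^ 2 * (∫ y, ‖pdv (E n) (pact S T) 0 w y‖ ∂(m.prod μ)) ^ 2 := by ring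
        _ ≤ CH ^ 2 * ((Cu * Cu) * avg (E n) (fun g => ‖pdc μ T v g‖)) :=
            mul_le_mul_of_nonneg_left (h3.trans h5) (sq_nonneg _)
    calc r ^ 4 = (r ^ 2) ^ 2 := by ring
      _ ≤ (CH ^ 2 * ((Cu * Cu) * avg (E n) (fun g => ‖pdc μ T v g‖))) ^ 2 :=
          pow_le_pow_left₀ (sq_nonneg _) h9 2
      _ = (CH ^ 2 * (Cu * Cu)) ^ 2 * (avg (E n) (fun g => ‖pdc μ T v g‖)) ^ 2 := by ring
      _ ≤ _ := mul_le_mul_of_nonneg_left h7 (sq_nonneg _)
  have hlim := ge_of_tendsto' ((pd_wiener_dyn hΓ hE hT hEr hz hv hC hv0).const_mul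
    ((CH ^ 2 * (Cu * Cu)) ^ 2)) hbound
  rw [mul_zero] at hlim
  have hr4 : r ^ 4 = 0 := le_antisymm hlim (by positivity)
  have hr0 : r = 0 := by simpa using hr4
  exact norm_eq_zero.1 hr0

end Pool.Agent.FpTrans
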