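import Pool.Agent.FpOrd.Norm
import Pool.Agent.FpOrd.Fiber
import Pool.Agent.FpOrd.ProdInv

/-!
# Pairs: a measurable section with noise, marginals, resampling
-/

set_option autoImplicit false
open MeasureTheory Filter Topology ProbabilityTheory

namespace Pool.Agent.FpTrans

universe u v w

theorem exists_theta {X : Type u} [MeasurableSpace X] [StandardBorelSpace X] {μ : Measure X}
    [IsProbabilityMeasure μ] {K : Type v} [MeasurableSpace K] [StandardBorelSpace K]
    {ν : Measure K} [IsProbabilityMeasure ν] {y : X → K} (hy : MeasurePreserving y μ ν) :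
    ∃ Θ : K → unitInterval → X, Measurable (Function.uncurry Θ) ∧
      MeasurePreserving (Function.uncurry Θ) (ν.prod volume) μ ∧
      ∀ᵐ w ∂(ν.prod (volume : Measure unitInterval)), y (Θ w.1 w.2) = w.1 := by
  have : Nonempty X := μ.nonempty_of_neZero
  obtain ⟨κ, hκM, hκ⟩ := exists_dis μ ν y hy
  obtain ⟨Θ, hΘm, hΘ⟩ := Kernel.exists_measurable_map_eq_unitInterval κ
  have hm : Measurable fun w : K × unitInterval => (w.1, Θ w.1 w.2) :=
    measurable_fst.prodMk hΘm
  have hlaw : (ν.prod (volume : Measure unitInterval)).map (fun w => (w.1, Θ w.1 w.2)) =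
      ν ⊗ₘ κ := by
    ext s hs
    rw [Measure.map_apply hm hs, Measure.prod_apply (hm hs), Measure.compProd_apply hs]
    refine lintegral_congr fun k => ?_
    have hk : Measurable (Θ k) := hΘm.comp (measurable_prodMk_left (x := k))
    rw [← hΘ k, Measure.map_apply hk (measurable_prodMk_left hs)]
    rfl
  have hκ' : ν ⊗ₘ κ = μ.map (fun x => (y x, x)) := hκ
  rw [hκ'] at hlaw
  have hyx : Measurable fun x => (y x, x) := hy.measurable.prodMk measurable_id
  refine ⟨Θ, hΘm, ⟨hΘm, ?_⟩, ?_⟩
  · have h1 : Function.uncurry Θ = Prod.snd ∘ fun w : K × unitInterval => (w.1, Θ w.1 w.2) := by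
      ext w; rfl
    rw [h1, ← Measure.map_map measurable_snd hm, hlaw, Measure.map_map measurable_snd hyx]
    simp [Function.comp_def]
  · have hms : MeasurableSet {q : K × X | y q.2 = q.1} :=
      measurableSet_eq_fun (hy.measurable.comp measurable_snd) measurable_fst
    have h2 : ∀ᵐ q ∂(μ.map (fun x => (y x, x))), y q.2 = q.1 := by
      rw [ae_map_iff hyx.aemeasurable hms]
      exact Eventually.of_forall fun x => rfl
    rw [← hlaw] at h2
    exact ae_of_ae_map hm.aemeasurable h2

/-- If `c` and `f` are independent then `f` has the same law on almost every fibre of `c`. -/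
theorem sp_law {Y : Type u} [MeasurableSpace Y] {Y' : Type w}
    [MeasurableSpace Y'] [StandardBorelSpace Y'] {Z : Type v} [MeasurableSpace Z]
    {M : Measure Y} [IsProbabilityMeasure M] {η : Measure Z}
    [IsProbabilityMeasure η] {c : Y → Z} (hc : Measurable c) {κ : Kernel Z Y} [IsMarkovKernel κ]
    (hκ : IsDis M c η κ) {f : Y → Y'} (hf : Measurable f) {ρ : Measure Y'}
    [IsProbabilityMeasure ρ] (hlaw : M.map (fun y => (c y, f y)) = η.prod ρ) :
    ∀ᵐ s ∂η, MeasurePreserving f (κ s) ρ := by
  have hm : Measurable fun y => (c y, y) := hc.prodMk measurable_id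
  have h1 : η ⊗ₘ (κ.map f) = η ⊗ₘ (Kernel.const Z ρ) := by
    rw [Measure.compProd_map hf, show η ⊗ₘ κ = _ from hκ, Measure.compProd_const,
      Measure.map_map (by fun_prop) hm, ← hlaw]
    rfl
  have h2 := Kernel.ae_eq_of_compProd_eq h1
  filter_upwards [h2] with s hs
  refine ⟨hf, ?_⟩
  rw [Kernel.map_apply _ hf, Kernel.const_apply] at hs
  exact hs

/-- The base measure of a disintegration. -/
theorem sp_dis_mp {Y : Type u} [MeasurableSpace Y] {Z : Type v} [MeasurableSpace Z]
    {M : Measure Y} [IsProbabilityMeasure M] {η : Measure Z}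
    [IsProbabilityMeasure η] {c : Y → Z} (hc : Measurable c) {κ : Kernel Z Y} [IsMarkovKernel κ]
    (hκ : IsDis M c η κ) : MeasurePreserving c M η := by
  refine ⟨hc, ?_⟩
  have hm : Measurable fun y => (c y, y) := hc.prodMk measurable_id
  have h1 : (η ⊗ₘ κ).map Prod.fst = η := Measure.fst_compProd η κ
  rw [show η ⊗ₘ κ = _ from hκ, Measure.map_map measurable_fst hm] at h1
  exact h1

theorem sp_pact {Γ : Type} [AddCommGroup Γ] {X : Type u} {A : Type v} [MeasurableSpace X]
    [MeasurableSpace A] {m : Measure A} [SFinite m] {μ : Measure X} [SFinite μ]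
    {S : Γ → A → A} {T : Γ → X → X} (hS : IsAction m S) (hT : IsAction μ T) :
    IsAction (m.prod μ) (pact S T) where
  zero := fun q => by simp [pact, hS.zero, hT.zero]
  add := fun g h q => by simp [pact, hS.add, hT.add]
  mp := fun g => (hS.mp g).prod (hT.mp g)

section Pairs

variable {p : ℕ} [Fact p.Prime] {X : Type u} [MeasurableSpace X]
  {μ : Measure X} [IsProbabilityMeasure μ]
  {I : Type} [Countable I] {η : Measure (I → ZMod p)}
  [IsProbabilityMeasure η] [η.IsAddLeftInvariant] {z : X → I → ZMod p}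
  (hzm : MeasurePreserving z μ η)

include hzm in
theorem sp_shift_left :
    MeasurePreserving (fun q : X × X => (z q.2 - z q.1, q.1)) (μ.prod μ) (η.prod μ) := by
  have h1 : MeasurePreserving (fun q : X × X => (z q.2, q.1)) (μ.prod μ) (η.prod μ) :=
    (hzm.prod (MeasurePreserving.id μ)).comp Measure.measurePreserving_swap
  have h2 : MeasurePreserving (fun q : (I → ZMod p) × X => (q.1 - z q.2, q.2)) (η.prod μ)
      (η.prod μ) := by
    have h3 : MeasurePreserving (fun q : X × (I → ZMod p) => (q.1, q.2 - z q.1)) (μ.prod η)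
        (μ.prod η) := by
      refine MeasurePreserving.skew_product (g := fun x k => k - z x) (MeasurePreserving.id μ)
        ?_ ?_
      · exact measurable_snd.sub (hzm.measurable.comp measurable_fst)
      · refine Eventually.of_forall fun x => ?_
        have := map_add_left_eq_self η (-z x)
        have h4 : (fun k : I → ZMod p => k - z x) = fun k => -z x + k := by
          funext k; abel
        rw [h4]; exact this
    have := (Measure.measurePreserving_swap.comp h3).comp
      (Measure.measurePreserving_swap (μ := η) (ν := μ))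
    exact this
  exact h2.comp h1

include hzm in
theorem sp_diff : MeasurePreserving (fun q : X × X => z q.2 - z q.1) (μ.prod μ) η :=
  measurePreserving_fst.comp (sp_shift_left hzm)

include hzm in
theorem sp_neg : MeasurePreserving (fun k : I → ZMod p => -k) η η := by
  refine ⟨measurable_neg, ?_⟩
  have h1 := (sp_diff hzm).map_eq
  have h2 := ((sp_diff hzm).comp (Measure.measurePreserving_swap (μ := μ) (ν := μ))).map_eq
  have hm := (sp_diff hzm).measurable
  conv_lhs => rw [← h1]
  rw [Measure.map_map measurable_neg hm, ← h2]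
  congr 1
  funext q
  simp

include hzm in
theorem sp_shift_right :
    MeasurePreserving (fun q : X × X => (z q.2 - z q.1, q.2)) (μ.prod μ) (η.prod μ) := by
  have h1 := (((sp_neg hzm).prod (MeasurePreserving.id μ)).comp (sp_shift_left hzm)).comp
    (Measure.measurePreserving_swap (μ := μ) (ν := μ))
  have h2 : (fun q : X × X => (z q.2 - z q.1, q.2)) =
      ((Prod.map (fun k : I → ZMod p => -k) id) ∘ fun q : X × X => (z q.2 - z q.1, q.1)) ∘
        Prod.swap := by
    funext q
    simp
  rw [h2]
  exact h1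

variable [StandardBorelSpace X] {κ : Kernel (I → ZMod p) (X × X)} [IsMarkovKernel κ]
  (hκ : IsPair μ z η κ)

include hzm hκ in
theorem sp_fst : ∀ᵐ s ∂η, MeasurePreserving Prod.fst (κ s) μ :=
  sp_law (sp_diff hzm).measurable hκ measurable_fst (sp_shift_left hzm).map_eq

include hzm hκ in
theorem sp_snd : ∀ᵐ s ∂η, MeasurePreserving Prod.snd (κ s) μ :=
  sp_law (sp_diff hzm).measurable hκ measurable_snd (sp_shift_right hzm).map_eq

end Pairs

section Pairs

variable (p : ℕ) [Fact p.Prime] {Γ : Type} [AddCommGroup Γ] [Countable Γ]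
  (hΓ : ∀ g : Γ, p • g = 0) {X : Type u} [MeasurableSpace X] [StandardBorelSpace X]
  {μ : Measure X} [IsProbabilityMeasure μ] {T : Γ → X → X} (hT : IsAction μ T)
  (hE : IsErgodic μ T) {I : Type} [Countable I] {η : Measure (I → ZMod p)}
  [IsProbabilityMeasure η] [η.IsAddLeftInvariant] {α : Γ → I → ZMod p} {z : X → I → ZMod p}
  (hz : Kron p μ T η α z) {κ : Kernel (I → ZMod p) (X × X)} [IsMarkovKernel κ]
  (hκ : IsPair μ z η κ)

include hΓ hT hE hz in
/-- invariant functions on the square are functions of the difference of the Kronecker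
coordinates -/
theorem sp_inv (H : X × X → ℂ) (hH : Measurable H) (hb : ∃ C : ℝ, ∀ y, ‖H y‖ ≤ C)
    (hinv : ∀ g, ∀ᵐ y ∂(μ.prod μ), H (pact T T g y) = H y) :
    Capt (μ.prod μ) (fun q : X × X => z q.2 - z q.1) H := by
  obtain ⟨h, hh, hHh⟩ := prod_inv p hΓ hT hE hz hT H hH hb hinv
  have hzm := hz.mp.measurable
  set G : (I → ZMod p) × X → ℂ := fun w => h (w.2, z w.2 + w.1) with hG
  have hGm : Measurable G :=
    hh.comp (measurable_snd.prodMk ((hzm.comp measurable_snd).add measurable_fst))
  have hHG : ∀ᵐ q ∂(μ.prod μ), H q = G (z q.2 - z q.1, q.1) := by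
    filter_upwards [hHh] with q hq
    rw [hq, hG]
    simp
  have hpa := sp_pact hT hT
  have h1 : ∀ g, ∀ᵐ w ∂(η.prod μ), G (w.1, T g w.2) = G w := by
    intro g
    have hms : MeasurableSet {w : (I → ZMod p) × X | G (w.1, T g w.2) = G w} :=
      measurableSet_eq_fun (hGm.comp (measurable_fst.prodMk
        ((hT.mp g).measurable.comp measurable_snd))) hGm
    rw [← (sp_shift_left hz.mp).map_eq, ae_map_iff (sp_shift_left hz.mp).measurable.aemeasurable
      hms]
    have h2 : ∀ᵐ q ∂(μ.prod μ), H (pact T T g q) =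
        G (z (pact T T g q).2 - z (pact T T g q).1, (pact T T g q).1) :=
      (hpa.mp g).quasiMeasurePreserving.ae hHG
    have h3 : ∀ᵐ q ∂(μ.prod μ), z (T g q.1) = z q.1 + α g :=
      Measure.quasiMeasurePreserving_fst.ae (hz.eqv g)
    have h4 : ∀ᵐ q ∂(μ.prod μ), z (T g q.2) = z q.2 + α g :=
      Measure.quasiMeasurePreserving_snd.ae (hz.eqv g)
    filter_upwards [h2, h3, h4, hinv g, hHG] with q a2 a3 a4 a5 a6
    simp only [pact] at a2 a5
    rw [a3, a4, add_sub_add_right_eq_sub] at a2
    show G (z q.2 - z q.1, T g q.1) = G (z q.2 - z q.1, q.1)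
    rw [← a2, a5, a6]
  have h5 : ∀ᵐ s ∂η, ∀ g, ∀ᵐ x ∂μ, G (s, T g x) = G (s, x) := by
    rw [ae_all_iff]
    intro g
    exact Measure.ae_ae_of_ae_prod (h1 g)
  have hγm : Measurable fun s => ∫ x, G (s, x) ∂μ :=
    (hGm.stronglyMeasurable.integral_prod_right' (ν := μ)).measurable
  have h6 : ∀ᵐ s ∂η, ∀ᵐ x ∂μ, G (s, x) = ∫ x, G (s, x) ∂μ := by
    filter_upwards [h5] with s hs
    obtain ⟨c, hc⟩ := IsErgodic.const hT hE (f := fun x => G (s, x))
      (hGm.comp (measurable_prodMk_left)) hs
    have : ∫ x, G (s, x) ∂μ = c := by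
      rw [integral_congr_ae hc]; simp
    rw [this]; exact hc
  have h7 : ∀ᵐ w ∂(η.prod μ), G w = ∫ x, G (w.1, x) ∂μ := by
    have hms : MeasurableSet {w : (I → ZMod p) × X | G w = ∫ x, G (w.1, x) ∂μ} :=
      measurableSet_eq_fun hGm (hγm.comp measurable_fst)
    rw [Measure.ae_prod_iff_ae_ae hms]
    exact h6
  refine ⟨fun s => ∫ x, G (s, x) ∂μ, hγm, ?_⟩
  have h8 := (sp_shift_left hz.mp).quasiMeasurePreserving.ae h7
  filter_upwards [hHG, h8] with q a b
  rw [a, b]

include hΓ hT hE hz hκ in
/-- basic properties of almost every ergodic component of `μ × μ` -/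
theorem pair_basic : ∀ᵐ s ∂η, IsAction (κ s) (pact T T) ∧ IsErgodic (κ s) (pact T T) ∧
    MeasurePreserving Prod.fst (κ s) μ ∧ MeasurePreserving Prod.snd (κ s) μ ∧
    ∀ᵐ q ∂(κ s), z q.2 = z q.1 + s := by
  obtain ⟨E, hEx⟩ := exists_exh p (Nat.Prime.pos Fact.out) Γ hΓ
  have hpa := sp_pact hT hT
  have hc : Measurable fun q : X × X => z q.2 - z q.1 := (sp_diff hz.mp).measurable
  have hcT : ∀ g, ∀ᵐ y ∂(μ.prod μ), z (pact T T g y).2 - z (pact T T g y).1 = z y.2 - z y.1 := by
    intro g
    have h3 : ∀ᵐ q ∂(μ.prod μ), z (T g q.1) = z q.1 + α g :=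
      Measure.quasiMeasurePreserving_fst.ae (hz.eqv g)
    have h4 : ∀ᵐ q ∂(μ.prod μ), z (T g q.2) = z q.2 + α g :=
      Measure.quasiMeasurePreserving_snd.ae (hz.eqv g)
    filter_upwards [h3, h4] with q a3 a4
    simp only [pact]
    rw [a3, a4, add_sub_add_right_eq_sub]
  have h1 := fiber_action hpa hc hcT hκ
  have h2 := fiber_inv hEx hpa hc hcT hκ (fun _ : X × X => ()) measurable_const (by
    intro H hH hb hi
    obtain ⟨f, hf, hHf⟩ := sp_inv p hΓ hT hE hz H hH hb hi
    exact ⟨fun w => f w.2, hf.comp measurable_snd, hHf⟩)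
  filter_upwards [h1, h2, sp_fst hz.mp hκ, sp_snd hz.mp hκ] with s a1 a2 a3 a4
  refine ⟨a1.1, ?_, a3, a4, ?_⟩
  · intro A hA hAi
    classical
    obtain ⟨f, hf, hAf⟩ := a2 (A.indicator fun _ => (1 : ℂ)) (measurable_const.indicator hA)
      ⟨1, fun y => by
        by_cases h : y ∈ A <;> simp [h]⟩ (by
        intro g
        refine Eventually.of_forall fun y => ?_
        have : (pact T T g y ∈ A) ↔ y ∈ A := by
          have h0 := hAi g
          constructor
          · intro h
            rw [← h0]; exact h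
          · intro h
            rw [← h0] at h; exact h
        by_cases h : y ∈ A
        · simp [h, this.2 h]
        · simp [h, mt this.1 h])
    by_cases h0 : f () = 1
    · right
      rw [measure_eq_zero_iff_ae_notMem]
      filter_upwards [hAf] with y hy
      intro hyA
      have : y ∉ A := hyA
      simp [this, h0] at hy
    · left
      rw [measure_eq_zero_iff_ae_notMem]
      filter_upwards [hAf] with y hy
      intro hyA
      simp only [hyA, Set.indicator_of_mem] at hy
      exact h0 hy.symm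
  · filter_upwards [a1.2] with q hq
    rw [← hq]; abel

variable {K : Type v} [MeasurableSpace K] [StandardBorelSpace K] {ν : Measure K}
  [IsProbabilityMeasure ν] {S : Γ → K → K} (hS : IsAction ν S) {y : X → K}
  (hy : MeasurePreserving y μ ν) (hyS : ∀ g, ∀ᵐ x ∂μ, y (T g x) = S g (y x))
  (hzy : Capt μ y z)

include hz hκ hy hzy in
theorem resample {Θ : K → unitInterval → X} (hΘm : Measurable (Function.uncurry Θ))
    (hΘ : MeasurePreserving (Function.uncurry Θ) (ν.prod volume) μ)
    (hyΘ : ∀ᵐ w ∂(ν.prod (volume : Measure unitInterval)), y (Θ w.1 w.2) = w.1) :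
    ∀ᵐ s ∂η,
      MeasurePreserving (fun w : (X × X) × unitInterval => (Θ (y w.1.1) w.2, w.1.2))
        ((κ s).prod volume) (κ s) ∧
      MeasurePreserving (fun w : (X × X) × unitInterval => (w.1.1, Θ (y w.1.2) w.2))
        ((κ s).prod volume) (κ s) := by
  have hzm := hz.mp
  have hc : Measurable fun q : X × X => z q.2 - z q.1 := (sp_diff hzm).measurable
  -- `z (Θ (y x) t) = z x`
  obtain ⟨ζ, hζ, hzζ⟩ := hzy
  have hyI : MeasurePreserving (fun w : X × unitInterval => (y w.1, w.2)) (μ.prod volume)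
      (ν.prod volume) := hy.prod (MeasurePreserving.id _)
  have hΘX : MeasurePreserving (fun w : X × unitInterval => Θ (y w.1) w.2) (μ.prod volume) μ :=
    hΘ.comp hyI
  have hzΘ : ∀ᵐ w ∂(μ.prod (volume : Measure unitInterval)), z (Θ (y w.1) w.2) = z w.1 := by
    have h1 := hΘX.quasiMeasurePreserving.ae hzζ
    have h2 := hyI.quasiMeasurePreserving.ae hyΘ
    have h3 := (Measure.quasiMeasurePreserving_fst (μ := μ)
      (ν := (volume : Measure unitInterval))).ae hzζ
    filter_upwards [h1, h2, h3] with w a1 a2 a3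
    rw [a1, a2, a3]
  have hdp := dis_prod (Y' := unitInterval) (ρ := volume) hc hκ
  have hker : ∀ s, (κ ×ₖ Kernel.const (I → ZMod p) (volume : Measure unitInterval)) s =
      (κ s).prod volume := by
    intro s
    rw [Kernel.prod_apply, Kernel.const_apply]
  have e1 : MeasurePreserving (fun w : (X × X) × unitInterval => ((w.1.1, w.2), w.1.2))
      ((μ.prod μ).prod volume) ((μ.prod volume).prod μ) := by
    have i1 := measurePreserving_prodAssoc μ μ (volume : Measure unitInterval)
    have i2 := (MeasurePreserving.id μ).prod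
      (Measure.measurePreserving_swap (μ := μ) (ν := (volume : Measure unitInterval)))
    have i3 := (measurePreserving_prodAssoc μ (volume : Measure unitInterval) μ).symm
    exact (i3.comp i2).comp i1
  have e2 : MeasurePreserving (fun w : (X × X) × unitInterval => (w.1.1, (w.1.2, w.2)))
      ((μ.prod μ).prod volume) (μ.prod (μ.prod volume)) :=
    measurePreserving_prodAssoc μ μ volume
  have f1 : MeasurePreserving (fun w : (X × X) × unitInterval => (Θ (y w.1.1) w.2, w.1.2))
      ((μ.prod μ).prod volume) (μ.prod μ) :=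
    (hΘX.prod (MeasurePreserving.id μ)).comp e1
  have f2 : MeasurePreserving (fun w : (X × X) × unitInterval => (w.1.1, Θ (y w.1.2) w.2))
      ((μ.prod μ).prod volume) (μ.prod μ) :=
    ((MeasurePreserving.id μ).prod hΘX).comp e2
  have g1 := dis_map (hc.comp measurable_fst) hc hdp hκ _ f1 (by
    have h1 := e1.quasiMeasurePreserving.ae
      ((Measure.quasiMeasurePreserving_fst (ν := μ)).ae hzΘ)
    filter_upwards [h1] with w a
    simp only [Function.comp, a])
  have g2 := dis_map (hc.comp measurable_fst) hc hdp hκ _ f2 (by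
    have h1 := e2.quasiMeasurePreserving.ae
      ((Measure.quasiMeasurePreserving_snd (μ := μ)).ae hzΘ)
    filter_upwards [h1] with w a
    simp only [Function.comp, a])
  filter_upwards [g1, g2] with s a1 a2
  rw [hker] at a1 a2
  exact ⟨a1, a2⟩

omit hy hzy in
theorem sp_integral_comp {A B : Type*} [MeasurableSpace A] [MeasurableSpace B] {M : Measure A}
    {M' : Measure B} {φ : A → B} (hφ : MeasurePreserving φ M M') {F : B → ℂ}
    (hF : Measurable F) : ∫ b, F b ∂M' = ∫ a, F (φ a) ∂M := by
  rw [← hφ.map_eq]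
  exact integral_map hφ.measurable.aemeasurable hF.aestronglyMeasurable

theorem sp_integrable {A : Type*} [MeasurableSpace A] {M : Measure A} [IsFiniteMeasure M]
    {F : A → ℂ} (hF : Measurable F) (hb : ∃ C : ℝ, ∀ a, ‖F a‖ ≤ C) : Integrable F M := by
  obtain ⟨C, hC⟩ := hb
  exact Integrable.of_bound hF.aestronglyMeasurable C (Eventually.of_forall hC)

include hz hκ hy hzy in
/-- a function orthogonal to the factor `y` gives a function on pairs orthogonal to `y × y` -/
theorem pair_orth (f : X → ℂ) (hf : Measurable f) (hb : ∃ C : ℝ, ∀ x, ‖f x‖ ≤ C)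
    (hf0 : ∀ h : K → ℂ, Measurable h → (∃ C : ℝ, ∀ k, ‖h k‖ ≤ C) →
      ∫ x, f x * h (y x) ∂μ = 0) :
    ∀ᵐ s ∂η, ∀ h : K × K → ℂ, Measurable h → (∃ C : ℝ, ∀ k, ‖h k‖ ≤ C) →
      ∫ q, (f q.1 * (starRingEnd ℂ) (f q.2)) * h (y q.1, y q.2) ∂(κ s) = 0 := by
  obtain ⟨Θ, hΘm, hΘ, hyΘ⟩ := exists_theta hy
  obtain ⟨C, hC⟩ := hb
  have hC0 : 0 ≤ C := by
    have : Nonempty X := μ.nonempty_of_neZero
    exact (norm_nonneg _).trans (hC this.some)
  have hfΘ : Measurable fun w : K × unitInterval => f (Θ w.1 w.2) := hf.comp hΘm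
  set m : K → ℂ := fun k => ∫ t, f (Θ k t) with hm
  have hmm : Measurable m := (hfΘ.stronglyMeasurable.integral_prod_right').measurable
  have hmb : ∀ k, ‖m k‖ ≤ C := by
    intro k
    have := norm_integral_le_of_norm_le_const (μ := (volume : Measure unitInterval))
      (f := fun t => f (Θ k t)) (C := C) (Eventually.of_forall fun t => hC _)
    simpa using this
  have hconj : Measurable fun z : ℂ => (starRingEnd ℂ) z := Complex.continuous_conj.measurable
  have hm0 : ∀ᵐ k ∂ν, m k = 0 := by
    have h1 := hf0 (fun k => (starRingEnd ℂ) (m k)) (hconj.comp hmm)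
      ⟨C, fun k => by rw [RCLike.norm_conj]; exact hmb k⟩
    rw [sp_integral_comp hΘ (F := fun x => f x * (starRingEnd ℂ) (m (y x)))
      (hf.mul (hconj.comp (hmm.comp hy.measurable)))] at h1
    have h2 : ∫ w, f (Function.uncurry Θ w) * (starRingEnd ℂ) (m (y (Function.uncurry Θ w)))
        ∂(ν.prod (volume : Measure unitInterval)) =
        ∫ w, f (Θ w.1 w.2) * (starRingEnd ℂ) (m w.1)
          ∂(ν.prod (volume : Measure unitInterval)) := by
      refine integral_congr_ae ?_
      filter_upwards [hyΘ] with w hw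
      simp only [Function.uncurry_def, hw]
    have hi : Integrable (fun w : K × unitInterval => f (Θ w.1 w.2) * (starRingEnd ℂ) (m w.1))
        (ν.prod volume) := sp_integrable (hfΘ.mul (hconj.comp (hmm.comp measurable_fst)))
      ⟨C * C, fun w => by
        show ‖f (Θ w.1 w.2) * (starRingEnd ℂ) (m w.1)‖ ≤ C * C
        rw [norm_mul, RCLike.norm_conj]
        exact mul_le_mul (hC _) (hmb _) (norm_nonneg _) hC0⟩
    rw [h2, integral_prod _ hi] at h1
    have h3 : ∀ k, ∫ t, f (Θ k t) * (starRingEnd ℂ) (m k) = ((‖m k‖ ^ 2 : ℝ) : ℂ) := by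
      intro k
      rw [integral_mul_const]
      have : m k * (starRingEnd ℂ) (m k) = ((‖m k‖ ^ 2 : ℝ) : ℂ) := by
        rw [RCLike.mul_conj]; push_cast; rfl
      exact this
    simp only [h3] at h1
    rw [integral_complex_ofReal] at h1
    have h4 : ∫ k, ‖m k‖ ^ 2 ∂ν = 0 := by exact_mod_cast h1
    rw [integral_eq_zero_iff_of_nonneg (fun k => by positivity) (by
      refine Integrable.of_bound ((hmm.norm.pow_const 2).aestronglyMeasurable) (C ^ 2)
        (Eventually.of_forall fun k => ?_)
      rw [Real.norm_of_nonneg (by positivity)]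
      have := hmb k
      gcongr)] at h4
    filter_upwards [h4] with k hk
    simpa using hk
  have hyΘ' : ∀ᵐ k ∂ν, ∀ᵐ t ∂(volume : Measure unitInterval), y (Θ k t) = k :=
    Measure.ae_ae_of_ae_prod hyΘ
  filter_upwards [resample p hz hκ hy hzy hΘm hΘ hyΘ, sp_fst hz.mp hκ] with s hs hfst
  intro h hh hbh
  obtain ⟨C', hC'⟩ := hbh
  have hF : Measurable fun q : X × X =>
      (f q.1 * (starRingEnd ℂ) (f q.2)) * h (y q.1, y q.2) :=
    ((hf.comp measurable_fst).mul (hconj.comp (hf.comp measurable_snd))).mul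
      (hh.comp ((hy.measurable.comp measurable_fst).prodMk (hy.measurable.comp measurable_snd)))
  have hi : Integrable (fun w : (X × X) × unitInterval =>
      (f (Θ (y w.1.1) w.2) * (starRingEnd ℂ) (f w.1.2)) * h (y (Θ (y w.1.1) w.2), y w.1.2))
      ((κ s).prod volume) := sp_integrable (hF.comp hs.1.measurable)
      ⟨C * C * C', fun w => by
        simp only [norm_mul, RCLike.norm_conj]
        exact mul_le_mul (mul_le_mul (hC _) (hC _) (norm_nonneg _) hC0) (hC' _) (norm_nonneg _)
          (by positivity)⟩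
  rw [sp_integral_comp hs.1 hF, integral_prod _ hi]
  refine integral_eq_zero_of_ae ?_
  have hyf : MeasurePreserving (fun q : X × X => y q.1) (κ s) ν := hy.comp hfst
  filter_upwards [hyf.quasiMeasurePreserving.ae hyΘ', hyf.quasiMeasurePreserving.ae hm0]
    with q a1 a2
  have h5 : ∫ t, f (Θ (y q.1) t) * (starRingEnd ℂ) (f q.2) * h (y (Θ (y q.1) t), y q.2) =
      ∫ t, f (Θ (y q.1) t) * ((starRingEnd ℂ) (f q.2) * h (y q.1, y q.2)) := by
    refine integral_congr_ae ?_
    filter_upwards [a1] with t ht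
    rw [ht, mul_assoc]
  show ∫ t, f (Θ (y q.1) t) * (starRingEnd ℂ) (f q.2) * h (y (Θ (y q.1) t), y q.2) = 0
  rw [h5, integral_mul_const]
  have : ∫ t, f (Θ (y q.1) t) = 0 := a2
  rw [this, zero_mul]

end Pairs

end Pool.Agent.FpTrans
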